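import Pool.Agent.P.MP_caa3d2_al.Inj

/-!
Averaging over cells with the same boundary.
-/

set_option autoImplicit false

open scoped InnerProductSpace

noncomputable section

namespace Pool.Agent.P.MP_caa3d2_al

variable {Ce Ed : Type} {ed : Ce → ℕ → Ed} {hed : ∀ p, Function.Injective fun c => ed c p}
  {σ : ℕ → Bool} {L : ℕ}

theorem per_mul {X : Type} {f : ℕ → X} (h : ∀ p, f (p + L) = f p) (q k : ℕ) :
    f (q + L * k) = f q := by
  induction k with
  | zero => rfl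
  | succ k ih => rw [Nat.mul_succ, ← Nat.add_assoc, h, ih]

theorem Eqc.trans {c c' c'' : Ce} (h : Eqc ed σ c c') (h' : Eqc ed σ c' c'') : Eqc ed σ c c'' := by
  obtain ⟨k, hk⟩ := h
  obtain ⟨k', hk'⟩ := h'
  exact ⟨k' + k, fun q => ⟨by rw [(hk' q).1, (hk _).1, Nat.add_assoc], by
    rw [← Nat.add_assoc, (hk _).2, (hk' q).2]⟩⟩

theorem Eqc.symm (hL : 0 < L) (hσ : ∀ p, σ (p + L) = σ p) {c c' : Ce}
    (hc : ∀ p, ed c (p + L) = ed c p) (h : Eqc ed σ c c') : Eqc ed σ c' c := by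
  obtain ⟨k, hk⟩ := h
  have : k ≤ L * k := Nat.le_mul_of_pos_left _ hL
  refine ⟨L * k - k, fun q => ⟨?_, ?_⟩⟩
  · rw [(hk _).1, ← per_mul hc q k]; congr 1; omega
  · rw [← (hk _).2, ← per_mul hσ q k]; congr 1; omega

theorem sum_shift {V : Type} [AddCommGroup V] {f : ℕ → V} (h : ∀ p, f (p + L) = f p) (k : ℕ) :
    ∑ p ∈ Finset.range L, f (p + k) = ∑ p ∈ Finset.range L, f p := by
  induction k with
  | zero => rfl
  | succ k ih =>
    have h1 := Finset.sum_range_succ (fun p => f (p + k)) L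
    have h2 := Finset.sum_range_succ' (fun p => f (p + k)) L
    rw [h1, Nat.add_comm L k, h, Nat.zero_add, add_left_inj, ih] at h2
    rw [h2]
    exact Finset.sum_congr rfl fun p _ => by rw [Nat.add_assoc, Nat.add_comm 1 k]

theorem Eqc.bd (hσ : ∀ p, σ (p + L) = σ p) {c c' : Ce}
    (hc : ∀ p, ed c (p + L) = ed c p) (h : Eqc ed σ c c') :
    bdP ed hed σ (Finset.range L) (dl c') = bdP ed hed σ (Finset.range L) (dl c) := by
  obtain ⟨k, hk⟩ := h
  rw [bdP_dl, bdP_dl, ← sum_shift (f := fun p => sn (σ p) • dl (ed c p))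
    (fun p => by simp only [hσ, hc]) k]
  exact Finset.sum_congr rfl fun p _ => by rw [(hk p).1, (hk p).2]

theorem exists_av (hed : ∀ p, Function.Injective fun c => ed c p) (hL : 0 < L)
    (hσ : ∀ p, σ (p + L) = σ p) {C : Set Ce} (hC : ∀ c ∈ C, ∀ p, ed c (p + L) = ed c p) {c : Ce}
    (hc : c ∈ C) : ∃ v : Ce →₀ ℝ, toL2 v ∈ Zc ed σ C ∧ prj (Zc ed σ C) (dl c) = toL2 v ∧
      (∀ c', v c' ≠ 0 → c' ∈ C ∧ Eqc ed σ c c') ∧
      bdP ed hed σ (Finset.range L) (toL2 v) = bdP ed hed σ (Finset.range L) (dl c) ∧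
      ∃ n : ℕ, (L.factorial : ℝ) * v c = n := by
  classical
  have hm : ∀ c' ∈ {c' | c' ∈ C ∧ Eqc ed σ c c'}, ed c' 0 ∈ (Finset.range L).image (ed c) := by
    rintro c' ⟨-, k, hk⟩
    refine Finset.mem_image.2 ⟨k % L, Finset.mem_range.2 (Nat.mod_lt _ hL), ?_⟩
    rw [(hk 0).1, Nat.zero_add, ← per_mul (hC c hc) (k % L) (k / L), Nat.mod_add_div]
  have hf : {c' | c' ∈ C ∧ Eqc ed σ c c'}.Finite :=
    Set.Finite.of_injOn (f := fun c' => ed c' 0) hm (hed 0).injOn (Finset.finite_toSet _)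
  set S := hf.toFinset with hS
  have hS' : ∀ c', c' ∈ S ↔ c' ∈ C ∧ Eqc ed σ c c' := fun c' => hf.mem_toFinset
  have hcS : c ∈ S := (hS' c).2 ⟨hc, 0, fun _ => ⟨rfl, rfl⟩⟩
  have h1 : 0 < S.card := Finset.card_pos.2 ⟨c, hcS⟩
  have h1' : (S.card : ℝ) ≠ 0 := by positivity
  have h2 : S.card ≤ L := by
    refine (Finset.card_le_card_of_injOn (fun c' => ed c' 0) (fun c' hc' => hm c' ((hS' c').1 hc'))
      (hed 0).injOn).trans (Finset.card_image_le.trans ?_)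
    simp
  let v : Ce →₀ ℝ := ∑ c' ∈ S, Finsupp.single c' (S.card : ℝ)⁻¹
  have hv : ∀ x, v x = if x ∈ S then (S.card : ℝ)⁻¹ else 0 := fun x => by
    simp [v, Finsupp.finsetSum_apply, Finsupp.single_apply]
  have hv' : toL2 v = ∑ c' ∈ S, (S.card : ℝ)⁻¹ • dl c' := by simp [v]
  have hZ : toL2 v ∈ Zc ed σ C := ⟨fun x hx => by
      rw [toL2_apply, hv, if_neg fun e => hx ((hS' x).1 e).1], fun x hx y hy e => by
      have : x ∈ S ↔ y ∈ S := by
        rw [hS', hS']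
        exact ⟨fun h => ⟨hy, h.2.trans e⟩, fun h => ⟨hx, h.2.trans (e.symm hL hσ (hC x hx))⟩⟩
      simp only [toL2_apply, hv, this]⟩
  refine ⟨v, hZ, prj_unique (le_cl _ hZ) fun z hz => ?_, fun c' h => ?_, ?_, ?_⟩
  · rw [inner_sub_left, hv', sum_inner, inner_dl, Finset.sum_congr rfl
      (g := fun _ => (S.card : ℝ)⁻¹ * z c) fun c' hc' => by
        rw [real_inner_smul_left, inner_dl, hz.2 c hc c' ((hS' c').1 hc').1 ((hS' c').1 hc').2]]
    simp [h1']
  · rw [hv] at h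
    exact (hS' c').1 (by by_contra e; exact h (if_neg e))
  · rw [hv', map_sum, Finset.sum_congr rfl
      (g := fun _ => (S.card : ℝ)⁻¹ • bdP ed hed σ (Finset.range L) (dl c)) fun c' hc' => by
        rw [map_smul, ((hS' c').1 hc').2.bd hσ (hC c hc)]]
    rw [Finset.sum_const, ← Nat.cast_smul_eq_nsmul ℝ, smul_smul, mul_inv_cancel₀ h1', one_smul]
  · obtain ⟨n, hn⟩ := Nat.dvd_factorial h1 h2
    refine ⟨n, ?_⟩
    rw [hv, if_pos hcS, hn]; push_cast; field_simp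

end Pool.Agent.P.MP_caa3d2_al
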