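import Pool.Agent.P.MP_caa3d2_al.Dich

/-!
The terminal case of the hierarchy.
-/

set_option autoImplicit false

namespace Pool.Agent.P.MP_caa3d2_al

open FreeGroup hiding map_mul map_one map_inv

variable {E B : Type}

/-- All rotations of the boundary words of the cells. -/
def Rel (L : ℕ) (Cs : Set (ℕ → E × Bool)) : Set (Wd E) := {w | ∃ c ∈ Cs, ∃ p, w = seg c p L}

theorem rel_length {L : ℕ} {Cs : Set (ℕ → E × Bool)} : ∀ x ∈ Rel L Cs, x.length ≤ L := by
  rintro _ ⟨c, _, p, rfl⟩; simp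

/-- A family of cells whose boundaries are labelled by `s`, with deterministic continuation. -/
structure Cx (L : ℕ) (s : ℕ → B × Bool) (lab : E → B) (Cs : Set (ℕ → E × Bool)) : Prop where
  per : ∀ c ∈ Cs, Per L c
  fst : ∀ c ∈ Cs, ∀ p, lab (c p).1 = (s p).1
  snd : ∀ c ∈ Cs, ∀ p, (c p).2 = (s p).2
  det : ∀ c ∈ Cs, ∀ c' ∈ Cs, ∀ p p', c p = c' p' → s (p + 1) = s (p' + 1) →
    c (p + 1) = c' (p' + 1)

/-- No cell is a proper power. -/
def NW (L : ℕ) (Cs : Set (ℕ → E × Bool)) : Prop :=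
  ∀ c ∈ Cs, ∀ k, 0 < k → k < L → ¬ ∀ q, c (q + k) = c q

/-- An edge determines the future. -/
def Uq (Cs : Set (ℕ → E × Bool)) : Prop :=
  ∀ c ∈ Cs, ∀ c' ∈ Cs, ∀ p p', (c p).1 = (c' p').1 → ∀ k, c (p + k) = c' (p' + k)

theorem Cx.uq {L : ℕ} {s : ℕ → B × Bool} {lab : E → B} {Cs : Set (ℕ → E × Bool)}
    (h : Cx L s lab Cs) (hb : Base s) : Uq Cs := by
  intro c hc c' hc' p p' he k
  have h1 := hb p p' (by rw [← h.fst c hc, ← h.fst c' hc', he])
  induction k with
  | zero =>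
    refine Prod.ext he ?_
    rw [h.snd c hc, h.snd c' hc']
    exact congrArg Prod.snd (h1 0)
  | succ k ih => exact h.det c hc c' hc' _ _ ih (h1 (k + 1))

theorem sg_sg {G : Type*} [Group G] (y : G) (b : Bool) : sg (sg y b) b = y := by
  cases b <;> simp [sg]

theorem Per.reach {L : ℕ} (hL : 0 < L) {c : ℕ → E × Bool} (h : Per L c) (p q : ℕ) :
    ∃ k, ∀ j, c (p + k + j) = c (q + j) := by
  have : p ≤ L * p := Nat.le_mul_of_pos_left _ hL
  refine ⟨q + L * p - p, fun j => ?_⟩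
  rw [show p + (q + L * p - p) + j = q + j + L * p by omega, h.mul]

theorem exists_retract {L : ℕ} (hL : 0 < L) {Cs : Set (ℕ → E × Bool)} (hP : ∀ c ∈ Cs, Per L c)
    (hU : Uq Cs) (X : E → Prop) (hX : ∀ c ∈ Cs, ∃ p, X (c p).1) :
    ∃ ρ : E → FreeGroup E, (∀ e, ¬ X e → ρ e = FreeGroup.of e) ∧
      (∀ w ∈ Rel L Cs, FreeGroup.lift ρ (mk w) = 1) ∧
      (∀ c ∈ Cs, ∀ p n, X (c p).1 → X (c (p + 1 + n)).1 → (∀ q < n, ¬ X (c (p + 1 + q)).1) →
        sg (ρ (c p).1) (c p).2 = (mk (seg c (p + 1) n))⁻¹) := by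
  classical
  let d : (ℕ → E × Bool) → ℕ → ℕ := fun c p => sInf {n | X (c (p + n)).1}
  let g : (ℕ → E × Bool) → ℕ → FreeGroup E := fun c p => mk (seg c p (d c p))
  have hne : ∀ c ∈ Cs, ∀ p, {n | X (c (p + n)).1}.Nonempty := by
    intro c hc p
    obtain ⟨q, hq⟩ := hX c hc
    obtain ⟨k, hk⟩ := (hP c hc).reach hL p q
    refine ⟨k, ?_⟩
    have := hk 0
    simp only [Nat.add_zero] at this
    show X (c (p + k)).1
    rw [this]; exact hq
  have hd : ∀ c ∈ Cs, ∀ p n, X (c (p + n)).1 → (∀ q < n, ¬ X (c (p + q)).1) → d c p = n := by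
    intro c hc p n h1 h2
    apply le_antisymm (Nat.sInf_le h1)
    by_contra hlt
    exact h2 _ (not_le.1 hlt) (Nat.sInf_mem (hne c hc p))
  have gcongr : ∀ c c' p p', (∀ k, c (p + k) = c' (p' + k)) → g c p = g c' p' := by
    intro c c' p p' h
    have : d c p = d c' p' := by simp only [d, h]
    simp only [g, this]
    exact congrArg _ (seg_congr fun q _ => h q)
  have g0 : ∀ c ∈ Cs, ∀ p, X (c p).1 → g c p = 1 := by
    intro c hc p h
    simp only [g, hd c hc p 0 h (by simp)]; rfl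
  have g1 : ∀ c ∈ Cs, ∀ p, ¬ X (c p).1 →
      g c p = sg (FreeGroup.of (c p).1) (c p).2 * g c (p + 1) := by
    intro c hc p h
    have : d c p = d c (p + 1) + 1 := by
      apply hd c hc
      · have := Nat.sInf_mem (hne c hc (p + 1))
        rw [show p + (d c (p + 1) + 1) = p + 1 + d c (p + 1) by omega]; exact this
      · intro q hq
        rcases q with _ | q
        · exact h
        · rw [show p + (q + 1) = p + 1 + q by omega]
          exact Nat.notMem_of_lt_sInf (show q < sInf {n | X (c (p + 1 + n)).1} by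
            simp only [d] at hq; omega)
    simp only [g, this, seg_succ', mk_cons]
  let ρ : E → FreeGroup E := fun e =>
    if X e then
      (if h : ∃ y : (ℕ → E × Bool) × ℕ, y.1 ∈ Cs ∧ (y.1 y.2).1 = e then
        sg (g h.choose.1 (h.choose.2 + 1))⁻¹ (h.choose.1 h.choose.2).2 else 1)
    else FreeGroup.of e
  have hρ : ∀ c ∈ Cs, ∀ p, X (c p).1 → sg (ρ (c p).1) (c p).2 = (g c (p + 1))⁻¹ := by
    intro c hc p h
    have h1 : ∃ y : (ℕ → E × Bool) × ℕ, y.1 ∈ Cs ∧ (y.1 y.2).1 = (c p).1 := ⟨(c, p), hc, rfl⟩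
    simp only [ρ, if_pos h, dif_pos h1]
    have h2 := hU _ h1.choose_spec.1 c hc _ _ h1.choose_spec.2
    have h3 := h2 0
    simp only [Nat.add_zero] at h3
    rw [h3, sg_sg, gcongr _ c _ (p + 1) fun k => by
      have := h2 (1 + k); rwa [← Nat.add_assoc, ← Nat.add_assoc] at this]
  have tel : ∀ c ∈ Cs, ∀ p n, FreeGroup.lift ρ (mk (seg c p n)) = g c p * (g c (p + n))⁻¹ := by
    intro c hc p n
    induction n with
    | zero => simp [← one_eq_mk]
    | succ n ih =>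
      rw [seg_succ, ← mul_mk, map_mul, ih, mk_single, map_sg, lift_apply_of]
      by_cases h : X (c (p + n)).1
      · rw [hρ c hc _ h, g0 c hc _ h]; simp [Nat.add_assoc]
      · rw [g1 c hc _ h]; simp [ρ, h, Nat.add_assoc, mul_assoc]
  refine ⟨ρ, fun e he => by simp [ρ, he], ?_, ?_⟩
  · rintro _ ⟨c, hc, p, rfl⟩
    rw [tel c hc, gcongr c c (p + L) p fun k => by
      rw [show p + L + k = p + k + L by omega, hP c hc]]
    simp
  · intro c hc p n h1 h2 h3
    rw [hρ c hc p h1]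
    simp only [g, hd c hc (p + 1) n h2 h3]

theorem exists_dist {L : ℕ} (hL : 0 < L) {Cs : Set (ℕ → E × Bool)} (hP : ∀ c ∈ Cs, Per L c)
    (hU : Uq Cs) (hN : NW L Cs) (X : E → Prop) (hX : ∀ c ∈ Cs, ∃ p, X (c p).1) :
    ∃ X' : E → Prop, (∀ e, X' e → X e) ∧ (∀ c ∈ Cs, ∃ p, X' (c p).1) ∧
      (∀ e, X' e → ∃ c ∈ Cs, ∃ p, (c p).1 = e) ∧
      (∀ c ∈ Cs, ∀ p k, 0 < k → k < L → X' (c p).1 → ¬ X' (c (p + k)).1) := by
  let T := {e : E // X e ∧ ∃ c ∈ Cs, ∃ p, (c p).1 = e}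
  have tr : ∀ c ∈ Cs, ∀ c' ∈ Cs, ∀ p q q', (c p).1 = (c' q).1 → ∃ k, c (p + k) = c' q' := by
    intro c hc c' hc' p q q' h
    obtain ⟨k, hk⟩ := (hP c' hc').reach hL q q'
    exact ⟨k, by rw [hU c hc c' hc' p q h k]; exact hk 0⟩
  let St : Setoid T :=
    { r := fun e e' => ∃ c ∈ Cs, ∃ p p', (c p).1 = e.1 ∧ (c p').1 = e'.1
      iseqv :=
        { refl := fun e => by
            obtain ⟨c, hc, p, hp⟩ := e.2.2
            exact ⟨c, hc, p, p, hp, hp⟩
          symm := fun ⟨c, hc, p, p', h1, h2⟩ => ⟨c, hc, p', p, h2, h1⟩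
          trans := fun ⟨c, hc, p, p', h1, h2⟩ ⟨c', hc', q, q', h3, h4⟩ => by
            obtain ⟨k, hk⟩ := tr c hc c' hc' p' q q' (h2.trans h3.symm)
            exact ⟨c, hc, p, p' + k, h1, by rw [hk, h4]⟩ } }
  refine ⟨fun e => ∃ t : T, (Quotient.mk St t).out.1 = e, ?_, ?_, ?_, ?_⟩
  · rintro _ ⟨t, rfl⟩; exact (Quotient.mk St t).out.2.1
  · intro c hc
    obtain ⟨p, hp⟩ := hX c hc
    let t : T := ⟨(c p).1, hp, c, hc, p, rfl⟩
    obtain ⟨c', hc', q, q', h1, h2⟩ : St.r (Quotient.mk St t).out t := Quotient.mk_out t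
    obtain ⟨k, hk⟩ := tr c hc c' hc' p q' q h2.symm
    exact ⟨p + k, t, by rw [hk, h1]⟩
  · rintro _ ⟨t, rfl⟩; exact (Quotient.mk St t).out.2.2
  · rintro c hc p k h0 h1 ⟨t, ht⟩ ⟨t', ht'⟩
    have h2 : St.r (Quotient.mk St t).out (Quotient.mk St t').out :=
      ⟨c, hc, p, p + k, ht.symm, ht'.symm⟩
    have h3 : Quotient.mk St t = Quotient.mk St t' := by
      rw [← Quotient.out_eq (Quotient.mk St t), ← Quotient.out_eq (Quotient.mk St t')]
      exact Quotient.sound h2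
    have h4 : (c (p + k)).1 = (c p).1 := by rw [← ht, ← ht', h3]
    have h5 := hU c hc c hc _ _ h4
    apply hN c hc k h0 h1
    intro q
    obtain ⟨j, hj⟩ := (hP c hc).reach hL p q
    rw [← hj k, ← Nat.add_zero q, ← hj 0, Nat.add_zero, ← h5 j]
    congr 1; omega

/-- The free subgroup statement. -/
def FS (R : Set (Wd E)) (S : Set E) : Prop :=
  ∀ g ∈ Subgroup.closure (FreeGroup.of '' S), pm R g = 1 → g = 1

/-- The bounded membership statement. -/
def QS (R : Set (Wd E)) (S : Set E) (f : ℕ → ℕ) : Prop :=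
  ∀ S' ⊆ S, ∀ n w u, w.length ≤ n → Over S' u → pm R (mk w) = pm R (mk u) →
    ∃ v, Over S' v ∧ Der R (f n) w v

theorem lift_eq_self {ρ : E → FreeGroup E} {S : Set E} (h : ∀ e ∈ S, ρ e = FreeGroup.of e)
    {g : FreeGroup E} (hg : g ∈ Subgroup.closure (FreeGroup.of '' S)) :
    FreeGroup.lift ρ g = g := by
  induction hg using Subgroup.closure_induction with
  | mem x hx => obtain ⟨e, he, rfl⟩ := hx; rw [lift_apply_of, h e he]
  | one => simp
  | mul x y _ _ hx hy => rw [map_mul, hx, hy]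
  | inv x _ hx => rw [map_inv, hx]

theorem base_fs {L : ℕ} (hL : 0 < L) {s : ℕ → B × Bool} {lab : E → B}
    {Cs : Set (ℕ → E × Bool)} (h : Cx L s lab Cs) (hb : Base s) {ε : B} (hε : ε ∈ lets s) :
    FS (Rel L Cs) {e | lab e ≠ ε} := by
  obtain ⟨p, hp⟩ := hε
  obtain ⟨ρ, h1, h2, -⟩ := exists_retract hL h.per (h.uq hb) (fun e => lab e = ε)
    fun c hc => ⟨p, (h.fst c hc p).trans hp⟩
  obtain ⟨G, hG⟩ := exists_lift (R := Rel L Cs) (FreeGroup.lift ρ) h2
  intro g hg h3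
  rw [← lift_eq_self (ρ := ρ) (fun e he => h1 e he) hg, ← hG, h3, map_one]

theorem base_qs {L : ℕ} (hL : 0 < L) {s : ℕ → B × Bool} {lab : E → B}
    {Cs : Set (ℕ → E × Bool)} (h : Cx L s lab Cs) (hb : Base s) {ε : B} (hε : ε ∈ lets s)
    (hN : NW L Cs) : QS (Rel L Cs) {e | lab e ≠ ε} (fun n => 2 * L * n) := by
  classical
  obtain ⟨p, hp⟩ := hε
  obtain ⟨X, hX1, hX2, hX3, hX4⟩ := exists_dist hL h.per (h.uq hb) hN (fun e => lab e = ε)
    fun c hc => ⟨p, (h.fst c hc p).trans hp⟩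
  obtain ⟨ρ, h1, h2, h3⟩ := exists_retract hL h.per (h.uq hb) X hX2
  obtain ⟨G, hG⟩ := exists_lift (R := Rel L Cs) (FreeGroup.lift ρ) h2
  have key : ∀ x : E × Bool, ∃ y : Wd E, y.length ≤ L ∧ Der (Rel L Cs) L [x] y ∧
      mk y = FreeGroup.lift ρ (mk [x]) := by
    intro x
    by_cases hx : X x.1
    · obtain ⟨c, hc, q, hq⟩ := hX3 _ hx
      obtain ⟨n, rfl⟩ : ∃ n, L = n + 1 := ⟨L - 1, by omega⟩
      have e1 : Der (Rel (n + 1) Cs) (n + 1) [c q] (invRev (seg c (q + 1) n)) := by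
        have a1 := (Der.cancel (R := Rel (n + 1) Cs) (seg c (q + 1) n)).symm.ctx [c q] []
        have a2 : Mv (Rel (n + 1) Cs) ([c q] ++ (seg c (q + 1) n ++ invRev (seg c (q + 1) n)) ++ [])
            (invRev (seg c (q + 1) n)) :=
          ⟨[], seg c q (n + 1), invRev (seg c (q + 1) n), Or.inr (Or.inl ⟨c, hc, q, rfl⟩),
            Or.inr ⟨by simp [seg_succ'], rfl⟩⟩
        simpa using a1.trans (Der.single a2)
      have e2 : mk (invRev (seg c (q + 1) n)) = FreeGroup.lift ρ (mk [c q]) := by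
        rw [← inv_mk, mk_single, map_sg, lift_apply_of]
        refine (h3 c hc q n (hq ▸ hx) ?_ ?_).symm
        · rw [show q + 1 + n = q + (n + 1) by omega, h.per c hc, hq]; exact hx
        · intro j hj
          rw [show q + 1 + j = q + (j + 1) by omega]
          exact hX4 c hc q (j + 1) (by omega) (by omega) (hq ▸ hx)
      by_cases hb : x.2 = (c q).2
      · have : x = c q := Prod.ext hq.symm hb
        rw [this]
        exact ⟨_, by simp, e1, e2⟩
      · have : [x] = invRev [c q] := by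
          simp only [invRev, List.map_cons, List.map_nil, List.reverse_cons, List.reverse_nil,
            List.nil_append, List.cons.injEq, and_true]
          refine Prod.ext hq.symm ?_
          revert hb; cases x.2 <;> cases (c q).2 <;> simp
        rw [this]
        refine ⟨_, by simp, e1.invRev, ?_⟩
        rw [← inv_mk, e2, ← inv_mk, map_inv]
    · refine ⟨[x], hL, Der.refl _ _, ?_⟩
      rw [mk_single, map_sg, lift_apply_of, h1 _ hx]
  choose σ hσ1 hσ2 hσ3 using key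
  intro S' hS' n w u hn hu he
  have a1 := Der.flatMap (R := Rel L Cs) σ w fun x _ => hσ2 x
  have a2 : ∀ w : Wd E, mk (w.flatMap σ) = FreeGroup.lift ρ (mk w) ∧
      (w.flatMap σ).length ≤ L * w.length := by
    intro w
    induction w with
    | nil => simp [← one_eq_mk]
    | cons x w ih =>
      constructor
      · rw [List.flatMap_cons, ← mul_mk, ih.1, hσ3, ← map_mul, mul_mk]; rfl
      · have := hσ1 x
        rw [List.flatMap_cons, List.length_append, List.length_cons, Nat.mul_succ]; omega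
  have a3 : mk (w.flatMap σ) = mk u := by
    rw [(a2 w).1, ← hG, he, hG]
    exact lift_eq_self (fun e he => h1 e fun hx => hS' he (hX1 e hx)) (mk_mem_closure hu)
  obtain ⟨v, hv, a4⟩ := der_of_mk_eq (R := Rel L Cs) hu a3
  refine ⟨v, hv, (a1.trans a4).mono ?_⟩
  have := (a2 w).2
  have := Nat.mul_le_mul_left L hn
  show _ ≤ 2 * L * n
  rw [Nat.mul_assoc]; omega

end Pool.Agent.P.MP_caa3d2_al
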