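import Pool.Agent.P.MP_caa3d2_al.Tree

/-!
Cells in a quotient of the Cayley tree.
-/

set_option autoImplicit false

namespace Pool.Agent.P.MP_caa3d2_al

open FreeGroup hiding map_mul map_one map_inv

variable {A : Type}

/-- Right cosets. -/
abbrev Vx (N : Subgroup (FreeGroup A)) : Type := Quotient (QuotientGroup.rightRel N)

/-- The coset of an element. -/
def mkV (N : Subgroup (FreeGroup A)) (g : FreeGroup A) : Vx N := Quotient.mk _ g

variable {N : Subgroup (FreeGroup A)} {L : ℕ} {s : ℕ → A × Bool}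

theorem mkV_eq {g g' : FreeGroup A} : mkV N g = mkV N g' ↔ g' * g⁻¹ ∈ N := by
  rw [mkV, mkV, Quotient.eq, QuotientGroup.rightRel_apply]

theorem mkV_mul {n : FreeGroup A} (hn : n ∈ N) (g : FreeGroup A) : mkV N (n * g) = mkV N g :=
  mkV_eq.2 (by simpa using hn)

theorem mkV_right {g g' : FreeGroup A} (h : mkV N g = mkV N g') (y : FreeGroup A) :
    mkV N (g * y) = mkV N (g' * y) := by
  rw [mkV_eq] at h ⊢; simpa [mul_assoc] using h

theorem mkV_surj (v : Vx N) : ∃ g, mkV N g = v := Quotient.exists_rep v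

theorem exists_of_mkV {g g' : FreeGroup A} (h : mkV N g = mkV N g') : ∃ n ∈ N, g' = n * g :=
  ⟨g' * g⁻¹, mkV_eq.1 h, by simp⟩

/-- The boundary path of the cell based at `g`. -/
def cs (N : Subgroup (FreeGroup A)) (s : ℕ → A × Bool) (g : FreeGroup A) (p : ℕ) :
    (Vx N × A) × Bool := ((mkV N (g * opre s p), (s p).1), (s p).2)

/-- The loop around the cell based at `g`. -/
def lp (L : ℕ) (s : ℕ → A × Bool) (g : FreeGroup A) : FreeGroup A := g * pre s L * g⁻¹

theorem lp_mul (g : FreeGroup A) : lp L s g * g = g * pre s L := by simp [lp]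

theorem lp_conj (n g : FreeGroup A) : lp L s (n * g) = n * lp L s g * n⁻¹ := by
  simp [lp, mul_assoc]

theorem cs_per (hP : Per L s) {g : FreeGroup A} (hg : lp L s g ∈ N) : Per L (cs N s g) := by
  intro p
  simp only [cs, hP p, hP.opre_add, ← mul_assoc, ← lp_mul]
  rw [mul_assoc, mkV_mul hg]

theorem opre_succ (s : ℕ → A × Bool) (p : ℕ) : opre s (p + 1) =
    opre s p * ((if (s p).2 then FreeGroup.of (s p).1 else 1) *
      (if (s (p + 1)).2 then 1 else (FreeGroup.of (s (p + 1)).1)⁻¹)) := by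
  unfold opre
  rw [pre_succ s (p + 1), pre_succ s p]
  cases (s p).2 <;> cases (s (p + 1)).2 <;> simp [sg, mul_assoc]

theorem cs_det {g g' : FreeGroup A} {p p' : ℕ} (h : cs N s g p = cs N s g' p')
    (h' : s (p + 1) = s (p' + 1)) : cs N s g (p + 1) = cs N s g' (p' + 1) := by
  simp only [cs, Prod.mk.injEq] at h ⊢
  have e : s p = s p' := Prod.ext h.1.2 h.2
  refine ⟨⟨?_, by rw [h']⟩, by rw [h']⟩
  rw [opre_succ, opre_succ, e, h', ← mul_assoc, ← mul_assoc g']
  exact mkV_right h.1.1 _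

theorem cs_cx (hP : Per L s) {C : Set (FreeGroup A)} (hC : ∀ c ∈ C, lp L s c ∈ N) :
    Cx L s Prod.snd (cs N s '' C) where
  per := by rintro _ ⟨c, hc, rfl⟩; exact cs_per hP (hC c hc)
  fst := by rintro _ ⟨c, hc, rfl⟩ p; rfl
  snd := by rintro _ ⟨c, hc, rfl⟩ p; rfl
  det := by rintro _ ⟨c, hc, rfl⟩ _ ⟨c', hc', rfl⟩ p p' h h'; exact cs_det h h'

theorem cs_nw (hL : 0 < L) (hP : Per L s) (hR : Rd s) (hN : ∀ n ∈ N, pr L s n = 1)
    (C : Set (FreeGroup A)) : NW L (cs N s '' C) := by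
  rintro _ ⟨c, -, rfl⟩ k h1 h2 h
  have hk : Per k s := fun q => by
    have := h q
    simp only [cs, Prod.mk.injEq] at this
    exact Prod.ext this.1.2 this.2
  have h3 := h 0
  simp only [cs, Prod.mk.injEq, hk.opre_add] at h3
  have h4 := hN _ (mkV_eq.1 h3.1.1.symm)
  apply pre_ne_one hL A s hP hR k h1 h2 hk
  have h5 : pr L s c * pr L s (pre s k) * (pr L s c)⁻¹ = 1 := by simpa [mul_assoc] using h4
  exact conj_eq_one_iff.1 h5

/-- The edge word of the geodesic from the base point. -/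
noncomputable def Lm (N : Subgroup (FreeGroup A)) : FreeGroup A → FreeGroup (Vx N × A) :=
  integ fun g a => FreeGroup.of (mkV N g, a)

theorem Lm_pre (c : FreeGroup A) (p n : ℕ) :
    Lm N (c * pre s (p + n)) = Lm N (c * pre s p) * mk (seg (cs N s c) p n) := by
  induction n with
  | zero => simp [← one_eq_mk]
  | succ n ih =>
    rw [← Nat.add_assoc, Lm, integ_pre, ← Lm, ih, seg_succ, ← mul_mk, mk_single, mul_assoc]
    rfl

theorem Lm_mul {n : FreeGroup A} (hn : n ∈ N) (g : FreeGroup A) :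
    Lm N (n * g) = Lm N n * Lm N g :=
  integ_mul _ (fun g a => by rw [mkV_mul hn]) g

theorem integ_eq_lift {G : Type} [Group G] (β : Vx N × A → G) (g : FreeGroup A) :
    integ (fun g a => β (mkV N g, a)) g = FreeGroup.lift β (Lm N g) := by
  have := integ_unique (fun g a => β (mkV N g, a)) (fun g => FreeGroup.lift β (Lm N g))
    (fun g a => by simp [Lm, integ_of]) g
  simpa [Lm] using this.symm

/-- The subgroup generated by the loops around the cells. -/
def NC (L : ℕ) (s : ℕ → A × Bool) (C : Set (FreeGroup A)) : Subgroup (FreeGroup A) :=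
  Subgroup.closure (lp L s '' C)

theorem lp_mem {C : Set (FreeGroup A)} {c : FreeGroup A} (hc : c ∈ C) : lp L s c ∈ NC L s C :=
  Subgroup.subset_closure ⟨c, hc, rfl⟩

theorem NC_mono {C C' : Set (FreeGroup A)} (h : C ⊆ C') : NC L s C ≤ NC L s C' :=
  Subgroup.closure_mono (Set.image_mono h)

theorem NC_le {C : Set (FreeGroup A)} (hC : ∀ c ∈ C, lp L s c ∈ N) : NC L s C ≤ N :=
  (Subgroup.closure_le _).2 (by rintro _ ⟨c, hc, rfl⟩; exact hC c hc)

end Pool.Agent.P.MP_caa3d2_al
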