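import Pool.Agent.P.MP_caa3d2_al.Pres

/-!
Bounded derivations over a finite alphabet are decidable.
-/

set_option autoImplicit false

namespace Pool.Agent.P.MP_caa3d2_al

open FreeGroup hiding map_mul map_one map_inv

variable {E : Type}

/-- The words reachable by one move. -/
def nb [DecidableEq E] (X : List (Wd E)) (w : Wd E) : List (Wd E) :=
  (List.range (w.length + 1)).flatMap fun i => X.flatMap fun x =>
    (w.take i ++ x ++ w.drop i) ::
      if w = w.take i ++ x ++ w.drop (i + x.length) then [w.take i ++ w.drop (i + x.length)]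
      else []

theorem mem_nb [DecidableEq E] {R : Set (Wd E)} {X : List (Wd E)} (hX : ∀ x, x ∈ X ↔ Ins R x)
    (w w' : Wd E) : w' ∈ nb X w ↔ Mv R w w' := by
  simp only [nb, List.mem_flatMap, List.mem_range, List.mem_cons]
  constructor
  · rintro ⟨i, -, x, hx, h | h⟩
    · exact ⟨_, x, _, (hX x).1 hx, Or.inl ⟨(List.take_append_drop i w).symm, h⟩⟩
    · split_ifs at h with e
      · exact ⟨_, x, _, (hX x).1 hx, Or.inr ⟨e, List.mem_singleton.1 h⟩⟩
      · simp at h
  · rintro ⟨a, x, b, hx, ⟨rfl, rfl⟩ | ⟨rfl, rfl⟩⟩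
    · exact ⟨a.length, by simp, x, (hX x).2 hx, Or.inl (by simp)⟩
    · refine ⟨a.length, by simp, x, (hX x).2 hx, Or.inr ?_⟩
      have e1 : (a ++ x ++ b).take a.length = a := by simp
      have e2 : (a ++ x ++ b).drop (a.length + x.length) = b := by
        rw [← List.length_append]; simp
      rw [e1, e2, if_pos rfl]; simp

theorem mem_iter [DecidableEq E] {R : Set (Wd E)} {X : List (Wd E)} (hX : ∀ x, x ∈ X ↔ Ins R x)
    (n : ℕ) (l : List (Wd E)) (v : Wd E) :
    v ∈ (fun l => l ++ l.flatMap (nb X))^[n] l ↔ ∃ w ∈ l, Der R n w v := by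
  induction n generalizing l with
  | zero =>
    refine ⟨fun h => ⟨v, h, Der.refl _ _⟩, ?_⟩
    rintro ⟨w, hw, h⟩
    cases h; exact hw
  | succ n ih =>
    rw [Function.iterate_succ_apply, ih]
    simp only [List.mem_append, List.mem_flatMap, mem_nb hX]
    constructor
    · rintro ⟨w, hw | ⟨w', hw, h1⟩, h⟩
      · exact ⟨w, hw, h.mono (by omega)⟩
      · exact ⟨w', hw, Der.step h1 h⟩
    · rintro ⟨w, hw, h⟩
      cases h with
      | refl => exact ⟨v, Or.inl hw, Der.refl _ _⟩
      | step h1 h2 => exact ⟨_, Or.inr ⟨w, hw, h1⟩, h2⟩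

theorem nb_prim [Primcodable E] [DecidableEq E] (X : List (Wd E)) : Primrec (nb X) := by
  have h1 : Primrec fun p : (Wd E × ℕ) × Wd E => p.1.1.take p.1.2 :=
    Primrec.list_take.comp (Primrec.snd.comp Primrec.fst) (Primrec.fst.comp Primrec.fst)
  have h2 : Primrec fun p : (Wd E × ℕ) × Wd E => p.1.1.drop p.1.2 :=
    Primrec.list_drop.comp (Primrec.snd.comp Primrec.fst) (Primrec.fst.comp Primrec.fst)
  have h3 : Primrec fun p : (Wd E × ℕ) × Wd E => p.1.1.drop (p.1.2 + p.2.length) :=
    Primrec.list_drop.comp (Primrec.nat_add.comp (Primrec.snd.comp Primrec.fst)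
      (Primrec.list_length.comp Primrec.snd)) (Primrec.fst.comp Primrec.fst)
  have h4 : Primrec fun p : (Wd E × ℕ) × Wd E => p.1.1.take p.1.2 ++ p.2 :=
    Primrec.list_append.comp h1 Primrec.snd
  have h5 : Primrec fun p : (Wd E × ℕ) × Wd E => (p.1.1.take p.1.2 ++ p.2 ++ p.1.1.drop p.1.2) ::
      if p.1.1 = p.1.1.take p.1.2 ++ p.2 ++ p.1.1.drop (p.1.2 + p.2.length) then
        [p.1.1.take p.1.2 ++ p.1.1.drop (p.1.2 + p.2.length)] else [] :=
    Primrec.list_cons.comp (Primrec.list_append.comp h4 h2) (Primrec.ite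
      (Primrec.eq.comp (Primrec.fst.comp Primrec.fst) (Primrec.list_append.comp h4 h3))
      (Primrec.list_cons.comp (Primrec.list_append.comp h1 h3) (Primrec.const []))
      (Primrec.const []))
  exact Primrec.list_flatMap (Primrec.list_range.comp (Primrec.succ.comp Primrec.list_length))
    (Primrec.list_flatMap (Primrec.const X) h5.to₂).to₂

theorem comp_der [Primcodable E] [Finite E] {R : Set (Wd E)} (hR : R.Finite) {J : Type}
    [Primcodable J] [Finite J] (W : J → Wd E) {f : ℕ → ℕ} (hf : Primrec f) :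
    ComputablePred fun ω : List J => Der R (f ω.length) (ω.flatMap W) [] := by
  classical
  have hI : {x | Ins R x}.Finite := by
    refine (((Set.finite_range fun y : E × Bool => [(y.1, y.2), (y.1, !y.2)]).union hR).union
      (hR.image invRev)).subset ?_
    rintro x (⟨e, b, rfl⟩ | hx | hx)
    · exact Or.inl (Or.inl ⟨(e, b), rfl⟩)
    · exact Or.inl (Or.inr hx)
    · exact Or.inr ⟨_, hx, invRev_invRev⟩
  have hX : ∀ x, x ∈ hI.toFinset.toList ↔ Ins R x := fun x => by simp
  generalize hI.toFinset.toList = X at hX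
  have h1 : Primrec fun ω : List J =>
      (fun l => l ++ l.flatMap (nb X))^[f ω.length] [ω.flatMap W] :=
    Primrec.nat_iterate (h := fun _ l => l ++ l.flatMap (nb X)) (hf.comp Primrec.list_length)
      (Primrec.list_cons.comp (Primrec.list_flatMap Primrec.id
        ((Primrec.dom_finite W).comp Primrec.snd).to₂) (Primrec.const []))
      (Primrec.list_append.comp Primrec.snd (Primrec.list_flatMap Primrec.snd
        ((nb_prim X).comp Primrec.snd).to₂)).to₂
  have h2 : PrimrecPred fun a : Wd E => a = [] := Primrec.eq.comp Primrec.id (Primrec.const [])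
  refine ((h2.exists_mem_list.comp h1).of_eq fun ω => ?_).computablePred
  simp [mem_iter hX]

theorem comp_mem {A : Type} [Finite A] {k : ℕ} {N : Subgroup (FreeGroup A)}
    (ρ : FreeGroup (Fin k) →* FreeGroup A) (hn : ∀ ω, ∀ n ∈ N, ρ ω * n * (ρ ω)⁻¹ ∈ N)
    (h : N = ⊥ ∨ ∃ (L : ℕ) (s : ℕ → A × Bool), 0 < L ∧ Per L s ∧ Rd s ∧
      N ≤ NC L s {g | lp L s g ∈ N}) :
    ComputablePred fun ω : List (Fin k × Bool) => ρ (mk ω) ∈ N := by
  rcases h with rfl | ⟨L, s, h1, h2, h3, h4⟩
  · obtain ⟨wx, c, hw⟩ := exists_words ρ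
    obtain ⟨m, ⟨e⟩⟩ := Finite.exists_equiv_fin A
    let _ : Primcodable A := Primcodable.ofEquiv _ e
    refine (comp_der (R := ∅) Set.finite_empty wx
      (Primrec.nat_mul.comp (Primrec.const c) Primrec.id)).of_eq fun ω => ?_
    rw [Subgroup.mem_bot, ← (hw ω).1]
    constructor
    · intro h
      exact h.sound (MonoidHom.id _) (by simp)
    · intro h
      obtain ⟨v, hv, hD⟩ := der_of_mk_eq (R := ∅) (S := ∅) (u := []) (fun x hx => by simp at hx) h
      obtain rfl : v = [] := List.eq_nil_iff_forall_not_mem.2 fun x hx => hv x hx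
      exact hD.mono (hw ω).2
  · have : (N.comap ρ).Normal := ⟨fun n hn' g => by simpa using hn g _ hn'⟩
    obtain ⟨m, R, W, f, a1, a2, a3⟩ := finite_pres (π := QuotientGroup.mk' (N.comap ρ))
      ⟨h1, h2, h3, h4, hn, QuotientGroup.mk'_surjective _, fun ω => QuotientGroup.eq_one_iff ω⟩
    exact (comp_der a1 W a2).of_eq fun ω => (a3 ω).symm

end Pool.Agent.P.MP_caa3d2_al
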