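import Pool.Agent.P.MP_caa3d2_al.Dim

/-!
Finitely many orbits of cells suffice.
-/

set_option autoImplicit false

open scoped InnerProductSpace

noncomputable section

namespace Pool.Agent.P.MP_caa3d2_al

open FreeGroup hiding map_mul map_one map_inv

variable {A I U : Type} [Group U] {N N1 : Subgroup (FreeGroup A)} {L : ℕ} {s : ℕ → A × Bool}
  {ρ : FreeGroup I →* FreeGroup A} {π : FreeGroup I →* U}

theorem exists_fin_NC {C : Set (FreeGroup A)} {n : FreeGroup A} (hn : n ∈ NC L s C) :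
    ∃ G ⊆ C, G.Finite ∧ n ∈ NC L s G := by
  induction hn using Subgroup.closure_induction with
  | mem x hx =>
    obtain ⟨c, hc, rfl⟩ := hx
    exact ⟨{c}, by simpa using hc, Set.finite_singleton c, lp_mem rfl⟩
  | one => exact ⟨∅, by simp, Set.finite_empty, one_mem _⟩
  | mul x y _ _ hx hy =>
    obtain ⟨G, a1, a2, a3⟩ := hx
    obtain ⟨G', b1, b2, b3⟩ := hy
    exact ⟨G ∪ G', Set.union_subset a1 b1, a2.union b2,
      mul_mem (NC_mono Set.subset_union_left a3) (NC_mono Set.subset_union_right b3)⟩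
  | inv x _ hx =>
    obtain ⟨G, a1, a2, a3⟩ := hx
    exact ⟨G, a1, a2, inv_mem a3⟩

theorem Lv.fx_mem (Λ : Lv N ρ π N1) {G : Set (FreeGroup A)} (hG : ∀ g ∈ G, lp L s g ∈ N1)
    {n : FreeGroup A} (hn : n ∈ NC L s G) : fx N1 n ∈ Λ.B L s G := by
  induction hn using Subgroup.closure_induction with
  | mem x hx => exact mem_osp _ ⟨x, hx, rfl⟩
  | one => simp
  | mul x y hx _ ihx ihy =>
    rw [fx, fox_mul (NC_le hG hx), map_add]; exact add_mem ihx ihy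
  | inv x hx ih =>
    have := fox_mul (inv_mem (NC_le hG hx)) x
    rw [inv_mul_cancel, fox_one, eq_comm, add_eq_zero_iff_eq_neg] at this
    rw [fx, this, map_neg]; exact neg_mem ih

theorem exists_max [Finite I] (h : St L s N ρ π) (Λ : Lv N ρ π N) :
    ∃ G : Set (FreeGroup A), G.Finite ∧ (∀ g ∈ G, lp L s g ∈ N) ∧ ∀ ω, ρ ω ∈ N →
      ∃ G1 : Set (FreeGroup A), G1.Finite ∧ G ⊆ G1 ∧ (∀ g ∈ G1, lp L s g ∈ N) ∧
        ρ ω ∈ NC L s G1 ∧ fx N (ρ ω) ∈ cl (Λ.B L s G) := by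
  let Λ' := fun G => (exists_lvG h G).some
  have hp : (0 : ℝ) < L.factorial := by exact_mod_cast L.factorial_pos
  obtain ⟨z, ⟨G, hG, hG', hz⟩, hmax⟩ := Int.exists_greatest_of_bdd
    (P := fun z => ∃ G : Set (FreeGroup A), G.Finite ∧ (∀ g ∈ G, lp L s g ∈ N) ∧
      (L.factorial : ℝ) * (M0 U I).dim ((Λ' G).Q L s G) = z)
    ⟨⌈(L.factorial : ℝ) * (M0 U I).dim ⊤⌉, by
      rintro z ⟨G, -, -, hz⟩
      rw [Int.le_ceil_iff, ← hz]
      have : (M0 U I).dim ((Λ' G).Q L s G) ≤ (M0 U I).dim ⊤ := dim_mono (le_top.trans (le_cl _))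
      nlinarith⟩
    (by
      obtain ⟨z, hz⟩ := dim_Q h Set.finite_empty (by simp) rfl (Λ' ∅)
      exact ⟨z, ∅, Set.finite_empty, by simp, hz⟩)
  refine ⟨G, hG, hG', fun ω hω => ?_⟩
  obtain ⟨G0, a1, a2, a3⟩ := exists_fin_NC (h.gen hω)
  have b1 : ∀ g ∈ G ∪ G0, lp L s g ∈ N := fun g hg => hg.elim (hG' g) fun hg => a1 hg
  have b2 : ρ ω ∈ NC L s (G ∪ G0) := NC_mono Set.subset_union_right a3
  refine ⟨G ∪ G0, hG.union a2, Set.subset_union_left, b1, b2, ?_⟩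
  obtain ⟨z', hz'⟩ := dim_Q h (hG.union a2) b1 rfl (Λ' (G ∪ G0))
  have c1 : (z' : ℝ) ≤ z := by exact_mod_cast hmax z' ⟨_, hG.union a2, b1, hz'⟩
  rw [← hz, ← hz'] at c1
  have c2 := dim_faithful (M := M0 U I) ((Λ' G).Q_inv G) ((Λ' (G ∪ G0)).Q_inv (G ∪ G0))
    ((Q_mono h _ _ (inf_le_inf_right _ (LG_mono Set.subset_union_left)) hG
      Set.subset_union_left).trans (le_cl _)) (le_M0 _) (le_of_mul_le_mul_left c1 hp)
  have c3 : toL2 (fox π ω) ∈ (Λ' (G ∪ G0)).Q L s (G ∪ G0) := by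
    show (Λ' (G ∪ G0)).ι _ ∈ cl _
    rw [Lv.iota_fox]
    exact le_cl _ (Lv.fx_mem _ (fun g hg => Subgroup.mem_inf.2 ⟨lp_mem_LG hg, b1 g hg⟩) b2)
  have c4 : Λ.ι (toL2 (fox π ω)) ∈ cl (Λ.B L s G) := Q_mono h _ Λ inf_le_right hG subset_rfl
    (cl_le le_rfl ((Λ' G).Q_closed G) (c2 c3))
  rwa [Lv.iota_fox] at c4

theorem char_vanish [Finite I] (h : St L s N ρ π) :
    ∃ G : Set (FreeGroup A), G.Finite ∧ (∀ g ∈ G, lp L s g ∈ N) ∧ ∀ χ : FreeGroup A → ℝ,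
      (∀ n ∈ N, ∀ n' ∈ N, χ (n * n') = χ n + χ n') → (∀ ω, ∀ g ∈ G, χ (lp L s (ρ ω * g)) = 0) →
      ∀ ω, ρ ω ∈ N → χ (ρ ω) = 0 := by
  obtain ⟨Λ⟩ := exists_lv h le_rfl (fun _ h => h) h.nrm
  obtain ⟨G, hG, hG', key⟩ := exists_max h Λ
  refine ⟨G, hG, hG', fun χ h1 h2 ω hω => ?_⟩
  obtain ⟨G1, a1, a2, a3, a4, a5⟩ := key ω hω
  let t : FreeGroup A → FreeGroup A := fun g => (mkV N g).out
  have ht : ∀ g, g * (t g)⁻¹ ∈ N := fun g => mkV_eq.1 (Quotient.out_eq _)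
  let f : FreeGroup A → ℝ := fun g => χ (g * (t g)⁻¹)
  have hf : ∀ n ∈ N, ∀ g, f (n * g) = χ n + f g := fun n hn g => by
    simp only [f, t, mkV_mul hn, mul_assoc]; exact h1 n hn _ (ht g)
  let α : Vx N × A → ℝ := fun e => f (e.1.out * FreeGroup.of e.2) - f e.1.out
  have hα : ∀ g a, α (mkV N g, a) = f (g * FreeGroup.of a) - f g := fun g a => by
    obtain ⟨n, hn, e⟩ := exists_of_mkV (N := N) (Quotient.out_eq (mkV N g)).symm
    simp only [α]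
    rw [e, mul_assoc, hf n hn, hf n hn]; ring
  have hl : ∀ n ∈ N, Finsupp.linearCombination ℝ α (fox (mkV N) n) = χ n := fun n hn => by
    rw [fox_uniq (mkV N) _ f (fun g a => by simp [hα])]
    have := hf n hn 1
    rw [mul_one] at this
    rw [this]; ring
  let κ : Vx N → (Vx N × A →₀ ℝ) := fun c => fox (mkV N) (c.out * pre s L) - fox (mkV N) c.out
  have hκ : ∀ c ∈ Set.univ, bdV N L s (dl c) = toL2 (κ c) := fun c _ => by
    simp only [κ]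
    rw [map_sub, fox_pre, add_sub_cancel_left]
    exact congrArg (fun c => bdV N L s (dl c)) (Quotient.out_eq c).symm
  have hσ : ∀ p, (s (p + L)).2 = (s p).2 := fun p => congrArg Prod.snd (h.per p)
  have av := fun c hc => exists_av (σ := fun p => (s p).2) (edV_inj N s) h.hL hσ
    (Λ.cells_per h a3) (c := c) hc
  let Z1 := Zc (edV N s) (fun p => (s p).2) (Λ.cells G1)
  let Ct : Set (Vx N) := {c | ∃ c' ∈ Λ.cells G, Eqc (edV N s) (fun p => (s p).2) c' c}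
  have iC : InvP Λ.a Ct := by
    rintro u c ⟨c', hc', k, hk⟩
    exact ⟨_, orb_inv _ _ u c' hc', k, fun q =>
      ⟨by rw [Λ.ed_eq h, Λ.ed_eq h, (hk q).1], (hk q).2⟩⟩
  have iZ : (rep Λ.a).Inv Z1 := Zc_inv (Λ.ed_eq h) (orb_inv _ _)
  obtain ⟨_, ⟨y1, y, rfl⟩, y2⟩ := Λ.B_le h a3
    (W := (Z1 ⊓ LinearMap.range toL2).map (bdV N L s).toLinearMap) (fun c hc => by
      obtain ⟨v, v1, -, -, v4, -⟩ := av c hc
      exact ⟨_, ⟨v1, v, rfl⟩, v4⟩) (Λ.fx_mem a3 a4)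
  have y2' : bdV N L s (toL2 y) = fx N (ρ ω) := y2
  have y3 : toL2 y ∈ Z1 ⊓ sup Ct := by
    refine mem_of_inj (M := fm (Λ.free h) (a1.image (mkV N)))
      (M' := fm (Λ.free h).eact (sp_finite (N := N) (a1.image (lp L s)))) (Λ.bd_eqv h)
      (iZ.inf iC.sup) iZ ((Zc_closed _).inter (sup_closed _)) (Zc_closed _) inf_le_left
      (fun z hz => hz.1) (fun z hz => map_mem_closed _ (sup_closed _) fun c hc => ?_)
      (Λ.inj h a1 a3) y1 ?_
    · refine osp_le (orb_inv _ _).sup ?_ (Λ.bd_mem h a3 (mem_of_sup hz.1 hc))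
      rintro _ ⟨l, hl, rfl⟩; exact fx_mem_sup _ hl
    · rw [y2']
      refine cl_le (Λ.B_le h hG' fun c hc => ?_) (cl_closed _) a5
      obtain ⟨v, v1, -, v3, v4, -⟩ := av c (orb_subset (orb_inv _ _)
        (fun x hx => mem_orb _ (Set.image_mono a2 hx)) hc)
      refine le_cl _ ⟨_, ⟨v1, fun x hx => ?_⟩, v4⟩
      by_contra e
      exact hx ⟨c, hc, (v3 x (by simpa using e)).2⟩
  rw [op_toL2 hκ fun x hx => absurd trivial hx] at y2'
  rw [← hl _ hω, ← toL2_inj y2', Finsupp.linearCombination_apply ℝ y, Finsupp.sum, map_sum]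
  refine Finset.sum_eq_zero fun c hc => ?_
  obtain ⟨_, ⟨u, _, ⟨g, hg, rfl⟩, rfl⟩, e⟩ := mem_of_sup y3.2 (x := c) (by simpa using hc)
  obtain ⟨ω', rfl⟩ := h.surj u
  have e1 : lp L s (ρ ω' * g) ∈ N := by rw [lp_conj]; exact h.nrm _ _ (hG' g hg)
  have e2 := e.bd (hed := edV_inj N s) hσ (Λ.cells_per h hG' _ ⟨_, _, ⟨g, hg, rfl⟩, rfl⟩)
  rw [Λ.ha] at e2
  have e3 := toL2_inj (((hκ c trivial).symm.trans e2).trans (fox_lp e1).symm)
  rw [map_smul, e3, hl _ e1, h2 ω' g hg, smul_zero]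

theorem exists_psi (h : St L s N ρ π) {G : Set (FreeGroup A)} (hG : ∀ g ∈ G, lp L s g ∈ N) :
    ∃ ψ : LG L s ρ G →* U, ∀ l ω, ∀ n ∈ N, l.1 = n * ρ ω → ψ l = π ω := by
  choose w n hn e using fun l : LG L s ρ G => LG_split hG h.nrm l.1 l.2
  have key : ∀ l ω, ∀ n ∈ N, l.1 = n * ρ ω → π (w l) = π ω := fun l ω n' hn' e' => by
    rw [← mul_inv_eq_one, ← map_inv, ← map_mul, h.ker]
    have : ρ (w l * ω⁻¹) = (n l)⁻¹ * n' := by
      rw [map_mul, map_inv, mul_inv_eq_iff_eq_mul, mul_assoc, ← e', e l]; simp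
    rw [this]; exact mul_mem (inv_mem (hn l)) hn'
  refine ⟨MonoidHom.mk' (fun l => π (w l)) fun x y => ?_, key⟩
  rw [← map_mul]
  exact key _ _ _ (mul_mem (hn x) (h.nrm (w x) _ (hn y))) (by
    rw [Subgroup.coe_mul, e x, e y, map_mul]; group)

/-- The translates of a set of cells by the auxiliary subgroup. -/
def CG (L : ℕ) (s : ℕ → A × Bool) (ρ : FreeGroup I →* FreeGroup A) (G : Set (FreeGroup A)) :
    Set (FreeGroup A) := {c | ∃ l ∈ LG L s ρ G, ∃ g ∈ G, c = l * g}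

theorem LG_nrm (h : St L s N ρ π) {G : Set (FreeGroup A)} (hG : ∀ g ∈ G, lp L s g ∈ N) :
    ∀ l ∈ LG L s ρ G, ∀ n ∈ N, l * n * l⁻¹ ∈ N := fun l hl n hn => by
  obtain ⟨ω, m, hm, rfl⟩ := LG_split hG h.nrm l hl
  have := mul_mem (mul_mem hm (h.nrm ω n hn)) (inv_mem hm)
  simpa [mul_assoc] using this

theorem CG_lp (h : St L s N ρ π) {G : Set (FreeGroup A)} (hG : ∀ g ∈ G, lp L s g ∈ N) :
    ∀ c ∈ CG L s ρ G, lp L s c ∈ LG L s ρ G ⊓ N := by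
  rintro _ ⟨l, hl, g, hg, rfl⟩
  rw [lp_conj]
  exact Subgroup.mem_inf.2 ⟨mul_mem (mul_mem hl (lp_mem_LG hg)) (inv_mem hl),
    LG_nrm h hG l hl _ (hG g hg)⟩

theorem CG_nrm (G : Set (FreeGroup A)) (ω : FreeGroup I) :
    ∀ n ∈ NC L s (CG L s ρ G), ρ ω * n * (ρ ω)⁻¹ ∈ NC L s (CG L s ρ G) := fun n hn => by
  refine (Subgroup.closure_le ((NC L s (CG L s ρ G)).comap (MulAut.conj (ρ ω)).toMonoidHom)).2
    ?_ hn
  rintro _ ⟨_, ⟨l, hl, g, hg, rfl⟩, rfl⟩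
  show ρ ω * _ * (ρ ω)⁻¹ ∈ NC L s _
  rw [← lp_conj, ← mul_assoc]
  exact lp_mem ⟨_, mul_mem (rho_mem G ω) hl, g, hg, rfl⟩

/-- Finitely many orbits of cells give a simply connected complex. -/
theorem core [Finite I] (h : St L s N ρ π) : ∃ G : Set (FreeGroup A), G.Finite ∧
    (∀ g ∈ G, lp L s g ∈ N) ∧ LG L s ρ G ⊓ N ≤ NC L s (CG L s ρ G) := by
  classical
  obtain ⟨G, hG, hG', key⟩ := char_vanish h
  obtain ⟨ψ, hψ⟩ := exists_psi h (G := {g | lp L s g ∈ N}) fun g hg => hg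
  let Hh := LG L s ρ {g | lp L s g ∈ N}
  have hN : N ≤ Hh := h.gen.trans (NC_le fun g hg => lp_mem_LG hg)
  let θ : Hh →* FreeGroup I := IsFreeGroup.lift fun y => (h.surj (ψ (IsFreeGroup.of y))).choose
  have hθ : ∀ l, π (θ l) = ψ l := fun l => DFunLike.congr_fun
    (IsFreeGroup.ext_hom (f := π.comp θ) (g := ψ) fun y => by
      simp only [MonoidHom.comp_apply, θ, IsFreeGroup.lift_of]
      exact (h.surj (ψ (IsFreeGroup.of y))).choose_spec) l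
  let τ : FreeGroup I →* FreeGroup I := θ.comp (ρ.codRestrict Hh (rho_mem _))
  have θN : ∀ l : Hh, l.1 ∈ N → ρ (θ l) ∈ N := fun l hl => by
    rw [← h.ker, hθ, hψ l 1 l.1 hl (by simp), map_one]
  have τN : ∀ ω, ρ (τ ω * ω⁻¹) ∈ N := fun ω => by
    rw [← h.ker, map_mul, map_inv, mul_inv_eq_one]
    exact (hθ _).trans (hψ _ ω 1 (one_mem _) (one_mul _).symm)
  choose G1 a1 a2 a3 using fun g : G => exists_fin_NC (h.gen (θN ⟨_, hN (hG' g.1 g.2)⟩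
    (hG' g.1 g.2)))
  choose G2 b1 b2 b3 using fun i : I => exists_fin_NC (h.gen (τN (FreeGroup.of i)))
  have : Finite G := hG
  let G0 := (⋃ g, G1 g) ∪ ⋃ i, G2 i
  have c0 : ∀ g ∈ G0, lp L s g ∈ N := by
    rintro g (hg | hg)
    · obtain ⟨x, hx⟩ := Set.mem_iUnion.1 hg; exact a1 x hx
    · obtain ⟨x, hx⟩ := Set.mem_iUnion.1 hg; exact b1 x hx
  have c1 : G0 ⊆ CG L s ρ G0 := fun g hg => ⟨1, one_mem _, g, hg, (one_mul g).symm⟩
  refine ⟨G0, (Set.finite_iUnion a2).union (Set.finite_iUnion b2), c0,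
    simply h.hL h.per h.rd (fun n hn => h.pr_eq n hn.2) ?_ (CG_lp h c0) fun χ h1 h2 => ?_⟩
  · rintro n hn _ ⟨l, hl, g, hg, rfl⟩
    exact ⟨_, mul_mem (Subgroup.mem_inf.1 hn).1 hl, g, hg, (mul_assoc _ _ _).symm⟩
  have d0 := NC_le (CG_lp h c0)
  have d1 : ∀ m ∈ NC L s (CG L s ρ G0), χ m = 0 := by
    intro m hm
    have e1 : χ 1 = 0 := by simpa using h1 1 (one_mem _) 1 (one_mem _)
    induction hm using Subgroup.closure_induction with
    | mem x hx => obtain ⟨c, hc, rfl⟩ := hx; exact h2 c hc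
    | one => exact e1
    | mul x y hx hy ihx ihy => rw [h1 x (d0 hx) y (d0 hy), ihx, ihy, add_zero]
    | inv x hx ih => simpa [ih, e1] using (h1 _ (inv_mem (d0 hx)) x (d0 hx)).symm
  have d2 : ∀ ω, ρ ω ∈ N → ρ ω ∈ LG L s ρ G0 ⊓ N := fun ω hω => ⟨rho_mem _ ω, hω⟩
  have d3 : ∀ ω, ρ (τ ω * ω⁻¹) ∈ NC L s (CG L s ρ G0) := by
    intro ω
    induction ω using FreeGroup.induction_on with
    | C1 => simp
    | of i => exact NC_mono ((Set.subset_iUnion G2 i).trans (Set.subset_union_right.trans c1)) (b3 i)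
    | inv_of i ih => simpa [mul_assoc] using CG_nrm G0 (FreeGroup.of i)⁻¹ _ (inv_mem ih)
    | mul x y hx hy => simpa [mul_assoc] using mul_mem (CG_nrm G0 (τ x) _ hy) hx
  have d4 := key (fun n => if hn : n ∈ Hh then χ (ρ (θ ⟨n, hn⟩)) else 0)
    (fun n hn n' hn' => by
      rw [dif_pos (hN hn), dif_pos (hN hn'), dif_pos (hN (mul_mem hn hn')),
        ← h1 _ (d2 _ (θN _ hn)) _ (d2 _ (θN _ hn')), ← map_mul, ← map_mul]; rfl)
    (fun ω g hg => by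
      have e : lp L s (ρ ω * g) ∈ Hh := hN (by rw [lp_conj]; exact h.nrm _ _ (hG' g hg))
      rw [dif_pos e]
      have e2 : (⟨_, e⟩ : Hh) = ⟨ρ ω, rho_mem _ ω⟩ * ⟨_, hN (hG' g hg)⟩ *
          (⟨ρ ω, rho_mem _ ω⟩ : Hh)⁻¹ := Subtype.ext (lp_conj _ _)
      rw [e2, map_mul, map_mul, map_inv, map_mul, map_mul, map_inv]
      exact d1 _ (CG_nrm G0 _ _ (NC_mono ((Set.subset_iUnion G1 ⟨g, hg⟩).trans
        (Set.subset_union_left.trans c1)) (a3 ⟨g, hg⟩))))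
  intro n hn
  obtain ⟨ω, m, hm, rfl⟩ := LG_split (fun g hg => lp_mem (c1 hg)) (CG_nrm G0) n hn.1
  have e1 : ρ ω ∈ N := by simpa using mul_mem (inv_mem (Subgroup.mem_inf.1 (d0 hm)).2) (Subgroup.mem_inf.1 hn).2
  have e2 := d4 ω e1
  rw [dif_pos (hN e1)] at e2
  have e3 := h1 _ (d0 (d3 ω)) _ (d2 ω e1)
  rw [d1 _ (d3 ω), ← map_mul, inv_mul_cancel_right, zero_add] at e3
  rw [h1 m (d0 hm) _ (d2 ω e1), d1 m hm, zero_add, ← e3]
  exact e2

end Pool.Agent.P.MP_caa3d2_al
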