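import Pool.Agent.P.MP_caa3d2_al.Monoid

/-!
Arbitrary subgroups of a one-relator inverse monoid as subquotients of the free group.
-/

set_option autoImplicit false

namespace Pool.Agent.P.MP_caa3d2_al

open FreeGroup hiding map_mul map_one map_inv

variable {A : Type} {M : Type} [Monoid M] {r : Wd A} {q : Wd A → M}

theorem IM.w1' (h : IM r q) (u : Wd A) :
    q (invRev u) * q u * q (invRev u) = q (invRev u) := by
  simpa only [invRev_invRev] using h.w1 (invRev u)

theorem IM.idem (h : IM r q) {f : M} (hf : f * f = f) : ∃ u, f = q u * q (invRev u) := by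
  obtain ⟨u, rfl⟩ := h.surj f
  refine ⟨u, ?_⟩
  have a1 := h.w1 u
  have a2 := h.w1' u
  have a3 := h.w2 u (invRev u)
  rw [invRev_invRev] at a3
  generalize q u = f at *
  generalize q (invRev u) = g at *
  have b1 : g = f * g * g * f := by
    calc g = g * (f * f) * g := by rw [hf, a2]
      _ = _ := by rw [a3]; simp only [mul_assoc]
  have b2 : f * g = g := by
    calc f * g = f * (f * g * g * f) := by rw [← b1]
      _ = f * f * g * g * f := by simp only [mul_assoc]
      _ = g := by rw [hf, ← b1]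
  have b3 : g * f = g := by
    calc g * f = f * g * g * f * f := by rw [← b1]
      _ = f * g * g * (f * f) := by simp only [mul_assoc]
      _ = g := by rw [hf, ← b1]
  rw [b2, ← a1, b2, b3]

theorem IM.comm (h : IM r q) {f g : M} (hf : f * f = f) (hg : g * g = g) : f * g = g * f := by
  obtain ⟨u, rfl⟩ := h.idem hf
  obtain ⟨v, rfl⟩ := h.idem hg
  simpa only [mul_assoc] using h.w2 u v

theorem IM.idR (h : IM r q) (u : Wd A) :
    q u * q (invRev u) * (q u * q (invRev u)) = q u * q (invRev u) := by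
  rw [← mul_assoc, h.w1]

theorem IM.idL (h : IM r q) (u : Wd A) :
    q (invRev u) * q u * (q (invRev u) * q u) = q (invRev u) * q u := by
  rw [← mul_assoc, h.w1']

theorem IM.le_red (h : IM r q) {w w' : Wd A} (hr : Red w w') :
    ∃ f, f * f = f ∧ q w = f * q w' := by
  induction hr with
  | refl => exact ⟨1, one_mul 1, (one_mul _).symm⟩
  | tail _ h2 ih =>
    obtain ⟨f, hf, ih⟩ := ih
    obtain @⟨a, b, x, c⟩ := h2
    have e1 : a ++ (x, c) :: (x, !c) :: b = a ++ ([(x, c)] ++ invRev [(x, c)]) ++ b := by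
      simp [invRev]
    have e2 := h.comm (h.idR [(x, c)]) (h.idL a)
    have e3 := h.idR (a ++ [(x, c)])
    refine ⟨f * (q (a ++ [(x, c)]) * q (invRev (a ++ [(x, c)]))), ?_, ?_⟩
    · generalize q (a ++ [(x, c)]) * q (invRev (a ++ [(x, c)])) = g at e3 ⊢
      rw [mul_assoc, ← mul_assoc g, ← h.comm hf e3, mul_assoc, e3, ← mul_assoc, hf]
    · rw [ih, e1, invRev_append]
      simp only [h.app, mul_assoc] at e2 ⊢
      congr 1
      calc q a * (q [(x, c)] * (q (invRev [(x, c)]) * q b))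
          = q a * q (invRev a) * q a * (q [(x, c)] * (q (invRev [(x, c)]) * q b)) := by rw [h.w1]
        _ = q a * (q (invRev a) * (q a * (q [(x, c)] * q (invRev [(x, c)])))) * q b := by
          simp only [mul_assoc]
        _ = _ := by rw [← e2]; simp only [mul_assoc]

theorem IM.eq_red (h : IM r q) {w w' : Wd A} (hr : Red w w') :
    q w = q w * q (invRev w) * q w' := by
  obtain ⟨f, hf, e⟩ := h.le_red hr
  have e1 : f * q w = q w := by rw [e, ← mul_assoc, hf]
  have e2 : q w * q (invRev w) * f = q w * q (invRev w) := by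
    rw [← h.comm hf (h.idR w), ← mul_assoc, e1]
  rw [← e2, mul_assoc _ f, ← e, h.w1]

theorem IM.eq_of_R (h : IM r q) {w w' : Wd A} (e : mk w = mk w')
    (h1 : q w * q (invRev w) = q w' * q (invRev w')) : q w = q w' := by
  obtain ⟨v, a1, a2⟩ := Red.exact.1 e
  rw [h.eq_red a1, h.eq_red a2, h1]

theorem IM.inv_eq (h : IM r q) {u : Wd A} {b : M} (h1 : q u * b * q u = q u)
    (h2 : b * q u * b = b) : q (invRev u) = b := by
  have a1 := h.w1 u
  have a2 := h.w1' u
  have c1 := h.comm (h.idR u) (f := q u * q (invRev u)) (g := q u * b) (by rw [← mul_assoc, h1])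
  have c2 := h.comm (h.idL u) (f := q (invRev u) * q u) (g := b * q u) (by rw [← mul_assoc, h2])
  generalize q u = a at *
  generalize q (invRev u) = a' at *
  have d1 : a * a' = a * b := by
    calc a * a' = a * b * a * a' := by rw [h1]
      _ = a * a' * (a * b) := by rw [c1]; simp only [mul_assoc]
      _ = a * b := by rw [← mul_assoc, a1]
  have d2 : a' * a = b * a := by
    calc a' * a = a' * (a * b * a) := by rw [h1]
      _ = b * a * (a' * a) := by rw [← c2]; simp only [mul_assoc]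
      _ = b * (a * a' * a) := by simp only [mul_assoc]
      _ = b * a := by rw [a1]
  calc a' = a' * a * a' := a2.symm
    _ = b * (a * a') := by rw [d2, mul_assoc]
    _ = b := by rw [d1, ← mul_assoc, h2]

/-- The vertices of the graph attached to an idempotent. -/
def Ve (q : Wd A → M) (e : M) : Set (FreeGroup A) := {x | ∃ u, mk u = x ∧ q u * q (invRev u) = e}

/-- The group generated by the cells attached to the vertices. -/
def Ne (r : Wd A) (q : Wd A → M) (e : M) : Subgroup (FreeGroup A) :=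
  Subgroup.closure {x | ∃ p ∈ Ve q e, x = p * mk r * p⁻¹}

theorem IM.word_Ne (h : IM r q) {e : M} (he : e * e = e) {n : FreeGroup A} (hn : n ∈ Ne r q e) :
    ∃ w, mk w = n ∧ q w = e := by
  induction hn using Subgroup.closure_induction with
  | mem x hx =>
    obtain ⟨_, ⟨w, rfl, hw⟩, rfl⟩ := hx
    exact ⟨w ++ r ++ invRev w, by rw [inv_mk, mul_mk, mul_mk],
      by rw [h.app, h.app, h.rel, mul_one, hw]⟩
  | one =>
    obtain ⟨u, hu⟩ := h.idem he
    exact ⟨u ++ invRev u, by rw [← mul_mk, ← inv_mk, mul_inv_cancel], by rw [h.app, hu]⟩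
  | mul x y _ _ hx hy =>
    obtain ⟨w, rfl, hw⟩ := hx
    obtain ⟨w', rfl, hw'⟩ := hy
    exact ⟨w ++ w', rfl, by rw [h.app, hw, hw', he]⟩
  | inv x _ hx =>
    obtain ⟨w, rfl, hw⟩ := hx
    exact ⟨invRev w, inv_mk.symm, h.inv_eq (by rw [hw, he, he]) (by rw [hw, he, he])⟩

theorem IM.Ve_mul (h : IM r q) {e : M} (he : e * e = e) {n g : FreeGroup A} (hn : n ∈ Ne r q e)
    (hg : g ∈ Ve q e) : n * g ∈ Ve q e := by
  obtain ⟨w, rfl, hw⟩ := h.word_Ne he hn
  obtain ⟨u, rfl, hu⟩ := hg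
  refine ⟨w ++ u, rfl, ?_⟩
  rw [invRev_append, h.app, h.app, mul_assoc, ← mul_assoc (q u), hu,
    h.inv_eq (u := w) (b := e) (by rw [hw, he, he]) (by rw [hw, he, he]), hw, he, he]

theorem IM.DD_congr (h : IM r q) {e : M} (he : e * e = e) {g g' : FreeGroup A}
    (hg : mkV (Ne r q e) g = mkV (Ne r q e) g') (w : Wd A) :
    DD (Ve q e) g w ↔ DD (Ve q e) g' w := by
  have key : ∀ {g g'}, mkV (Ne r q e) g = mkV (Ne r q e) g' → g ∈ Ve q e → g' ∈ Ve q e := by
    intro g g' e1 e2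
    obtain ⟨n', hn', rfl⟩ := exists_of_mkV e1
    exact h.Ve_mul he hn' e2
  induction w generalizing g g' with
  | nil => exact ⟨key hg, key hg.symm⟩
  | cons x w ih => exact and_congr ⟨key hg, key hg.symm⟩ (ih (mkV_right hg _))

theorem IM.DD_of (h : IM r q) {e : M} {u : Wd A} (hu : q u * q (invRev u) = e) {v : Wd A}
    (hv : e * q u * q v * q (invRev v) = e * q u) : DD (Ve q e) (mk u) v := by
  have he : e * q u = q u := by rw [← hu, h.w1]
  rw [he] at hv
  have h0 : ∀ a b, a ++ b = v → mk u * mk a ∈ Ve q e := by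
    rintro a b rfl
    refine ⟨u ++ a, rfl, ?_⟩
    have e1 : q u * (q a * q (invRev a)) = q u := by
      have c := h.comm (h.idR a) (h.idR (a ++ b))
      rw [← hv, mul_assoc (q u) (q (a ++ b)), mul_assoc (q u), ← c, h.app, ← mul_assoc (q a * _),
        ← mul_assoc (q a * _), h.w1]
    rw [invRev_append, h.app, h.app, mul_assoc, ← mul_assoc (q a), ← mul_assoc, e1, hu]
  have key : ∀ b a, a ++ b = v → DD (Ve q e) (mk u * mk a) b := by
    intro b
    induction b with
    | nil => exact fun a e => h0 a _ e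
    | cons x b ih =>
      intro a e
      refine ⟨h0 a _ e, ?_⟩
      rw [mul_assoc, mul_mk]
      exact ih _ (by simpa using e)
  simpa [← one_eq_mk] using key v [] rfl

/-- Words acting in the same way on the graph attached to an idempotent. -/
def IM.Se (h : IM r q) {e : M} (he : e * e = e) : Con (FreeMonoid (A × Bool)) where
  r w w' := ∀ g, (DD (Ve q e) g w.toList ↔ DD (Ve q e) g w'.toList) ∧ (DD (Ve q e) g w.toList →
    mkV (Ne r q e) (g * mk w.toList) = mkV (Ne r q e) (g * mk w'.toList))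
  iseqv := ⟨fun _ _ => ⟨Iff.rfl, fun _ => rfl⟩,
    fun h g => ⟨(h g).1.symm, fun e => ((h g).2 ((h g).1.2 e)).symm⟩,
    fun h h' g => ⟨(h g).1.trans (h' g).1, fun e => ((h g).2 e).trans ((h' g).2 ((h g).1.1 e))⟩⟩
  mul' := fun {a a' b b'} h1 h' g => by
    simp only [FreeMonoid.toList_mul, DD_append, ← mul_mk, ← mul_assoc]
    refine ⟨⟨fun e => ⟨(h1 g).1.1 e.1, (h.DD_congr he ((h1 g).2 e.1) _).1 ((h' _).1.1 e.2)⟩,
      fun e => ?_⟩, fun e => ((h' _).2 e.2).trans (mkV_right ((h1 g).2 e.1) _)⟩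
    have e1 := (h1 g).1.2 e.1
    exact ⟨e1, (h' _).1.2 ((h.DD_congr he ((h1 g).2 e1) _).2 e.2)⟩

theorem IM.sub (h : IM r q)
    (act : ∀ (e : M) (he : e * e = e) (w w' : Wd A), q w = q w' →
      h.Se he (FreeMonoid.ofList w) (FreeMonoid.ofList w'))
    {G : Type*} [Group G] (φ : G →ₙ* M) (hφ : Function.Injective φ) {I : Type} (g : I → G) :
    ∃ (N : Subgroup (FreeGroup A)) (ρ : FreeGroup I →* FreeGroup A),
      (N = ⊥ ∨ ∃ (L : ℕ) (s : ℕ → A × Bool), 0 < L ∧ Per L s ∧ Rd s ∧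
        N ≤ NC L s {g | lp L s g ∈ N}) ∧ (∀ ω, ∀ n ∈ N, ρ ω * n * (ρ ω)⁻¹ ∈ N) ∧
      ∀ ω, FreeGroup.lift g ω = 1 ↔ ρ ω ∈ N := by
  have he : φ 1 * φ 1 = φ 1 := by rw [← map_mul, mul_one]
  obtain ⟨u0, hu0⟩ := h.idem he
  have e0 : q (u0 ++ invRev u0) = φ 1 := by rw [h.app, hu0]
  have m0 : mk (u0 ++ invRev u0) = 1 := by rw [← mul_mk, ← inv_mk, mul_inv_cancel]
  have hinv : ∀ u x, q u = φ x → q (invRev u) = φ x⁻¹ := fun u x e =>
    h.inv_eq (by rw [e, ← map_mul, ← map_mul]; simp) (by rw [e, ← map_mul, ← map_mul]; simp)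
  have hN : ∀ w, q w = φ 1 → mk w ∈ Ne r q (φ 1) := fun w hw => by
    have a1 := act _ he _ _ (e0.trans hw.symm) 1
    have a2 : DD (Ve q (φ 1)) 1 (u0 ++ invRev u0) := by
      have i0 := hinv _ _ e0
      rw [inv_one] at i0
      have := h.DD_of (u := u0 ++ invRev u0) (e := φ 1) (v := u0 ++ invRev u0)
        (by rw [i0, e0, he]) (by rw [i0, e0, he, he, he])
      rwa [m0] at this
    have a3 := a1.2 a2
    simpa [m0] using mkV_eq.1 a3
  choose wd hwd using fun i => h.surj (φ (g i))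
  let ρ : FreeGroup I →* FreeGroup A := FreeGroup.lift fun i => mk (wd i)
  have key : ∀ ω, ∃ w, mk w = ρ ω ∧ q w = φ (FreeGroup.lift g ω) := by
    intro ω
    induction ω using FreeGroup.induction_on with
    | C1 => exact ⟨_, by rw [m0, map_one], by rw [e0, map_one (FreeGroup.lift g)]⟩
    | of i => exact ⟨wd i, by simp [ρ], by simp [hwd]⟩
    | inv_of i _ => exact ⟨invRev (wd i), by simp [ρ, inv_mk], by simp [hinv _ _ (hwd i)]⟩
    | mul x y hx hy =>
      obtain ⟨w, a1, a2⟩ := hx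
      obtain ⟨w', b1, b2⟩ := hy
      exact ⟨w ++ w', by rw [← mul_mk, a1, b1, map_mul], by rw [h.app, a2, b2, map_mul, map_mul]⟩
  refine ⟨Ne r q (φ 1), ρ, ?_, fun ω n hn => ?_, fun ω => ?_⟩
  · rcases exists_cyc (mk r) with h0 | ⟨L, s, u, h1, h2, h3, h4⟩
    · left
      refine eq_bot_iff.2 ((Subgroup.closure_le _).2 ?_)
      rintro _ ⟨p, -, rfl⟩
      simp [h0]
    · refine Or.inr ⟨L, s, h1, h2, h3, (Subgroup.closure_le _).2 ?_⟩
      rintro _ ⟨p, hp, rfl⟩
      have : p * mk r * p⁻¹ ∈ Ne r q (φ 1) := Subgroup.subset_closure ⟨p, hp, rfl⟩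
      rw [h4, ← lp_conj] at this ⊢
      exact lp_mem this
  · obtain ⟨w, a1, a2⟩ := key ω
    obtain ⟨v, rfl, hv⟩ := h.word_Ne he hn
    have := hN (w ++ v ++ invRev w) (by
      rw [h.app, h.app, hv, hinv _ _ a2, a2, ← map_mul, ← map_mul]; simp)
    rwa [← mul_mk, ← mul_mk, ← inv_mk, a1] at this
  · obtain ⟨w, a1, a2⟩ := key ω
    rw [← a1]
    refine ⟨fun e => hN w (by rw [a2, e]), fun e => hφ ?_⟩
    obtain ⟨v, b1, b2⟩ := h.word_Ne he e
    rw [← a2, ← b2]
    refine h.eq_of_R b1.symm ?_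
    rw [hinv _ _ a2, hinv _ _ b2, a2, b2, ← map_mul, ← map_mul]; simp

/-- Subgroups of the inverse monoid with one relation. -/
theorem sub_quot (r : FreeMonoid (A × Bool)) (ι : FreeMonoid (A × Bool) → FreeMonoid (A × Bool))
    (c : Con (FreeMonoid (A × Bool)))
    (hι : ∀ w, ι w = FreeMonoid.ofList ((FreeMonoid.toList w).reverse.map fun p => (p.1, !p.2)))
    (hc : c = conGen fun x y => (∃ u, x = u * ι u * u ∧ y = u) ∨
      (∃ u v, x = u * ι u * v * ι v ∧ y = v * ι v * u * ι u) ∨ (x = r ∧ y = 1))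
    {G : Type*} [Group G] (φ : G →ₙ* c.Quotient) (hφ : Function.Injective φ) {I : Type}
    (g : I → G) :
    ∃ (N : Subgroup (FreeGroup A)) (ρ : FreeGroup I →* FreeGroup A),
      (N = ⊥ ∨ ∃ (L : ℕ) (s : ℕ → A × Bool), 0 < L ∧ Per L s ∧ Rd s ∧
        N ≤ NC L s {g | lp L s g ∈ N}) ∧ (∀ ω, ∀ n ∈ N, ρ ω * n * (ρ ω)⁻¹ ∈ N) ∧
      ∀ ω, FreeGroup.lift g ω = 1 ↔ ρ ω ∈ N := by
  have h := im_quot r ι c hι hc
  refine h.sub (fun e he w w' hw => ?_) φ hφ g
  have h1 : ∀ w, ι w = FreeMonoid.ofList (invRev w.toList) := fun w => by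
    rw [hι, invRev, List.map_reverse]
  have h2 : c ≤ h.Se he := by
    refine hc.le.trans (Con.conGen_le.2 ?_)
    rintro _ _ (⟨u, rfl, rfl⟩ | ⟨u, v, rfl, rfl⟩ | ⟨rfl, rfl⟩) g
    · simp only [h1, FreeMonoid.toList_mul, FreeMonoid.toList_ofList, DD_append, ← mul_mk, ← inv_mk,
        mul_inv_cancel, mul_one, one_mul]
      exact ⟨⟨fun e => e.2, fun e => ⟨⟨e, e.inv⟩, e⟩⟩, fun _ => trivial⟩
    · simp only [h1, FreeMonoid.toList_mul, FreeMonoid.toList_ofList, DD_append, ← mul_mk, ← inv_mk,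
        mul_inv_cancel, mul_one, one_mul]
      exact ⟨by tauto, fun _ => trivial⟩
    · refine ⟨⟨fun e => e.start, fun e => ?_⟩, fun e => ?_⟩
      · obtain ⟨u, rfl, hu⟩ := e
        refine h.DD_of hu ?_
        have := h.ru (y := 1) (by rw [h.rel, mul_one])
        rw [mul_assoc, this, mul_one]
      · rw [eq_comm, mkV_eq]
        simpa [← one_eq_mk, Ne] using
          (Subgroup.subset_closure ⟨g, e.start, rfl⟩ : g * mk _ * g⁻¹ ∈ Ne _ _ _)
  exact h2 ((Con.eq c).1 hw)

end Pool.Agent.P.MP_caa3d2_al
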