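import Pool.Agent.P.MP_caa3d2_al.Seq

/-!
The dichotomy: either a letter determines the future, or some infinite cyclic cover separates
two occurrences of a letter.
-/

set_option autoImplicit false

namespace Pool.Agent.P.MP_caa3d2_al

open FreeGroup hiding map_mul map_one map_inv

variable {B : Type}

theorem base_of_two {L : ℕ} (hL : 0 < L) {s : ℕ → B × Bool} (hP : Per L s) (hR : Rd s)
    {W : Type} (src : B × Bool → W)
    (h1 : ∀ p, src (s (p + 1)) = src (nv (s p)))
    (h2 : ∀ p q y, (y = s q ∨ y = nv (s q)) → src y = src (s (p + 1)) →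
      y = s (p + 1) ∨ y = nv (s p)) : Base s := by
  have ha : ∀ p q, s p = s q → s (p + 1) = s (q + 1) := by
    intro p q h
    rcases h2 p (q + 1) (s (q + 1)) (Or.inl rfl) (by rw [h1, h1, h]) with h3 | h3
    · exact h3.symm
    · exact absurd (h3.trans (by rw [h])) (hR q)
  have hb : ∀ d p, s (p + d) ≠ nv (s p) := by
    intro d
    induction d using Nat.strong_induction_on with
    | _ d ih =>
      intro p h
      rcases d with _ | _ | d
      · exact nv_ne _ h.symm
      · exact hR p h
      · have e1 : src (nv (s (p + d + 1))) = src (s (p + 1)) := by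
          rw [← h1, h1 p, ← h]; rfl
        rcases h2 p (p + d + 1) _ (Or.inr rfl) e1 with h3 | h3
        · apply ih d (by omega) (p + 1)
          rw [← h3, nv_nv]; congr 1; omega
        · have h4 : s (p + d + 1) = s p := by rw [← nv_nv (s (p + d + 1)), h3, nv_nv]
          apply hR (p + d + 1)
          rw [h4, ← h]; rfl
  intro p q h k
  have h0 : s p = s q := by
    by_contra hne
    have h5 : s q = nv (s p) := by
      refine Prod.ext h.symm ?_
      have : (s p).2 ≠ (s q).2 := fun e => hne (Prod.ext h e)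
      simp only [nv]
      revert this
      cases (s p).2 <;> cases (s q).2 <;> simp
    apply hb (q + L * p - p) p
    have : p ≤ L * p := Nat.le_mul_of_pos_left _ hL
    rw [show p + (q + L * p - p) = q + L * p by omega, hP.mul, h5]
  induction k with
  | zero => exact h0
  | succ k ih => exact ha _ _ ih

theorem base_of_rank {L : ℕ} (hL : 0 < L) {s : ℕ → B × Bool} (hP : Per L s) (hR : Rd s)
    {W : Type} [AddCommGroup W] [Module ℚ W] (π : FreeGroup B → W)
    (hπ : ∀ g h, π (g * h) = π g + π h) (h0 : π (pre s L) = 0)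
    (hs : ∀ p q, (s p).1 = (s q).1 → π (opre s p) = π (opre s q))
    (hr : ∀ T : Submodule ℚ W, Module.Finite ℚ T → (∀ a ∈ lets s, π (FreeGroup.of a) ∈ T) →
      (lets s).ncard ≤ Module.finrank ℚ T + 1) : Base s := by
  classical
  have π1 : π 1 = 0 := by
    have := hπ 1 1
    rw [mul_one] at this
    exact left_eq_add.1 this
  let v : ℕ → W := fun p => π (pre s p)
  have vper : ∀ p, v (p + L) = v p := fun p => by
    simp only [v]; rw [hP.pre_add, hπ, h0, zero_add]
  have vmod : ∀ p, v (p % L) = v p := fun p => by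
    conv_rhs => rw [← Nat.mod_add_div p L]
    generalize p / L = k
    induction k with
    | zero => rfl
    | succ k ih => rw [Nat.mul_succ, ← Nat.add_assoc, vper, ih]
  let O : B → W := fun a => if h : ∃ p, (s p).1 = a then π (opre s h.choose) else 0
  have hO : ∀ p, O (s p).1 = π (opre s p) := fun p => by
    have h : ∃ q, (s q).1 = (s p).1 := ⟨p, rfl⟩
    simp only [O, dif_pos h]
    exact hs _ _ h.choose_spec
  let src : B × Bool → W := fun y => if y.2 then O y.1 else O y.1 + π (FreeGroup.of y.1)
  have s1 : ∀ p, src (s p) = v p := fun p => by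
    simp only [src, hO, ← hπ, opre_mul, v]
    unfold opre
    cases (s p).2 <;> simp
  have s2 : ∀ p, src (nv (s p)) = v (p + 1) := fun p => by
    simp only [src, nv, hO, ← hπ, opre_mul, v]
    unfold opre
    cases (s p).2 <;> simp
  let Vx : Finset W := (Finset.range L).image v
  have hV : ∀ p, v p ∈ Vx := fun p =>
    Finset.mem_image.2 ⟨p % L, Finset.mem_range.2 (Nat.mod_lt _ hL), vmod p⟩
  have hfin := lets_finite hL hP
  let HE : Finset (B × Bool) := hfin.toFinset ×ˢ Finset.univ
  have hHE : HE.card = 2 * (lets s).ncard := by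
    simp only [HE, Finset.card_product, Finset.card_univ, Fintype.card_bool]
    rw [Set.ncard_eq_toFinset_card _ hfin]; ring
  have mHE : ∀ p, s p ∈ HE ∧ nv (s p) ∈ HE := fun p => by
    simp only [HE, Finset.mem_product, Set.Finite.mem_toFinset, Finset.mem_univ, and_true, nv]
    exact ⟨⟨p, rfl⟩, ⟨p, rfl⟩⟩
  have hcard : (lets s).ncard ≤ Vx.card := by
    have h3 := hr (Submodule.span ℚ ((Vx.erase 0 : Finset W) : Set W))
      (Module.Finite.span_of_finite ℚ (Finset.finite_toSet _)) (by
        rintro a ⟨p, rfl⟩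
        have hm : ∀ q, v q ∈ Submodule.span ℚ ((Vx.erase 0 : Finset W) : Set W) := fun q => by
          by_cases h : v q = 0
          · rw [h]; exact zero_mem _
          · exact Submodule.subset_span (by simp [h, hV q])
        have e1 := s1 p
        have e2 := s2 p
        simp only [src, nv] at e1 e2
        cases hb : (s p).2
        · rw [hb] at e1 e2
          simp only [Bool.false_eq_true, if_false, Bool.not_false, if_true] at e1 e2
          have : π (FreeGroup.of (s p).1) = v p - v (p + 1) := by rw [← e1, ← e2]; abel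
          show π (FreeGroup.of (s p).1) ∈ _
          rw [this]; exact sub_mem (hm _) (hm _)
        · rw [hb] at e1 e2
          simp only [Bool.false_eq_true, if_false, Bool.not_true, if_true] at e1 e2
          have : π (FreeGroup.of (s p).1) = v (p + 1) - v p := by rw [← e1, ← e2]; abel
          show π (FreeGroup.of (s p).1) ∈ _
          rw [this]; exact sub_mem (hm _) (hm _))
    have h4 := finrank_span_finset_le_card (R := ℚ) (Vx.erase 0)
    have h5 : (0 : W) ∈ Vx := by
      have := hV 0
      simpa [v, π1] using this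
    have h6 := Finset.card_erase_add_one h5
    unfold Set.finrank at h4
    omega
  have hmaps : ∀ y ∈ HE, src y ∈ Vx := by
    intro y hy
    simp only [HE, Finset.mem_product, Set.Finite.mem_toFinset, Finset.mem_univ, and_true] at hy
    obtain ⟨p, hp⟩ := hy
    by_cases hb : y.2 = (s p).2
    · have : y = s p := Prod.ext hp.symm hb
      rw [this, s1]; exact hV _
    · have : y = nv (s p) := Prod.ext hp.symm (by
        simp only [nv]; revert hb; cases y.2 <;> cases (s p).2 <;> simp)
      rw [this, s2]; exact hV _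
  have hsum := Finset.card_eq_sum_card_fiberwise hmaps
  have hpair : ∀ p, ({s (p + 1), nv (s p)} : Finset (B × Bool)) ⊆
      HE.filter fun y => src y = v (p + 1) := by
    intro p y hy
    simp only [Finset.mem_insert, Finset.mem_singleton] at hy
    rcases hy with rfl | rfl
    · exact Finset.mem_filter.2 ⟨(mHE _).1, s1 _⟩
    · exact Finset.mem_filter.2 ⟨(mHE _).2, s2 _⟩
  have hge : ∀ w ∈ Vx, 2 ≤ (HE.filter fun y => src y = w).card := by
    intro w hw
    obtain ⟨p, -, rfl⟩ := Finset.mem_image.1 hw
    have : v p = v (p + (L - 1) + 1) := by rw [← vper p]; congr 1; omega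
    rw [this]
    refine le_trans ?_ (Finset.card_le_card (hpair _))
    rw [Finset.card_pair (hR _)]
  have heq : ∀ w ∈ Vx, (HE.filter fun y => src y = w).card = 2 := by
    have h7 : ∑ w ∈ Vx, 2 = ∑ w ∈ Vx, (HE.filter fun y => src y = w).card := by
      apply le_antisymm (Finset.sum_le_sum hge)
      rw [← hsum, hHE]; simp; omega
    intro w hw
    exact ((Finset.sum_eq_sum_iff_of_le hge).1 h7 w hw).symm
  refine base_of_two hL hP hR src (fun p => by rw [s1, s2]) ?_
  intro p q y hy h
  have hyHE : y ∈ HE := by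
    rcases hy with rfl | rfl
    · exact (mHE _).1
    · exact (mHE _).2
  have h8 := Finset.eq_of_subset_of_card_le (hpair p) (by
    rw [heq _ (hV _), Finset.card_pair (hR _)])
  have : y ∈ ({s (p + 1), nv (s p)} : Finset (B × Bool)) := by
    rw [h8]; exact Finset.mem_filter.2 ⟨hyHE, by rw [h, s1]⟩
  simpa using this

theorem dichotomy {L : ℕ} (hL : 0 < L) {s : ℕ → B × Bool} (hP : Per L s) (hR : Rd s) :
    Base s ∨ ∃ φ : B → ℤ, (∃ Φ : ℕ, ∀ b, (φ b).natAbs ≤ Φ) ∧ hv φ (pre s L) = 0 ∧
      ∃ p q, (s p).1 = (s q).1 ∧ hv φ (opre s p) ≠ hv φ (opre s q) := by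
  classical
  by_contra hc
  rw [not_or] at hc
  obtain ⟨hb, hc⟩ := hc
  apply hb
  have H : ∀ φ : B → ℤ, (∃ Φ : ℕ, ∀ b, (φ b).natAbs ≤ Φ) → hv φ (pre s L) = 0 →
      ∀ p q, (s p).1 = (s q).1 → hv φ (opre s p) = hv φ (opre s q) := by
    intro φ h1 h2 p q h3
    by_contra h4
    exact hc ⟨φ, h1, h2, p, q, h3, h4⟩
  let ind : B → B → ℤ := fun b c => if c = b then 1 else 0
  let X : FreeGroup B → B → ℚ := fun g b => (hv (ind b) g : ℚ)
  have Xm : ∀ g h, X (g * h) = X g + X h := fun g h => by ext b; simp [X]
  have Xo : ∀ a, X (FreeGroup.of a) = Pi.single a 1 := fun a => by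
    ext b
    simp only [X, hv_of, ind, Pi.single_apply]
    by_cases h : a = b
    · simp [h]
    · simp [h, Ne.symm h]
  let σ := X (pre s L)
  let S : Submodule ℚ (B → ℚ) := Submodule.span ℚ {σ}
  have hS : ∀ p q, (s p).1 = (s q).1 → X (opre s p) - X (opre s q) ∈ S := by
    intro p q h
    by_cases hσ : σ = 0
    · have : X (opre s p) - X (opre s q) = 0 := by
        ext b
        have h1 : hv (ind b) (pre s L) = 0 := by
          have := congrFun hσ b
          simpa [σ, X] using this
        have := H (ind b) ⟨1, fun c => by simp only [ind]; split_ifs <;> simp⟩ h1 p q h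
        simp [X, this]
      rw [this]; exact zero_mem _
    · obtain ⟨a, ha⟩ := Function.ne_iff.1 hσ
      refine Submodule.mem_span_singleton.2 ⟨(X (opre s p) a - X (opre s q) a) / σ a, ?_⟩
      ext b
      have := H (fun c => hv (ind a) (pre s L) * ind b c - hv (ind b) (pre s L) * ind a c)
        ⟨(hv (ind a) (pre s L)).natAbs + (hv (ind b) (pre s L)).natAbs, fun c => by
          simp only [ind]; split_ifs <;> (simp; try omega)⟩
        (by rw [hv_lin]; ring) p q h
      rw [hv_lin, hv_lin] at this
      have h2 := congrArg (fun z : ℤ => (z : ℚ)) this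
      simp only [Int.cast_sub, Int.cast_mul] at h2
      simp only [Pi.smul_apply, Pi.sub_apply, smul_eq_mul]
      have ha' : σ a ≠ 0 := ha
      field_simp
      simp only [σ, X]
      linarith
  refine base_of_rank hL hP hR (W := (B → ℚ) ⧸ S) (fun g => S.mkQ (X g))
    (fun g h => by rw [Xm, map_add]) ?_ ?_ ?_
  · exact (Submodule.Quotient.mk_eq_zero S).2 (Submodule.subset_span rfl)
  · intro p q h
    exact (Submodule.Quotient.eq S).2 (hS p q h)
  · intro T hT hmem
    have hfin := lets_finite hL hP
    let _ : Fintype (lets s) := hfin.fintype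
    let g : (lets s → ℚ) →ₗ[ℚ] (B → ℚ) :=
      Fintype.linearCombination ℚ fun a : lets s => (Pi.single a.1 1 : B → ℚ)
    have hg : Function.Injective g := by
      rw [← LinearMap.ker_eq_bot, LinearMap.ker_eq_bot']
      intro m hm
      ext a
      have := congrFun hm a.1
      simp only [g, Fintype.linearCombination_apply, Finset.sum_apply, Pi.smul_apply,
        Pi.single_apply, smul_eq_mul, Pi.zero_apply] at this
      rw [Finset.sum_eq_single a] at this
      · simpa using this
      · intro b _ hb
        rw [if_neg (fun e => hb (Subtype.ext e.symm)), mul_zero]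
      · simp
    let f := S.mkQ.comp g
    have h1 := LinearMap.finrank_range_add_finrank_ker f
    have h2 : Module.finrank ℚ (LinearMap.ker f) ≤ Module.finrank ℚ S := by
      have : Module.Finite ℚ S := Module.Finite.span_of_finite ℚ (Set.finite_singleton _)
      refine LinearMap.finrank_le_finrank_of_injective
        (f := (g.domRestrict (LinearMap.ker f)).codRestrict S ?_) ?_
      · intro c
        exact (Submodule.Quotient.mk_eq_zero S).1 c.2
      · intro a b h
        exact Subtype.ext (hg (congrArg Subtype.val h))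
    have h3 : Module.finrank ℚ S ≤ 1 := by
      have := finrank_span_le_card (R := ℚ) ({σ} : Set (B → ℚ))
      simpa using this
    have h4 : LinearMap.range f ≤ T := by
      rintro _ ⟨m, rfl⟩
      simp only [f, g, LinearMap.comp_apply, Fintype.linearCombination_apply, map_sum, map_smul]
      refine Submodule.sum_mem _ fun a _ => Submodule.smul_mem _ _ ?_
      have := hmem a.1 a.2
      rwa [Xo] at this
    have h5 := Submodule.finrank_mono h4
    rw [Module.finrank_fintype_fun_eq_card] at h1
    rw [Set.ncard_eq_toFinset_card', Set.toFinset_card]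
    omega

/-- The induction principle of the hierarchy. -/
theorem hierarchy {L : ℕ} (hL : 0 < L) (P : (B : Type) → (ℕ → B × Bool) → Prop)
    (base : ∀ B s, Per L s → Rd s → Base s → P B s)
    (step : ∀ B s, Per L s → Rd s → ∀ φ : B → ℤ, (∃ Φ : ℕ, ∀ b, (φ b).natAbs ≤ Φ) →
      hv φ (pre s L) = 0 → P (B × ℤ) (lf φ s) → P B s) :
    ∀ B s, Per L s → Rd s → P B s := by
  suffices h : ∀ n B s, Per L s → Rd s → L - (lets s).ncard = n → P B s from
    fun B s h1 h2 => h _ B s h1 h2 rfl
  intro n
  induction n using Nat.strong_induction_on with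
  | _ n ih =>
    intro B s h1 h2 h3
    rcases dichotomy hL h1 h2 with h | ⟨φ, hb, h0, p, q, h4, h5⟩
    · exact base B s h1 h2 h
    · refine step B s h1 h2 φ hb h0 (ih _ ?_ _ _ (lf_per h1 h0) (lf_rd h2) rfl)
      have := nl_lt hL h1 h0 h4 h5
      have := nl_le hL (lf_per h1 h0)
      omega

/-- Extreme heights of the occurrences of a letter. -/
theorem exists_extreme {L : ℕ} (hL : 0 < L) {φ : B → ℤ} {s : ℕ → B × Bool} (hP : Per L s)
    (h0 : hv φ (pre s L) = 0) {ε : B} (hε : ε ∈ lets s) :
    ∃ m M : ℤ, m ≤ M ∧ (∀ p, (s p).1 = ε → m ≤ hv φ (opre s p) ∧ hv φ (opre s p) ≤ M) ∧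
      (ε, m) ∈ lets (lf φ s) ∧ (ε, M) ∈ lets (lf φ s) := by
  have hf := lets_finite hL (lf_per hP h0)
  let T : Set (B × ℤ) := {x ∈ lets (lf φ s) | x.1 = ε}
  have hT : T.Finite := hf.subset fun x hx => hx.1
  have hne : T.Nonempty := by
    obtain ⟨p, hp⟩ := hε
    exact ⟨(lf φ s p).1, ⟨p, rfl⟩, hp⟩
  obtain ⟨x, hx, hx'⟩ := Set.exists_min_image T Prod.snd hT hne
  obtain ⟨y, hy, hy'⟩ := Set.exists_max_image T Prod.snd hT hne
  refine ⟨x.2, y.2, hx' y hy, fun p hp => ⟨hx' (lf φ s p).1 ⟨⟨p, rfl⟩, hp⟩,
    hy' (lf φ s p).1 ⟨⟨p, rfl⟩, hp⟩⟩, ?_, ?_⟩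
  · rw [← hx.2]; exact hx.1
  · rw [← hy.2]; exact hy.1

end Pool.Agent.P.MP_caa3d2_al
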