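import Pool.Agent.P.MP_caa3d2_al.Fox

/-!
The dimension of the space of relations takes values in a discrete set.
-/

set_option autoImplicit false

open scoped InnerProductSpace

noncomputable section

namespace Pool.Agent.P.MP_caa3d2_al

open FreeGroup hiding map_mul map_one map_inv

variable {A I U : Type} [Group U] {N N1 N2 : Subgroup (FreeGroup A)} {L : ℕ} {s : ℕ → A × Bool}
  {ρ : FreeGroup I →* FreeGroup A} {π : FreeGroup I →* U}

/-- The span of the orbits of a set of vectors. -/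
def osp {X : Type} (b : U →* Equiv.Perm X) (S : Set (L2 X)) : Submodule ℝ (L2 X) :=
  Submodule.span ℝ {y | ∃ u, ∃ x ∈ S, y = (rep b).act u x}

theorem osp_act {X : Type} (b : U →* Equiv.Perm X) {S : Set (L2 X)} (u : U) {x : L2 X}
    (hx : x ∈ S) : (rep b).act u x ∈ osp b S := Submodule.subset_span ⟨u, x, hx, rfl⟩

theorem mem_osp {X : Type} (b : U →* Equiv.Perm X) {S : Set (L2 X)} {x : L2 X}
    (hx : x ∈ S) : x ∈ osp b S := Submodule.subset_span ⟨1, x, hx, (rep_one b x).symm⟩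

theorem osp_le {X : Type} {b : U →* Equiv.Perm X} {S : Set (L2 X)} {W : Submodule ℝ (L2 X)}
    (hW : (rep b).Inv W) (h : ∀ x ∈ S, x ∈ W) : osp b S ≤ W :=
  Submodule.span_le.2 (by rintro _ ⟨u, x, hx, rfl⟩; exact hW u x (h x hx))

theorem osp_inv {X : Type} (b : U →* Equiv.Perm X) (S : Set (L2 X)) :
    (rep b).Inv (osp b S) := fun u _ hy =>
  (Submodule.span_le (p := (osp b S).comap ((rep b).act u).toLinearMap)).2 (by
    rintro _ ⟨v, x, hx, rfl⟩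
    show (rep b).act u _ ∈ osp b S
    rw [← rep_mul]; exact osp_act b _ hx) hy

/-- The chain of a path as a square-summable function. -/
abbrev fx (N : Subgroup (FreeGroup A)) (g : FreeGroup A) : L2 (Vx N × A) := toL2 (fox (mkV N) g)

@[simp] theorem fx_one : fx N 1 = 0 := by simp [fx]

/-- The edges used by a set of paths. -/
def sp (N : Subgroup (FreeGroup A)) (S : Set (FreeGroup A)) : Set (Vx N × A) :=
  ⋃ l ∈ S, ((fox (mkV N) l).support : Set (Vx N × A))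

theorem sp_finite {S : Set (FreeGroup A)} (h : S.Finite) : (sp N S).Finite :=
  h.biUnion fun _ _ => Finset.finite_toSet _

theorem fx_mem_sup (b : U →* Equiv.Perm (Vx N × A)) {S : Set (FreeGroup A)} {l : FreeGroup A}
    (h : l ∈ S) : fx N l ∈ sup (orb b (sp N S)) := fun e he => by
  by_contra h0
  exact he (mem_orb b (Set.mem_biUnion h (by simpa using h0)))

theorem exists_op_fox (h : St L s N ρ π) (Λ1 : Lv N ρ π N1) (Λ2 : Lv N ρ π N2) (le : N1 ≤ N2)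
    (θ : FreeGroup A → FreeGroup A) (h1 : ∀ n ∈ N1, ∀ g, θ (n * g) = n * θ g)
    (h2 : ∀ ω g, θ (ρ ω * g) = ρ ω * θ g) {S : Set (FreeGroup A)} (hS : S.Finite) :
    ∃ T : L2 (Vx N1 × A) →L[ℝ] L2 (Vx N2 × A), Eqv (rep (eact A Λ1.a)) (rep (eact A Λ2.a)) T ∧
      (∀ l ∈ S, T (fx N1 l) = fx N2 (θ l) - fx N2 (θ 1)) ∧
      (∀ g a, (mkV N1 g, a) ∈ orb (eact A Λ1.a) (sp N1 S) →
        T (dl (mkV N1 g, a)) = fx N2 (θ (g * FreeGroup.of a)) - fx N2 (θ g)) ∧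
      ∀ e ∉ orb (eact A Λ1.a) (sp N1 S), T (dl e) = 0 := by
  let κ : Vx N1 × A → (Vx N2 × A →₀ ℝ) := fun e =>
    fox (mkV N2) (θ (e.1.out * FreeGroup.of e.2)) - fox (mkV N2) (θ e.1.out)
  have hκ : ∀ g a, κ (mkV N1 g, a) =
      fox (mkV N2) (θ (g * FreeGroup.of a)) - fox (mkV N2) (θ g) := fun g a => by
    obtain ⟨n, hn, e⟩ := exists_of_mkV (N := N1) (Quotient.out_eq (mkV N1 g)).symm
    simp only [κ]
    rw [e, mul_assoc, h1 n hn, h1 n hn, fox_mul (le hn), fox_mul (le hn)]; abel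
  obtain ⟨T, t1, t2, t3⟩ := exists_op (Λ1.free h).eact (Λ2.free h).eact (sp_finite (N := N1) hS) κ
    (by
      rintro u ⟨v, a⟩
      obtain ⟨ω, rfl⟩ := h.surj u
      obtain ⟨g, rfl⟩ := mkV_surj v
      rw [eact_apply, Λ1.ha, hκ, hκ, mul_assoc, h2, h2, map_sub, map_sub, map_sub, Λ2.fox_act,
        Λ2.fox_act ω (θ g)]
      abel)
  refine ⟨T, t1, fun l hl => ?_, fun g a he => by rw [t2 _ he, hκ, map_sub], t3⟩
  rw [op_toL2 t2 (fx_mem_sup _ hl)]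
  exact fox_uniq (mkV N1) (toL2 ∘ₗ Finsupp.linearCombination ℝ κ) (fun g => fx N2 (θ g))
    (fun g a => by simp [hκ]) l

/-- The boundaries of the cells in the orbits of a set. -/
def Lv.B (Λ : Lv N ρ π N1) (L : ℕ) (s : ℕ → A × Bool) (G : Set (FreeGroup A)) :
    Submodule ℝ (L2 (Vx N1 × A)) := osp (eact A Λ.a) (fx N1 '' (lp L s '' G))

/-- The chains whose image is a limit of boundaries. -/
def Lv.Q (Λ : Lv N ρ π N1) (L : ℕ) (s : ℕ → A × Bool) (G : Set (FreeGroup A)) :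
    Submodule ℝ (L2 (U × I)) := (cl (Λ.B L s G)).comap Λ.ι.toLinearMap

theorem Lv.Q_inv (Λ : Lv N ρ π N1) (G : Set (FreeGroup A)) :
    (rep (eact I (lm U))).Inv (Λ.Q L s G) := Λ.eqv.comap (osp_inv _ _).cl

theorem Lv.Q_closed (Λ : Lv N ρ π N1) (G : Set (FreeGroup A)) :
    IsClosed (Λ.Q L s G : Set (L2 (U × I))) := (cl_closed _).preimage Λ.ι.continuous

theorem Lv.iota_dl (Λ : Lv N ρ π N1) (x : U × I) :
    Λ.ι (dl x) = (rep (eact A Λ.a)).act x.1 (fx N1 (ρ (FreeGroup.of x.2))) := by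
  rw [fx, ← Λ.gen, ← Λ.eqv, rep_dl]
  simp [eact_apply]

/-- The generators of the auxiliary subgroup. -/
def gens (L : ℕ) (s : ℕ → A × Bool) (ρ : FreeGroup I →* FreeGroup A) (G : Set (FreeGroup A)) :
    Set (FreeGroup A) := (Set.range fun i => ρ (FreeGroup.of i)) ∪ lp L s '' G

theorem gens_finite [Finite I] {G : Set (FreeGroup A)} (hG : G.Finite) : (gens L s ρ G).Finite :=
  (Set.finite_range _).union (hG.image _)

theorem Q_mono [Finite I] (h : St L s N ρ π) (Λ1 : Lv N ρ π N1) (Λ2 : Lv N ρ π N2) (le : N1 ≤ N2)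
    {G G' : Set (FreeGroup A)} (hG : G.Finite) (hG' : G ⊆ G') : Λ1.Q L s G ≤ Λ2.Q L s G' := by
  obtain ⟨T, t1, t2, -⟩ := exists_op_fox h Λ1 Λ2 le id (fun _ _ _ => rfl) (fun _ _ => rfl)
    (gens_finite (L := L) (s := s) (ρ := ρ) hG)
  simp only [id, fx_one, sub_zero] at t2
  intro x hx
  have e : T (Λ1.ι x) = Λ2.ι x := ext_dl2 fun y _ => by
    rw [Λ1.iota_dl, Λ2.iota_dl, t1, t2 _ (Or.inl ⟨_, rfl⟩)]
  show Λ2.ι x ∈ cl _
  rw [← e]
  refine cl_span_map T ?_ hx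
  rintro _ ⟨u, _, ⟨_, ⟨g, hg, rfl⟩, rfl⟩, rfl⟩
  rw [t1, t2 _ (Or.inr ⟨g, hg, rfl⟩)]
  exact le_cl _ (osp_act _ _ ⟨_, ⟨g, hG' hg, rfl⟩, rfl⟩)

/-- The auxiliary subgroup. -/
def LG (L : ℕ) (s : ℕ → A × Bool) (ρ : FreeGroup I →* FreeGroup A) (G : Set (FreeGroup A)) :
    Subgroup (FreeGroup A) := Subgroup.closure (gens L s ρ G)

theorem rho_mem (G : Set (FreeGroup A)) (ω : FreeGroup I) : ρ ω ∈ LG L s ρ G := by
  induction ω using FreeGroup.induction_on with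
  | C1 => simp
  | of i => exact Subgroup.subset_closure (Or.inl ⟨i, rfl⟩)
  | inv_of i ih => rw [map_inv]; exact inv_mem ih
  | mul x y hx hy => rw [map_mul]; exact mul_mem hx hy

theorem lp_mem_LG {G : Set (FreeGroup A)} {g : FreeGroup A} (hg : g ∈ G) :
    lp L s g ∈ LG L s ρ G := Subgroup.subset_closure (Or.inr ⟨g, hg, rfl⟩)

theorem LG_mono {G G' : Set (FreeGroup A)} (h : G ⊆ G') : LG L s ρ G ≤ LG L s ρ G' :=
  Subgroup.closure_mono (Set.union_subset_union_right _ (Set.image_mono h))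

theorem LG_split {G : Set (FreeGroup A)} {M : Subgroup (FreeGroup A)}
    (hG : ∀ g ∈ G, lp L s g ∈ M) (hM : ∀ ω, ∀ n ∈ M, ρ ω * n * (ρ ω)⁻¹ ∈ M) :
    ∀ l ∈ LG L s ρ G, ∃ ω, ∃ n ∈ M, l = n * ρ ω := by
  intro l hl
  induction hl using Subgroup.closure_induction with
  | mem x hx =>
    rcases hx with ⟨i, rfl⟩ | ⟨g, hg, rfl⟩
    · exact ⟨_, 1, one_mem _, (one_mul _).symm⟩
    · exact ⟨1, _, hG g hg, by simp⟩
  | one => exact ⟨1, 1, one_mem _, by simp⟩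
  | mul x y _ _ hx hy =>
    obtain ⟨ω, n, hn, rfl⟩ := hx
    obtain ⟨ω', n', hn', rfl⟩ := hy
    exact ⟨ω * ω', _, mul_mem hn (hM ω n' hn'), by simp [mul_assoc]⟩
  | inv x _ hx =>
    obtain ⟨ω, n, hn, rfl⟩ := hx
    exact ⟨ω⁻¹, _, hM ω⁻¹ _ (inv_mem hn), by simp [mul_assoc]⟩

theorem NG_nrm (h : St L s N ρ π) (G : Set (FreeGroup A)) :
    ∀ ω, ∀ n ∈ LG L s ρ G ⊓ N, ρ ω * n * (ρ ω)⁻¹ ∈ LG L s ρ G ⊓ N := fun ω n hn =>
  Subgroup.mem_inf.2 ⟨mul_mem (mul_mem (rho_mem G ω) (Subgroup.mem_inf.1 hn).1)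
    (inv_mem (rho_mem G ω)), h.nrm ω n hn.2⟩

theorem exists_lvG [Finite I] (h : St L s N ρ π) (G : Set (FreeGroup A)) :
    Nonempty (Lv N ρ π (LG L s ρ G ⊓ N)) :=
  exists_lv h inf_le_right (fun ω hω => ⟨rho_mem G ω, hω⟩) (NG_nrm h G)

/-- The standard frame on the chains of the Cayley graph. -/
def M0 (U I : Type) [Group U] [Finite I] : Fm U (L2 (U × I)) :=
  fm (lm_free (U := U)).eact (Set.finite_range fun i : I => ((1 : U), i))

theorem le_M0 [Finite I] (Z : Submodule ℝ (L2 (U × I))) : Z ≤ (M0 U I).W :=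
  fun _ _ x hx => absurd (orb_one x) hx

theorem Lv.bd_eqv (h : St L s N ρ π) (Λ : Lv N ρ π N1) :
    Eqv (rep Λ.a) (rep (eact A Λ.a)) (bdV N1 L s) := bdP_eqv (Λ.ed_eq h) _

theorem Lv.bd_mem (h : St L s N ρ π) (Λ : Lv N ρ π N1) {G : Set (FreeGroup A)}
    (hG : ∀ g ∈ G, lp L s g ∈ N1) {c : Vx N1} (hc : c ∈ Λ.cells G) :
    bdV N1 L s (dl c) ∈ Λ.B L s G := by
  obtain ⟨u, _, ⟨g, hg, rfl⟩, rfl⟩ := hc
  rw [← rep_dl, Λ.bd_eqv h, ← fox_lp (hG g hg)]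
  exact osp_act _ _ ⟨_, ⟨g, hg, rfl⟩, rfl⟩

theorem Lv.B_le (h : St L s N ρ π) (Λ : Lv N ρ π N1) {G : Set (FreeGroup A)}
    (hG : ∀ g ∈ G, lp L s g ∈ N1) {W : Submodule ℝ (L2 (Vx N1 × A))}
    (hW : ∀ c ∈ Λ.cells G, bdV N1 L s (dl c) ∈ W) : Λ.B L s G ≤ W := by
  refine Submodule.span_le.2 ?_
  rintro _ ⟨u, _, ⟨_, ⟨g, hg, rfl⟩, rfl⟩, rfl⟩
  rw [fx, fox_lp (hG g hg), ← Λ.bd_eqv h, rep_dl]
  exact hW _ ⟨u, _, ⟨g, hg, rfl⟩, rfl⟩

theorem dim_Q [Finite I] (h : St L s N ρ π) {G : Set (FreeGroup A)} (hf : G.Finite)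
    (hG : ∀ g ∈ G, lp L s g ∈ N) (hN1 : N1 = LG L s ρ G ⊓ N) (Λ : Lv N ρ π N1) :
    ∃ z : ℤ, (L.factorial : ℝ) * (M0 U I).dim (Λ.Q L s G) = z := by
  have hG1 : ∀ g ∈ G, lp L s g ∈ N1 := fun g hg => hN1 ▸ ⟨lp_mem_LG hg, hG g hg⟩
  have hle : N1 ≤ LG L s ρ G := hN1 ▸ inf_le_left
  have hnr : ∀ ω, ∀ n ∈ N1, ρ ω * n * (ρ ω)⁻¹ ∈ N1 := hN1 ▸ NG_nrm h G
  let t : FreeGroup A → FreeGroup A := fun g => (mkV (LG L s ρ G) g).out
  have ht : ∀ g, g * (t g)⁻¹ ∈ LG L s ρ G := fun g => mkV_eq.1 (Quotient.out_eq _)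
  let θ : FreeGroup A → FreeGroup A := fun g => g * (t g)⁻¹ * t 1
  have θ1 : ∀ l ∈ LG L s ρ G, ∀ g, θ (l * g) = l * θ g := fun l hl g => by
    simp only [θ, t, mkV_mul hl, mul_assoc]
  have θ2 : θ 1 = 1 := by simp [θ]
  have θ3 : ∀ g, θ g ∈ LG L s ρ G := fun g => mul_mem (ht g) (by simpa using ht 1)
  have hS := gens_finite (L := L) (s := s) (ρ := ρ) hf
  obtain ⟨T, t1, t2, t3, t4⟩ := exists_op_fox h Λ Λ le_rfl θ (fun n hn => θ1 n (hle hn))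
    (fun ω => θ1 _ (rho_mem G ω)) hS
  let D := osp (eact A Λ.a) (fx N1 '' gens L s ρ G)
  let ME := fm (Λ.free h).eact (sp_finite (N := N1) hS)
  have iD : (rep (eact A Λ.a)).Inv D := osp_inv _ _
  have iB : (rep (eact A Λ.a)).Inv (Λ.B L s G) := osp_inv _ _
  have d0 : cl D ≤ ME.W := cl_le (osp_le (orb_inv _ _).sup (by
    rintro _ ⟨l, hl, rfl⟩; exact fx_mem_sup _ hl)) ME.closed
  have d1 : ∀ l ∈ LG L s ρ G, fx N1 l ∈ D := by
    have key : ∀ l ∈ LG L s ρ G, ∃ u, ∀ g,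
        fx N1 (l * g) = fx N1 l + (rep (eact A Λ.a)).act u (fx N1 g) := fun l hl => by
      obtain ⟨ω, n, hn, rfl⟩ := LG_split hG1 hnr l hl
      refine ⟨π ω, fun g => ?_⟩
      simp only [fx]
      rw [mul_assoc, fox_mul hn, fox_mul hn, map_add, map_add, Λ.fox_act, add_assoc]
    intro l hl
    induction hl using Subgroup.closure_induction with
    | mem x hx => exact mem_osp _ ⟨x, hx, rfl⟩
    | one => simp
    | mul x y hx _ ihx ihy =>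
      obtain ⟨u, hu⟩ := key x hx
      rw [hu]; exact add_mem ihx (iD u _ ihy)
    | inv x hx ih =>
      obtain ⟨u, hu⟩ := key x⁻¹ (inv_mem hx)
      have := hu x
      rw [inv_mul_cancel, fx, fox_one, map_zero, eq_comm, add_eq_zero_iff_eq_neg] at this
      rw [this]; exact neg_mem (iD u _ ih)
  have d2 : ∀ x, T x ∈ cl D := fun x => map_mem_closed T (cl_closed D) fun e _ => by
    by_cases he : e ∈ orb (eact A Λ.a) (sp N1 (gens L s ρ G))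
    · obtain ⟨v, a⟩ := e
      obtain ⟨g, rfl⟩ := mkV_surj v
      rw [t3 g a he]; exact le_cl _ (sub_mem (d1 _ (θ3 _)) (d1 _ (θ3 _)))
    · rw [t4 e he]; exact zero_mem _
  have d3 : ∀ y ∈ cl D, T y = y := fun y hy => sub_eq_zero.1 (cl_span_zero (T - 1) (by
    rintro _ ⟨u, _, ⟨l, hl, rfl⟩, rfl⟩
    have := θ1 l (Subgroup.subset_closure hl) 1
    rw [mul_one, θ2, mul_one] at this
    rw [sub_apply, t1, t2 l hl, this, θ2]; simp) hy)
  have d4 : ME.dim (cl D) ∈ (Int.castAddHom ℝ).range := by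
    rw [dim_congr (Z' := T.range) (fun y hy => le_cl _ ⟨y, d3 y hy⟩)
      (by rintro _ ⟨x, rfl⟩; exact le_cl _ (d2 x)),
      dim_idem (M := ME) t1 (fun x => d0 (d2 x)) (adj_mem_sup t4) fun x => d3 _ (d2 x)]
    obtain ⟨F, f1, f2⟩ := fm_tr (Λ.free h).eact (sp_finite (N := N1) hS)
    rw [f2]
    refine sum_mem fun e he => ?_
    obtain ⟨v, a⟩ := e
    obtain ⟨g, rfl⟩ := mkV_surj v
    rw [t3 g a (mem_orb _ (f1 he)), L2.sub_apply, toL2_apply, toL2_apply]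
    exact sub_mem (fox_int _ _ _) (fox_int _ _ _)
  have d5 : Λ.B L s G ≤ D := osp_le iD (by
    rintro _ ⟨l, hl, rfl⟩; exact mem_osp _ ⟨l, Or.inr hl, rfl⟩)
  have d6 : ∀ x, Λ.ι x ∈ cl D := fun x => map_mem_closed _ (cl_closed D) fun y _ => by
    rw [Λ.iota_dl]; exact le_cl _ (osp_act _ _ ⟨_, Or.inl ⟨_, rfl⟩, rfl⟩)
  let S' : L2 (Vx N1 × A) →L[ℝ] L2 (Vx N1 × A) := 1 - prj (Λ.B L s G)
  have hS' : ∀ y, S' y = y - prj (Λ.B L s G) y := fun _ => rfl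
  have s1 : Eqv (rep (eact A Λ.a)) (rep (eact A Λ.a)) S' := fun u x => by
    rw [hS', hS', iB.prj, map_sub]
  have s2 : ∀ y, S' y = 0 ↔ y ∈ cl (Λ.B L s G) := fun y => by
    rw [hS', sub_eq_zero]
    exact ⟨fun e => e ▸ prj_mem _ _, fun e => (prj_of_mem e).symm⟩
  have s3 : ∀ y ∈ cl D, S' y ∈ ME.W := fun y hy =>
    d0 (sub_mem hy (cl_le (d5.trans (le_cl _)) (cl_closed _) (prj_mem _ _)))
  have r1 := rn (M := M0 U I) (M' := ME) (S := S' ∘L Λ.ι) (Z := ⊤)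
    (fun u x => (congrArg S' (Λ.eqv u x)).trans (s1 u _)) (fun _ _ _ => trivial) isClosed_univ
    (le_M0 _) fun z _ => s3 _ (d6 z)
  have r2 := rn (M := ME) (M' := ME) s1 iD.cl (cl_closed D) d0 s3
  have hC := Λ.cells_per h hG1
  let Z := Zc (edV N1 s) (fun p => (s p).2) (Λ.cells G)
  have z1 : ∀ z ∈ Z, bdV N1 L s z ∈ cl (Λ.B L s G) := fun z hz =>
    map_mem_closed _ (cl_closed _) fun c hc => le_cl _ (Λ.bd_mem h hG1 (mem_of_sup hz.1 hc))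
  have r3 := rn (M := fm (Λ.free h) (hf.image (mkV N1))) (M' := ME) (Λ.bd_eqv h) (Z := Z)
    (Zc_inv (Λ.ed_eq h) (orb_inv _ _)) (Zc_closed _) (fun z hz => hz.1)
    fun z hz => d0 (cl_le (d5.trans (le_cl _)) (cl_closed _) (z1 z hz))
  have av := fun c hc => exists_av (σ := fun p => (s p).2) (edV_inj N1 s) h.hL
    (fun p => congrArg Prod.snd (h.per p)) hC (c := c) hc
  have e1 : ⊤ ⊓ (S' ∘L Λ.ι).ker = Λ.Q L s G := by
    ext x; exact (and_iff_right trivial).trans (s2 (Λ.ι x))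
  have e2 : ME.dim (cl D ⊓ S'.ker) = ME.dim (Z.map (bdV N1 L s).toLinearMap) := by
    refine dim_congr (fun y hy => cl_le (Λ.B_le h hG1 fun c hc => ?_) (cl_closed _)
      ((s2 y).1 hy.2)) ?_
    · obtain ⟨v, v1, -, -, v4, -⟩ := av c hc
      exact le_cl _ ⟨_, v1, v4⟩
    · rintro _ ⟨z, hz, rfl⟩
      exact le_cl _ ⟨cl_le (d5.trans (le_cl _)) (cl_closed _) (z1 z hz), (s2 _).2 (z1 z hz)⟩
  have e3 : ME.dim ((⊤ : Submodule ℝ (L2 (U × I))).map (S' ∘L Λ.ι).toLinearMap) =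
      ME.dim ((cl D).map S'.toLinearMap) := by
    refine dim_congr ?_ ?_
    · rintro _ ⟨x, -, rfl⟩
      exact le_cl _ ⟨_, d6 x, rfl⟩
    · rintro _ ⟨y, hy, rfl⟩
      refine cl_span_map S' ?_ hy
      rintro _ ⟨u, _, ⟨_, ⟨i, rfl⟩ | ⟨g, hg, rfl⟩, rfl⟩, rfl⟩
      · exact le_cl _ ⟨dl (u, i), trivial, congrArg S' (Λ.iota_dl (u, i))⟩
      · rw [(s2 _).2 (le_cl _ (osp_act _ _ ⟨_, ⟨g, hg, rfl⟩, rfl⟩))]; exact zero_mem _
  have e4 : Z ⊓ (bdV N1 L s).ker = ⊥ := eq_bot_iff.2 fun z hz => Λ.inj h hf hG1 z hz.1 hz.2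
  rw [e4, dim_bot, add_zero] at r3
  rw [e1, e3] at r1
  rw [e2, r3] at r2
  have i1 : (M0 U I).dim ⊤ ∈ (Int.castAddHom ℝ).range := by
    obtain ⟨F, -, f2⟩ := fm_tr (lm_free (U := U)).eact (Set.finite_range fun i : I => ((1 : U), i))
    rw [Fm.dim, M0, f2]
    refine sum_mem fun e _ => ?_
    rw [prj_of_mem (le_cl _ Submodule.mem_top), dl_self]
    exact ⟨1, by simp⟩
  have i2 : (L.factorial : ℝ) * (fm (Λ.free h) (hf.image (mkV N1))).dim Z ∈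
      (Int.castAddHom ℝ).range := by
    obtain ⟨F, f1, f2⟩ := fm_tr (Λ.free h) (hf.image (mkV N1))
    rw [Fm.dim, f2, Finset.mul_sum]
    refine sum_mem fun c hc => ?_
    obtain ⟨v, -, v2, -, -, n, hn⟩ := av c (mem_orb _ (f1 hc))
    rw [v2, toL2_apply, hn]
    exact ⟨n, by simp⟩
  obtain ⟨z1, hz1⟩ := d4
  obtain ⟨z2, hz2⟩ := i1
  obtain ⟨z3, hz3⟩ := i2
  simp only [Int.coe_castAddHom] at hz1 hz2 hz3
  refine ⟨L.factorial * (z2 - z1) + z3, ?_⟩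
  push_cast
  rw [hz1, hz2, hz3, ← r1, ← r2]; ring

end Pool.Agent.P.MP_caa3d2_al
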