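import Pool.Agent.P.MP_caa3d2_al.Avg

/-!
Chains of paths in quotients of the Cayley tree, and the action of the quotient group.
-/

set_option autoImplicit false

open scoped InnerProductSpace

noncomputable section

namespace Pool.Agent.P.MP_caa3d2_al

open FreeGroup hiding map_mul map_one map_inv

variable {A V : Type}

/-- The chain of the geodesic from the base point. -/
def fox (v : FreeGroup A → V) : FreeGroup A → (V × A →₀ ℝ) :=
  intA fun g a => Finsupp.single (v g, a) 1

@[simp] theorem fox_one (v : FreeGroup A → V) : fox v 1 = 0 := intA_one _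

theorem fox_of (v : FreeGroup A → V) (g : FreeGroup A) (a : A) :
    fox v (g * FreeGroup.of a) = fox v g + Finsupp.single (v g, a) 1 := intA_of _ g a

theorem fox_uniq {W : Type} [AddCommGroup W] [Module ℝ W] (v : FreeGroup A → V)
    (T : (V × A →₀ ℝ) →ₗ[ℝ] W) (f : FreeGroup A → W)
    (h : ∀ g a, f (g * FreeGroup.of a) = f g + T (Finsupp.single (v g, a) 1)) (g : FreeGroup A) :
    T (fox v g) = f g - f 1 := by
  induction g using ind_right with
  | h1 => simp
  | h2 g a =>
    rw [fox_of, map_add, h, add_sub_right_comm, add_left_inj]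

theorem fox_int (v : FreeGroup A → V) (g : FreeGroup A) (e : V × A) :
    fox v g e ∈ (Int.castAddHom ℝ).range := by
  classical
  induction g using ind_right with
  | h1 => simp
  | h2 g a =>
    rw [fox_of, Finsupp.add_apply, AddSubgroup.add_mem_cancel_right]
    rw [Finsupp.single_apply]
    split_ifs
    · exact ⟨1, by simp⟩
    · exact zero_mem _

variable {N : Subgroup (FreeGroup A)} {L : ℕ} {s : ℕ → A × Bool}

theorem fox_mul {n : FreeGroup A} (hn : n ∈ N) (g : FreeGroup A) :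
    fox (mkV N) (n * g) = fox (mkV N) n + fox (mkV N) g :=
  intA_mul _ (fun g a => by rw [mkV_mul hn]) g

/-- Right multiplication on right cosets. -/
def rmV (v : Vx N) (y : FreeGroup A) : Vx N :=
  Quotient.lift (fun g => mkV N (g * y)) (fun _ _ h => mkV_right (Quotient.sound h) y) v

theorem rmV_mk (g y : FreeGroup A) : rmV (mkV N g) y = mkV N (g * y) := rfl

/-- The edges of the cell based at a vertex. -/
def edV (N : Subgroup (FreeGroup A)) (s : ℕ → A × Bool) (v : Vx N) (p : ℕ) : Vx N × A :=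
  (rmV v (opre s p), (s p).1)

theorem edV_mk (g : FreeGroup A) (p : ℕ) :
    edV N s (mkV N g) p = (mkV N (g * opre s p), (s p).1) := rfl

theorem edV_inj (N : Subgroup (FreeGroup A)) (s : ℕ → A × Bool) (p : ℕ) :
    Function.Injective fun v => edV N s v p := by
  intro v v' h
  obtain ⟨g, rfl⟩ := mkV_surj v
  obtain ⟨g', rfl⟩ := mkV_surj v'
  simpa using mkV_right (congrArg Prod.fst h) (opre s p)⁻¹

/-- The boundary operator. -/
def bdV (N : Subgroup (FreeGroup A)) (L : ℕ) (s : ℕ → A × Bool) :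
    L2 (Vx N) →L[ℝ] L2 (Vx N × A) :=
  bdP (edV N s) (edV_inj N s) (fun p => (s p).2) (Finset.range L)

theorem fox_pre (g : FreeGroup A) (n : ℕ) : toL2 (fox (mkV N) (g * pre s n)) =
    toL2 (fox (mkV N) g) + bdV N n s (dl (mkV N g)) := by
  induction n with
  | zero => simp [bdV, bdP_dl]
  | succ n ih =>
    rw [fox, intA_pre, ← fox, map_add, ih, bdV, bdV, bdP_dl, bdP_dl, Finset.sum_range_succ,
      add_assoc, edV_mk]
    congr 2
    cases (s n).2 <;> simp [sn]

theorem fox_lp {g : FreeGroup A} (h : lp L s g ∈ N) :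
    toL2 (fox (mkV N) (lp L s g)) = bdV N L s (dl (mkV N g)) := by
  have := fox_pre (N := N) (s := s) g L
  rw [← lp_mul, fox_mul h, map_add, add_comm] at this
  exact add_left_cancel this

variable {U : Type} [Group U]

/-- The action on edges. -/
def eact (A : Type) (a : U →* Equiv.Perm V) : U →* Equiv.Perm (V × A) where
  toFun u := Equiv.prodCongr (a u) (Equiv.refl A)
  map_one' := by ext x <;> simp
  map_mul' u v := by ext x <;> simp

theorem eact_apply (a : U →* Equiv.Perm V) (u : U) (v : V) (x : A) :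
    eact A a u (v, x) = (a u v, x) := rfl

theorem Free.eact {a : U →* Equiv.Perm V} (h : Free a) : Free (eact A a) :=
  fun u x e => h u x.1 (congrArg Prod.fst e)

/-- The action by left multiplication. -/
abbrev lm (U : Type) [Group U] : U →* Equiv.Perm U := MulAction.toPermHom U U

theorem lm_free : Free (lm U) := fun _ _ e => mul_eq_right.1 e

variable {I : Type}

/-- The standing hypotheses. -/
structure St (L : ℕ) (s : ℕ → A × Bool) (N : Subgroup (FreeGroup A))
    (ρ : FreeGroup I →* FreeGroup A) (π : FreeGroup I →* U) : Prop where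
  hL : 0 < L
  per : Per L s
  rd : Rd s
  gen : N ≤ NC L s {g | lp L s g ∈ N}
  nrm : ∀ ω, ∀ n ∈ N, ρ ω * n * (ρ ω)⁻¹ ∈ N
  surj : Function.Surjective π
  ker : ∀ ω, π ω = 1 ↔ ρ ω ∈ N

/-- An admissible subgroup with the induced action and the chain map of the generators. -/
structure Lv (N : Subgroup (FreeGroup A)) (ρ : FreeGroup I →* FreeGroup A)
    (π : FreeGroup I →* U) (N1 : Subgroup (FreeGroup A)) where
  le : N1 ≤ N
  /-- the action -/
  a : U →* Equiv.Perm (Vx N1)
  ha : ∀ ω g, a (π ω) (mkV N1 g) = mkV N1 (ρ ω * g)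
  /-- the chain map -/
  ι : L2 (U × I) →L[ℝ] L2 (Vx N1 × A)
  eqv : Eqv (rep (eact I (lm U))) (rep (eact A a)) ι
  gen : ∀ i, ι (dl (1, i)) = toL2 (fox (mkV N1) (ρ (FreeGroup.of i)))

variable {ρ : FreeGroup I →* FreeGroup A} {π : FreeGroup I →* U} {N1 : Subgroup (FreeGroup A)}

theorem St.pr_eq (h : St L s N ρ π) : ∀ n ∈ N, pr L s n = 1 := fun n hn => by
  have : NC L s {g | lp L s g ∈ N} ≤ (pr L s).ker := (Subgroup.closure_le _).2 (by
    rintro _ ⟨g, -, rfl⟩
    simp [lp, pr_pre_L])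
  exact this (h.gen hn)

theorem free_act (h : St L s N ρ π) (le : N1 ≤ N) {a : U →* Equiv.Perm (Vx N1)}
    (ha : ∀ ω g, a (π ω) (mkV N1 g) = mkV N1 (ρ ω * g)) : Free a := by
  intro u v e
  obtain ⟨ω, rfl⟩ := h.surj u
  obtain ⟨g, rfl⟩ := mkV_surj v
  rw [ha, eq_comm, mkV_eq] at e
  exact (h.ker ω).2 (le (by simpa using e))

theorem orb_one (x : U × I) : x ∈ orb (eact I (lm U)) (Set.range fun i : I => ((1 : U), i)) :=
  ⟨x.1, _, ⟨x.2, rfl⟩, by simp [eact_apply]⟩

theorem toL2_mapDomain {X : Type} (b : U →* Equiv.Perm X) (u : U) (f : X →₀ ℝ) :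
    toL2 (Finsupp.mapDomain (b u) f) = (rep b).act u (toL2 f) := L2.ext fun y => by
  obtain ⟨y, rfl⟩ := (b u).surjective y
  rw [rep_apply', toL2_apply, toL2_apply, Finsupp.mapDomain_apply (b u).injective]

theorem rep_mul {X : Type} (b : U →* Equiv.Perm X) (u v : U) (f : L2 X) :
    (rep b).act (u * v) f = (rep b).act u ((rep b).act v f) := L2.ext fun y => by
  simp [rep_apply]

theorem rep_one {X : Type} (b : U →* Equiv.Perm X) (f : L2 X) :
    (rep b).act 1 f = f := L2.ext fun y => by simp [rep_apply]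

theorem exists_lv [Finite I] (h : St L s N ρ π) (le : N1 ≤ N) (h1 : ∀ ω, ρ ω ∈ N → ρ ω ∈ N1)
    (h2 : ∀ ω, ∀ n ∈ N1, ρ ω * n * (ρ ω)⁻¹ ∈ N1) : Nonempty (Lv N ρ π N1) := by
  let f : FreeGroup I →* Function.End (Vx N1) :=
    { toFun := fun ω => Quotient.lift (fun g => mkV N1 (ρ ω * g)) fun g g' e => by
        have e' : mkV N1 g = mkV N1 g' := Quotient.sound e
        rw [mkV_eq] at e' ⊢
        simpa [mul_assoc] using h2 ω _ e'
      map_one' := by
        funext v
        obtain ⟨g, rfl⟩ := mkV_surj v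
        show mkV N1 (ρ 1 * g) = mkV N1 g
        simp
      map_mul' := fun x y => by
        funext v
        obtain ⟨g, rfl⟩ := mkV_surj v
        show mkV N1 (ρ (x * y) * g) = mkV N1 (ρ x * (ρ y * g))
        simp [mul_assoc] }
  let a : U →* Equiv.Perm (Vx N1) := π.liftOfSurjective h.surj ⟨f.toHomPerm, fun ω hω => by
    ext v
    obtain ⟨g, rfl⟩ := mkV_surj v
    exact mkV_mul (h1 ω ((h.ker ω).1 hω)) g⟩
  have ha : ∀ ω g, a (π ω) (mkV N1 g) = mkV N1 (ρ ω * g) := fun ω g => by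
    simp only [a, MonoidHom.liftOfRightInverse_comp_apply]; rfl
  obtain ⟨T, t1, t2, -⟩ := exists_op (lm_free (U := U)).eact (free_act h le ha).eact
    (Set.finite_range fun i : I => ((1 : U), i))
    (fun x => Finsupp.mapDomain (eact A a x.1) (fox (mkV N1) (ρ (FreeGroup.of x.2))))
    (fun u x => by
      obtain ⟨v, i⟩ := x
      simp only [eact_apply, toL2_mapDomain, ← rep_mul]; rfl)
  exact ⟨⟨le, a, ha, T, t1, fun i => by rw [t2 _ (orb_one _), toL2_mapDomain, rep_one]⟩⟩

theorem Lv.free (h : St L s N ρ π) (Λ : Lv N ρ π N1) : Free Λ.a := free_act h Λ.le Λ.ha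

theorem Lv.fox_act (Λ : Lv N ρ π N1) (ω : FreeGroup I) (g : FreeGroup A) :
    toL2 (fox (mkV N1) (ρ ω * g)) = toL2 (fox (mkV N1) (ρ ω)) +
      (rep (eact A Λ.a)).act (π ω) (toL2 (fox (mkV N1) g)) := by
  have := fox_uniq (mkV N1) (((rep (eact A Λ.a)).act (π ω)).toLinearMap ∘ₗ toL2)
    (fun g => toL2 (fox (mkV N1) (ρ ω * g))) (fun g a => by
      rw [← mul_assoc, fox_of]
      simp [rep_dl, eact_apply, Λ.ha]) g
  simp only [LinearMap.comp_apply, ContinuousLinearMap.coe_coe, mul_one] at this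
  rw [this]; abel

theorem Lv.iota_fox (Λ : Lv N ρ π N1) (ω : FreeGroup I) :
    Λ.ι (toL2 (fox π ω)) = toL2 (fox (mkV N1) (ρ ω)) := by
  have := fox_uniq π (Λ.ι.toLinearMap ∘ₗ toL2) (fun ω => toL2 (fox (mkV N1) (ρ ω)))
    (fun ω i => by
      rw [map_mul, Λ.fox_act, ← Λ.gen, ← Λ.eqv, rep_dl]
      simp [eact_apply]) ω
  simpa using this

theorem Lv.ed_eq (h : St L s N ρ π) (Λ : Lv N ρ π N1) (u : U) (c : Vx N1) (p : ℕ) :
    edV N1 s (Λ.a u c) p = eact A Λ.a u (edV N1 s c p) := by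
  obtain ⟨ω, rfl⟩ := h.surj u
  obtain ⟨g, rfl⟩ := mkV_surj c
  rw [Λ.ha, edV_mk, edV_mk, eact_apply, Λ.ha, mul_assoc]

/-- The cells in the orbits of a set. -/
def Lv.cells (Λ : Lv N ρ π N1) (G : Set (FreeGroup A)) : Set (Vx N1) := orb Λ.a (mkV N1 '' G)

theorem Lv.cells_per (h : St L s N ρ π) (Λ : Lv N ρ π N1) {G : Set (FreeGroup A)}
    (hG : ∀ g ∈ G, lp L s g ∈ N1) : ∀ c ∈ Λ.cells G, ∀ p,
    edV N1 s c (p + L) = edV N1 s c p := by
  rintro _ ⟨u, _, ⟨g, hg, rfl⟩, rfl⟩ p
  rw [Λ.ed_eq h, Λ.ed_eq h]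
  exact congrArg _ (congrArg Prod.fst (cs_per h.per (hG g hg) p))

theorem Lv.inj (h : St L s N ρ π) (Λ : Lv N ρ π N1) {G : Set (FreeGroup A)} (hf : G.Finite)
    (hG : ∀ g ∈ G, lp L s g ∈ N1) :
    ∀ x ∈ Zc (edV N1 s) (fun p => (s p).2) (Λ.cells G), bdV N1 L s x = 0 → x = 0 := by
  intro x hx h0
  let η : Vx N1 → G1 L s := Quotient.lift (pr L s) fun g g' e => by
    obtain ⟨n, hn, rfl⟩ := exists_of_mkV (N := N1) (Quotient.sound e)
    rw [map_mul, h.pr_eq n (Λ.le hn), one_mul]
  have hη : ∀ g, η (mkV N1 g) = pr L s g := fun _ => rfl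
  refine inj_all (hed := edV_inj N1 s) h.hL A s h.per h.rd h.rd U Λ.a (eact A Λ.a) _ η
    { fa := Λ.free h
      fb := (Λ.free h).eact
      eq := Λ.ed_eq h
      inv := orb_inv _ _
      fin := ⟨_, hf.image _, subset_rfl⟩
      per := Λ.cells_per h hG
      sgn := fun _ => rfl
      lab := fun c _ c' _ p p' e => by
        obtain ⟨g, rfl⟩ := mkV_surj c
        obtain ⟨g', rfl⟩ := mkV_surj c'
        refine ⟨congrArg Prod.snd e, ?_⟩
        have := congrArg η (congrArg Prod.fst e)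
        simpa only [edV_mk, hη, map_mul] using this
      det := fun c _ c' _ p p' e e1 e2 => by
        obtain ⟨g, rfl⟩ := mkV_surj c
        obtain ⟨g', rfl⟩ := mkV_surj c'
        exact congrArg Prod.fst (cs_det (N := N1) (s := s) (g := g) (g' := g')
          (Prod.ext e (congrArg Prod.snd e1 :)) e2)
      dev := fun u => by
        obtain ⟨ω, rfl⟩ := h.surj u
        refine ⟨pr L s (ρ ω), fun c _ => ?_⟩
        obtain ⟨g, rfl⟩ := mkV_surj c
        rw [Λ.ha, hη, hη, map_mul] } (s 0).1 ⟨0, rfl⟩ x hx ?_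
  classical
  have : bdP (edV N1 s) (edV_inj N1 s) (fun p => (s p).2) (Pos L s (s 0).1) x =
      res {e | e.2 = (s 0).1} (bdV N1 L s x) := by
    refine (ext_dl2 fun c _ => Eq.symm ?_).symm
    have e : Pos L s (s 0).1 = (Finset.range L).filter fun p => (s p).1 = (s 0).1 := by
      ext p; simp [mem_Pos]
    simp only [bdV, bdP_dl, map_sum, map_smul, e,
      Finset.sum_filter]
    refine Finset.sum_congr rfl fun p _ => ?_
    split_ifs with e2
    · rw [res_dl_mem]; exact e2
    · rw [res_dl_notMem, smul_zero]; exact e2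
  rw [this, h0, map_zero]

end Pool.Agent.P.MP_caa3d2_al
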