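import Mathlib

/-!
Dimension theory for group representations on real Hilbert spaces with a finite frame.
-/

set_option autoImplicit false

open scoped InnerProductSpace Topology
open Filter

noncomputable section

namespace Pool.Agent.P.MP_caa3d2_al

variable {U : Type} [Group U]
  {H : Type} [NormedAddCommGroup H] [InnerProductSpace ℝ H] [CompleteSpace H]
  {H' : Type} [NormedAddCommGroup H'] [InnerProductSpace ℝ H'] [CompleteSpace H']

/-- The closure of a subspace. -/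
abbrev cl (Z : Submodule ℝ H) : Submodule ℝ H := Z.topologicalClosure

/-- The projection onto the closure of a subspace. -/
def prj (Z : Submodule ℝ H) : H →L[ℝ] H := (cl Z).starProjection

theorem prj_mem (Z : Submodule ℝ H) (x : H) : prj Z x ∈ cl Z :=
  Submodule.starProjection_apply_mem _ _

theorem prj_orth (Z : Submodule ℝ H) (x : H) {z : H} (hz : z ∈ cl Z) : ⟪x - prj Z x, z⟫_ℝ = 0 :=
  Submodule.starProjection_inner_eq_zero _ _ hz

theorem prj_symm (Z : Submodule ℝ H) (x y : H) : ⟪prj Z x, y⟫_ℝ = ⟪x, prj Z y⟫_ℝ :=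
  Submodule.inner_starProjection_left_eq_right _ _ _

theorem prj_of_mem {Z : Submodule ℝ H} {x : H} (h : x ∈ cl Z) : prj Z x = x :=
  Submodule.starProjection_eq_self_iff.2 h

omit [CompleteSpace H] in
theorem le_cl (Z : Submodule ℝ H) : Z ≤ cl Z := Z.le_topologicalClosure

omit [CompleteSpace H] in
theorem cl_le {Z W : Submodule ℝ H} (h : Z ≤ W) (hW : IsClosed (W : Set H)) : cl Z ≤ W :=
  Submodule.topologicalClosure_minimal _ h hW

omit [CompleteSpace H] in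
theorem cl_closed (Z : Submodule ℝ H) : IsClosed (cl Z : Set H) :=
  Z.isClosed_topologicalClosure

omit [CompleteSpace H] [CompleteSpace H'] in
theorem cl_map {Z : Submodule ℝ H} {W : Submodule ℝ H'} (T : H →L[ℝ] H')
    (h : ∀ z ∈ Z, T z ∈ cl W) {x : H} (hx : x ∈ cl Z) : T x ∈ cl W :=
  cl_le (W := (cl W).comap (T : H →ₗ[ℝ] H')) h ((cl_closed W).preimage T.continuous) hx

omit [CompleteSpace H] [CompleteSpace H'] in
theorem cl_zero {Z : Submodule ℝ H} (T : H →L[ℝ] H') (h : ∀ z ∈ Z, T z = 0) {x : H}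
    (hx : x ∈ cl Z) : T x = 0 :=
  cl_le (W := T.ker) h T.isClosed_ker hx

theorem prj_unique {Z : Submodule ℝ H} {x v : H} (hv : v ∈ cl Z)
    (h : ∀ z ∈ Z, ⟪x - v, z⟫_ℝ = 0) : prj Z x = v :=
  Submodule.eq_starProjection_of_mem_of_inner_eq_zero hv fun _ hz =>
    cl_zero (innerSL ℝ (x - v)) h hz

theorem norm_sub_prj (Z : Submodule ℝ H) (x : H) : ‖x - prj Z x‖ ≤ ‖x‖ := by
  have h1 := prj_orth Z x (prj_mem Z x)
  have h2 := norm_add_sq_real (x - prj Z x) (prj Z x)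
  rw [h1, sub_add_cancel] at h2
  nlinarith [norm_nonneg x, norm_nonneg (x - prj Z x), norm_nonneg (prj Z x)]

theorem norm_prj_le (Z : Submodule ℝ H) (x : H) : ‖prj Z x‖ ≤ ‖x‖ :=
  Submodule.norm_starProjection_apply_le _ _

/-- An orthogonal representation. -/
structure Rp (U : Type) [Group U] (H : Type) [NormedAddCommGroup H] [InnerProductSpace ℝ H] where
  /-- the action -/
  act : U → H →L[ℝ] H
  inner_act : ∀ u x y, ⟪act u x, y⟫_ℝ = ⟪x, act u⁻¹ y⟫_ℝ
  act_inv : ∀ u x, act u (act u⁻¹ x) = x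

/-- Invariant subspaces. -/
def Rp.Inv (ρ : Rp U H) (Z : Submodule ℝ H) : Prop := ∀ u, ∀ x ∈ Z, ρ.act u x ∈ Z

/-- Equivariant operators. -/
def Eqv (ρ : Rp U H) (ρ' : Rp U H') (T : H →L[ℝ] H') : Prop :=
  ∀ u x, T (ρ.act u x) = ρ'.act u (T x)

section
variable {ρ : Rp U H} {ρ' : Rp U H'}

omit [CompleteSpace H] in
theorem Rp.Inv.cl {Z : Submodule ℝ H} (h : ρ.Inv Z) : ρ.Inv (cl Z) := fun u _ hx =>
  cl_map _ (fun z hz => le_cl _ (h u z hz)) hx

omit [CompleteSpace H] in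
theorem prj_act' [CompleteSpace H] {Z Z' : Submodule ℝ H} {u : U}
    (h : ∀ z ∈ Z, ρ.act u z ∈ cl Z') (h' : ∀ z ∈ Z', ρ.act u⁻¹ z ∈ cl Z) (x : H) :
    prj Z' (ρ.act u x) = ρ.act u (prj Z x) :=
  prj_unique (cl_map _ h (prj_mem Z x)) fun z hz => by
    rw [← map_sub, ρ.inner_act]; exact prj_orth Z x (h' z hz)

theorem Rp.Inv.prj {Z : Submodule ℝ H} (h : ρ.Inv Z) : Eqv ρ ρ (prj Z) := fun u x =>
  prj_act' (fun z hz => le_cl _ (h u z hz)) (fun z hz => le_cl _ (h _ z hz)) x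

theorem Eqv.adj {T : H →L[ℝ] H'} (h : Eqv ρ ρ' T) :
    Eqv ρ' ρ (ContinuousLinearMap.adjoint T) := fun u y => by
  refine ext_inner_left ℝ fun x => ?_
  have h1 := ρ.inner_act u⁻¹ x (ContinuousLinearMap.adjoint T y)
  have h2 := ρ'.inner_act u⁻¹ (T x) y
  rw [inv_inv] at h1 h2
  rw [← h1, ContinuousLinearMap.adjoint_inner_right, ContinuousLinearMap.adjoint_inner_right, h,
    h2]

omit [CompleteSpace H] [CompleteSpace H'] in
theorem Eqv.ker {T : H →L[ℝ] H'} (h : Eqv ρ ρ' T) : ρ.Inv T.ker := fun u x hx => by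
  have hx' : T x = 0 := hx
  show T _ = 0
  rw [h, hx', map_zero]

omit [CompleteSpace H] [CompleteSpace H'] in
theorem Eqv.map {T : H →L[ℝ] H'} (h : Eqv ρ ρ' T) {Z : Submodule ℝ H} (hZ : ρ.Inv Z) :
    ρ'.Inv (Z.map (T : H →ₗ[ℝ] H')) := by
  rintro u _ ⟨x, hx, rfl⟩
  exact ⟨_, hZ u x hx, h u x⟩

omit [CompleteSpace H] [CompleteSpace H'] in
theorem Eqv.comap {T : H →L[ℝ] H'} (h : Eqv ρ ρ' T) {Z : Submodule ℝ H'} (hZ : ρ'.Inv Z) :
    ρ.Inv (Z.comap (T : H →ₗ[ℝ] H')) := fun u x hx => by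
  show T _ ∈ Z
  rw [h]; exact hZ u _ hx

omit [CompleteSpace H] in
theorem Rp.Inv.inf {Z Z' : Submodule ℝ H} (h : ρ.Inv Z) (h' : ρ.Inv Z') : ρ.Inv (Z ⊓ Z') :=
  fun u x hx => ⟨h u x hx.1, h' u x hx.2⟩

end

/-- A representation with a finite frame for a closed subspace. -/
structure Fm (U : Type) [Group U] (H : Type) [NormedAddCommGroup H] [InnerProductSpace ℝ H]
    extends Rp U H where
  /-- index type -/
  I : Type
  /-- index set -/
  F : Finset I
  /-- frame vectors -/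
  w : I → H
  /-- the framed subspace -/
  W : Submodule ℝ H
  closed : IsClosed (W : Set H)
  fr : ∀ x ∈ W, ∀ y, HasSum (fun u => ∑ i ∈ F, ⟪x, act u (w i)⟫_ℝ * ⟪act u (w i), y⟫_ℝ) ⟪x, y⟫_ℝ

/-- The trace. -/
def Fm.tr (M : Fm U H) (T : H →L[ℝ] H) : ℝ := ∑ i ∈ M.F, ⟪M.w i, T (M.w i)⟫_ℝ

/-- The dimension. -/
def Fm.dim (M : Fm U H) (Z : Submodule ℝ H) : ℝ := M.tr (prj Z)

variable {M : Fm U H} {M' : Fm U H'}

omit [CompleteSpace H] in
theorem Fm.tr_sub (S T : H →L[ℝ] H) : M.tr (S - T) = M.tr S - M.tr T := by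
  simp [Fm.tr, inner_sub_right]

omit [CompleteSpace H] in
theorem Fm.tr_add (S T : H →L[ℝ] H) : M.tr (S + T) = M.tr S + M.tr T := by
  simp [Fm.tr, inner_add_right, Finset.sum_add_distrib]

theorem tr_comm {T : H →L[ℝ] H'} {S : H' →L[ℝ] H} (hT : Eqv M.toRp M'.toRp T)
    (hS : Eqv M'.toRp M.toRp S) (h1 : ∀ x, T x ∈ M'.W)
    (h2 : ∀ y, ContinuousLinearMap.adjoint T y ∈ M.W) : M.tr (S ∘L T) = M'.tr (T ∘L S) := by
  have a1 := hasSum_sum (s := M.F) fun i _ =>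
    M'.fr _ (h1 (M.w i)) (ContinuousLinearMap.adjoint S (M.w i))
  have a2 := hasSum_sum (s := M'.F) fun j _ => M.fr _ (h2 (M'.w j)) (S (M'.w j))
  rw [← (Equiv.inv U).hasSum_iff] at a2
  have e1 : ∀ i, ⟪T (M.w i), ContinuousLinearMap.adjoint S (M.w i)⟫_ℝ =
      ⟪M.w i, (S ∘L T) (M.w i)⟫_ℝ := fun i => by
    rw [ContinuousLinearMap.adjoint_inner_right, real_inner_comm]; rfl
  have e2 : ∀ j, ⟪ContinuousLinearMap.adjoint T (M'.w j), S (M'.w j)⟫_ℝ =
      ⟪M'.w j, (T ∘L S) (M'.w j)⟫_ℝ := fun j => by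
    rw [ContinuousLinearMap.adjoint_inner_left]; rfl
  simp only [e1, e2] at a1 a2
  refine a1.unique ?_
  unfold Fm.tr
  convert a2 using 2 with u
  simp only [Function.comp_apply, Equiv.inv_apply]
  rw [Finset.sum_comm]
  refine Finset.sum_congr rfl fun j _ => Finset.sum_congr rfl fun i _ => ?_
  rw [ContinuousLinearMap.adjoint_inner_left, ContinuousLinearMap.adjoint_inner_right, hT, hS,
    M.inner_act, M.inner_act, inv_inv, ← M'.inner_act, ← M.inner_act, real_inner_comm (T _),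
    real_inner_comm (M.w i)]

theorem tendsto_tr (A : H →L[ℝ] H) (hA : ‖A‖ ≤ 1) {Z : Submodule ℝ H}
    (hZ : ∀ x, x ∈ Z ↔ A x = x) :
    Tendsto (fun N : ℕ => (N : ℝ)⁻¹ * ∑ n ∈ Finset.range N, M.tr (A ^ n)) atTop
      (𝓝 (M.dim Z)) := by
  obtain rfl : Z = A.eqLocus (1 : H →L[ℝ] H) := Submodule.ext hZ
  have e2 : ∀ x, prj (A.eqLocus (1 : H →L[ℝ] H)) x =
      (A.eqLocus (1 : H →L[ℝ] H)).starProjection x := fun x =>
    prj_unique (le_cl _ (Submodule.starProjection_apply_mem _ _)) fun z hz =>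
      Submodule.starProjection_inner_eq_zero _ _ hz
  have h := tendsto_finsetSum M.F fun i _ => ((innerSL ℝ (M.w i)).continuous.tendsto _).comp
    (A.tendsto_birkhoffAverage_orthogonalProjection hA (M.w i))
  simp only [Fm.dim, Fm.tr, e2]
  refine Tendsto.congr (fun N => ?_) h
  simp only [Function.comp_apply, birkhoffAverage, birkhoffSum, id, map_smul, map_sum,
    innerSL_apply_apply, smul_eq_mul]
  rw [← Finset.mul_sum, Finset.sum_comm]
  simp only [FunLike.coe_pow_eq_iterate]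

theorem norm_one_sub_le {T : H →L[ℝ] H'} (hT : ‖T‖ ≤ 1) :
    ‖(1 : H →L[ℝ] H) - ContinuousLinearMap.adjoint T ∘L T‖ ≤ 1 := by
  refine ContinuousLinearMap.opNorm_le_bound _ zero_le_one (fun v => ?_)
  rw [one_mul]
  have h1 : ‖ContinuousLinearMap.adjoint T (T v)‖ ≤ ‖T v‖ := by
    have := (ContinuousLinearMap.adjoint T).le_of_opNorm_le (c := 1)
      (by rwa [LinearIsometryEquiv.norm_map]) (T v)
    simpa using this
  have h2 := norm_sub_sq_real v (ContinuousLinearMap.adjoint T (T v))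
  rw [ContinuousLinearMap.adjoint_inner_right, real_inner_self_eq_norm_sq] at h2
  have h4 : ‖v - ContinuousLinearMap.adjoint T (T v)‖ ^ 2 ≤ ‖v‖ ^ 2 := by
    rw [h2]
    nlinarith [norm_nonneg (ContinuousLinearMap.adjoint T (T v)), norm_nonneg (T v)]
  exact (pow_le_pow_iff_left₀ (norm_nonneg _) (norm_nonneg _) two_ne_zero).1 h4

theorem adj_apply_eq {T : H →L[ℝ] H'} (x : H) :
    x ∈ T.ker ↔ ((1 : H →L[ℝ] H) - ContinuousLinearMap.adjoint T ∘L T) x = x := by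
  simp only [sub_apply, one_apply_eq_self, sub_eq_self, ContinuousLinearMap.comp_apply]
  constructor
  · intro h
    have h' : T x = 0 := h
    rw [h', map_zero]
  · intro h
    show T x = 0
    rw [← inner_self_eq_zero (𝕜 := ℝ), ← ContinuousLinearMap.adjoint_inner_right, h,
      inner_zero_right]

theorem rn_aux {T : H →L[ℝ] H'} (hT : Eqv M.toRp M'.toRp T) (h1 : ∀ x, T x ∈ M'.W)
    (h2 : ∀ y, ContinuousLinearMap.adjoint T y ∈ M.W) (hn : ‖T‖ ≤ 1) :
    M.tr 1 - M.dim T.ker = M'.tr 1 - M'.dim (ContinuousLinearMap.adjoint T).ker := by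
  set S := ContinuousLinearMap.adjoint T with hS
  have hSe : Eqv M'.toRp M.toRp S := hT.adj
  have hA : ∀ n : ℕ, Eqv M.toRp M.toRp ((1 - S ∘L T) ^ n) := by
    intro n
    induction n with
    | zero => intro u x; rfl
    | succ n ih =>
      intro u x
      simp only [pow_succ, mul_apply_eq_comp, sub_apply, one_apply_eq_self,
        ContinuousLinearMap.comp_apply, hT u, hSe u, ← ih u, map_sub]
  have hc : ∀ (n : ℕ) x, T (((1 - S ∘L T) ^ n) x) = ((1 - T ∘L S) ^ n) (T x) := by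
    intro n
    induction n with
    | zero => intro x; rfl
    | succ n ih =>
      intro x
      simp only [pow_succ, mul_apply_eq_comp, sub_apply, one_apply_eq_self,
        ContinuousLinearMap.comp_apply, ih, map_sub]
  have key : ∀ n : ℕ, M.tr ((1 - S ∘L T) ^ n) - M'.tr ((1 - T ∘L S) ^ n) = M.tr 1 - M'.tr 1 := by
    intro n
    induction n with
    | zero => simp
    | succ n ih =>
      have e1 : (1 - S ∘L T) ^ (n + 1) = (1 - S ∘L T) ^ n - (((1 - S ∘L T) ^ n) ∘L S) ∘L T := by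
        ext x
        simp only [pow_succ, mul_apply_eq_comp, sub_apply, one_apply_eq_self,
          ContinuousLinearMap.comp_apply, map_sub]
      have e2 : (1 - T ∘L S) ^ (n + 1) = (1 - T ∘L S) ^ n - T ∘L (((1 - S ∘L T) ^ n) ∘L S) := by
        ext x
        simp only [pow_succ, mul_apply_eq_comp, sub_apply, one_apply_eq_self,
          ContinuousLinearMap.comp_apply, map_sub, hc]
      rw [e1, e2, Fm.tr_sub, Fm.tr_sub, tr_comm hT (fun u x => by
        simp only [ContinuousLinearMap.comp_apply, hSe u, hA n u]) h1 h2,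
        ← ih]
      ring
  have t1 := tendsto_tr (M := M) _ (norm_one_sub_le hn) (adj_apply_eq (T := T))
  have t2 := tendsto_tr (M := M') _
    (norm_one_sub_le (T := S) (by rwa [hS, LinearIsometryEquiv.norm_map])) (adj_apply_eq (T := S))
  rw [hS, ContinuousLinearMap.adjoint_adjoint, ← hS] at t2
  have t3 : Tendsto (fun N : ℕ => (N : ℝ)⁻¹ * ∑ n ∈ Finset.range N, M.tr ((1 - S ∘L T) ^ n) -
      (N : ℝ)⁻¹ * ∑ n ∈ Finset.range N, M'.tr ((1 - T ∘L S) ^ n)) atTop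
      (𝓝 (M.tr 1 - M'.tr 1)) := by
    refine tendsto_const_nhds.congr' ?_
    filter_upwards [eventually_gt_atTop 0] with N hN
    rw [← mul_sub, ← Finset.sum_sub_distrib]
    simp only [key, Finset.sum_const, Finset.card_range, nsmul_eq_mul]
    field_simp
  have := tendsto_nhds_unique (t1.sub t2) t3
  linarith

theorem rn0 {T : H →L[ℝ] H'} (hT : Eqv M.toRp M'.toRp T) (h1 : ∀ x, T x ∈ M'.W)
    (h2 : ∀ y, ContinuousLinearMap.adjoint T y ∈ M.W) :
    M'.dim T.range + M.dim T.ker = M.tr 1 := by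
  have hp : 0 < ‖T‖ + 1 := by positivity
  have hc : (‖T‖ + 1)⁻¹ ≠ 0 := by positivity
  have := rn_aux (M := M) (M' := M') (T := (‖T‖ + 1)⁻¹ • T) (fun u x => by simp [hT u])
    (fun x => M'.W.smul_mem _ (h1 x)) (fun y => by
      rw [map_smulₛₗ]; exact M.W.smul_mem _ (h2 y)) (by
      rw [norm_smul, Real.norm_of_nonneg (by positivity), inv_mul_le_iff₀ hp]; linarith)
  have e1 : ((‖T‖ + 1)⁻¹ • T).ker = T.ker := by ext x; simp [hp.ne']
  have e2 : prj T.range = 1 - prj (ContinuousLinearMap.adjoint ((‖T‖ + 1)⁻¹ • T)).ker := by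
    have e3 : (ContinuousLinearMap.adjoint ((‖T‖ + 1)⁻¹ • T)).ker = T.rangeᗮ := by
      ext y
      rw [map_smulₛₗ, Submodule.mem_orthogonal]
      simp only [LinearMap.mem_ker, ContinuousLinearMap.coe_coe, smul_apply,
        smul_eq_zero, conj_trivial, hc, false_or]
      constructor
      · rintro h _ ⟨x, rfl⟩
        rw [ContinuousLinearMap.coe_coe, ← ContinuousLinearMap.adjoint_inner_right, h,
          inner_zero_right]
      · intro h
        refine ext_inner_left ℝ fun x => ?_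
        rw [ContinuousLinearMap.adjoint_inner_right, inner_zero_right]
        exact h _ ⟨x, rfl⟩
    ext y
    rw [e3, sub_apply, one_apply_eq_self, eq_sub_iff_add_eq,
      ← eq_sub_iff_add_eq']
    refine prj_unique (le_cl _ fun z hz => ?_) fun z hz => ?_
    · rw [real_inner_comm]; exact prj_orth _ _ (le_cl _ hz)
    · rw [sub_sub_cancel, real_inner_comm]
      exact cl_zero (innerSL ℝ z) (fun v hv => by
        rw [innerSL_apply_apply, real_inner_comm]; exact hz v hv) (prj_mem _ _)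
  rw [e1] at this
  rw [Fm.dim, e2, Fm.tr_sub]
  simp only [Fm.dim] at this ⊢
  linarith

/-- Rank and nullity. -/
theorem rn {S : H →L[ℝ] H'} (hS : Eqv M.toRp M'.toRp S) {Z : Submodule ℝ H} (hi : M.Inv Z)
    (hc : IsClosed (Z : Set H)) (hZ : Z ≤ M.W) (h1 : ∀ z ∈ Z, S z ∈ M'.W) :
    M'.dim (Z.map (S : H →ₗ[ℝ] H')) + M.dim (Z ⊓ S.ker) = M.dim Z := by
  have hm : ∀ x, prj Z x ∈ Z := fun x => cl_le le_rfl hc (prj_mem Z x)
  have hm0 : ∀ x, prj (Z ⊓ S.ker) x ∈ Z ⊓ S.ker := fun x =>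
    cl_le le_rfl (hc.inter S.isClosed_ker) (prj_mem _ x)
  have := rn0 (M := M) (M' := M') (T := S ∘L prj Z) (fun u x => by simp [hi.prj u, hS u])
    (fun x => h1 _ (hm x)) (fun y => by
      have : ContinuousLinearMap.adjoint (S ∘L prj Z) y = prj Z (ContinuousLinearMap.adjoint S y) :=
        ext_inner_left ℝ fun x => by
          rw [ContinuousLinearMap.adjoint_inner_right, ← prj_symm,
            ContinuousLinearMap.adjoint_inner_right]; rfl
      rw [this]; exact hZ (hm _))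
  have e1 : (S ∘L prj Z).range = Z.map (S : H →ₗ[ℝ] H') := by
    ext y
    constructor
    · rintro ⟨x, rfl⟩; exact ⟨_, hm x, rfl⟩
    · rintro ⟨x, hx, rfl⟩
      exact ⟨x, congrArg S (prj_of_mem (le_cl _ hx))⟩
  have e2 : prj (S ∘L prj Z).ker = 1 - prj Z + prj (Z ⊓ S.ker) := by
    ext x
    refine prj_unique (le_cl _ ?_) fun z hz => ?_
    · show S (prj Z (x - prj Z x + prj (Z ⊓ S.ker) x)) = 0
      rw [map_add, map_sub, prj_of_mem (prj_mem Z x), sub_self, zero_add,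
        prj_of_mem (le_cl _ (hm0 x).1)]
      exact (hm0 x).2
    · have hz' : prj Z z ∈ Z ⊓ S.ker := ⟨hm z, hz⟩
      have e3 : x - (1 - prj Z + prj (Z ⊓ S.ker)) x = prj Z (x - prj (Z ⊓ S.ker) x) := by
        rw [map_sub, prj_of_mem (le_cl _ (hm0 x).1)]; simp; abel
      rw [e3, prj_symm]
      exact prj_orth _ _ (le_cl _ hz')
  rw [e1] at this
  simp only [Fm.dim, e2, Fm.tr_add, Fm.tr_sub] at this ⊢
  linarith

theorem prj_split {Z Z' : Submodule ℝ H} (h : Z ≤ cl Z') (x : H) :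
    ⟪x, prj Z' x⟫_ℝ = ⟪x, prj Z x⟫_ℝ + ‖prj Z' x - prj Z x‖ ^ 2 := by
  have h0 : prj Z x ∈ cl Z' := cl_le h (cl_closed _) (prj_mem Z x)
  have h1 := prj_orth Z' x (prj_mem Z' x)
  have h2 := prj_orth Z' x h0
  have h3 := prj_orth Z x (prj_mem Z x)
  rw [inner_sub_left] at h1 h2 h3
  rw [norm_sub_sq_real, ← real_inner_self_eq_norm_sq, ← real_inner_self_eq_norm_sq]
  linarith

theorem dim_mono {Z Z' : Submodule ℝ H} (h : Z ≤ cl Z') : M.dim Z ≤ M.dim Z' :=
  Finset.sum_le_sum fun i _ => by rw [prj_split h]; nlinarith [sq_nonneg ‖prj Z' (M.w i) - prj Z (M.w i)‖]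

theorem dim_congr {Z Z' : Submodule ℝ H} (h : Z ≤ cl Z') (h' : Z' ≤ cl Z) : M.dim Z = M.dim Z' :=
  le_antisymm (dim_mono h) (dim_mono h')

theorem dim_bot : M.dim ⊥ = 0 := by
  have : prj (⊥ : Submodule ℝ H) = 0 := by
    ext x; exact prj_unique (zero_mem _) fun z hz => by rw [(Submodule.mem_bot ℝ).1 hz]; simp
  simp [Fm.dim, Fm.tr, this]

theorem dim_nonneg (Z : Submodule ℝ H) : 0 ≤ M.dim Z := dim_bot (M := M) ▸ dim_mono bot_le

theorem dim_faithful {Z Z' : Submodule ℝ H} (hi : M.Inv Z) (hi' : M.Inv Z') (h : Z ≤ cl Z')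
    (hW : Z' ≤ M.W) (hd : M.dim Z' ≤ M.dim Z) : Z' ≤ cl Z := by
  have h1 : ∀ i ∈ M.F, prj Z' (M.w i) = prj Z (M.w i) := by
    have : ∑ i ∈ M.F, ‖prj Z' (M.w i) - prj Z (M.w i)‖ ^ 2 = 0 := by
      simp only [Fm.dim, Fm.tr, prj_split h, Finset.sum_add_distrib] at hd
      exact le_antisymm (by linarith) (Finset.sum_nonneg fun _ _ => sq_nonneg _)
    intro i hi
    have := (Finset.sum_eq_zero_iff_of_nonneg fun _ _ => sq_nonneg _).1 this i hi
    simpa [sub_eq_zero] using this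
  intro x hx
  have h2 : x - prj Z x ∈ cl Z' := sub_mem (le_cl _ hx) (cl_le h (cl_closed _) (prj_mem Z x))
  have h3 := M.fr _ (cl_le hW M.closed h2) (x - prj Z x)
  have h4 : ∀ u, ∑ i ∈ M.F, ⟪x - prj Z x, M.act u (M.w i)⟫_ℝ * ⟪M.act u (M.w i), x - prj Z x⟫_ℝ
      = 0 := fun u => Finset.sum_eq_zero fun i hi'' => by
    rw [← prj_of_mem h2, prj_symm, hi'.prj, h1 i hi'', ← hi.prj, prj_orth _ _ (prj_mem _ _), zero_mul]
  simp only [h4] at h3
  have h5 := inner_self_eq_zero.1 (h3.unique hasSum_zero)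
  rw [sub_eq_zero.1 h5]
  exact prj_mem _ _

/-- The dimension of the range of an idempotent is its trace. -/
theorem dim_idem {T : H →L[ℝ] H} (hT : Eqv M.toRp M.toRp T) (h1 : ∀ x, T x ∈ M.W)
    (h2 : ∀ y, ContinuousLinearMap.adjoint T y ∈ M.W) (h3 : ∀ x, T (T x) = T x) :
    M.dim T.range = M.tr T := by
  have hi : M.Inv T.range := by
    rintro u _ ⟨x, rfl⟩; exact ⟨_, hT u x⟩
  have := tr_comm hT hi.prj h1 h2
  have e1 : prj T.range ∘L T = T := by
    ext x; exact prj_of_mem (le_cl _ ⟨x, rfl⟩)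
  have e2 : T ∘L prj T.range = prj T.range := by
    ext x
    exact sub_eq_zero.1 (cl_zero (T - 1) (by rintro _ ⟨y, rfl⟩; simp [h3]) (prj_mem _ x))
  rw [e1, e2] at this
  exact this.symm

/-- Transfer of injectivity. -/
theorem inj_transfer {A B : H →L[ℝ] H'} (hA : Eqv M.toRp M'.toRp A) (hB : Eqv M.toRp M'.toRp B)
    {Z : Submodule ℝ H} (hi : M.Inv Z) (hc : IsClosed (Z : Set H)) (hZ : Z ≤ M.W)
    (h1 : ∀ z ∈ Z, A z ∈ M'.W) (h2 : ∀ z ∈ Z, B z ∈ cl (Z.map (A : H →ₗ[ℝ] H')))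
    (h3 : ∀ z ∈ Z, B z = 0 → z = 0) : ∀ z ∈ Z, A z = 0 → z = 0 := by
  have a1 := rn hA hi hc hZ h1
  have a2 := rn hB hi hc hZ fun z hz =>
    cl_le (by rintro _ ⟨x, hx, rfl⟩; exact h1 x hx) M'.closed (h2 z hz)
  have a3 : Z ⊓ B.ker = ⊥ := eq_bot_iff.2 fun z hz => h3 z hz.1 hz.2
  have a4 : M'.dim (Z.map (B : H →ₗ[ℝ] H')) ≤ M'.dim (Z.map (A : H →ₗ[ℝ] H')) :=
    dim_mono (by rintro _ ⟨x, hx, rfl⟩; exact h2 x hx)
  rw [a3] at a2
  intro z hz h
  have := dim_faithful (M := M) (Z := ⊥) (fun u x hx => by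
    rw [(Submodule.mem_bot ℝ).1 hx]; simp) (hi.inf hA.ker) bot_le (inf_le_left.trans hZ)
    (by linarith) ⟨hz, h⟩
  exact cl_le le_rfl (by simp) this

/-- Detecting membership through an injective operator. -/
theorem mem_of_inj {A : H →L[ℝ] H'} (hA : Eqv M.toRp M'.toRp A) {Z Z' : Submodule ℝ H}
    (hi : M.Inv Z) (hi' : M.Inv Z') (hc : IsClosed (Z : Set H)) (hc' : IsClosed (Z' : Set H))
    (hZ : Z ≤ Z') (hW : Z' ≤ M.W) (h1 : ∀ z ∈ Z', A z ∈ M'.W) (h3 : ∀ z ∈ Z', A z = 0 → z = 0)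
    {y : H} (hy : y ∈ Z') (hy' : A y ∈ cl (Z.map (A : H →ₗ[ℝ] H'))) : y ∈ Z := by
  let Y := Z' ⊓ (cl (Z.map (A : H →ₗ[ℝ] H'))).comap (A : H →ₗ[ℝ] H')
  have iY : M.Inv Y := hi'.inf (hA.comap (hA.map hi).cl)
  have a1 := rn hA hi hc (hZ.trans hW) fun z hz => h1 z (hZ hz)
  have a2 := rn hA iY (hc'.inter ((cl_closed _).preimage A.continuous)) (inf_le_left.trans hW)
    fun z hz => h1 z hz.1
  have a3 : Y ⊓ A.ker = ⊥ := eq_bot_iff.2 fun z hz => h3 z hz.1.1 hz.2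
  have a4 : M'.dim (Y.map (A : H →ₗ[ℝ] H')) ≤ M'.dim (Z.map (A : H →ₗ[ℝ] H')) :=
    dim_mono (by rintro _ ⟨x, hx, rfl⟩; exact hx.2)
  rw [a3, dim_bot] at a2
  have a5 := dim_nonneg (M := M) (Z ⊓ A.ker)
  exact cl_le le_rfl hc (dim_faithful hi iY
    (fun z hz => le_cl _ ⟨hZ hz, le_cl _ ⟨z, hz, rfl⟩⟩) (inf_le_left.trans hW) (by linarith)
    ⟨hy, hy'⟩)

attribute [irreducible] prj

end Pool.Agent.P.MP_caa3d2_al
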