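import Pool.Agent.P.MP_caa3d2_al.Cells

/-!
A complex immersed in the universal cover of a one-relator complex and without first cohomology
is simply connected.
-/

set_option autoImplicit false

namespace Pool.Agent.P.MP_caa3d2_al

open FreeGroup hiding map_mul map_one map_inv

variable {A B : Type}

/-- A labelled invariant subcomplex with a developing map to a one-relator group. -/
structure TC (L : ℕ) (s : ℕ → A × Bool) (N : Subgroup (FreeGroup A)) (sB : ℕ → B × Bool)
    (S : Set (FreeGroup A × A)) (C : Set (FreeGroup A)) (lab : FreeGroup A → A → B) (q : B → A)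
    (η : FreeGroup A → G1 L sB) : Prop where
  invS : InvS N S
  invC : ∀ n ∈ N, ∀ c ∈ C, n * c ∈ C
  invL : ∀ n ∈ N, ∀ g a, lab (n * g) a = lab g a
  invE : ∀ n ∈ N, ∀ g, η (n * g) = η g
  proj : ∀ g a, q (lab g a) = a
  cell : ∀ c ∈ C, lp L s c ∈ N
  mem : ∀ c ∈ C, ∀ p, (c * opre s p, (s p).1) ∈ S
  lb : ∀ c ∈ C, ∀ p, lab (c * opre s p) (s p).1 = (sB p).1
  hs : ∀ p, s p = (q (sB p).1, (sB p).2)
  step : ∀ g a, (g, a) ∈ S → η (g * FreeGroup.of a) = η g * pr L sB (FreeGroup.of (lab g a))

/-- Vanishing of the first cohomology. -/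
def H1 (L : ℕ) (s : ℕ → A × Bool) (N : Subgroup (FreeGroup A)) (S : Set (FreeGroup A × A))
    (C : Set (FreeGroup A)) : Prop :=
  ∀ α : FreeGroup A → A → ℝ, (∀ n ∈ N, ∀ g a, α (n * g) a = α g a) →
    (∀ c ∈ C, intA α (c * pre s L) = intA α c) →
    ∀ n ∈ N, ∀ g, Cn S g (n * g) → intA α (n * g) = intA α g

variable {L : ℕ} {s : ℕ → A × Bool} {N : Subgroup (FreeGroup A)} {sB : ℕ → B × Bool}
  {S : Set (FreeGroup A × A)} {C : Set (FreeGroup A)} {lab : FreeGroup A → A → B} {q : B → A}
  {η : FreeGroup A → G1 L sB}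

theorem TC.forest (h : TC L s N sB S C lab q η) (hL : 0 < L) (hP : Per L sB) (hR : Rd sB) {ε : B}
    (hε : ε ∈ lets sB) {S' : Set (FreeGroup A × A)} (h1 : S' ⊆ S)
    (h2 : ∀ x ∈ S', lab x.1 x.2 ≠ ε) : ∀ n ∈ N, ∀ g, Cn S' g (n * g) → n = 1 := by
  intro n hn g hc
  let Λ : FreeGroup A → FreeGroup B := integ fun g a => FreeGroup.of (lab g a)
  have a1 : ∀ g, FreeGroup.map q (Λ g) = g := fun g => by
    have b1 := integ_unique (fun _ a => (FreeGroup.of a : FreeGroup A))
      (fun g => FreeGroup.map q (Λ g)) (fun g a => by simp [Λ, integ_of, h.proj]) g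
    have b2 := integ_unique (fun _ a => (FreeGroup.of a : FreeGroup A)) id (fun g a => rfl) g
    simp only [Λ, integ_one, map_one, id] at b1 b2
    exact b1.trans b2.symm
  have a2 := hc.const (f := fun g => η g * (pr L sB (Λ g))⁻¹) fun g a hg => by
    simp [Λ, integ_of, h.step g a (h1 hg)]
  have a3 := hc.const (f := fun g => (QuotientGroup.mk (Λ g) :
      FreeGroup B ⧸ Subgroup.closure (FreeGroup.of '' {b | b ≠ ε}))) fun g a hg => by
    simp only [Λ, integ_of]
    exact QuotientGroup.mk_mul_of_mem _ (Subgroup.subset_closure ⟨_, h2 _ hg, rfl⟩)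
  simp only [h.invE n hn, mul_right_inj, inv_inj] at a2
  have a4 := rose_fs hL hP hR hε _ (QuotientGroup.eq.1 a3) (by
    rw [map_mul, map_inv]; exact inv_mul_eq_one.2 a2)
  have a5 := congrArg (FreeGroup.map q) (inv_mul_eq_one.1 a4)
  rw [a1, a1] at a5
  exact mul_eq_right.1 a5

theorem TC.eta_pre (h : TC L s N sB S C lab q η) {c : FreeGroup A} (hc : c ∈ C) (p : ℕ) :
    η (c * pre s p) = η c * pr L sB (pre sB p) := by
  induction p with
  | zero => simp
  | succ p ih =>
    have h1 := h.step _ _ (h.mem c hc p)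
    rw [mul_assoc, opre_mul, h.lb c hc] at h1
    have h2 : (sB p).2 = (s p).2 := by rw [h.hs]
    rw [pre_succ sB, map_mul, ← mul_assoc, ← ih, h2]
    unfold opre at h1
    cases hb : (s p).2
    · simp only [hb, Bool.false_eq_true, if_false] at h1
      rw [h1]; simp [sg]
    · simp only [hb, if_true] at h1
      exact h1

theorem TC.eta_opre (h : TC L s N sB S C lab q η) {c : FreeGroup A} (hc : c ∈ C) (p : ℕ) :
    η (c * opre s p) = η c * pr L sB (opre sB p) := by
  have h2 : (sB p).2 = (s p).2 := by rw [h.hs]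
  unfold opre
  rw [h2]
  split_ifs <;> exact h.eta_pre hc _

theorem intA_cell {f : FreeGroup A → ℝ} {α : FreeGroup A → A → ℝ} {c : FreeGroup A}
    (h : ∀ p, f (c * opre s p * FreeGroup.of (s p).1) =
      f (c * opre s p) + α (c * opre s p) (s p).1) (n : ℕ) :
    intA α (c * pre s n) - f (c * pre s n) = intA α c - f c := by
  have := (cn_pre (S := Set.range fun p => (c * opre s p, (s p).1)) (s := s) (c := c) (p := 0)
    (n := n) fun q _ => ⟨_, rfl⟩).const (f := fun g => intA α g - f g) (by
      rintro _ _ ⟨p, hp⟩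
      simp only [Prod.mk.injEq] at hp
      obtain ⟨rfl, rfl⟩ := hp
      rw [intA_of, h]; ring)
  simpa using this

theorem simply_base (h : TC L s N sB S C lab q η) (hL : 0 < L) (hP : Per L s) (hb : Base sB)
    (hN : NW L (cs N s '' C)) (h1 : H1 L s N S C) :
    ∀ n ∈ N, ∀ g, Cn S g (n * g) → n ∈ NC L s C := by
  let lb : Vx N × A → B := fun e => lab e.1.out e.2
  have hlb : ∀ g a, lb (mkV N g, a) = lab g a := fun g a => by
    obtain ⟨n, hn, e⟩ := exists_of_mkV (N := N) (Quotient.out_eq (mkV N g)).symm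
    simp only [lb]; rw [e, h.invL n hn]
  have hx : Cx L sB lb (cs N s '' C) :=
    { per := by rintro _ ⟨c, hc, rfl⟩; exact cs_per hP (h.cell c hc)
      fst := by rintro _ ⟨c, hc, rfl⟩ p; exact (hlb _ _).trans (h.lb c hc p)
      snd := by rintro _ ⟨c, hc, rfl⟩ p; simp only [cs]; rw [h.hs]
      det := by
        rintro _ ⟨c, hc, rfl⟩ _ ⟨c', hc', rfl⟩ p p' e e'
        exact cs_det e (by rw [h.hs, h.hs, e']) }
  obtain ⟨X, -, hX2, hX3, hX4⟩ := exists_dist hL hx.per (hx.uq hb) hN (fun _ => True)
    fun c hc => ⟨0, trivial⟩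
  obtain ⟨ρ, r1, r2, -⟩ := exists_retract hL hx.per (hx.uq hb) X hX2
  let S' : Set (FreeGroup A × A) := {x | x ∈ S ∧ ¬ X (mkV N x.1, x.2)}
  have iS : InvS N S' := fun n hn g a hg => ⟨h.invS n hn g a hg.1, by
    simp only [mkV_mul hn]; exact hg.2⟩
  have hle := NC_le h.cell
  have fr : ∀ n ∈ N, ∀ g, Cn S' g (n * g) → n = 1 := by
    apply forest_of_h1
    intro α hα n hn g hc
    let β : Vx N × A → Multiplicative ℝ := fun e => Multiplicative.ofAdd (α e.1.out e.2)
    have hβ : ∀ g a, β (mkV N g, a) = Multiplicative.ofAdd (α g a) := fun g a => by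
      obtain ⟨n, hn, e⟩ := exists_of_mkV (N := N) (Quotient.out_eq (mkV N g)).symm
      simp only [β]; rw [e, hα n hn]
    let α' : FreeGroup A → A → ℝ := fun g a =>
      Multiplicative.toAdd (FreeGroup.lift β (ρ (mkV N g, a)))
    have e1 : ∀ g, intA α' g =
        Multiplicative.toAdd (FreeGroup.lift β (FreeGroup.lift ρ (Lm N g))) := fun g => by
      have := intA_unique α'
        (fun g => Multiplicative.toAdd (FreeGroup.lift β (FreeGroup.lift ρ (Lm N g))))
        (fun g a => by simp [Lm, integ_of, α']) g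
      simpa [Lm] using this.symm
    have e2 := h1 α' (fun n hn g a => by simp only [α', mkV_mul hn]) (fun c hc => by
      have := Lm_pre (N := N) (s := s) c 0 L
      rw [Nat.zero_add, pre_zero, mul_one] at this
      rw [e1, e1, this, map_mul, r2 _ ⟨_, ⟨c, hc, rfl⟩, 0, rfl⟩, mul_one]) n hn g
      (hc.mono fun x hx => hx.1)
    have e3 := hc.const (f := fun g => intA α g - intA α' g) fun g a hg => by
      simp only [intA_of, α', r1 _ hg.2, lift_apply_of, hβ, toAdd_ofAdd]; ring
    linarith
  have col0 : ∀ g a, (g, a) ∈ S → ∃ n ∈ NC L s C, Cn S' g (n * (g * FreeGroup.of a)) := by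
    intro g a hg
    by_cases hX : X (mkV N g, a)
    · obtain ⟨_, ⟨c0, hc0, rfl⟩, p, hp⟩ := hX3 _ hX
      simp only [cs, Prod.mk.injEq] at hp
      obtain ⟨n, hn, e⟩ := exists_of_mkV hp.1
      obtain rfl := hp.2
      have hc : n * c0 ∈ C := h.invC n hn c0 hc0
      rw [← mul_assoc] at e
      generalize n * c0 = c at hc e
      subst e
      obtain ⟨L', rfl⟩ : ∃ L', L = L' + 1 := ⟨L - 1, by omega⟩
      have a1 : Cn S' (c * pre s (p + 1)) (c * pre s (p + 1 + L')) := cn_pre fun j hj =>
        ⟨h.mem c hc _, by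
          have := hX4 _ ⟨c, hc, rfl⟩ p (j + 1) (by omega) (by omega) hX
          rwa [show p + (j + 1) = p + 1 + j by omega] at this⟩
      rw [show p + 1 + L' = p + (L' + 1) by omega, hP.pre_add, ← mul_assoc,
        ← lp_mul (L := L' + 1), mul_assoc] at a1
      rw [mul_assoc c, opre_mul]
      unfold opre
      split_ifs
      · refine ⟨(lp (L' + 1) s c)⁻¹, inv_mem (lp_mem hc), ?_⟩
        simpa using (a1.smul iS (inv_mem (h.cell c hc))).symm
      · exact ⟨_, lp_mem hc, a1⟩
    · exact ⟨1, one_mem _, by rw [one_mul]; exact Adj.cn ⟨a, Or.inl ⟨⟨hg, hX⟩, rfl⟩⟩⟩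
  have col : ∀ g g', Cn S g g' → ∃ n ∈ NC L s C, Cn S' g (n * g') := by
    intro g g' hc
    induction hc with
    | refl => exact ⟨1, one_mem _, by rw [one_mul]; exact Cn.rfl⟩
    | tail _ had ih =>
      obtain ⟨n, hn, a1⟩ := ih
      obtain ⟨a, ⟨hg, rfl⟩ | ⟨hg, rfl⟩⟩ := had
      · obtain ⟨n', hn', a2⟩ := col0 _ _ hg
        exact ⟨n * n', mul_mem hn hn', by rw [mul_assoc]; exact a1.trans (a2.smul iS (hle hn))⟩
      · obtain ⟨n', hn', a2⟩ := col0 _ _ hg
        refine ⟨n * n'⁻¹, mul_mem hn (inv_mem hn'), a1.trans ?_⟩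
        simpa [mul_assoc] using (a2.smul iS (hle (mul_mem hn (inv_mem hn')))).symm
  intro n hn g hc
  obtain ⟨n', hn', a1⟩ := col _ _ hc
  have := fr (n' * n) (mul_mem (hle hn') hn) g (by rwa [mul_assoc])
  rw [eq_inv_of_mul_eq_one_right this]
  exact inv_mem hn'

/-- Edges whose distinguished letters have heights in a window. -/
def Win (S : Set (FreeGroup A × A)) (lab : FreeGroup A → A → B) (ε : B) (h : FreeGroup A → ℤ)
    (a b : ℤ) : Set (FreeGroup A × A) := {x | x ∈ S ∧ (lab x.1 x.2 ≠ ε ∨ (a ≤ h x.1 ∧ h x.1 ≤ b))}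

theorem Win.mono {ε : B} {h : FreeGroup A → ℤ} {a b a' b' : ℤ} (h1 : a' ≤ a) (h2 : b ≤ b') :
    Win S lab ε h a b ⊆ Win S lab ε h a' b' :=
  fun _ hx => ⟨hx.1, hx.2.imp id fun h => ⟨h1.trans h.1, h.2.trans h2⟩⟩

theorem simply_step (h : TC L s N sB S C lab q η) (hL : 0 < L) (hP : Per L sB) (hR : Rd sB)
    {φ : B → ℤ} (h0 : hv φ (pre sB L) = 0) (h1 : H1 L s N S C)
    (ih : ∀ (S' : Set (FreeGroup A × A)) (C' : Set (FreeGroup A))
      (lab' : FreeGroup A → A → B × ℤ) (q' : B × ℤ → A) (η' : FreeGroup A → G1 L (lf φ sB)),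
      C' ⊆ C → TC L s N (lf φ sB) S' C' lab' q' η' → H1 L s N S' C' →
      ∀ n ∈ N, ∀ g, Cn S' g (n * g) → n ∈ NC L s C') :
    ∀ n ∈ N, ∀ g, Cn S g (n * g) → n ∈ NC L s C := by
  classical
  obtain ⟨ε, hε⟩ : ∃ ε, ε ∈ lets sB := ⟨_, 0, rfl⟩
  obtain ⟨m, M, hmM, hm, a1, a2⟩ := exists_extreme hL hP h0 hε
  obtain ⟨Kt, κ, D, hD⟩ := exists_desc hL hP hR h0 hmM hm a1 a2
  obtain ⟨ht, ht1, ht2⟩ := exists_height hP h0
  let hh : FreeGroup A → ℤ := fun g => ht (η g)
  have hinv : ∀ n ∈ N, ∀ g, hh (n * g) = hh g := fun n hn g => by simp only [hh, h.invE n hn]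
  have hcell : ∀ c ∈ C, ∀ p, hh (c * opre s p) = hh c + hv φ (opre sB p) := fun c hc p => by
    simp only [hh, h.eta_opre hc, ht2, ht1]
  have iW : ∀ a b, InvS N (Win S lab ε hh a b) := fun a b n hn g x hx =>
    ⟨h.invS n hn g x hx.1, by simp only [h.invL n hn, hinv n hn]; exact hx.2⟩
  have cW : ∀ c ∈ C, ∀ p, lab (c * opre s p) (s p).1 = ε →
      hh c + m ≤ hh (c * opre s p) ∧ hh (c * opre s p) ≤ hh c + M := fun c hc p e => by
    have := hm p (by rw [← h.lb c hc, e])
    rw [hcell c hc]; omega
  have tc : ∀ i : ℤ, TC L s N (lf φ sB) (Win S lab ε hh (i + m) (i + M)) {c | c ∈ C ∧ hh c = i}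
      (fun g a => (lab g a, hh g - i)) (fun b => q b.1) fun g => D (η g) (hh g - i) := fun i =>
    { invS := iW _ _
      invC := fun n hn c hc => ⟨h.invC n hn c hc.1, by rw [hinv n hn]; exact hc.2⟩
      invL := fun n hn g a => by rw [h.invL n hn, hinv n hn]
      invE := fun n hn g => by rw [h.invE n hn, hinv n hn]
      proj := fun g a => h.proj g a
      cell := fun c hc => h.cell c hc.1
      mem := fun c hc p => ⟨h.mem c hc.1 p, by
        by_cases e : lab (c * opre s p) (s p).1 = ε
        · right; rw [← hc.2]; exact cW c hc.1 p e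
        · exact Or.inl e⟩
      lb := fun c hc p => by
        simp only [lf, h.lb c hc.1, hcell c hc.1, hc.2, add_sub_cancel_left]
      hs := fun p => h.hs p
      step := fun g a hg => by
        have := (hD.d1 (η g) (lab g a) (hh g - i) (hg.2.imp id fun h => by
          dsimp only at h; omega)).2
        rw [← this, ← h.step g a hg.1]
        congr 1
        simp only [hh, h.step g a hg.1, ht2, ht1, hv_of]; ring }
  have fr : ∀ i : ℤ, ∀ n ∈ N, ∀ g, Cn (Win S lab ε hh (i + 1 + m) (i + M)) g (n * g) → n = 1 :=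
    fun i => (tc i).forest hL (lf_per hP h0) (lf_rd hR) a1 (Win.mono (by omega) le_rfl)
      fun x hx e => by
        simp only [Prod.mk.injEq] at e
        rcases hx.2 with h2 | h2
        · exact h2 e.1
        · omega
  have lev : ∀ i : ℤ, ∀ n ∈ N, ∀ g, Cn (Win S lab ε hh (i + m) (i + M)) g (n * g) →
      n ∈ NC L s C := by
    intro i n hn g hc
    refine NC_mono (fun c hc => hc.1) (ih _ _ _ _ _ (fun c hc => hc.1) (tc i) ?_ n hn g hc)
    intro α hα hcell' n hn g hc
    obtain ⟨fp, p1, p2⟩ := exists_potential (iW _ _) (fr i) α hα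
    obtain ⟨fm, m1, m2⟩ := exists_potential (iW _ _) (fr (i - 1)) α hα
    let α' : FreeGroup A → A → ℝ := fun g a =>
      if lab g a = ε ∧ i + M < hh g then fp (g * FreeGroup.of a) - fp g
      else if lab g a = ε ∧ hh g < i + m then fm (g * FreeGroup.of a) - fm g else α g a
    have e0 : ∀ g a, (lab g a = ε → i + m ≤ hh g ∧ hh g ≤ i + M) → α' g a = α g a := by
      intro g a hg
      simp only [α']
      rw [if_neg (fun h => by have := hg h.1; omega), if_neg (fun h => by have := hg h.1; omega)]
    have e1 := h1 α' (fun n hn g a => by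
      simp only [α', h.invL n hn, hinv n hn, mul_assoc, p1 n hn, m1 n hn, hα n hn]) (by
      intro c hc
      rcases lt_trichotomy (hh c) i with hi | hi | hi
      · have := intA_cell (s := s) (f := fm) (α := α') (c := c) (fun p => by
          by_cases e : lab (c * opre s p) (s p).1 = ε ∧ hh (c * opre s p) < i + m
          · simp only [α']
            rw [if_neg (fun h => by omega), if_pos e]; ring
          · have e' : lab (c * opre s p) (s p).1 = ε → i + m ≤ hh (c * opre s p) ∧
                hh (c * opre s p) ≤ i - 1 + M := fun e2 => by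
              have := cW c hc p e2
              have : ¬ hh (c * opre s p) < i + m := fun h => e ⟨e2, h⟩
              omega
            rw [e0 _ _ fun e2 => by have := e' e2; omega]
            refine m2 _ _ ⟨h.mem c hc p, ?_⟩
            by_cases e2 : lab (c * opre s p) (s p).1 = ε
            · right; have := e' e2; dsimp only; omega
            · exact Or.inl e2) L
        rw [← lp_mul, m1 _ (h.cell c hc), lp_mul] at this
        linarith
      · have := intA_cell (s := s) (f := intA α) (α := α') (c := c) (fun p => by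
          rw [intA_of, e0 _ _ fun e2 => by have := cW c hc p e2; omega]) L
        rw [hcell' c ⟨hc, hi⟩] at this
        linarith
      · have := intA_cell (s := s) (f := fp) (α := α') (c := c) (fun p => by
          by_cases e : lab (c * opre s p) (s p).1 = ε ∧ i + M < hh (c * opre s p)
          · simp only [α']
            rw [if_pos e]; ring
          · have e' : lab (c * opre s p) (s p).1 = ε → i + 1 + m ≤ hh (c * opre s p) ∧
                hh (c * opre s p) ≤ i + M := fun e2 => by
              have := cW c hc p e2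
              have : ¬ i + M < hh (c * opre s p) := fun h => e ⟨e2, h⟩
              omega
            rw [e0 _ _ fun e2 => by have := e' e2; omega]
            refine p2 _ _ ⟨h.mem c hc p, ?_⟩
            by_cases e2 : lab (c * opre s p) (s p).1 = ε
            · right; exact e' e2
            · exact Or.inl e2) L
        rw [← lp_mul, p1 _ (h.cell c hc), lp_mul] at this
        linarith) n hn g (hc.mono fun x hx => hx.1)
    have e3 := hc.const (f := fun g => intA α g - intA α' g) fun g a hg => by
      rw [intA_of, intA_of, e0 g a fun e => hg.2.resolve_left (not_not.2 e)]; ring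
    linarith
  have rng : ∀ (k : ℕ) (a : ℤ), ∀ n ∈ N, ∀ g, Cn (Win S lab ε hh (a + m) (a + k + M)) g (n * g) →
      n ∈ NC L s C := by
    intro k a
    induction k with
    | zero => simpa using lev a
    | succ k ihk =>
      intro n hn g hc
      refine two_piece (S0 := Win S lab ε hh (a + k + 1 + m) (a + k + M)) (iW _ _) (iW _ _)
        (Win.mono (by omega) le_rfl) (Win.mono le_rfl (by omega)) ihk (lev (a + k + 1)) ?_ n hn g
        (hc.mono ?_)
      · intro y
        let d := ind N (Win S lab ε hh (a + k + 1 + m) (a + k + M)) y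
        have d1 : ∀ n ∈ N, ∀ g, d (n * g) = d g := fun n hn g => by
          simp only [d, ind]
          congr 1
          apply propext
          constructor
          · rintro ⟨n', hn', e⟩
            exact ⟨n' * n, mul_mem hn' hn, by rwa [mul_assoc]⟩
          · rintro ⟨n', hn', e⟩
            exact ⟨n' * n⁻¹, mul_mem hn' (inv_mem hn), by simpa [mul_assoc] using e⟩
        have d2 : ∀ g x, (g, x) ∈ Win S lab ε hh (a + k + 1 + m) (a + k + M) →
            d (g * FreeGroup.of x) = d g := fun g x hx => by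
          have ad : Adj (Win S lab ε hh (a + k + 1 + m) (a + k + M)) g (g * FreeGroup.of x) :=
            ⟨x, Or.inl ⟨hx, rfl⟩⟩
          simp only [d, ind]
          congr 1
          apply propext
          constructor
          · rintro ⟨n', hn', e⟩
            exact ⟨n', hn', e.trans (ad.smul (iW _ _) hn').symm.cn⟩
          · rintro ⟨n', hn', e⟩
            exact ⟨n', hn', e.trans (ad.smul (iW _ _) hn').cn⟩
        let α : FreeGroup A → A → ℝ := fun g x =>
          if lab g x = ε ∧ a + k + M < hh g then d g - d (g * FreeGroup.of x) else 0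
        have u1 : ∀ g x, (g, x) ∈ S → (lab g x = ε → a + k + 1 + m ≤ hh g) →
            α g x = d g - d (g * FreeGroup.of x) := fun g x hx e => by
          simp only [α]
          split_ifs with e2
          · rfl
          · rw [d2 g x ⟨hx, ?_⟩, sub_self]
            by_cases e3 : lab g x = ε
            · right
              have := e e3
              have : ¬ a + k + M < hh g := fun h => e2 ⟨e3, h⟩
              dsimp only; omega
            · exact Or.inl e3
        refine ⟨intA α, ?_, ?_, ?_⟩
        · intro g x hx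
          rw [intA_of]
          simp only [α]
          rw [if_neg, add_zero]
          rintro ⟨e, e'⟩
          have := hx.2.resolve_left (not_not.2 e)
          dsimp only at this; omega
        · intro g x hx
          rw [intA_of, u1 g x hx.1 fun e => (hx.2.resolve_left (not_not.2 e)).1]
          simp only [d]; ring
        · intro n hn g hc
          refine h1 α (fun n hn g x => by
            simp only [α, h.invL n hn, hinv n hn, mul_assoc, d1 n hn]) ?_ n hn g
            (hc.mono fun x hx => hx.elim (fun h => h.1) fun h => h.1)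
          intro c hc
          by_cases hi : hh c ≤ a + k
          · have := intA_cell (s := s) (f := fun _ => 0) (α := α) (c := c) (fun p => by
              simp only [α]
              rw [if_neg, add_zero]
              rintro ⟨e, e'⟩
              have := cW c hc p e
              omega) L
            linarith
          · have := intA_cell (s := s) (f := fun g => - d g) (α := α) (c := c) (fun p => by
              rw [u1 _ _ (h.mem c hc p) fun e => by have := cW c hc p e; omega]; ring) L
            simp only [← lp_mul, d1 _ (h.cell c hc)] at this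
            rw [lp_mul] at this
            linarith
      · rintro x ⟨hx, hx'⟩
        by_cases e : lab x.1 x.2 = ε
        · have := hx'.resolve_left (not_not.2 e)
          by_cases e2 : hh x.1 ≤ a + k + M
          · exact Or.inl ⟨hx, Or.inr ⟨this.1, e2⟩⟩
          · exact Or.inr ⟨hx, Or.inr (by push_cast at this; omega)⟩
        · exact Or.inl ⟨hx, Or.inl e⟩
  have fin : ∀ g g', Cn S g g' → ∃ k : ℕ, Cn (Win S lab ε hh (-k) k) g g' := by
    intro g g' hc
    induction hc with
    | refl => exact ⟨0, Cn.rfl⟩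
    | @tail y z _ had ih =>
      obtain ⟨k, hk⟩ := ih
      refine ⟨k + (hh y).natAbs + (hh z).natAbs, (hk.mono (Win.mono (by omega) (by omega))).trans
        (Adj.cn ?_)⟩
      obtain ⟨a, e | e⟩ := had
      · exact ⟨a, Or.inl ⟨⟨e.1, Or.inr (by dsimp only; omega)⟩, e.2⟩⟩
      · exact ⟨a, Or.inr ⟨⟨e.1, Or.inr (by dsimp only; omega)⟩, e.2⟩⟩
  intro n hn g hc
  obtain ⟨k, hk⟩ := fin _ _ hc
  exact rng (2 * k) (-k - m) n hn g (hk.mono (Win.mono (by omega) (by push_cast; omega)))

theorem simply_aux (hL : 0 < L) (hP : Per L s) : ∀ (B : Type) (sB : ℕ → B × Bool), Per L sB →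
    Rd sB → Rd sB → ∀ (S : Set (FreeGroup A × A)) (C : Set (FreeGroup A))
      (lab : FreeGroup A → A → B) (q : B → A) (η : FreeGroup A → G1 L sB),
      NW L (cs N s '' C) → TC L s N sB S C lab q η → H1 L s N S C →
      ∀ n ∈ N, ∀ g, Cn S g (n * g) → n ∈ NC L s C := by
  refine hierarchy hL _ ?_ ?_
  · intro B sB _ _ hb _ S C lab q η hN h h1
    exact simply_base h hL hP hb hN h1
  · intro B sB hPB _ φ _ h0 ih hR S C lab q η hN h h1
    exact simply_step h hL hPB hR h0 h1 fun S' C' lab' q' η' hC h' h1' =>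
      ih (lf_rd hR) S' C' lab' q' η' (fun c hc => hN c (Set.image_mono hC hc)) h' h1'

/-- If every real character of `N` killing the cells vanishes, the cells generate `N`. -/
theorem simply (hL : 0 < L) (hP : Per L s) (hR : Rd s) (hN : ∀ n ∈ N, pr L s n = 1)
    (hC : ∀ n ∈ N, ∀ c ∈ C, n * c ∈ C) (hl : ∀ c ∈ C, lp L s c ∈ N)
    (h1 : ∀ χ : FreeGroup A → ℝ, (∀ n ∈ N, ∀ n' ∈ N, χ (n * n') = χ n + χ n') →
      (∀ c ∈ C, χ (lp L s c) = 0) → ∀ n ∈ N, χ n = 0) : N ≤ NC L s C := by
  intro n hn
  refine simply_aux hL hP A s hP hR hR Set.univ C (fun _ a => a) id (pr L s)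
    (cs_nw hL hP hR hN C) ?_ ?_ n hn 1 (cn_univ _ _)
  · exact
      { invS := fun _ _ _ _ _ => trivial
        invC := hC
        invL := fun _ _ _ _ => rfl
        invE := fun n hn g => by rw [map_mul, hN n hn, one_mul]
        proj := fun _ _ => rfl
        cell := hl
        mem := fun _ _ _ => trivial
        lb := fun _ _ _ => rfl
        hs := fun _ => rfl
        step := fun g a _ => map_mul _ _ _ }
  · intro α hα hc n hn g _
    rw [intA_mul α (hα n hn), h1 (intA α) (fun n hn n' _ => intA_mul α (hα n hn) n') ?_ n hn,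
      zero_add]
    intro c hc'
    have := hc c hc'
    rw [← lp_mul, intA_mul α (hα _ (hl c hc'))] at this
    linarith

end Pool.Agent.P.MP_caa3d2_al
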