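import Pool.Agent.P.MP_caa3d2_al.L2
import Pool.Agent.P.MP_caa3d2_al.Simply

/-!
Injectivity of the boundary operator on square-summable class functions of cells.
-/

set_option autoImplicit false

open scoped InnerProductSpace

noncomputable section

namespace Pool.Agent.P.MP_caa3d2_al

open FreeGroup hiding map_mul map_one map_inv

variable {Ce Ed : Type}

/-- The sign attached to a Boolean. -/
def sn (b : Bool) : ℝ := if b then 1 else -1

/-- The part of the boundary operator given by a set of positions. -/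
def bdP (ed : Ce → ℕ → Ed) (hed : ∀ p, Function.Injective fun c => ed c p) (σ : ℕ → Bool)
    (P : Finset ℕ) : L2 Ce →L[ℝ] L2 Ed := ∑ p ∈ P, sn (σ p) • push _ (hed p)

open Classical in
/-- The positions of a letter. -/
def Pos {B : Type} (L : ℕ) (s : ℕ → B × Bool) (ε : B) : Finset ℕ :=
  (Finset.range L).filter fun p => (s p).1 = ε

theorem mem_Pos {B : Type} {L : ℕ} {s : ℕ → B × Bool} {ε : B} {p : ℕ} :
    p ∈ Pos L s ε ↔ p < L ∧ (s p).1 = ε := by simp [Pos]

/-- Cells with the same boundary. -/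
def Eqc (ed : Ce → ℕ → Ed) (σ : ℕ → Bool) (c c' : Ce) : Prop :=
  ∃ k, ∀ q, ed c' q = ed c (q + k) ∧ σ (q + k) = σ q

/-- Class functions supported on a set of cells. -/
def Zc (ed : Ce → ℕ → Ed) (σ : ℕ → Bool) (C : Set Ce) : Submodule ℝ (L2 Ce) where
  carrier := {x | x ∈ sup C ∧ ∀ c ∈ C, ∀ c' ∈ C, Eqc ed σ c c' → x c = x c'}
  add_mem' := fun ha hb => ⟨add_mem ha.1 hb.1, fun c hc c' hc' e => by
    simp [ha.2 c hc c' hc' e, hb.2 c hc c' hc' e]⟩
  zero_mem' := ⟨zero_mem _, fun _ _ _ _ _ => rfl⟩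
  smul_mem' := fun r _ ha => ⟨Submodule.smul_mem _ _ ha.1, fun c hc c' hc' e => by
    simp [ha.2 c hc c' hc' e]⟩

variable {ed : Ce → ℕ → Ed} {hed : ∀ p, Function.Injective fun c => ed c p} {σ : ℕ → Bool}

theorem bdP_dl (P : Finset ℕ) (c : Ce) :
    bdP ed hed σ P (dl c) = ∑ p ∈ P, sn (σ p) • dl (ed c p) := by
  simp only [bdP, sum_apply, smul_apply, push_dl]

theorem Zc_closed (C : Set Ce) : IsClosed (Zc ed σ C : Set (L2 Ce)) := by
  have : (Zc ed σ C : Set (L2 Ce)) = (sup C : Set (L2 Ce)) ∩ ⋂ c, ⋂ _ : c ∈ C, ⋂ c', ⋂ _ : c' ∈ C,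
      ⋂ _ : Eqc ed σ c c', {f : L2 Ce | f c = f c'} := by
    ext f; simp [Zc]
  rw [this]
  exact (sup_closed C).inter (isClosed_iInter fun c => isClosed_iInter fun _ =>
    isClosed_iInter fun c' => isClosed_iInter fun _ => isClosed_iInter fun _ =>
      isClosed_eq (cont_apply c) (cont_apply c'))

/-- An equivariant family of cells with a developing map. -/
structure IC (L : ℕ) (ed : Ce → ℕ → Ed) (σ : ℕ → Bool) {U : Type} [Group U]
    (a : U →* Equiv.Perm Ce) (b : U →* Equiv.Perm Ed) {B : Type} (sB : ℕ → B × Bool)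
    (C : Set Ce) (η : Ce → G1 L sB) : Prop where
  fa : Free a
  fb : Free b
  eq : ∀ u c p, ed (a u c) p = b u (ed c p)
  inv : InvP a C
  fin : ∃ G : Set Ce, G.Finite ∧ C ⊆ orb a G
  per : ∀ c ∈ C, ∀ p, ed c (p + L) = ed c p
  sgn : ∀ p, (sB p).2 = σ p
  lab : ∀ c ∈ C, ∀ c' ∈ C, ∀ p p', ed c p = ed c' p' → (sB p).1 = (sB p').1 ∧
    η c * pr L sB (opre sB p) = η c' * pr L sB (opre sB p')
  det : ∀ c ∈ C, ∀ c' ∈ C, ∀ p p', ed c p = ed c' p' → sB p = sB p' → sB (p + 1) = sB (p' + 1) →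
    ed c (p + 1) = ed c' (p' + 1)
  dev : ∀ u, ∃ g, ∀ c ∈ C, η (a u c) = g * η c

section
variable {L : ℕ} {U : Type} [Group U] {a : U →* Equiv.Perm Ce} {b : U →* Equiv.Perm Ed}

theorem bdP_eqv (h : ∀ u c p, ed (a u c) p = b u (ed c p)) (P : Finset ℕ) :
    Eqv (rep a) (rep b) (bdP ed hed σ P) :=
  eqv_dl fun u c => by simp only [bdP_dl, map_sum, map_smul, rep_dl, h]

theorem Zc_inv (h : ∀ u c p, ed (a u c) p = b u (ed c p)) {C : Set Ce} (hC : InvP a C) :
    (rep a).Inv (Zc ed σ C) := fun u x hx =>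
  ⟨hC.sup u x hx.1, fun c hc c' hc' ⟨k, hk⟩ => by
    rw [rep_apply, rep_apply]
    exact hx.2 _ (hC _ c hc) _ (hC _ c' hc') ⟨k, fun q => ⟨by rw [h, h, (hk q).1], (hk q).2⟩⟩⟩

theorem bdP_mem (h : ∀ u c p, ed (a u c) p = b u (ed c p)) {G : Set Ce} {P : Finset ℕ}
    {G' : Set Ed} (hG : ∀ c ∈ G, ∀ p ∈ P, ed c p ∈ orb b G') {x : L2 Ce}
    (hx : x ∈ sup (orb a G)) : bdP ed hed σ P x ∈ sup (orb b G') := by
  refine map_mem_closed _ (sup_closed _) fun c hc => ?_
  obtain ⟨u, f, hf, rfl⟩ := mem_of_sup hx hc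
  rw [bdP_dl]
  refine Submodule.sum_mem _ fun p hp => Submodule.smul_mem _ _ (dl_mem_sup ?_)
  rw [h]; exact orb_inv _ _ _ _ (hG f hf p hp)

variable {B : Type} {sB : ℕ → B × Bool} {C : Set Ce} {η : Ce → G1 L sB}

theorem inj_base (h : IC L ed σ a b sB C η) (hL : 0 < L) (hP : Per L sB) (hb : Base sB) {ε : B}
    (hε : ε ∈ lets sB) {x : L2 Ce} (hx : x ∈ Zc ed σ C)
    (h0 : bdP ed hed σ (Pos L sB ε) x = 0) : x = 0 := by
  rw [lets_eq hL hP] at hε
  obtain ⟨p0, hp0, rfl⟩ := hε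
  refine L2.ext fun c => ?_
  by_contra hc
  have hcC := mem_of_sup hx.1 hc
  have h1 := congrArg (fun f : L2 Ed => f (ed c p0) * (sn (σ p0) * x c)) h0
  simp only [bdP, sum_apply, smul_apply, L2.sum_apply, L2.smul_apply, Finset.sum_mul,
    L2.zero_apply, zero_mul] at h1
  have h2 := (Finset.sum_eq_zero_iff_of_nonneg fun p _ => ?_).1 h1 p0
    (mem_Pos.2 ⟨hp0, rfl⟩)
  · rw [push_apply (fun c => ed c p0)] at h2
    apply hc
    cases hs : σ p0 <;> simpa [sn, hs] using h2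
  · by_cases e : ∃ c' ∈ C, ed c' p = ed c p0
    · obtain ⟨c', hc', e⟩ := e
      have a1 := hb _ _ (h.lab c' hc' c hcC _ _ e).1
      have a2 : ∀ k, ed c' (p + k) = ed c (p0 + k) := by
        intro k
        induction k with
        | zero => exact e
        | succ k ih => exact h.det c' hc' c hcC _ _ ih (a1 k) (a1 (k + 1))
      have a3 : ∀ q k, ed c' (q + L * k) = ed c' q := by
        intro q k
        induction k with
        | zero => rfl
        | succ k ih => rw [Nat.mul_succ, ← Nat.add_assoc, h.per c' hc', ih]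
      have a4 : p ≤ L * p := Nat.le_mul_of_pos_left _ hL
      have a5 : x c = x c' := hx.2 c hcC c' hc' ⟨p0 + L * p - p, fun q => ⟨by
        rw [← a3 q p, show q + L * p = p + (q + L * p - p) by omega, a2]
        congr 1; omega, by
        rw [← h.sgn, ← h.sgn, ← hP.mul q p, show q + L * p = p + (q + L * p - p) by omega, a1]
        congr 2; omega⟩⟩
      have a6 : σ p = σ p0 := by rw [← h.sgn, ← h.sgn]; exact congrArg Prod.snd (a1 0)
      rw [← e, push_apply (fun c => ed c p), a6, a5]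
      exact mul_self_nonneg _
    · rw [push_apply_zero, mul_zero, zero_mul]
      intro c' e'
      by_contra e2
      exact e ⟨c', mem_of_sup hx.1 e2, e'⟩

theorem inj_step (h : IC L ed σ a b sB C η) (hL : 0 < L) (hP : Per L sB) (hR : Rd sB)
    {φ : B → ℤ} (hφ : hv φ (pre sB L) = 0)
    (ih : ∀ (U' : Subgroup U) (C' : Set Ce) (η' : Ce → G1 L (lf φ sB)),
      IC L ed σ (a.comp U'.subtype) (b.comp U'.subtype) (lf φ sB) C' η' →
      ∀ ε ∈ lets (lf φ sB), ∀ x ∈ Zc ed σ C',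
      bdP ed hed σ (Pos L (lf φ sB) ε) x = 0 → x = 0)
    {ε : B} (hε : ε ∈ lets sB) : ∀ x ∈ Zc ed σ C,
    bdP ed hed σ (Pos L sB ε) x = 0 → x = 0 := by
  obtain ⟨m, M, hmM, hm, a1, a2⟩ := exists_extreme hL hP hφ hε
  obtain ⟨Kt, κ, D, hD⟩ := exists_desc hL hP hR hφ hmM hm a1 a2
  obtain ⟨ht, ht1, ht2⟩ := exists_height hP hφ
  obtain ⟨G, hG, hGC⟩ := h.fin
  set P := Pos L sB ε with hPdef
  set A := bdP ed hed σ P with hA
  set Z := Zc ed σ C with hZ
  have hZi : (rep a).Inv Z := Zc_inv h.eq h.inv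
  have hpj : ∀ x, prj Z x ∈ Z := fun x => cl_le le_rfl (Zc_closed C) (prj_mem Z x)
  have hAe : Eqv (rep a) (rep b) A := bdP_eqv h.eq P
  let hh : Ce → ℤ := fun c => ht (η c)
  have hlab : ∀ c ∈ C, ∀ c' ∈ C, ∀ p p', ed c p = ed c' p' →
      hh c + hv φ (opre sB p) = hh c' + hv φ (opre sB p') := fun c hc c' hc' p p' e => by
    have := congrArg ht (h.lab c hc c' hc' p p' e).2
    simpa only [ht2, ht1] using this
  have hcl : ∀ c ∈ C, ∀ c' ∈ C, Eqc ed σ c c' → hh c = hh c' := by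
    rintro c hc c' hc' ⟨k, hk⟩
    have hk' : Per k sB := fun q => Prod.ext (h.lab c' hc' c hc _ _ (hk q).1).1.symm
      (by rw [h.sgn, h.sgn, (hk q).2])
    have := hlab c' hc' c hc _ _ (hk 0).1
    rw [hk'.opre_add, hv_mul, hv_period hL hP hφ hk'] at this
    omega
  have hres : ∀ j, ∀ y ∈ Z, res {c | hh c = j} y ∈ Z := fun j y hy =>
    ⟨fun c hc => by
      by_cases e : c ∈ {c | hh c = j}
      · rw [res_mem _ e]; exact hy.1 c hc
      · exact res_notMem _ e, fun c hc c' hc' e => by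
      by_cases e1 : c ∈ {c | hh c = j}
      · rw [res_mem _ e1, res_mem _ (show c' ∈ {c | hh c = j} from (hcl c hc c' hc' e).symm.trans e1),
          hy.2 c hc c' hc' e]
      · rw [res_notMem _ e1, res_notMem _ (show c' ∉ {c | hh c = j} from
          fun e2 => e1 ((hcl c hc c' hc' e).trans e2))]⟩
  let T : ℤ → L2 Ce →L[ℝ] L2 Ed := fun j => A ∘L res {c | hh c = j} ∘L prj Z
  have hT : ∀ j x, T j x = A (res {c | hh c = j} (prj Z x)) := fun _ _ => rfl
  obtain ⟨Bo, b1, b2, b3⟩ := linnell (ρ := rep a) (ρ' := rep b) T ‖A‖ (norm_nonneg _)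
    (fun x s => by
      calc ∑ j ∈ s, ‖T j x‖ ^ 2 ≤ ∑ j ∈ s, ‖A‖ ^ 2 * ‖res {c | hh c = j} (prj Z x)‖ ^ 2 :=
            Finset.sum_le_sum fun j _ => by
              rw [← mul_pow]; exact pow_le_pow_left₀ (norm_nonneg _) (A.le_opNorm _) 2
        _ ≤ ‖A‖ ^ 2 * ‖x‖ ^ 2 := by
            rw [← Finset.mul_sum]
            refine mul_le_mul_of_nonneg_left ((sum_res_le hh _ s).trans ?_) (sq_nonneg _)
            exact pow_le_pow_left₀ (norm_nonneg _)
              (norm_prj_le _ _) 2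
        _ = _ := by rw [mul_pow])
    (fun u => by
      obtain ⟨g, hg⟩ := h.dev u
      refine ⟨ht g, fun j x => ?_⟩
      rw [hT, hT, hZi.prj u, ← hAe u]
      congr 1
      refine L2.ext fun c => ?_
      obtain ⟨c, rfl⟩ := (a u).surjective c
      rw [rep_apply']
      by_cases hc : c ∈ C
      · have e : hh (a u c) = hh c + ht g := by simp only [hh, hg c hc, ht2, add_comm]
        by_cases e1 : c ∈ {c | hh c = j}
        · rw [res_mem _ e1, res_mem, rep_apply']
          show hh _ = _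
          rw [e, show hh c = j from e1]
        · rw [res_notMem _ e1, res_notMem]
          intro e2
          exact e1 (add_right_cancel (e.symm.trans e2))
      · have e := (hpj x).1 c hc
        by_cases e1 : c ∈ {c | hh c = j} <;> by_cases e2 : a u c ∈ {c | hh c = j + ht g} <;>
          simp only [res_mem, res_notMem, e1, e2, rep_apply', e, not_false_eq_true])
  have hG' : (Set.image2 ed G (Set.Iio L)).Finite := hG.image2 _ (Set.finite_Iio L)
  refine inj_transfer (M := fm h.fa hG) (M' := fm h.fb hG') hAe b1 hZi (Zc_closed C)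
    (fun x hx => sup_mono hGC hx.1) (fun x hx => bdP_mem h.eq (fun c hc p hp => mem_orb b
      (Set.mem_image2_of_mem hc (mem_Pos.1 hp).1))
      (sup_mono hGC hx.1))
    (fun z _ => b2 _ (fun j x => Submodule.mem_map_of_mem (hres j _ (hpj x))) z) fun z hz hB => ?_
  refine L2.ext fun c0 => ?_
  by_contra hc0
  have hc0C := mem_of_sup hz.1 hc0
  let C' : Set Ce := {c | c ∈ C ∧ hh c = hh c0 ∧ κ (η c) 0 = κ (η c0) 0}
  let P' := Pos L (lf φ sB) (ε, M)
  let E' : Set Ed := {e | ∃ c ∈ C', ∃ p ∈ P', e = ed c p}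
  have hP' : P' = P.filter fun p => hv φ (opre sB p) = M := by
    ext p; simp [P', hPdef, mem_Pos, lf, and_assoc]
  have k1 : ∀ c ∈ C, hh c ≤ hh c0 → ∀ p ∈ P, ed c p ∈ E' → c ∈ C' ∧ hv φ (opre sB p) = M := by
    rintro c hc hle p hp ⟨c', hc', p', hp', e⟩
    rw [hP', Finset.mem_filter] at hp'
    have e1 := hlab c hc c' hc'.1 p p' e
    have e2 := hm p (mem_Pos.1 hp).2
    have e3 := hc'.2.1
    have e4 : hv φ (opre sB p) = M := by omega
    refine ⟨⟨hc, by omega, ?_⟩, e4⟩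
    rw [← hc'.2.2, ← (hD.opre hm (η c) p).1, ← (hD.opre hm (η c') p').1,
      (h.lab c hc c' hc'.1 p p' e).2, e4, hp'.2]
  have k2 : ∀ y ∈ sup {c | c ∈ C ∧ hh c ≤ hh c0}, res E' (A y) = bdP ed hed σ P' (res C' y) := by
    intro y hy
    refine ext_dl (S := res E' ∘L A) (T := bdP ed hed σ P' ∘L res C') fun c hc => ?_
    obtain ⟨hcC, hle⟩ := mem_of_sup hy hc
    simp only [ContinuousLinearMap.comp_apply, hA, bdP_dl, map_sum, map_smul]
    by_cases e : c ∈ C'
    · rw [res_dl_mem e, bdP_dl, hP', Finset.sum_filter]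
      refine Finset.sum_congr rfl fun p hp => ?_
      split_ifs with e2
      · rw [res_dl_mem]
        exact ⟨c, e, p, by rw [hP']; exact Finset.mem_filter.2 ⟨hp, e2⟩, rfl⟩
      · rw [res_dl_notMem fun e3 => e2 (k1 c hcC hle p hp e3).2, smul_zero]
    · rw [res_dl_notMem e, map_zero]
      exact Finset.sum_eq_zero fun p hp => by
        rw [res_dl_notMem fun e3 => e (k1 c hcC hle p hp e3).1, smul_zero]
  have k3 : ∀ i ≤ hh c0, ∀ x, res E' (T i x) =
      bdP ed hed σ P' (res C' (res {c | hh c = i} (prj Z x))) := fun i hi x => by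
    rw [hT]
    refine k2 _ fun c hc => ?_
    by_cases e : c ∈ {c | hh c = i}
    · rw [res_mem _ e]
      exact (hpj x).1 c fun e2 => hc ⟨e2, (show hh c = i from e).le.trans hi⟩
    · exact res_notMem _ e
  have k4 : res E' (T (hh c0) z) = 0 := by
    refine cl_span_zero _ ?_ (b3 z hB (hh c0))
    rintro _ ⟨i, hi, x, rfl⟩
    rw [k3 i hi.le]
    have : res C' (res {c | hh c = i} (prj Z x)) = 0 := L2.ext fun c => by
      by_cases e : c ∈ C'
      · rw [res_mem _ e, res_notMem]; · rfl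
        intro e2
        exact hi.ne ((show hh c = i from e2).symm.trans e.2.1)
      · exact res_notMem _ e
    rw [this, map_zero]
  rw [k3 _ le_rfl, prj_of_mem (le_cl _ hz)] at k4
  have k5 : ∀ u, ∀ c1 ∈ C', a u c1 ∈ C' → ∀ c ∈ C', a u c ∈ C' := by
    intro u c1 hc1 hu c hc
    obtain ⟨g, hg⟩ := h.dev u
    have e1 := hu.2.1
    have e2 := hu.2.2
    have e3 := hc1.2.1
    have e4 := hc.2.1
    simp only [hh, hg c1 hc1.1, ht2] at e1 e2 e3 e4
    refine ⟨h.inv u c hc.1, ?_, ?_⟩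
    · simp only [hh, hg c hc.1, ht2]; omega
    · rw [hg c hc.1, ← e2]
      exact hD.d2 _ _ _ _ (hc.2.2.trans hc1.2.2.symm)
  let U' : Subgroup U :=
    { carrier := {u | ∀ c, a u c ∈ C' ↔ c ∈ C'}
      mul_mem' := fun {u v} hu hv c => by
        rw [map_mul, Equiv.Perm.mul_apply]; exact (hu _).trans (hv c)
      one_mem' := fun c => by simp
      inv_mem' := fun {u} hu c => by simpa using (hu (a u⁻¹ c)).symm }
  have k6 : ∀ u, ∀ c1 ∈ C', a u c1 ∈ C' → u ∈ U' := fun u c1 hc1 hu c =>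
    ⟨fun e => by simpa using k5 u⁻¹ _ hu (by simpa using hc1) _ e, k5 u c1 hc1 hu c⟩
  have k7 := ih U' C' (fun c => D (η c) 0)
    { fa := fun u c e => Subtype.ext (h.fa u.1 c e)
      fb := fun u c e => Subtype.ext (h.fb u.1 c e)
      eq := fun u c p => h.eq u.1 c p
      inv := fun u c hc => (u.2 c).2 hc
      fin := by
        classical
        let τ : Ce → Ce := fun f => if e : ∃ u, a u f ∈ C' then a e.choose f else f
        refine ⟨τ '' G, hG.image _, fun c hc => ?_⟩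
        obtain ⟨u, f, hf, rfl⟩ := hGC hc.1
        have e : ∃ u, a u f ∈ C' := ⟨u, hc⟩
        have e2 : a u f = a (u * e.choose⁻¹) (τ f) := by simp [τ, dif_pos e]
        refine ⟨⟨u * e.choose⁻¹, k6 _ (τ f) ?_ (e2 ▸ hc)⟩, τ f, ⟨f, hf, rfl⟩, e2⟩
        simp only [τ, dif_pos e]; exact e.choose_spec
      per := fun c hc => h.per c hc.1
      sgn := h.sgn
      lab := fun c hc c' hc' p p' e => by
        have e1 := h.lab c hc.1 c' hc'.1 p p' e
        have e2 := hlab c hc.1 c' hc'.1 p p' e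
        have e3 : hv φ (opre sB p) = hv φ (opre sB p') := by
          have := hc.2.1; have := hc'.2.1; omega
        refine ⟨Prod.ext e1.1 e3, ?_⟩
        rw [← (hD.opre hm (η c) p).2, ← (hD.opre hm (η c') p').2, e1.2, e3]
      det := fun c hc c' hc' p p' e e1 e2 => by
        simp only [lf, Prod.mk.injEq] at e1 e2
        exact h.det c hc.1 c' hc'.1 p p' e (Prod.ext e1.1.1 e1.2) (Prod.ext e2.1.1 e2.2)
      dev := fun u => by
        obtain ⟨g, hg⟩ := h.dev u.1
        have hc0' : c0 ∈ C' := ⟨hc0C, rfl, rfl⟩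
        refine ⟨D (g * η c0) 0 * (D (η c0) 0)⁻¹, fun c hc => ?_⟩
        have e1 := ((u.2 c0).2 hc0').2.2
        rw [hg c0 hc0C] at e1
        rw [hD.d3 g (η c0) (η c) 0 hc.2.2.symm e1, ← hg c hc.1]
        simp }
    (ε, M) a2 (res C' (res {c | hh c = hh c0} z)) ⟨fun c hc => res_notMem _ hc,
      fun c hc c' hc' e => by
        rw [res_mem _ hc, res_mem _ hc']
        exact (hres _ z hz).2 c hc.1 c' hc'.1 e⟩ k4
  have k8 := congrArg (fun f : L2 Ce => f c0) k7
  simp only at k8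
  rw [res_mem _ (show c0 ∈ C' from ⟨hc0C, rfl, rfl⟩),
    res_mem _ (show c0 ∈ {c | hh c = hh c0} from rfl)] at k8
  exact hc0 k8

end

theorem inj_all {L : ℕ} (hL : 0 < L) : ∀ (B : Type) (sB : ℕ → B × Bool), Per L sB → Rd sB →
    Rd sB → ∀ (U : Type) [Group U] (a : U →* Equiv.Perm Ce) (b : U →* Equiv.Perm Ed) (C : Set Ce)
      (η : Ce → G1 L sB), IC L ed σ a b sB C η → ∀ ε ∈ lets sB, ∀ x ∈ Zc ed σ C,
      bdP ed hed σ (Pos L sB ε) x = 0 → x = 0 := by
  refine hierarchy hL _ ?_ ?_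
  · intro B sB hP _ hb _ U _ a b C η h ε hε x hx h0
    exact inj_base h hL hP hb hε hx h0
  · intro B sB hP _ φ _ h0 ih hR U _ a b C η h ε hε
    exact inj_step h hL hP hR h0 (fun U' C' η' h' => ih (lf_rd hR) U' _ _ C' η' h') hε

attribute [irreducible] bdP

end Pool.Agent.P.MP_caa3d2_al
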