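import Pool.Agent.P.MP_caa3d2_al.Linn

/-!
Square-summable functions on a set with a free group action.
-/

set_option autoImplicit false

open scoped InnerProductSpace Topology
open Filter

noncomputable section

namespace Pool.Agent.P.MP_caa3d2_al

/-- Square-summable real functions. -/
abbrev L2 (X : Type) : Type := lp (fun _ : X => ℝ) 2

variable {X Y I : Type}

theorem mem_two_iff (f : X → ℝ) : Memℓp f 2 ↔ Summable fun g => ‖f g‖ ^ 2 := by
  rw [memℓp_gen_iff (by norm_num)]
  simp

theorem hasSum_norm_sq (f : L2 X) : HasSum (fun g => ‖f g‖ ^ 2) (‖f‖ ^ 2) := by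
  have := lp.hasSum_norm (p := 2) (by norm_num) f
  simpa using this

theorem L2.ext {f g : L2 X} (h : ∀ x, f x = g x) : f = g := lp.ext (funext h)

@[simp] theorem L2.zero_apply (x : X) : (0 : L2 X) x = 0 := rfl
@[simp] theorem L2.add_apply (f g : L2 X) (x : X) : (f + g) x = f x + g x := rfl
@[simp] theorem L2.sub_apply (f g : L2 X) (x : X) : (f - g) x = f x - g x := rfl
@[simp] theorem L2.smul_apply (c : ℝ) (f : L2 X) (x : X) : (c • f) x = c * f x := rfl

open Classical in
/-- The basis vector at a point. -/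
def dl (y : X) : L2 X := lp.single 2 y (1 : ℝ)

open Classical in
theorem dl_apply (y g : X) : dl y g = if g = y then 1 else 0 := by
  simp [dl, lp.single_apply, Pi.single_apply]

theorem dl_self (y : X) : dl y y = 1 := by simp [dl_apply]

theorem dl_ne {y g : X} (h : g ≠ y) : dl y g = 0 := by simp [dl_apply, h]

theorem inner_dl (y : X) (f : L2 X) : ⟪dl y, f⟫_ℝ = f y := by
  classical
  rw [dl]
  convert lp.inner_single_left (𝕜 := ℝ) y (1 : ℝ) f using 1
  simp

theorem L2.sum_apply {ι : Type} (s : Finset ι) (f : ι → L2 X) (x : X) :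
    (∑ i ∈ s, f i) x = ∑ i ∈ s, f i x := by
  simp only [← inner_dl, inner_sum]

theorem hasSum_dl (f : L2 X) : HasSum (fun g => f g • dl g) f := by
  classical
  have := lp.hasSum_single (p := 2) (by norm_num) f
  convert this using 2 with g
  ext x
  simp [dl_apply, lp.single_apply, Pi.single_apply]

theorem map_mem_closed {H : Type} [NormedAddCommGroup H] [InnerProductSpace ℝ H]
    (T : L2 X →L[ℝ] H) {W : Submodule ℝ H} (hW : IsClosed (W : Set H)) {f : L2 X}
    (h : ∀ x, f x ≠ 0 → T (dl x) ∈ W) : T f ∈ W := by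
  refine hW.mem_of_tendsto ((hasSum_dl f).mapL T) (Eventually.of_forall fun s => ?_)
  refine W.sum_mem fun x _ => ?_
  by_cases hx : f x = 0
  · simp [hx]
  · rw [map_smul]; exact W.smul_mem _ (h x hx)

theorem ext_dl {H : Type} [NormedAddCommGroup H] [InnerProductSpace ℝ H]
    {S T : L2 X →L[ℝ] H} {f : L2 X} (h : ∀ x, f x ≠ 0 → S (dl x) = T (dl x)) : S f = T f :=
  sub_eq_zero.1 (map_mem_closed (S - T) (W := ⊥) (by simp) fun x hx => sub_eq_zero.2 (h x hx))

theorem ext_dl2 {H H1 : Type} [NormedAddCommGroup H] [InnerProductSpace ℝ H]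
    [NormedAddCommGroup H1] [InnerProductSpace ℝ H1]
    {T : L2 X →L[ℝ] H} {S : L2 X →L[ℝ] H1} {S' : H1 →L[ℝ] H} {f : L2 X}
    (h : ∀ x, f x ≠ 0 → S' (S (dl x)) = T (dl x)) : S' (S f) = T f :=
  ext_dl (S := S' ∘L S) h

/-- Composition with an injection, as a linear map. -/
def pullL (i : I → X) (hi : Function.Injective i) : L2 X →ₗ[ℝ] L2 I where
  toFun f := ⟨fun a => f (i a), by
    change Memℓp (fun a => f (i a)) 2
    rw [mem_two_iff]
    exact (hasSum_norm_sq f).summable.comp_injective hi⟩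
  map_add' _ _ := rfl
  map_smul' _ _ := rfl

theorem pullL_le (i : I → X) (hi : Function.Injective i) (f : L2 X) :
    ‖pullL i hi f‖ ≤ 1 * ‖f‖ := by
  rw [one_mul]
  refine (pow_le_pow_iff_left₀ (norm_nonneg _) (norm_nonneg _) two_ne_zero).1 ?_
  have h1 : HasSum (fun a => ‖f (i a)‖ ^ 2) (‖pullL i hi f‖ ^ 2) := hasSum_norm_sq (pullL i hi f)
  exact hasSum_le_inj i hi (fun _ _ => by positivity) (fun _ => le_rfl) h1 (hasSum_norm_sq f)

/-- Composition with an injection. -/
def pull (i : I → X) (hi : Function.Injective i) : L2 X →L[ℝ] L2 I :=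
  (pullL i hi).mkContinuous 1 (pullL_le i hi)

@[simp] theorem pull_apply (i : I → X) (hi : Function.Injective i) (f : L2 X) (a : I) :
    pull i hi f a = f (i a) := rfl

/-- Extension by zero along an injection. -/
def push (i : I → X) (hi : Function.Injective i) : L2 I →L[ℝ] L2 X :=
  ContinuousLinearMap.adjoint (pull i hi)

theorem push_dl (i : I → X) (hi : Function.Injective i) (a : I) : push i hi (dl a) = dl (i a) :=
  ext_inner_right ℝ fun f => by
    rw [push, ContinuousLinearMap.adjoint_inner_left, inner_dl, inner_dl]; rfl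

theorem push_apply (i : I → X) (hi : Function.Injective i) (f : L2 I) (a : I) :
    push i hi f (i a) = f a := by
  rw [← inner_dl, push, ContinuousLinearMap.adjoint_inner_right, ← inner_dl a]
  congr 1
  exact L2.ext fun b => by classical simp [dl_apply, hi.eq_iff]

theorem push_apply_zero (i : I → X) (hi : Function.Injective i) (f : L2 I) {x : X}
    (hx : ∀ a, i a = x → f a = 0) : push i hi f x = 0 := by
  by_cases h : ∃ a, i a = x
  · obtain ⟨a, rfl⟩ := h
    rw [push_apply, hx a rfl]
  · rw [← inner_dl, push, ContinuousLinearMap.adjoint_inner_right]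
    have : pull i hi (dl x) = 0 := L2.ext fun b => dl_ne fun e => h ⟨b, e⟩
    rw [this, inner_zero_left]

/-- Restriction to a subset. -/
def res (S : Set X) : L2 X →L[ℝ] L2 X :=
  push (Subtype.val : S → X) Subtype.val_injective ∘L pull _ Subtype.val_injective

theorem res_mem {S : Set X} (f : L2 X) {x : X} (h : x ∈ S) : res S f x = f x := by
  rw [res, ContinuousLinearMap.comp_apply]
  exact push_apply (Subtype.val : S → X) Subtype.val_injective _ ⟨x, h⟩

theorem res_notMem {S : Set X} (f : L2 X) {x : X} (h : x ∉ S) : res S f x = 0 := by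
  rw [res, ContinuousLinearMap.comp_apply]
  exact push_apply_zero _ _ _ fun a e => absurd (e ▸ a.2) h

theorem res_dl_mem {S : Set X} {x : X} (h : x ∈ S) : res S (dl x) = dl x :=
  L2.ext fun y => by
    by_cases hy : y ∈ S
    · exact res_mem _ hy
    · rw [res_notMem _ hy, dl_ne fun e : y = x => hy (e ▸ h)]

theorem res_dl_notMem {S : Set X} {x : X} (h : x ∉ S) : res S (dl x) = 0 :=
  L2.ext fun y => by
    by_cases hy : y ∈ S
    · rw [res_mem _ hy, dl_ne fun e : y = x => h (e ▸ hy)]; rfl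
    · exact res_notMem _ hy

theorem sum_res_le (h : X → ℤ) (f : L2 X) (s : Finset ℤ) :
    ∑ j ∈ s, ‖res {x | h x = j} f‖ ^ 2 ≤ ‖f‖ ^ 2 := by
  have h1 := hasSum_sum (s := s) fun j _ => hasSum_norm_sq (res {x | h x = j} f)
  refine hasSum_le (fun g => ?_) h1 (hasSum_norm_sq f)
  have h2 : ∀ j ∈ s, ‖res {x | h x = j} f g‖ ^ 2 = if h g = j then ‖f g‖ ^ 2 else 0 := by
    intro j _
    split_ifs with hc
    · rw [res_mem f (S := {x | h x = j}) hc]
    · rw [res_notMem f (S := {x | h x = j}) hc]; simp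
  rw [Finset.sum_congr rfl h2, Finset.sum_ite_eq]
  split_ifs
  · exact le_rfl
  · positivity

/-- Functions supported in a set. -/
def sup (S : Set X) : Submodule ℝ (L2 X) where
  carrier := {f | ∀ x ∉ S, f x = 0}
  add_mem' := fun ha hb x hx => by simp [ha x hx, hb x hx]
  zero_mem' := fun _ _ => rfl
  smul_mem' := fun c _ ha x hx => by simp [ha x hx]

theorem cont_apply (x : X) : Continuous fun f : L2 X => f x := by
  simp only [← inner_dl]; fun_prop

theorem sup_closed (S : Set X) : IsClosed (sup S : Set (L2 X)) := by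
  have : (sup S : Set (L2 X)) = ⋂ x, ⋂ _ : x ∉ S, {f | f x = 0} := by
    ext f; simp [sup]
  rw [this]
  exact isClosed_iInter fun x => isClosed_iInter fun _ =>
    isClosed_eq (cont_apply x) continuous_const

theorem dl_mem_sup {S : Set X} {x : X} (h : x ∈ S) : dl x ∈ sup S :=
  fun _ hy => dl_ne fun e => hy (e ▸ h)

theorem sup_mono {S S' : Set X} (h : S ⊆ S') : sup S ≤ sup S' :=
  fun _ hf x hx => hf x fun e => hx (h e)

theorem mem_of_sup {S : Set X} {f : L2 X} (h : f ∈ sup S) {x : X} (hx : f x ≠ 0) : x ∈ S := by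
  by_contra e; exact hx (h x e)

/-- Finitely supported functions. -/
def toL2 : (X →₀ ℝ) →ₗ[ℝ] L2 X := Finsupp.linearCombination ℝ dl

@[simp] theorem toL2_single (x : X) (c : ℝ) : toL2 (Finsupp.single x c) = c • dl x := by
  simp [toL2]

@[simp] theorem toL2_apply (f : X →₀ ℝ) (x : X) : toL2 f x = f x := by
  classical
  induction f using Finsupp.induction_linear with
  | zero => simp
  | add f g hf hg => simp [hf, hg]
  | single y c => simp [dl_apply, Finsupp.single_apply, eq_comm]

theorem toL2_inj {f g : X →₀ ℝ} (h : toL2 f = toL2 g) : f = g :=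
  Finsupp.ext fun x => by rw [← toL2_apply, h, toL2_apply]

variable {U : Type} [Group U]

/-- The permutation representation. -/
def rep (a : U →* Equiv.Perm X) : Rp U (L2 X) where
  act u := pull (a u⁻¹) (a u⁻¹).injective
  inner_act u f g := by
    rw [lp.inner_eq_tsum, lp.inner_eq_tsum, ← (a u).tsum_eq]
    simp
  act_inv u f := L2.ext fun x => by simp

theorem rep_apply (a : U →* Equiv.Perm X) (u : U) (f : L2 X) (x : X) :
    (rep a).act u f x = f (a u⁻¹ x) := rfl

theorem rep_apply' (a : U →* Equiv.Perm X) (u : U) (f : L2 X) (x : X) :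
    (rep a).act u f (a u x) = f x := by simp [rep_apply]

theorem rep_dl (a : U →* Equiv.Perm X) (u : U) (x : X) : (rep a).act u (dl x) = dl (a u x) :=
  L2.ext fun y => by
    classical
    simp [rep_apply, dl_apply, Equiv.symm_apply_eq]

theorem eqv_dl {H : Type} [NormedAddCommGroup H] [InnerProductSpace ℝ H] {ρ : Rp U H}
    {a : U →* Equiv.Perm X} {T : L2 X →L[ℝ] H}
    (h : ∀ u x, T (dl (a u x)) = ρ.act u (T (dl x))) : Eqv (rep a) ρ T := fun u f =>
  ext_dl (S := T ∘L (rep a).act u) (T := ρ.act u ∘L T) fun x _ => by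
    simp only [ContinuousLinearMap.comp_apply, rep_dl, h]

/-- Invariant subsets. -/
def InvP (a : U →* Equiv.Perm X) (S : Set X) : Prop := ∀ u, ∀ x ∈ S, a u x ∈ S

theorem InvP.iff {a : U →* Equiv.Perm X} {S : Set X} (h : InvP a S) (u : U) (x : X) :
    a u x ∈ S ↔ x ∈ S := ⟨fun e => by simpa using h u⁻¹ _ e, h u x⟩

theorem InvP.sup {a : U →* Equiv.Perm X} {S : Set X} (h : InvP a S) : (rep a).Inv (sup S) :=
  fun u _ hf x hx => hf _ fun e => hx ((h.iff u⁻¹ x).1 e)

/-- Free actions. -/
def Free (a : U →* Equiv.Perm X) : Prop := ∀ u x, a u x = x → u = 1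

theorem Free.inj {a : U →* Equiv.Perm X} (h : Free a) (x : X) :
    Function.Injective fun u => a u x := fun u v e => by
  have e' : a u x = a v x := e
  exact (inv_mul_eq_one.1 (h (v⁻¹ * u) x (by simp [e']))).symm

/-- The union of the orbits of the points of a set. -/
def orb (a : U →* Equiv.Perm X) (G : Set X) : Set X := {x | ∃ u, ∃ f ∈ G, x = a u f}

theorem orb_inv (a : U →* Equiv.Perm X) (G : Set X) : InvP a (orb a G) := by
  rintro u _ ⟨v, f, hf, rfl⟩
  exact ⟨u * v, f, hf, by simp⟩

theorem mem_orb (a : U →* Equiv.Perm X) {G : Set X} {x : X} (h : x ∈ G) : x ∈ orb a G :=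
  ⟨1, x, h, by simp⟩

theorem orb_subset {a : U →* Equiv.Perm X} {G S : Set X} (hS : InvP a S) (h : G ⊆ S) :
    orb a G ⊆ S := by
  rintro _ ⟨u, f, hf, rfl⟩; exact hS u f (h hf)

theorem exists_reps (a : U →* Equiv.Perm X) {G : Set X} (hG : G.Finite) :
    ∃ F : Finset X, (F : Set X) ⊆ G ∧ orb a G ⊆ orb a F ∧
      ∀ f ∈ F, ∀ f' ∈ F, ∀ u, a u f = f' → f = f' := by
  classical
  induction G, hG using Set.Finite.induction_on with
  | empty => exact ⟨∅, by simp, by simp, by simp⟩
  | @insert x G _ _ ih =>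
    obtain ⟨F, h1, h2, h3⟩ := ih
    by_cases hx : x ∈ orb a F
    · refine ⟨F, h1.trans (Set.subset_insert _ _), orb_subset (orb_inv _ _) ?_, h3⟩
      exact Set.insert_subset hx fun y hy => h2 (mem_orb a hy)
    · refine ⟨insert x F, by simpa using Set.insert_subset_insert h1,
        orb_subset (orb_inv _ _) (Set.insert_subset (mem_orb a (by simp)) fun y hy => ?_), ?_⟩
      · exact orb_subset (orb_inv _ _) (fun z hz => mem_orb a (by simp [show z ∈ F from hz]))
          (h2 (mem_orb a hy))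
      · intro f hf f' hf' u e
        rw [Finset.mem_insert] at hf hf'
        rcases hf with rfl | hf <;> rcases hf' with rfl | hf'
        · rfl
        · exact absurd ⟨u⁻¹, f', hf', by simp [← e]⟩ hx
        · exact absurd ⟨u, f, hf, e.symm⟩ hx
        · exact h3 f hf f' hf' u e

/-- The frame given by representatives of the orbits. -/
def fm {a : U →* Equiv.Perm X} (ha : Free a) {G : Set X} (hG : G.Finite) : Fm U (L2 X) where
  toRp := rep a
  I := X
  F := (exists_reps a hG).choose
  w := dl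
  W := sup (orb a G)
  closed := sup_closed _
  fr := by
    obtain ⟨-, h2, h3⟩ := (exists_reps a hG).choose_spec
    generalize (exists_reps a hG).choose = F at h2 h3
    intro x hx y
    have hi : Function.Injective fun p : U × F => a p.1 p.2.1 := by
      rintro ⟨u, f, hf⟩ ⟨v, f', hf'⟩ e
      have e' : a u f = a v f' := e
      obtain rfl := h3 f hf f' hf' (v⁻¹ * u) (by simp [e'])
      obtain rfl := ha.inj f e'
      rfl
    have h4 := (hi.hasSum_iff (f := fun z => ⟪x z, y z⟫_ℝ) fun z hz => by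
      rw [hx z fun e => ?_, inner_zero_left]
      obtain ⟨u, f, hf, rfl⟩ := h2 e
      exact hz ⟨(u, ⟨f, hf⟩), rfl⟩).2 (lp.hasSum_inner (𝕜 := ℝ) x y)
    refine h4.prod_fiberwise fun u => ?_
    convert hasSum_fintype _ using 1
    rw [← Finset.sum_coe_sort F]
    refine Finset.sum_congr rfl fun f _ => ?_
    rw [rep_dl, real_inner_comm, inner_dl, inner_dl]
    simp [mul_comm]

theorem fm_tr {a : U →* Equiv.Perm X} (ha : Free a) {G : Set X} (hG : G.Finite) :
    ∃ F : Finset X, (F : Set X) ⊆ G ∧ ∀ T, (fm ha hG).tr T = ∑ x ∈ F, T (dl x) x :=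
  ⟨_, (exists_reps a hG).choose_spec.1, fun _ => Finset.sum_congr rfl fun _ _ => inner_dl _ _⟩

theorem exists_op {a : U →* Equiv.Perm X} {b : U →* Equiv.Perm Y} (ha : Free a) (hb : Free b)
    {G : Set X} (hG : G.Finite) (κ : X → Y →₀ ℝ)
    (e0 : ∀ u x, toL2 (κ (a u x)) = (rep b).act u (toL2 (κ x))) :
    ∃ T : L2 X →L[ℝ] L2 Y, Eqv (rep a) (rep b) T ∧ (∀ x ∈ orb a G, T (dl x) = toL2 (κ x)) ∧
      ∀ x ∉ orb a G, T (dl x) = 0 := by
  obtain ⟨F, h1, h2, h3⟩ := exists_reps a hG
  let T : L2 X →L[ℝ] L2 Y := ∑ f ∈ F, ∑ y ∈ (κ f).support,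
    κ f y • push _ (hb.inj y) ∘L pull _ (ha.inj f)
  have e1 : ∀ x ∈ orb a G, T (dl x) = toL2 (κ x) := by
    intro x hx
    obtain ⟨u, f, hf, rfl⟩ := h2 hx
    simp only [T, sum_apply]
    rw [Finset.sum_eq_single f, e0]
    · have : pull _ (ha.inj f) (dl (a u f)) = dl u := L2.ext fun v => by
        classical
        simp [dl_apply, (ha.inj f).eq_iff]
      simp only [smul_apply, ContinuousLinearMap.comp_apply, this, push_dl, toL2,
        Finsupp.linearCombination_apply, Finsupp.sum, map_sum, map_smul, rep_dl]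
    · intro f' hf' hne
      have : pull _ (ha.inj f') (dl (a u f)) = 0 := L2.ext fun v => dl_ne fun e =>
        hne (h3 f' hf' f hf (u⁻¹ * v) (by simp [e]))
      simp [this]
    · exact fun h => absurd hf h
  have e2 : ∀ x ∉ orb a G, T (dl x) = 0 := by
    intro x hx
    simp only [T, sum_apply]
    refine Finset.sum_eq_zero fun f hf => ?_
    have : pull _ (ha.inj f) (dl x) = 0 := L2.ext fun v => dl_ne fun e =>
      hx ⟨v, f, h1 hf, e.symm⟩
    simp [this]
  refine ⟨T, eqv_dl fun u x => ?_, e1, e2⟩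
  by_cases hx : x ∈ orb a G
  · rw [e1 x hx, e1 _ (orb_inv a G u x hx), e0]
  · rw [e2 x hx, e2 _ (mt ((orb_inv a G).iff u x).1 hx), map_zero]

theorem op_toL2 {T : L2 X →L[ℝ] L2 Y} {S : Set X} {κ : X → Y →₀ ℝ}
    (h : ∀ x ∈ S, T (dl x) = toL2 (κ x)) {f : X →₀ ℝ} (hf : toL2 f ∈ sup S) :
    T (toL2 f) = toL2 (Finsupp.linearCombination ℝ κ f) := by
  simp only [toL2, Finsupp.linearCombination_apply, Finsupp.sum, map_sum, map_smul]
  refine Finset.sum_congr rfl fun x hx => ?_
  rw [h x (mem_of_sup hf (by simpa using hx))]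
  simp [toL2, Finsupp.linearCombination_apply, Finsupp.sum]

theorem adj_mem_sup {H : Type} [NormedAddCommGroup H] [InnerProductSpace ℝ H] [CompleteSpace H]
    {T : L2 X →L[ℝ] H} {S : Set X} (h : ∀ x ∉ S, T (dl x) = 0) (y : H) :
    ContinuousLinearMap.adjoint T y ∈ sup S := fun x hx => by
  rw [← inner_dl, ContinuousLinearMap.adjoint_inner_right, h x hx, inner_zero_left]

attribute [irreducible] dl pull push res toL2

end Pool.Agent.P.MP_caa3d2_al
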