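import Pool.Agent.P.MP_caa3d2_al.Hilb

/-!
The leading term operator of a family of operators indexed by the integers.
-/

set_option autoImplicit false

open scoped InnerProductSpace Topology
open Filter

noncomputable section

namespace Pool.Agent.P.MP_caa3d2_al

variable {U : Type} [Group U]
  {H : Type} [NormedAddCommGroup H] [InnerProductSpace ℝ H] [CompleteSpace H]
  {H' : Type} [NormedAddCommGroup H'] [InnerProductSpace ℝ H'] [CompleteSpace H']

omit [CompleteSpace H] [CompleteSpace H'] in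
theorem cl_span_map {S : Set H} {W : Submodule ℝ H'} (T : H →L[ℝ] H')
    (h : ∀ z ∈ S, T z ∈ cl W) {x : H} (hx : x ∈ cl (Submodule.span ℝ S)) : T x ∈ cl W :=
  cl_le (W := (cl W).comap (T : H →ₗ[ℝ] H')) (Submodule.span_le.2 h)
    ((cl_closed W).preimage T.continuous) hx

omit [CompleteSpace H] [CompleteSpace H'] in
theorem cl_span_zero {S : Set H} (T : H →L[ℝ] H') (h : ∀ z ∈ S, T z = 0) {x : H}
    (hx : x ∈ cl (Submodule.span ℝ S)) : T x = 0 :=
  cl_le (W := T.ker) (Submodule.span_le.2 h) T.isClosed_ker hx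

omit [CompleteSpace H] in
theorem orth_family {ι : Type} (v : ι → H) (hv : ∀ i j, i ≠ j → ⟪v i, v j⟫_ℝ = 0) :
    OrthogonalFamily ℝ (fun i => (ℝ ∙ v i : Submodule ℝ H)) (fun i => (ℝ ∙ v i).subtypeₗᵢ) := by
  rintro i j hij ⟨x, hx⟩ ⟨y, hy⟩
  obtain ⟨a, rfl⟩ := Submodule.mem_span_singleton.1 hx
  obtain ⟨b, rfl⟩ := Submodule.mem_span_singleton.1 hy
  simp [inner_smul_left, inner_smul_right, hv i j hij]

omit [CompleteSpace H] in
theorem Rp.inv_act (ρ : Rp U H) (u : U) (x : H) : ρ.act u⁻¹ (ρ.act u x) = x := by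
  simpa using ρ.act_inv u⁻¹ x

/-- The span of the ranges below a level. -/
def below (T : ℤ → H →L[ℝ] H') (j : ℤ) : Submodule ℝ H' :=
  Submodule.span ℝ {y | ∃ i < j, ∃ x, y = T i x}

omit [CompleteSpace H] in
theorem linnell {ρ : Rp U H} {ρ' : Rp U H'} (T : ℤ → H →L[ℝ] H') (C : ℝ) (hC : 0 ≤ C)
    (hb : ∀ x (s : Finset ℤ), ∑ j ∈ s, ‖T j x‖ ^ 2 ≤ (C * ‖x‖) ^ 2)
    (he : ∀ u, ∃ ψ : ℤ, ∀ j x, T (j + ψ) (ρ.act u x) = ρ'.act u (T j x)) :
    ∃ B : H →L[ℝ] H', Eqv ρ ρ' B ∧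
      (∀ W : Submodule ℝ H', (∀ j x, T j x ∈ W) → ∀ x, B x ∈ cl W) ∧
      ∀ x, B x = 0 → ∀ j, T j x ∈ cl (below T j) := by
  let bl : ℤ → H →L[ℝ] H' := fun j => T j - prj (below T j) ∘L T j
  have hbl : ∀ j x, bl j x = T j x - prj (below T j) (T j x) := fun _ _ => rfl
  have o1 : ∀ i j x y, i < j → ⟪bl j y, bl i x⟫_ℝ = 0 := by
    intro i j x y hij
    refine prj_orth _ _ (sub_mem (le_cl _ (Submodule.subset_span ⟨i, hij, x, rfl⟩)) ?_)
    refine cl_le (le_trans (Submodule.span_mono ?_) (le_cl _)) (cl_closed _) (prj_mem _ _)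
    rintro _ ⟨k, hk, z, rfl⟩
    exact ⟨k, hk.trans hij, z, rfl⟩
  have o2 : ∀ x y i j, i ≠ j → ⟪bl i x, bl j y⟫_ℝ = 0 := by
    intro x y i j hij
    rcases lt_or_gt_of_ne hij with h | h
    · rw [real_inner_comm]; exact o1 _ _ _ _ h
    · exact o1 _ _ _ _ h
  have b1 : ∀ x (s : Finset ℤ), ∑ j ∈ s, ‖bl j x‖ ^ 2 ≤ (C * ‖x‖) ^ 2 := fun x s =>
    le_trans (Finset.sum_le_sum fun j _ =>
      pow_le_pow_left₀ (norm_nonneg _) (norm_sub_prj _ _) 2) (hb x s)
  have sm : ∀ x, Summable fun j => bl j x := fun x =>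
    ((orth_family _ (o2 x x)).summable_iff_norm_sq_summable
      (fun i => ⟨bl i x, Submodule.mem_span_singleton_self _⟩)).2
      (summable_of_sum_le (fun _ => by positivity) (b1 x))
  let BL : H →ₗ[ℝ] H' :=
    { toFun := fun x => ∑' j, bl j x
      map_add' := fun x y => by simp only [map_add]; exact (sm x).tsum_add (sm y)
      map_smul' := fun a x => by
        simp only [map_smul, RingHom.id_apply]; exact (sm x).tsum_const_smul a }
  let B : H →L[ℝ] H' := BL.mkContinuous C fun x => by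
    have h1 : Tendsto (fun s : Finset ℤ => ‖∑ j ∈ s, bl j x‖) atTop (𝓝 ‖∑' j, bl j x‖) := by
      have := (sm x).hasSum
      rw [HasSum] at this
      exact this.norm
    refine le_of_tendsto' h1 fun s => ?_
    refine (pow_le_pow_iff_left₀ (norm_nonneg _) (by positivity) two_ne_zero).1 ?_
    exact ((orth_family _ (o2 x x)).norm_sum
      (fun i => ⟨bl i x, Submodule.mem_span_singleton_self _⟩) s).trans_le (b1 x s)
  have hs : ∀ x, HasSum (fun j => bl j x) (B x) := fun x => (sm x).hasSum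
  refine ⟨B, fun u x => ?_, fun W hW x => ?_, fun x hx j => ?_⟩
  · obtain ⟨ψ, hψ⟩ := he u
    have h1 := hs (ρ.act u x)
    rw [← (Equiv.addRight ψ).hasSum_iff] at h1
    refine h1.unique ?_
    convert (hs x).mapL (ρ'.act u) using 2 with j
    simp only [Function.comp_apply, Equiv.coe_addRight, hbl, hψ, map_sub]
    rw [prj_act' (Z := below T j)]
    · intro z hz
      refine cl_span_map _ ?_ (le_cl _ hz)
      rintro _ ⟨k, hk, z, rfl⟩
      exact le_cl _ (Submodule.subset_span ⟨k + ψ, by omega, _, (hψ k z).symm⟩)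
    · intro z hz
      refine cl_span_map _ ?_ (le_cl _ hz)
      rintro _ ⟨k, hk, z, rfl⟩
      refine le_cl _ (Submodule.subset_span ⟨k - ψ, by omega, ρ.act u⁻¹ z, ?_⟩)
      have := hψ (k - ψ) (ρ.act u⁻¹ z)
      rw [sub_add_cancel, ρ.act_inv] at this
      rw [this, ρ'.inv_act]
  · refine (cl_closed W).mem_of_tendsto (hs x) (Eventually.of_forall fun s => ?_)
    refine Submodule.sum_mem _ fun j _ => sub_mem (le_cl _ (hW j x)) ?_
    refine cl_le (le_trans (Submodule.span_le.2 ?_) (le_cl _)) (cl_closed _) (prj_mem _ _)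
    rintro _ ⟨k, -, z, rfl⟩
    exact hW k z
  · have h1 := (hs x).mapL (innerSL ℝ (bl j x))
    simp only [innerSL_apply_apply, hx, inner_zero_right] at h1
    have h2 : HasSum (fun i => ⟪bl j x, bl i x⟫_ℝ) ⟪bl j x, bl j x⟫_ℝ :=
      hasSum_single j fun i hi => o2 x x j i (Ne.symm hi)
    rw [sub_eq_zero.1 ((hbl j x).symm.trans (inner_self_eq_zero.1 (h2.unique h1)))]
    exact prj_mem _ _

end Pool.Agent.P.MP_caa3d2_al
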