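import Pool.Agent.P.MP_caa3d2_al.Step

/-!
The Freiheitssatz and the bounded membership problem for complexes over a one-relator word.
-/

set_option autoImplicit false

namespace Pool.Agent.P.MP_caa3d2_al

open FreeGroup hiding map_mul map_one map_inv

section

variable {E B : Type} {L : ℕ} {s : ℕ → B × Bool} {lab : E → B} {Cs : Set (ℕ → E × Bool)}
  {φ : B → ℤ} {ε : B} {m M : ℤ}

theorem al_ne (x : E0 lab ε m M) : lab1 (al x) ≠ (ε, M) := by
  intro h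
  simp only [lab1, al, Prod.mk.injEq] at h
  rcases x.2 with h1 | h1
  · exact h1 h.1
  · omega

theorem be_ne (x : E0 lab ε m M) : lab1 (be x) ≠ (ε, m) := by
  intro h
  simp only [lab1, be, Prod.mk.injEq] at h
  rcases x.2 with h1 | h1
  · exact h1 h.1
  · omega

theorem hv_rel (h : Cx L s lab Cs) (h0 : hv φ (pre s L) = 0) (hP : Per L s) :
    ∀ w ∈ Rel L Cs, hv (φ ∘ lab) (mk w) = 0 := by
  rintro _ ⟨c, hc, p, rfl⟩
  rw [hv_comp, cx_map_seg h hc, hP.mk_seg]; simp [h0]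

theorem hv_eq_of_pm (h : Cx L s lab Cs) (h0 : hv φ (pre s L) = 0) (hP : Per L s)
    {g g' : FreeGroup E} (e : pm (Rel L Cs) g = pm (Rel L Cs) g') :
    hv (φ ∘ lab) g = hv (φ ∘ lab) g' := by
  obtain ⟨G, hG⟩ := exists_lift (R := Rel L Cs)
    (FreeGroup.lift fun b => Multiplicative.ofAdd ((φ ∘ lab) b)) fun w hw => by
      have := hv_rel h h0 hP w hw
      unfold hv at this
      exact toAdd_eq_zero.1 this
  unfold hv
  rw [← hG, e, hG]

theorem step_hnn (h : Cx L s lab Cs) (hP : Per L s) (h0 : hv φ (pre s L) = 0) (hmM : m ≤ M)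
    (hm : ∀ p, (s p).1 = ε → m ≤ hv φ (opre s p) ∧ hv φ (opre s p) ≤ M)
    (f1 : FS (Rel L (Cs1 φ s lab ε m M Cs)) {e | lab1 e ≠ (ε, m)})
    (f2 : FS (Rel L (Cs1 φ s lab ε m M Cs)) {e | lab1 e ≠ (ε, M)}) :
    ∃ (Hs : Type) (_ : Group Hs) (ι : Gp (Rel L (Cs1 φ s lab ε m M Cs)) →* Hs) (t : Hs)
      (θ : Gp (Rel L Cs) →* Hs), Function.Injective ι ∧
      (∀ y, t * ι (pm _ (FreeGroup.map al y)) = ι (pm _ (FreeGroup.map be y)) * t) ∧
      Britton ι t ((pm _).comp (FreeGroup.map al)).range ((pm _).comp (FreeGroup.map be)).range ∧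
      ∀ g, θ (pm _ g) = th hmM (ι.comp (pm _)) t φ g := by
  obtain ⟨Hs, _, ι, t, h1, h2, h3⟩ := hnn_exists _ _ (fs_injective f2 al al_injective al_ne)
    (fs_injective f1 be be_injective be_ne)
  have ht : ∀ x, t * (ι.comp (pm _)) (FreeGroup.of (al x)) =
      (ι.comp (pm _)) (FreeGroup.of (be x)) * t := fun x => h2 (FreeGroup.of x)
  obtain ⟨θ, hθ⟩ := exists_lift (R := Rel L Cs) (th hmM (ι.comp (pm _)) t φ) (by
    rintro _ ⟨c, hc, p, rfl⟩
    obtain ⟨c', hc', h4⟩ := h.exists_lift hm hc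
    have a1 := th_pre hmM _ t ht h hc h4 (p + L)
    have a2 := th_pre hmM _ t ht h hc h4 p
    rw [pre_add, map_mul, a2, pre_add c', map_mul, hP.pre_add, hv_mul, h0, zero_add] at a1
    have a3 : (ι.comp (pm (Rel L (Cs1 φ s lab ε m M Cs)))) (mk (seg c' p L)) = 1 := by
      rw [MonoidHom.comp_apply, pm_rel (R := Rel L _) ⟨c', hc', p, rfl⟩, map_one]
    rw [a3, mul_one] at a1
    exact mul_eq_left.1 a1)
  exact ⟨Hs, inferInstance, ι, t, θ, h1, h2, h3, hθ⟩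

theorem mk_pj (w : Wd (E1 lab ε m M)) :
    mk (pj w) = FreeGroup.map (fun x => x.1.1) (mk w) := rfl

theorem step_fs (h : Cx L s lab Cs) (hP : Per L s) (h0 : hv φ (pre s L) = 0) (hmM : m ≤ M)
    (hm : ∀ p, (s p).1 = ε → m ≤ hv φ (opre s p) ∧ hv φ (opre s p) ≤ M)
    (f1 : FS (Rel L (Cs1 φ s lab ε m M Cs)) {e | lab1 e ≠ (ε, m)})
    (f2 : FS (Rel L (Cs1 φ s lab ε m M Cs)) {e | lab1 e ≠ (ε, M)}) :
    FS (Rel L Cs) {e | lab e ≠ ε} := by
  obtain ⟨Hs, _, ι, t, θ, h1, h2, -, h4⟩ := step_hnn h hP h0 hmM hm f1 f2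
  intro g hg e
  obtain ⟨u, hu, rfl⟩ := exists_word_of_mem_closure hg
  obtain ⟨u', a1, a2, a3⟩ := th_word (φ := φ) hmM (ι.comp (pm _)) t
    (fun x => h2 (FreeGroup.of x)) subset_rfl u hu 0
  have a4 : hv (φ ∘ lab) (mk u) = 0 := by
    rw [hv_eq_of_pm h h0 hP (e.trans (map_one _).symm), hv_one]
  rw [← h4, e, a4, map_one] at a3
  simp only [zpow_zero, mul_one, add_zero, MonoidHom.comp_apply] at a3
  have a5 := f1 (mk u') (mk_mem_closure fun x hx he => a1 x hx (congrArg Prod.fst he))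
    (h1 (a3.symm.trans (map_one _).symm))
  rw [← a2, mk_pj, a5, map_one]

theorem over_range {T : Type} {a : T → E} {w : Wd E} (h : Over (Set.range a) w) :
    ∃ σ : Wd T, w = σ.map fun x => (a x.1, x.2) := by
  induction w with
  | nil => exact ⟨[], rfl⟩
  | cons x w ih =>
    obtain ⟨σ, rfl⟩ := ih fun y hy => h y (by simp [hy])
    obtain ⟨y, hy⟩ := h x (by simp)
    exact ⟨(y, x.2) :: σ, by simp [hy]⟩

/-- The bound at the next level. -/
def nextB (f : ℕ → ℕ) (K c : ℕ) (n : ℕ) : ℕ :=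
  c * n * (fun n => n + (K + 1) * f n)^[c * n] n + f ((fun n => n + (K + 1) * f n)^[c * n] n)

theorem nextB_primrec {f : ℕ → ℕ} (hf : Primrec f) (K c : ℕ) : Primrec (nextB f K c) := by
  have h1 : Primrec fun n => c * n := Primrec.nat_mul.comp (Primrec.const c) Primrec.id
  have h2 : Primrec fun n => (fun n => n + (K + 1) * f n)^[c * n] n :=
    Primrec.nat_iterate h1 Primrec.id (Primrec.nat_add.comp Primrec.snd
      (Primrec.nat_mul.comp (Primrec.const (K + 1)) (hf.comp Primrec.snd))).to₂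
  exact Primrec.nat_add.comp (Primrec.nat_mul.comp h1 h2) (hf.comp h2)

theorem step_qs (h : Cx L s lab Cs) (hP : Per L s) (h0 : hv φ (pre s L) = 0) (hmM : m ≤ M)
    (hm : ∀ p, (s p).1 = ε → m ≤ hv φ (opre s p) ∧ hv φ (opre s p) ≤ M)
    {Φ : ℕ} (hΦ : ∀ b, (φ b).natAbs ≤ Φ)
    (f1 : FS (Rel L (Cs1 φ s lab ε m M Cs)) {e | lab1 e ≠ (ε, m)})
    (f2 : FS (Rel L (Cs1 φ s lab ε m M Cs)) {e | lab1 e ≠ (ε, M)}) {f : ℕ → ℕ}
    (q1 : QS (Rel L (Cs1 φ s lab ε m M Cs)) {e | lab1 e ≠ (ε, m)} f)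
    (q2 : QS (Rel L (Cs1 φ s lab ε m M Cs)) {e | lab1 e ≠ (ε, M)} f) :
    QS (Rel L Cs) {e | lab e ≠ ε} (nextB f (L + 2) (2 * m.natAbs + 2 * Φ)) := by
  obtain ⟨Hs, _, ι, t, θ, h1, h2, h3, h4⟩ := step_hnn h hP h0 hmM hm f1 f2
  have res : ∀ (n : ℕ) (u : ℤˣ) (w : Wd (E1 lab ε m M)), w.length ≤ n →
      ((u = 1 ∧ pm _ (mk w) ∈ ((pm (Rel L (Cs1 φ s lab ε m M Cs))).comp
        (FreeGroup.map al)).range) ∨
       (u = -1 ∧ pm _ (mk w) ∈ ((pm (Rel L (Cs1 φ s lab ε m M Cs))).comp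
        (FreeGroup.map be)).range)) →
      ∃ h2 : Wd (E1 lab ε m M), Der (Rel L Cs) (f n) (pj w) (pj h2) ∧
        h2.length ≤ w.length + (L + 2) * f n ∧
        t ^ (u : ℤ) * ι (pm _ (mk w)) * t ^ ((-u : ℤˣ) : ℤ) = ι (pm _ (mk h2)) := by
    rintro n u w hw (⟨rfl, ⟨y⟩, hy⟩ | ⟨rfl, ⟨y⟩, hy⟩)
    · obtain ⟨v, a1, a2⟩ := q2 (Set.range al) (by rintro _ ⟨x, rfl⟩; exact al_ne x) n w
        (List.map (fun x : E0 lab ε m M × Bool => (al x.1, x.2)) y) hw (by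
          intro x hx; obtain ⟨z, _, rfl⟩ := List.mem_map.1 hx; exact ⟨z.1, rfl⟩) hy.symm
      obtain ⟨σ, rfl⟩ := over_range a1
      refine ⟨σ.map fun x => (be x.1, x.2), ?_, ?_, ?_⟩
      · have := der_pj a2
        simpa [pj, al, be, Function.comp_def] using this
      · simpa using a2.length_le rel_length
      · have := h2 (mk σ)
        rw [map.mk, map.mk] at this
        rw [a2.pm_eq]
        simp only [Units.val_one, zpow_one, Units.val_neg, zpow_neg, this]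
        simp
    · obtain ⟨v, a1, a2⟩ := q1 (Set.range be) (by rintro _ ⟨x, rfl⟩; exact be_ne x) n w
        (List.map (fun x : E0 lab ε m M × Bool => (be x.1, x.2)) y) hw (by
          intro x hx; obtain ⟨z, _, rfl⟩ := List.mem_map.1 hx; exact ⟨z.1, rfl⟩) hy.symm
      obtain ⟨σ, rfl⟩ := over_range a1
      refine ⟨σ.map fun x => (al x.1, x.2), ?_, ?_, ?_⟩
      · have := der_pj a2
        simpa [pj, al, be, Function.comp_def] using this
      · simpa using a2.length_le rel_length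
      · have := h2 (mk σ)
        rw [map.mk, map.mk] at this
        rw [a2.pm_eq]
        simp only [Units.val_one, zpow_one, Units.val_neg, zpow_neg, neg_neg, mul_assoc, ← this]
        simp
  intro S hS n w u hn hu e
  obtain ⟨W, a1, a2, a3, a4⟩ := th_mixed (lab := lab) hmM (ι.comp (pm _)) t hΦ w
  obtain ⟨u', b1, b2, b3⟩ := th_word (φ := φ) hmM (ι.comp (pm _)) t
    (fun x => h2 (FreeGroup.of x)) hS u hu 0
  have c1 : mval (ι.comp (pm _)) t (W ++ tp (-hv (φ ∘ lab) (mk w))) = ι (pm _ (mk u')) := by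
    rw [mval_append, mval_tp, a1, ← h4, e, h4, hv_eq_of_pm h h0 hP e]
    rw [zpow_zero, one_mul, zero_add] at b3
    rw [b3]; simp
  have c2 : (mlw W).length = w.length := by rw [← a2]; simp [pj]
  obtain ⟨v, d1, d2, d3⟩ := remove_pinches t (pm _) ι h3 pj pj_append f (L + 2) res
    ((2 * m.natAbs + 2 * Φ) * n) n (W ++ tp (-hv (φ ∘ lab) (mk w)))
    (by
      have := Nat.mul_le_mul_left (2 * m.natAbs + Φ) hn
      have := Nat.mul_le_mul_left Φ hn
      rw [mnt_append, mnt_tp, Int.natAbs_neg,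
        show (2 * m.natAbs + 2 * Φ) * n = (2 * m.natAbs + Φ) * n + Φ * n by ring]
      omega)
    (by simp; omega) (by rw [c1]; exact ⟨_, rfl⟩)
  rw [c1] at d1
  obtain ⟨v', e1, e2⟩ := q1 {x | x.1.1 ∈ S} (fun x hx he => hS hx (congrArg Prod.fst he)) _ v u' d2
    b1 (h1 d1)
  refine ⟨pj v', ?_, ?_⟩
  · intro x hx
    obtain ⟨y, hy, rfl⟩ := List.mem_map.1 hx
    exact e1 y hy
  · rw [mlw_append, mlw_tp, List.append_nil, a2] at d3
    exact d3.trans (der_pj e2)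

theorem QS.mono {R : Set (Wd E)} {S : Set E} {f g : ℕ → ℕ} (h : QS R S f) (hfg : ∀ n, f n ≤ g n) :
    QS R S g := by
  intro S' hS' n w u h1 h2 h3
  obtain ⟨v, a1, a2⟩ := h S' hS' n w u h1 h2 h3
  exact ⟨v, a1, a2.mono (hfg n)⟩

end

theorem magnus {L : ℕ} (hL : 0 < L) : ∀ (B : Type) (s : ℕ → B × Bool), Per L s → Rd s →
    ∀ ε ∈ lets s, ∃ f : ℕ → ℕ, Primrec f ∧ ∀ (E : Type) (lab : E → B)
      (Cs : Set (ℕ → E × Bool)), Cx L s lab Cs →
      FS (Rel L Cs) {e | lab e ≠ ε} ∧ (NW L Cs → QS (Rel L Cs) {e | lab e ≠ ε} f) := by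
  refine hierarchy hL _ ?_ ?_
  · intro B s _ _ hb ε hε
    refine ⟨fun n => 2 * L * n, Primrec.nat_mul.comp (Primrec.const _) Primrec.id, ?_⟩
    intro E lab Cs h
    exact ⟨base_fs hL h hb hε, base_qs hL h hb hε⟩
  · rintro B s hP _ φ ⟨Φ, hΦ⟩ h0 ih ε hε
    obtain ⟨m, M, hmM, hm, h1, h2⟩ := exists_extreme hL hP h0 hε
    obtain ⟨f1, p1, k1⟩ := ih _ h1
    obtain ⟨f2, p2, k2⟩ := ih _ h2
    refine ⟨nextB (fun n => f1 n + f2 n) (L + 2) (2 * m.natAbs + 2 * Φ),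
      nextB_primrec (Primrec.nat_add.comp p1 p2) _ _, ?_⟩
    intro E lab Cs h
    have a1 := k1 _ _ _ (h.lift (ε := ε) (m := m) (M := M) hP h0)
    have a2 := k2 _ _ _ (h.lift (ε := ε) (m := m) (M := M) hP h0)
    refine ⟨step_fs h hP h0 hmM hm a1.1 a2.1, fun hN => ?_⟩
    exact step_qs h hP h0 hmM hm hΦ a1.1 a2.1 ((a1.2 hN.lift).mono fun n => by omega)
      ((a2.2 hN.lift).mono fun n => by omega)

end Pool.Agent.P.MP_caa3d2_al
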