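import Pool.Agent.P.MP_caa3d2_al.Comp

/-!
The group of units of a one-relator inverse monoid as a subquotient of the free group.
-/

set_option autoImplicit false

namespace Pool.Agent.P.MP_caa3d2_al

open FreeGroup hiding map_mul map_one map_inv

variable {A : Type}

theorem exists_cyc (g : FreeGroup A) : g = 1 ∨ ∃ (L : ℕ) (s : ℕ → A × Bool) (u : FreeGroup A),
    0 < L ∧ Per L s ∧ Rd s ∧ g = lp L s u := by
  classical
  have h1 := reduceCyclically.conj_conjugator_reduceCyclically g.toWord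
  have h2 := reduceCyclically.isCyclicallyReduced (isReduced_toWord (x := g))
  have h3 := congrArg mk h1
  rw [mk_toWord, ← mul_mk, ← mul_mk, ← inv_mk] at h3
  generalize reduceCyclically g.toWord = l at h2 h3
  by_cases hl : l = []
  · left; rw [← h3, hl, ← one_eq_mk, mul_one, mul_inv_cancel]
  have hL : 0 < l.length := List.length_pos_iff.2 hl
  refine Or.inr ⟨l.length, fun p => l[p % l.length]'(Nat.mod_lt _ hL),
    mk (reduceCyclically.conjugator g.toWord), hL,
    fun p => by simp, fun p hp => ?_, ?_⟩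
  · have key : (l[p % l.length]'(Nat.mod_lt _ hL)).1 = (l[(p + 1) % l.length]'(Nat.mod_lt _ hL)).1 →
        (l[p % l.length]'(Nat.mod_lt _ hL)).2 = (l[(p + 1) % l.length]'(Nat.mod_lt _ hL)).2 := by
      by_cases e : p % l.length + 1 < l.length
      · have e2 : (p + 1) % l.length = p % l.length + 1 := by
          rw [← Nat.mod_add_mod, Nat.mod_eq_of_lt e]
        simp only [e2]
        exact List.isChain_iff_getElem.1 h2.1 _ e
      · have e1 : p % l.length = l.length - 1 := by have := Nat.mod_lt p hL; omega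
        have e2 : (p + 1) % l.length = 0 := by
          rw [← Nat.mod_add_mod, e1, Nat.sub_add_cancel hL, Nat.mod_self]
        simp only [e1, e2]
        exact h2.2 _ (by simp [List.getLast?_eq_getElem?]) _ (by simp [List.head?_eq_getElem?])
    simp only at hp
    rw [hp] at key
    simp [nv] at key
  · refine h3.symm.trans ?_
    rw [lp, pre]
    congr 3
    refine List.ext_getElem (by simp) fun i h1 h2 => ?_
    simp [seg, Nat.mod_eq_of_lt h1]

/-- The submonoid generated by the prefixes. -/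
def PP (r : Wd A) : Submonoid (FreeGroup A) := Submonoid.closure (mk '' {a | a <+: r})

/-- The fundamental group of the graph of right units. -/
def NN (r : Wd A) : Subgroup (FreeGroup A) :=
  Subgroup.closure {x | ∃ p ∈ PP r, x = p * mk r * p⁻¹}

/-- The vertices of the graph of right units. -/
def VV (r : Wd A) : Set (FreeGroup A) := {x | ∃ n ∈ NN r, ∃ p ∈ PP r, x = n * p}

theorem NN_cases (r : Wd A) : NN r = ⊥ ∨ ∃ (L : ℕ) (s : ℕ → A × Bool), 0 < L ∧ Per L s ∧ Rd s ∧
    NN r ≤ NC L s {g | lp L s g ∈ NN r} := by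
  rcases exists_cyc (mk r) with h | ⟨L, s, u, h1, h2, h3, h4⟩
  · left
    refine eq_bot_iff.2 ((Subgroup.closure_le _).2 ?_)
    rintro _ ⟨p, -, rfl⟩
    simp [h]
  · refine Or.inr ⟨L, s, h1, h2, h3, (Subgroup.closure_le _).2 ?_⟩
    rintro _ ⟨p, hp, rfl⟩
    have : p * mk r * p⁻¹ ∈ NN r := Subgroup.subset_closure ⟨p, hp, rfl⟩
    rw [h4, ← lp_conj] at this ⊢
    exact lp_mem this

/-- The path labelled by a word stays in a set. -/
def DD (V : Set (FreeGroup A)) : FreeGroup A → Wd A → Prop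
  | g, [] => g ∈ V
  | g, x :: w => g ∈ V ∧ DD V (g * mk [x]) w

theorem DD.start {V : Set (FreeGroup A)} {g : FreeGroup A} {w : Wd A} (h : DD V g w) : g ∈ V := by
  cases w with
  | nil => exact h
  | cons x w => exact h.1

theorem DD_append {V : Set (FreeGroup A)} (g : FreeGroup A) (w w' : Wd A) :
    DD V g (w ++ w') ↔ DD V g w ∧ DD V (g * mk w) w' := by
  induction w generalizing g with
  | nil => simpa [DD, ← one_eq_mk] using fun h => h.start
  | cons x w ih =>
    simp only [List.cons_append, DD, ih, mul_assoc, mul_mk, and_assoc, List.nil_append]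

theorem DD.stop {V : Set (FreeGroup A)} {g : FreeGroup A} {w : Wd A} (h : DD V g w) :
    g * mk w ∈ V := by
  induction w generalizing g with
  | nil => simpa [← one_eq_mk] using h.start
  | cons x w ih => simpa [mul_assoc, mul_mk] using ih h.2

theorem DD.inv {V : Set (FreeGroup A)} {g : FreeGroup A} {w : Wd A} (h : DD V g w) :
    DD V (g * mk w) (invRev w) := by
  induction w generalizing g with
  | nil => simpa [← one_eq_mk] using h
  | cons x w ih =>
    have e : g * mk (x :: w) = g * mk [x] * mk w := by simp [mul_assoc, mul_mk]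
    rw [invRev_cons, DD_append, e, ← inv_mk, mul_inv_cancel_right]
    refine ⟨ih h.2, h.2.start, ?_⟩
    have e2 : (mk [(x.1, !x.2)] : FreeGroup A) = (mk [x])⁻¹ := by rw [inv_mk]; rfl
    show g * mk [x] * mk [(x.1, !x.2)] ∈ V
    rw [e2, mul_inv_cancel_right]; exact h.1

theorem DD_congr {r : Wd A} {g g' : FreeGroup A} (h : mkV (NN r) g = mkV (NN r) g') (w : Wd A) :
    DD (VV r) g w ↔ DD (VV r) g' w := by
  have key : ∀ {g g'}, mkV (NN r) g = mkV (NN r) g' → g ∈ VV r → g' ∈ VV r := by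
    rintro _ g' e ⟨n, hn, p, hp, rfl⟩
    obtain ⟨n', hn', rfl⟩ := exists_of_mkV e
    exact ⟨_, mul_mem hn' hn, p, hp, (mul_assoc _ _ _).symm⟩
  induction w generalizing g g' with
  | nil => exact ⟨key h, key h.symm⟩
  | cons x w ih => exact and_congr ⟨key h, key h.symm⟩ (ih (mkV_right h _))

theorem DD_rel {r : Wd A} {g : FreeGroup A} (hg : g ∈ VV r) : DD (VV r) g r := by
  have key : ∀ b a, a ++ b = r → DD (VV r) (g * mk a) b := by
    have h0 : ∀ a b, a ++ b = r → g * mk a ∈ VV r := fun a b e => by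
      obtain ⟨n, hn, p, hp, rfl⟩ := hg
      exact ⟨n, hn, _, mul_mem hp (Submonoid.subset_closure ⟨a, ⟨b, e⟩, rfl⟩), mul_assoc _ _ _⟩
    intro b
    induction b with
    | nil => exact fun a e => h0 a _ e
    | cons x b ih =>
      intro a e
      refine ⟨h0 a _ e, ?_⟩
      rw [mul_assoc, mul_mk]
      exact ih _ (by simpa using e)
  simpa [← one_eq_mk] using key r [] rfl

/-- Words acting in the same way on the graph of right units. -/
def SS (r : Wd A) : Con (FreeMonoid (A × Bool)) where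
  r w w' := ∀ g, (DD (VV r) g w.toList ↔ DD (VV r) g w'.toList) ∧ (DD (VV r) g w.toList →
    mkV (NN r) (g * mk w.toList) = mkV (NN r) (g * mk w'.toList))
  iseqv := ⟨fun _ _ => ⟨Iff.rfl, fun _ => rfl⟩,
    fun h g => ⟨(h g).1.symm, fun e => ((h g).2 ((h g).1.2 e)).symm⟩,
    fun h h' g => ⟨(h g).1.trans (h' g).1, fun e => ((h g).2 e).trans ((h' g).2 ((h g).1.1 e))⟩⟩
  mul' := fun {a a' b b'} h h' g => by
    simp only [FreeMonoid.toList_mul, DD_append, ← mul_mk, ← mul_assoc]
    refine ⟨⟨fun e => ⟨(h g).1.1 e.1, (DD_congr ((h g).2 e.1) _).1 ((h' _).1.1 e.2)⟩, fun e => ?_⟩,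
      fun e => ((h' _).2 e.2).trans (mkV_right ((h g).2 e.1) _)⟩
    have e1 := (h g).1.2 e.1
    exact ⟨e1, (h' _).1.2 ((DD_congr ((h g).2 e1) _).2 e.2)⟩

/-- The defining properties of the inverse monoid. -/
structure IM {M : Type} [Monoid M] (r : Wd A) (q : Wd A → M) : Prop where
  make ::
  nil : q [] = 1
  app : ∀ a b, q (a ++ b) = q a * q b
  surj : Function.Surjective q
  w1 : ∀ u, q u * q (invRev u) * q u = q u
  w2 : ∀ u v, q u * q (invRev u) * q v * q (invRev v) = q v * q (invRev v) * q u * q (invRev u)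
  rel : q r = 1
  act : ∀ w, q w = 1 → DD (VV r) 1 w ∧ mk w ∈ NN r

variable {M : Type} [Monoid M] {r : Wd A} {q : Wd A → M}

theorem IM.ru (h : IM r q) {w : Wd A} {y : M} (e : q w * y = 1) : q w * q (invRev w) = 1 := by
  rw [← mul_one (q w * _), ← e, ← mul_assoc, h.w1]

theorem IM.red (h : IM r q) {w w' : Wd A} (hr : Red w w') {y : M} (e : q w * y = 1) :
    q w = q w' := by
  induction hr with
  | refl => rfl
  | tail _ h2 ih =>
    rw [ih] at e ⊢
    obtain @⟨a, b, x, c⟩ := h2
    have e1 : a ++ (x, c) :: (x, !c) :: b = a ++ [(x, c)] ++ invRev [(x, c)] ++ b := by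
      simp [invRev]
    rw [e1, h.app, h.app] at e ⊢
    have e2 := h.ru (w := a ++ [(x, c)]) (by simpa only [mul_assoc] using e)
    have e3 := h.w2 [(x, c)] (invRev a)
    rw [invRev_append, h.app, h.app] at e2
    rw [invRev_invRev] at e3
    rw [h.app, h.app]
    congr 1
    calc q a * q [(x, c)] * q (invRev [(x, c)])
        = q a * q (invRev a) * q a * q [(x, c)] * q (invRev [(x, c)]) := by rw [h.w1]
      _ = q a * (q (invRev a) * q a * q [(x, c)] * q (invRev [(x, c)])) := by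
        simp only [mul_assoc]
      _ = q a * q [(x, c)] * (q (invRev [(x, c)]) * q (invRev a)) * q a := by
        rw [← e3]; simp only [mul_assoc]
      _ = q a := by rw [e2, one_mul]

theorem IM.eq_of_mk (h : IM r q) {w w' : Wd A} (e : mk w = mk w') {y y' : M} (h1 : q w * y = 1)
    (h2 : q w' * y' = 1) : q w = q w' := by
  obtain ⟨v, a1, a2⟩ := Red.exact.1 e
  exact (h.red a1 h1).trans (h.red a2 h2).symm

theorem IM.pre_ru (h : IM r q) {m : M} (hm : m ∈ Submonoid.closure (q '' {a | a <+: r})) :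
    ∃ y, m * y = 1 := by
  induction hm using Submonoid.closure_induction with
  | mem x hx =>
    obtain ⟨a, ⟨b, e⟩, rfl⟩ := hx
    exact ⟨q b, by rw [← h.app, e, h.rel]⟩
  | one => exact ⟨1, one_mul 1⟩
  | mul x y _ _ hx hy =>
    obtain ⟨x', hx'⟩ := hx
    obtain ⟨y', hy'⟩ := hy
    exact ⟨y' * x', by rw [mul_assoc, ← mul_assoc y, hy', one_mul, hx']⟩

theorem IM.word_P (h : IM r q) {p : FreeGroup A} (hp : p ∈ PP r) :
    ∃ w, mk w = p ∧ q w ∈ Submonoid.closure (q '' {a | a <+: r}) := by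
  induction hp using Submonoid.closure_induction with
  | mem x hx =>
    obtain ⟨a, ha, rfl⟩ := hx
    exact ⟨a, rfl, Submonoid.subset_closure ⟨a, ha, rfl⟩⟩
  | one => exact ⟨[], rfl, by rw [h.nil]; exact one_mem _⟩
  | mul x y _ _ hx hy =>
    obtain ⟨w, rfl, hw⟩ := hx
    obtain ⟨w', rfl, hw'⟩ := hy
    exact ⟨w ++ w', rfl, by rw [h.app]; exact mul_mem hw hw'⟩

theorem IM.word_N (h : IM r q) {n : FreeGroup A} (hn : n ∈ NN r) : ∃ w, mk w = n ∧ q w = 1 := by
  induction hn using Subgroup.closure_induction with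
  | mem x hx =>
    obtain ⟨p, hp, rfl⟩ := hx
    obtain ⟨w, rfl, hw⟩ := h.word_P hp
    obtain ⟨y, hy⟩ := h.pre_ru hw
    exact ⟨w ++ r ++ invRev w, by rw [inv_mk, mul_mk, mul_mk],
      by rw [h.app, h.app, h.rel, mul_one, h.ru hy]⟩
  | one => exact ⟨[], rfl, h.nil⟩
  | mul x y _ _ hx hy =>
    obtain ⟨w, rfl, hw⟩ := hx
    obtain ⟨w', rfl, hw'⟩ := hy
    exact ⟨w ++ w', rfl, by rw [h.app, hw, hw', mul_one]⟩
  | inv x _ hx =>
    obtain ⟨w, rfl, hw⟩ := hx
    refine ⟨invRev w, inv_mk.symm, ?_⟩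
    have := h.ru (w := w) (y := 1) (by rw [hw, mul_one])
    rwa [hw, one_mul] at this

theorem IM.eq_one (h : IM r q) {w : Wd A} {y : M} (e : q w * y = 1) : q w = 1 ↔ mk w ∈ NN r := by
  refine ⟨fun e => (h.act w e).2, fun hw => ?_⟩
  obtain ⟨v, e1, e2⟩ := h.word_N hw
  rw [← e2]
  exact h.eq_of_mk e1.symm e (y' := 1) (by rw [e2, mul_one])

theorem IM.mem_closure (h : IM r q) (u : Mˣ) :
    (u : M) ∈ Submonoid.closure (q '' {a | a <+: r}) := by
  obtain ⟨w, hw⟩ := h.surj u
  have e : q w * ↑u⁻¹ = 1 := by rw [hw, Units.mul_inv]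
  have e1 := ((DD_append _ _ _).1 (h.act (w ++ invRev w) (by rw [h.app, h.ru e])).1).1.stop
  obtain ⟨n, hn, p, hp, e2⟩ := e1
  obtain ⟨v, rfl, hv⟩ := h.word_N hn
  obtain ⟨v', rfl, hv'⟩ := h.word_P hp
  obtain ⟨y, hy⟩ := h.pre_ru hv'
  rw [one_mul, mul_mk] at e2
  rw [← hw, h.eq_of_mk e2 e (y' := y) (by rw [h.app, hv, one_mul, hy]), h.app, hv, one_mul]
  exact hv'

theorem IM.main [Finite A] (h : IM r q) : ∃ (k : ℕ) (g : Fin k → Mˣ),
    Subgroup.closure (Set.range g) = ⊤ ∧ ComputablePred (fun w : List (Fin k × Bool) =>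
      (w.map (fun p => if p.2 then (g p.1)⁻¹ else g p.1)).prod = 1) := by
  classical
  let wd : Fin (r.length + 1) → Wd A := fun i => if IsUnit (q (r.take i)) then r.take i else []
  have hu : ∀ i, IsUnit (q (wd i)) := fun i => by
    simp only [wd]
    split_ifs with e
    · exact e
    · rw [h.nil]; exact isUnit_one
  let g : Fin (r.length + 1) → Mˣ := fun i => (hu i).unit
  have hg : ∀ i, (g i : M) = q (wd i) := fun i => rfl
  have hg' : ∀ i, (↑(g i)⁻¹ : M) = q (invRev (wd i)) := fun i =>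
    Units.inv_eq_of_mul_eq_one_right (h.ru (g i).mul_inv)
  let ρ : FreeGroup (Fin (r.length + 1)) →* FreeGroup A := FreeGroup.lift fun i => (mk (wd i))⁻¹
  let σ : Fin (r.length + 1) × Bool → Wd A := fun p => if p.2 then invRev (wd p.1) else wd p.1
  have key : ∀ ω : Wd (Fin (r.length + 1)), mk (ω.flatMap σ) = ρ (mk ω) ∧ q (ω.flatMap σ) =
      ((ω.map (fun p => if p.2 then (g p.1)⁻¹ else g p.1)).prod : Mˣ) := by
    intro ω
    induction ω with
    | nil => simp [h.nil, ← one_eq_mk]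
    | cons x ω ih =>
      rw [List.flatMap_cons, ← mul_mk, h.app, ih.1, ih.2, mk_cons, map_mul, List.map_cons,
        List.prod_cons, Units.val_mul]
      obtain ⟨i, b⟩ := x
      cases b <;> simp [σ, ρ, sg, hg, hg', inv_mk]
  refine ⟨_, g, eq_top_iff.2 fun u _ => ?_, (comp_mem ρ ?_ (NN_cases r)).of_eq fun ω => ?_⟩
  · have gen : ∀ m ∈ Submonoid.closure (q '' {a | a <+: r}), ∀ u : Mˣ, (u : M) = m →
        u ∈ Subgroup.closure (Set.range g) := by
      intro m hm
      induction hm using Submonoid.closure_induction_left with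
      | one => intro u e; rw [Units.val_eq_one.1 e]; exact one_mem _
      | mul_left x hx m hm ih =>
        intro u e
        obtain ⟨a, ha, rfl⟩ := hx
        obtain ⟨y, hy⟩ := h.pre_ru hm
        have e1 : ↑u⁻¹ * q a * m = 1 := by rw [mul_assoc, ← e, Units.inv_mul]
        let v : Mˣ := ⟨m, y, hy, by rw [← left_inv_eq_right_inv e1 hy, e1]⟩
        have e2 : q a = ↑(u * v⁻¹) := by
          rw [Units.val_mul, e, mul_assoc]
          exact ((congrArg _ hy).trans (mul_one _)).symm
        have e3 : r.take a.length = a := (List.prefix_iff_eq_take.1 ha).symm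
        let i : Fin (r.length + 1) := ⟨a.length, Nat.lt_succ_of_le ha.length_le⟩
        have e4 : g i = u * v⁻¹ := Units.ext (by
          rw [hg, ← e2]
          simp only [wd, i, e3]
          rw [if_pos (e2 ▸ Units.isUnit _)])
        rw [eq_mul_of_mul_inv_eq e4.symm]
        exact mul_mem (Subgroup.subset_closure ⟨i, rfl⟩) (ih v rfl)
    exact gen _ (h.mem_closure u) u rfl
  · rintro ⟨ω⟩ n hn
    obtain ⟨v, rfl, hv⟩ := h.word_N hn
    obtain ⟨a1, a2⟩ := key ω
    have := (h.act (ω.flatMap σ ++ v ++ invRev (ω.flatMap σ)) (by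
      rw [h.app, h.app, hv, mul_one]
      exact h.ru (a2 ▸ Units.mul_inv _))).2
    rwa [← mul_mk, ← mul_mk, ← inv_mk, a1] at this
  · obtain ⟨a1, a2⟩ := key ω
    rw [← a1, ← h.eq_one (a2 ▸ Units.mul_inv _), a2, Units.val_eq_one]

theorem im_quot (r : FreeMonoid (A × Bool)) (ι : FreeMonoid (A × Bool) → FreeMonoid (A × Bool))
    (c : Con (FreeMonoid (A × Bool)))
    (hι : ∀ w, ι w = FreeMonoid.ofList ((FreeMonoid.toList w).reverse.map fun p => (p.1, !p.2)))
    (hc : c = conGen fun x y => (∃ u, x = u * ι u * u ∧ y = u) ∨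
      (∃ u v, x = u * ι u * v * ι v ∧ y = v * ι v * u * ι u) ∨ (x = r ∧ y = 1)) :
    IM r.toList fun w => c.mk' (FreeMonoid.ofList w) := by
  have h1 : ∀ w, ι w = FreeMonoid.ofList (invRev w.toList) := fun w => by
    rw [hι, invRev, List.map_reverse]
  have h2 : c ≤ SS r.toList := by
    rw [hc]
    refine Con.conGen_le.2 ?_
    rintro _ _ (⟨u, rfl, rfl⟩ | ⟨u, v, rfl, rfl⟩ | ⟨rfl, rfl⟩) g
    · simp only [h1, FreeMonoid.toList_mul, FreeMonoid.toList_ofList, DD_append, ← mul_mk, ← inv_mk,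
        mul_inv_cancel, mul_one, one_mul]
      exact ⟨⟨fun e => e.2, fun e => ⟨⟨e, e.inv⟩, e⟩⟩, fun _ => trivial⟩
    · simp only [h1, FreeMonoid.toList_mul, FreeMonoid.toList_ofList, DD_append, ← mul_mk, ← inv_mk,
        mul_inv_cancel, mul_one, one_mul]
      exact ⟨by tauto, fun _ => trivial⟩
    · refine ⟨⟨fun e => e.start, fun e => DD_rel e⟩, fun e => ?_⟩
      obtain ⟨n, hn, p, hp, rfl⟩ := e.start
      rw [eq_comm, mkV_eq]
      have := mul_mem (mul_mem hn (Subgroup.subset_closure ⟨p, hp, rfl⟩)) (inv_mem hn)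
      simpa [← one_eq_mk, mul_assoc] using this
  have h3 : ∀ x y, ((∃ u, x = u * ι u * u ∧ y = u) ∨
      (∃ u v, x = u * ι u * v * ι v ∧ y = v * ι v * u * ι u) ∨ (x = r ∧ y = 1)) →
      c.mk' x = c.mk' y := fun x y e => (Con.eq c).2 (hc ▸ ConGen.Rel.of x y e)
  exact
    { nil := map_one _
      app := fun a b => map_mul _ _ _
      surj := fun m => by
        obtain ⟨w, rfl⟩ := c.mk'_surjective m
        exact ⟨w.toList, rfl⟩
      w1 := fun u => by
        simpa [h1] using h3 _ _ (Or.inl ⟨FreeMonoid.ofList u, rfl, rfl⟩)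
      w2 := fun u v => by
        simpa [h1] using h3 _ _ (Or.inr (Or.inl ⟨FreeMonoid.ofList u, FreeMonoid.ofList v, rfl, rfl⟩))
      rel := h3 _ _ (Or.inr (Or.inr ⟨rfl, rfl⟩))
      act := fun w e => by
        have := h2 ((Con.eq c).1 (show c.mk' (FreeMonoid.ofList w) = c.mk' 1 from e)) 1
        have e1 : DD (VV r.toList) 1 w := this.1.2 ⟨1, one_mem _, 1, one_mem _, (one_mul 1).symm⟩
        refine ⟨e1, ?_⟩
        simpa [← one_eq_mk] using mkV_eq.1 (this.2 e1).symm }

end Pool.Agent.P.MP_caa3d2_al
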