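import Pool.Agent.P.MP_caa3d2_al.BaseCase

/-!
HNN extensions, Britton's lemma and the removal of pinches with bounds.
-/

set_option autoImplicit false

namespace Pool.Agent.P.MP_caa3d2_al

open FreeGroup hiding map_mul map_one map_inv

/-- The conclusion of Britton's lemma. -/
def Britton {H Hs : Type} [Group H] [Group Hs] (ι : H →* Hs) (t : Hs) (A B : Subgroup H) : Prop :=
  ∀ (h0 : H) (l : List (ℤˣ × H)),
    ι h0 * (l.map fun x => t ^ (x.1 : ℤ) * ι x.2).prod ∈ ι.range →
    l = [] ∨ ∃ l1 l2 u g g', l = l1 ++ (u, g) :: (-u, g') :: l2 ∧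
      ((u = 1 ∧ g ∈ A) ∨ (u = -1 ∧ g ∈ B))

theorem hnn_exists {H K : Type} [Group H] [Group K] (a b : K →* H) (ha : Function.Injective a)
    (hb : Function.Injective b) :
    ∃ (Hs : Type) (_ : Group Hs) (ι : H →* Hs) (t : Hs), Function.Injective ι ∧
      (∀ y, t * ι (a y) = ι (b y) * t) ∧ Britton ι t a.range b.range := by
  let φ : a.range ≃* b.range := (MonoidHom.ofInjective ha).symm.trans (MonoidHom.ofInjective hb)
  refine ⟨HNNExtension H a.range b.range φ, inferInstance, HNNExtension.of, HNNExtension.t,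
    HNNExtension.of_injective φ, ?_, ?_⟩
  · intro y
    have := HNNExtension.t_mul_of (φ := φ) (MonoidHom.ofInjective ha y)
    simpa [φ, MonoidHom.ofInjective_apply] using this
  · intro h0 l h
    by_cases hc : l.IsChain fun x y => x.2 ∈ HNNExtension.toSubgroup a.range b.range x.1 → x.1 = y.1
    · left
      exact HNNExtension.ReducedWord.toList_eq_nil_of_mem_of_range φ ⟨h0, l, hc⟩ h
    · right
      rw [List.isChain_iff_forall_rel_of_append_cons_cons] at hc
      push Not at hc
      obtain ⟨x, y, l1, l2, e, h1, h2⟩ := hc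
      obtain ⟨u, g⟩ := x
      obtain ⟨u', g'⟩ := y
      have hu : u' = -u := by
        rcases Int.units_eq_one_or u with rfl | rfl <;>
          rcases Int.units_eq_one_or u' with rfl | rfl <;> simp_all
      subst hu
      refine ⟨l1, l2, u, g, g', e, ?_⟩
      rcases Int.units_eq_one_or u with rfl | rfl
      · exact Or.inl ⟨rfl, h1⟩
      · exact Or.inr ⟨rfl, h1⟩

section Mixed

variable {E1 E Hs : Type} [Group Hs]

/-- Words in letters and powers of the stable letter. -/
abbrev MW (E1 : Type) : Type := List ((E1 × Bool) ⊕ ℤˣ)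

/-- The value of a mixed word. -/
def mval (κ : FreeGroup E1 →* Hs) (t : Hs) (W : MW E1) : Hs :=
  (W.map (Sum.elim (fun x => κ (mk [x])) fun u : ℤˣ => t ^ (u : ℤ))).prod

/-- The letters of a mixed word. -/
def mlw (W : MW E1) : Wd E1 := W.filterMap Sum.getLeft?

/-- The number of stable letters. -/
def mnt (W : MW E1) : ℕ := (W.filterMap Sum.getRight?).length

variable (κ : FreeGroup E1 →* Hs) (t : Hs)

@[simp] theorem mval_nil : mval κ t [] = 1 := rfl
@[simp] theorem mval_append (W W' : MW E1) : mval κ t (W ++ W') = mval κ t W * mval κ t W' := by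
  simp [mval]
@[simp] theorem mval_inr (u : ℤˣ) (W : MW E1) :
    mval κ t (Sum.inr u :: W) = t ^ (u : ℤ) * mval κ t W := by simp [mval]
theorem mval_inl (x : E1 × Bool) (W : MW E1) :
    mval κ t (Sum.inl x :: W) = κ (mk [x]) * mval κ t W := by simp [mval]
@[simp] theorem mval_map (h : Wd E1) : mval κ t (h.map Sum.inl) = κ (mk h) := by
  induction h with
  | nil => simp [← one_eq_mk]
  | cons x h ih => rw [List.map_cons, mval_inl, ih, ← map_mul, mul_mk]; rfl
@[simp] theorem mlw_nil : mlw ([] : MW E1) = [] := rfl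
@[simp] theorem mlw_append (W W' : MW E1) : mlw (W ++ W') = mlw W ++ mlw W' := by simp [mlw]
@[simp] theorem mlw_inr (u : ℤˣ) (W : MW E1) : mlw (Sum.inr u :: W) = mlw W := by simp [mlw]
@[simp] theorem mlw_inl (x : E1 × Bool) (W : MW E1) : mlw (Sum.inl x :: W) = x :: mlw W := by
  simp [mlw]
@[simp] theorem mlw_map (h : Wd E1) : mlw (h.map Sum.inl) = h := by
  induction h with
  | nil => rfl
  | cons x h ih => rw [List.map_cons, mlw_inl, ih]
@[simp] theorem mnt_nil : mnt ([] : MW E1) = 0 := rfl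
@[simp] theorem mnt_append (W W' : MW E1) : mnt (W ++ W') = mnt W + mnt W' := by simp [mnt]
@[simp] theorem mnt_inr (u : ℤˣ) (W : MW E1) : mnt (Sum.inr u :: W) = mnt W + 1 := by simp [mnt]
@[simp] theorem mnt_inl (x : E1 × Bool) (W : MW E1) : mnt (Sum.inl x :: W) = mnt W := by
  simp [mnt]
@[simp] theorem mnt_map (h : Wd E1) : mnt (h.map Sum.inl) = 0 := by
  induction h with
  | nil => rfl
  | cons x h ih => rw [List.map_cons, mnt_inl, ih]

/-- A power of the stable letter as a mixed word. -/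
def tp (k : ℤ) : MW E1 := List.replicate k.natAbs (Sum.inr (if 0 ≤ k then 1 else -1))

theorem mval_rep (n : ℕ) (u : ℤˣ) :
    mval κ t (List.replicate n (Sum.inr u)) = t ^ ((n : ℤ) * u) := by
  induction n with
  | zero => simp
  | succ n ih =>
    rw [List.replicate_succ, mval_inr, ih, ← zpow_add]; congr 1; push_cast; ring

@[simp] theorem mval_tp (k : ℤ) : mval κ t (tp k) = t ^ k := by
  rw [tp, mval_rep]; congr 1
  split_ifs
  · rw [Units.val_one]; omega
  · rw [Units.val_neg, Units.val_one]; omega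

@[simp] theorem mlw_tp (k : ℤ) : mlw (tp k : MW E1) = [] := by simp [tp, mlw]

@[simp] theorem mnt_tp (k : ℤ) : mnt (tp k : MW E1) = k.natAbs := by simp [tp, mnt]

theorem exists_chunk (W : MW E1) : ∃ (h0 : Wd E1) (l : List (ℤˣ × Wd E1)),
    W = h0.map Sum.inl ++ l.flatMap fun x => Sum.inr x.1 :: x.2.map Sum.inl := by
  induction W with
  | nil => exact ⟨[], [], rfl⟩
  | cons x W ih =>
    obtain ⟨h0, l, rfl⟩ := ih
    rcases x with x | u
    · exact ⟨x :: h0, l, rfl⟩
    · exact ⟨[], (u, h0) :: l, by simp⟩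

theorem exists_pinch {H : Type} [Group H] (π : FreeGroup E1 →* H) (ι : H →* Hs) {A B : Subgroup H}
    (hB : Britton ι t A B) (W : MW E1) (hW : mval (ι.comp π) t W ∈ ι.range) :
    W = (mlw W).map Sum.inl ∨ ∃ W1 W2 u h,
      W = W1 ++ Sum.inr u :: (List.map Sum.inl h ++ Sum.inr (-u) :: W2) ∧
      ((u = 1 ∧ π (mk h) ∈ A) ∨ (u = -1 ∧ π (mk h) ∈ B)) := by
  obtain ⟨h0, l, rfl⟩ := exists_chunk W
  have e : ∀ l : List (ℤˣ × Wd E1),
      mval (ι.comp π) t (l.flatMap fun x => Sum.inr x.1 :: x.2.map Sum.inl) =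
      ((l.map fun x => (x.1, π (mk x.2))).map fun x => t ^ (x.1 : ℤ) * ι x.2).prod := by
    intro l
    induction l with
    | nil => rfl
    | cons x l ih => simp [ih, mul_assoc]
  rw [mval_append, mval_map, e] at hW
  rcases hB _ _ hW with h | ⟨l1, l2, u, g, g', h, h'⟩
  · left
    have : l = [] := by simpa using h
    subst this; simp
  · right
    obtain ⟨k1, k2, rfl, rfl, h2⟩ := List.map_eq_append_iff.1 h
    obtain ⟨x, k3, rfl, h3, h4⟩ := List.map_eq_cons_iff.1 h2
    obtain ⟨y, k4, rfl, h5, h6⟩ := List.map_eq_cons_iff.1 h4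
    simp only [Prod.mk.injEq] at h3 h5
    refine ⟨h0.map Sum.inl ++ k1.flatMap fun x => Sum.inr x.1 :: x.2.map Sum.inl,
      y.2.map Sum.inl ++ k4.flatMap fun x => Sum.inr x.1 :: x.2.map Sum.inl, u, x.2, ?_, ?_⟩
    · simp [h3.1, h5.1]
    · rw [h3.2]; exact h'

theorem le_iterate {G : ℕ → ℕ} (hG : ∀ n, n ≤ G n) (q n : ℕ) : n ≤ G^[q] n := by
  induction q generalizing n with
  | zero => exact le_rfl
  | succ q ih => exact (hG n).trans (ih (G n))

theorem remove_pinches {H : Type} [Group H] (π : FreeGroup E1 →* H) (ι : H →* Hs)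
    {A B : Subgroup H} (hB : Britton ι t A B) (pj : Wd E1 → Wd E)
    (hpj : ∀ a b, pj (a ++ b) = pj a ++ pj b) {R : Set (Wd E)} (f : ℕ → ℕ) (K : ℕ)
    (res : ∀ (n : ℕ) (u : ℤˣ) (h : Wd E1), h.length ≤ n →
      ((u = 1 ∧ π (mk h) ∈ A) ∨ (u = -1 ∧ π (mk h) ∈ B)) →
      ∃ h2 : Wd E1, Der R (f n) (pj h) (pj h2) ∧ h2.length ≤ h.length + K * f n ∧
        t ^ (u : ℤ) * ι (π (mk h)) * t ^ ((-u : ℤˣ) : ℤ) = ι (π (mk h2))) :
    ∀ (q n : ℕ) (W : MW E1), mnt W ≤ q → (mlw W).length ≤ n → mval (ι.comp π) t W ∈ ι.range →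
      ∃ h : Wd E1, ι (π (mk h)) = mval (ι.comp π) t W ∧
        h.length ≤ (fun n => n + (K + 1) * f n)^[q] n ∧
        Der R (q * (fun n => n + (K + 1) * f n)^[q] n) (pj (mlw W)) (pj h) := by
  intro q
  have hG : ∀ n, n ≤ (fun n => n + (K + 1) * f n) n := fun n => Nat.le_add_right _ _
  induction q with
  | zero =>
    intro n W h1 h2 h3
    rcases exists_pinch t π ι hB W h3 with h | ⟨W1, W2, u, h, rfl, -⟩
    · refine ⟨mlw W, ?_, h2, Der.refl _ _⟩
      conv_rhs => rw [h, mval_map]
      rfl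
    · simp at h1
  | succ q ih =>
    intro n W h1 h2 h3
    rcases exists_pinch t π ι hB W h3 with h | ⟨W1, W2, u, h, rfl, h4⟩
    · refine ⟨mlw W, ?_, h2.trans (le_iterate hG _ _), Der.refl _ _⟩
      conv_rhs => rw [h, mval_map]
      rfl
    · simp only [mlw_append, mlw_inr, mlw_map, List.length_append, mnt_append, mnt_inr,
        mnt_map] at h1 h2
      obtain ⟨h', a1, a2, a3⟩ := res n u h (by omega) h4
      have e : mval (ι.comp π) t (W1 ++ (h'.map Sum.inl ++ W2)) =
          mval (ι.comp π) t (W1 ++ Sum.inr u :: (List.map Sum.inl h ++ Sum.inr (-u) :: W2)) := by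
        simp only [mval_append, mval_inr, mval_map, MonoidHom.comp_apply, ← a3, mul_assoc]
      obtain ⟨h'', b1, b2, b3⟩ := ih (n + (K + 1) * f n) (W1 ++ (h'.map Sum.inl ++ W2))
        (by simp; omega)
        (by
          simp only [mlw_append, mlw_map, List.length_append]
          rw [Nat.add_mul]; omega) (by rw [e]; exact h3)
      refine ⟨h'', b1.trans e, b2, ?_⟩
      have b4 := a1.ctx (pj (mlw W1)) (pj (mlw W2))
      simp only [mlw_append, mlw_map, mlw_inr, hpj] at b3 ⊢
      rw [List.append_assoc, List.append_assoc] at b4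
      refine (b4.trans b3).mono ?_
      have b5 := le_iterate hG q (n + (K + 1) * f n)
      rw [Function.iterate_succ_apply]
      generalize (fun n => n + (K + 1) * f n)^[q] (n + (K + 1) * f n) = z at *
      rw [Nat.succ_mul q]
      have : f n ≤ (K + 1) * f n := Nat.le_mul_of_pos_left _ (by omega)
      omega

end Mixed

end Pool.Agent.P.MP_caa3d2_al
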