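import Pool.Agent.P.MP_caa3d2_al.Core

/-!
Reduction of the membership problem to bounded derivations over a finite alphabet.
-/

set_option autoImplicit false

noncomputable section

namespace Pool.Agent.P.MP_caa3d2_al

open FreeGroup hiding map_mul map_one map_inv

variable {A V V' : Type}

/-- The lift of a word to a path. -/
def lw (v : FreeGroup A → V) : FreeGroup A → Wd A → Wd (V × A)
  | _, [] => []
  | g, x :: w => ((v (if x.2 then g else g * (FreeGroup.of x.1)⁻¹), x.1), x.2) ::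
      lw v (g * sg (FreeGroup.of x.1) x.2) w

theorem lw_length (v : FreeGroup A → V) (g : FreeGroup A) (w : Wd A) :
    (lw v g w).length = w.length := by
  induction w generalizing g with
  | nil => rfl
  | cons x w ih => simp [lw, ih]

theorem lw_append (v : FreeGroup A → V) (g : FreeGroup A) (w w' : Wd A) :
    lw v g (w ++ w') = lw v g w ++ lw v (g * mk w) w' := by
  induction w generalizing g with
  | nil => simp [lw, ← one_eq_mk]
  | cons x w ih => simp [lw, ih, mk_cons, mul_assoc]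

theorem lw_map (v : FreeGroup A → V) (p : V → V') (g : FreeGroup A) (w : Wd A) :
    (lw v g w).map (fun x => ((p x.1.1, x.1.2), x.2)) = lw (fun g => p (v g)) g w := by
  induction w generalizing g with
  | nil => rfl
  | cons x w ih => simp [lw, ih]

theorem lw_mul (v : FreeGroup A → V) {l : FreeGroup A} (h : ∀ y, v (l * y) = v y)
    (g : FreeGroup A) (w : Wd A) : lw v (l * g) w = lw v g w := by
  induction w generalizing g with
  | nil => rfl
  | cons x w ih =>
    simp only [lw, mul_assoc, ih, ← mul_ite, h]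

theorem Lm_lw (N : Subgroup (FreeGroup A)) (g : FreeGroup A) (w : Wd A) :
    Lm N (g * mk w) = Lm N g * mk (lw (mkV N) g w) := by
  induction w generalizing g with
  | nil => simp [lw, ← one_eq_mk]
  | cons x w ih =>
    rw [mk_cons, ← mul_assoc, ih, lw, mk_cons, ← mul_assoc]
    congr 1
    obtain ⟨a, b⟩ := x
    cases b
    · have := integ_of (fun g a => FreeGroup.of (mkV N g, a)) (g * (FreeGroup.of a)⁻¹) a
      simp only [inv_mul_cancel_right] at this
      simp [Lm, sg, this]
    · simp [Lm, sg, integ_of]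

theorem pm_Lm {N : Subgroup (FreeGroup A)} {L : ℕ} {s : ℕ → A × Bool} {C : Set (FreeGroup A)}
    (hC : ∀ c ∈ C, lp L s c ∈ N) {n : FreeGroup A} (hn : n ∈ NC L s C) :
    pm (Rel L (cs N s '' C)) (Lm N n) = 1 := by
  induction hn using Subgroup.closure_induction with
  | mem x hx =>
    obtain ⟨c, hc, rfl⟩ := hx
    have h1 := Lm_pre (N := N) (s := s) c 0 L
    rw [Nat.zero_add, pre_zero, mul_one, ← lp_mul, Lm_mul (hC c hc)] at h1
    have h2 := congrArg (pm (Rel L (cs N s '' C))) h1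
    rw [map_mul, map_mul, pm_rel (R := Rel L (cs N s '' C)) ⟨_, ⟨c, hc, rfl⟩, 0, rfl⟩, mul_one] at h2
    exact mul_eq_right.1 h2
  | one => simp [Lm]
  | mul x y hx _ ihx ihy => rw [Lm_mul (NC_le hC hx), map_mul, ihx, ihy, mul_one]
  | inv x hx ih =>
    have := congrArg (pm (Rel L (cs N s '' C))) (Lm_mul (inv_mem (NC_le hC hx)) x)
    rw [inv_mul_cancel, map_mul, ih, mul_one] at this
    rw [← this]; simp [Lm]

/-- Encoding of words, deleting the letters without a code. -/
def enc {E E' : Type} (e : E → Option E') (w : Wd E) : Wd E' :=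
  w.filterMap fun x => (e x.1).map fun j => (j, x.2)

theorem enc_append {E E' : Type} (e : E → Option E') (w w' : Wd E) :
    enc e (w ++ w') = enc e w ++ enc e w' := List.filterMap_append

theorem enc_invRev {E E' : Type} (e : E → Option E') (w : Wd E) :
    enc e (invRev w) = invRev (enc e w) := by
  simp only [enc, invRev, List.filterMap_reverse, List.filterMap_map, List.map_filterMap]
  congr 2
  funext x
  cases h : e x.1 <;> simp [h]

theorem enc_ins {E E' : Type} (e : E → Option E') {R : Set (Wd E)} {R' : Set (Wd E')}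
    (h : ∀ x ∈ R, enc e x ∈ R') (x : Wd E) (hx : Ins R x) : Ins R' (enc e x) ∨ enc e x = [] := by
  rcases hx with ⟨a, b, rfl⟩ | hx | hx
  · cases h : e a with
    | none => right; simp [enc, h]
    | some j => left; exact Or.inl ⟨j, b, by simp [enc, h]⟩
  · exact Or.inl (Or.inr (Or.inl (h x hx)))
  · exact Or.inl (Or.inr (Or.inr (by rw [← enc_invRev]; exact h _ hx)))

theorem exists_enc {E : Type} {S : Set E} (hS : S.Finite) : ∃ (m : ℕ) (e : E → Option (Fin m))
    (d : Fin m → E), ∀ {G : Type} [Group G] (β : E → G) (w : Wd E), Over S w →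
      FreeGroup.lift (fun j => β (d j)) (mk (enc e w)) = FreeGroup.lift β (mk w) := by
  classical
  obtain ⟨m, d, hd⟩ := hS.fin_embedding
  let e : E → Option (Fin m) := fun y => if h : ∃ j, d j = y then some h.choose else none
  refine ⟨m, e, d, fun β w hw => ?_⟩
  induction w with
  | nil => rfl
  | cons x w ih =>
    have hx : ∃ j, d j = x.1 := by
      have := hw x (by simp)
      rwa [← hd] at this
    have : enc e (x :: w) = (hx.choose, x.2) :: enc e w := by simp [enc, e, dif_pos hx]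
    rw [this, mk_cons, mk_cons, map_mul, map_mul, ih fun y hy => hw y (by simp [hy]), map_sg,
      map_sg, lift_apply_of, lift_apply_of, hx.choose_spec]

variable {I U : Type} [Group U] {N : Subgroup (FreeGroup A)} {L : ℕ} {s : ℕ → A × Bool}
  {ρ : FreeGroup I →* FreeGroup A} {π : FreeGroup I →* U}

theorem exists_words [Finite I] (ρ : FreeGroup I →* FreeGroup A) :
    ∃ (wx : I × Bool → Wd A) (c : ℕ), ∀ ω : Wd I, mk (ω.flatMap wx) = ρ (mk ω) ∧
      (ω.flatMap wx).length ≤ c * ω.length := by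
  classical
  obtain ⟨c, hc⟩ := (Set.finite_range fun x : I × Bool => (ρ (mk [x])).toWord.length).bddAbove
  refine ⟨fun x => (ρ (mk [x])).toWord, c, fun ω => ?_⟩
  induction ω with
  | nil => simp [← one_eq_mk]
  | cons x ω ih =>
    rw [List.flatMap_cons, ← mul_mk, mk_toWord, ih.1, ← map_mul, mul_mk, List.length_append,
      List.length_cons, Nat.mul_succ, Nat.add_comm]
    exact ⟨rfl, Nat.add_le_add ih.2 (hc ⟨x, rfl⟩)⟩

theorem finite_pres [Finite I] (h : St L s N ρ π) : ∃ (m : ℕ) (R : Set (Wd (Fin m)))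
    (W : I × Bool → Wd (Fin m)) (f : ℕ → ℕ), R.Finite ∧ Primrec f ∧
      ∀ ω : Wd I, ρ (mk ω) ∈ N ↔ Der R (f ω.length) (ω.flatMap W) [] := by
  obtain ⟨G, hG, hG', key⟩ := core h
  obtain ⟨f, hf, hq⟩ := magnus h.hL A s h.per h.rd (s 0).1 ⟨0, rfl⟩
  have hC := CG_lp h hG'
  have hq' := (hq _ _ _ (cs_cx h.per hC)).2
    (cs_nw h.hL h.per h.rd (fun n hn => h.pr_eq n (Subgroup.mem_inf.1 hn).2) _)
  obtain ⟨wx, c, hw⟩ := exists_words ρ
  let Lo := LG L s ρ G
  let R0 := Rel L (cs Lo s '' G)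
  have hper : ∀ g ∈ G, Per L (cs Lo s g) := fun g hg => cs_per h.per (lp_mem_LG hg)
  have hR0 : R0.Finite := by
    refine (hG.image2 (fun g p => seg (cs Lo s g) p L) (Set.finite_Iio L)).subset ?_
    rintro _ ⟨_, ⟨g, hg, rfl⟩, p, rfl⟩
    refine ⟨g, hg, p % L, Nat.mod_lt _ h.hL, seg_congr fun q _ => ?_⟩
    rw [← (hper g hg).mod, ← (hper g hg).mod (p + q), Nat.mod_add_mod]
  let W0 : I × Bool → Wd (Vx Lo × A) := fun x => lw (mkV Lo) 1 (wx x)
  let S : Set (Vx Lo × A) := ⋃ w ∈ R0 ∪ Set.range W0, Prod.fst '' {x | x ∈ w}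
  have hS : ∀ w ∈ R0 ∪ Set.range W0, Over S w := fun w hw x hx =>
    Set.mem_biUnion hw ⟨x, hx, rfl⟩
  obtain ⟨m, e, d, hd⟩ := exists_enc (S := S) ((hR0.union (Set.finite_range W0)).biUnion
    fun w _ => (List.finite_toSet w).image _)
  have hW : ∀ ω : Wd I, lw (mkV Lo) 1 (ω.flatMap wx) = ω.flatMap W0 := by
    intro ω
    induction ω with
    | nil => rfl
    | cons x ω ih =>
      have e1 := (hw [x]).1
      rw [List.flatMap_singleton] at e1
      rw [List.flatMap_cons, List.flatMap_cons, lw_append, one_mul, e1, ← ih]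
      congr 1
      simpa using lw_mul (mkV Lo) (mkV_mul (rho_mem G (mk [x]))) 1 _
  have hE : ∀ ω : Wd I, enc e (ω.flatMap W0) = ω.flatMap fun x => enc e (W0 x) := fun ω =>
    List.filterMap_flatMap
  refine ⟨m, enc e '' R0, fun x => enc e (W0 x), fun n => f (c * n), hR0.image _,
    hf.comp (Primrec.nat_mul.comp (Primrec.const c) Primrec.id), fun ω => ⟨fun hω => ?_, fun hω => ?_⟩⟩
  · have e1 := Lm_lw (Lo ⊓ N) 1 (ω.flatMap wx)
    rw [one_mul, (hw ω).1, show Lm (Lo ⊓ N) 1 = 1 by simp [Lm], one_mul] at e1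
    obtain ⟨v, hv, hD⟩ := hq' ∅ (Set.empty_subset _) (c * ω.length)
      (lw (mkV (Lo ⊓ N)) 1 (ω.flatMap wx)) [] (by rw [lw_length]; exact (hw ω).2)
      (fun x hx => by simp at hx) (by
        rw [← e1, pm_Lm hC (key ⟨rho_mem G _, hω⟩), ← one_eq_mk, map_one])
    obtain rfl : v = [] := List.eq_nil_iff_forall_not_mem.2 fun x hx => hv x hx
    let p : Vx (Lo ⊓ N) → Vx Lo := Quotient.lift (mkV Lo) fun g g' e =>
      mkV_eq.2 (mkV_eq.1 (Quotient.sound e : mkV (Lo ⊓ N) g = mkV _ g')).1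
    have hD' := hD.hom (R' := R0) (fun w => w.map fun x => ((p x.1.1, x.1.2), x.2))
      (fun a b => List.map_append) fun x hx => Or.inl (by
        have hr : ∀ y ∈ Rel L (cs (Lo ⊓ N) s '' CG L s ρ G),
            y.map (fun x => ((p x.1.1, x.1.2), x.2)) ∈ R0 := by
          rintro _ ⟨_, ⟨_, ⟨l, hl, g, hg, rfl⟩, rfl⟩, q, rfl⟩
          refine ⟨_, ⟨g, hg, rfl⟩, q, ?_⟩
          rw [seg_map]
          refine seg_congr fun j _ => ?_
          show ((mkV Lo _, _), _) = ((mkV Lo _, _), _)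
          rw [mul_assoc, mkV_mul hl]; rfl
        rcases hx with ⟨a, b, rfl⟩ | hx | hx
        · exact Or.inl ⟨_, b, rfl⟩
        · exact Or.inr (Or.inl (hr x hx))
        · refine Or.inr (Or.inr ?_)
          convert hr _ hx using 1
          simp [invRev])
    simp only [lw_map, List.map_nil] at hD'
    have hD2 := hD'.hom (R' := enc e '' R0) (enc e) (enc_append e)
      (enc_ins e fun x hx => ⟨x, hx, rfl⟩)
    rw [← hE, ← hW]
    exact hD2
  · obtain ⟨ψ, hψ⟩ := exists_psi h hG'
    let t : FreeGroup A → FreeGroup A := fun g => (mkV Lo g).out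
    have ht : ∀ g, g * (t g)⁻¹ ∈ Lo := fun g => mkV_eq.1 (Quotient.out_eq _)
    let F : FreeGroup A → U := fun g => ψ ⟨_, ht g⟩
    have hF : ∀ l (hl : l ∈ Lo) g, F (l * g) = ψ ⟨l, hl⟩ * F g := fun l hl g => by
      rw [← map_mul]
      exact congrArg ψ (Subtype.ext (by simp [t, mkV_mul hl, mul_assoc]))
    let β : Vx Lo × A → U := fun e => (F e.1.out)⁻¹ * F (e.1.out * FreeGroup.of e.2)
    have hβ : ∀ g, F g = F 1 * FreeGroup.lift β (Lm Lo g) := fun g => by
      rw [← integ_eq_lift]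
      refine integ_unique _ F (fun g a => ?_) g
      obtain ⟨n, hn, e⟩ := exists_of_mkV (N := Lo) (Quotient.out_eq (mkV Lo g)).symm
      simp only [β]
      rw [e, mul_assoc n, hF n hn, hF n hn]; group
    have e1 := hω.sound (FreeGroup.lift fun j => β (d j)) (by
      rintro _ ⟨_, ⟨_, ⟨g, hg, rfl⟩, p, rfl⟩, rfl⟩
      rw [hd β _ (hS _ (Or.inl ⟨_, ⟨g, hg, rfl⟩, p, rfl⟩))]
      have e2 := hβ (g * pre s (p + L))
      rw [Lm_pre, map_mul, ← mul_assoc, ← hβ, h.per.pre_add, ← mul_assoc, ← lp_mul (L := L),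
        mul_assoc, hF _ (lp_mem_LG hg), hψ _ 1 _ (hG' g hg) (by simp), map_one, one_mul] at e2
      exact (mul_eq_left.1 e2.symm))
    rw [← hE, hd β _ (fun x hx => by
      obtain ⟨y, -, hy⟩ := List.mem_flatMap.1 hx
      exact hS _ (Or.inr ⟨y, rfl⟩) x hy), ← hW, ← one_eq_mk, map_one] at e1
    have e2 := Lm_lw Lo 1 (ω.flatMap wx)
    rw [one_mul, (hw ω).1, show Lm Lo 1 = 1 by simp [Lm], one_mul] at e2
    have e3 := hβ (ρ (mk ω) * 1)
    rw [hF _ (rho_mem G _), mul_one, e2, e1, mul_one, hψ _ (mk ω) 1 (one_mem _) (by simp)] at e3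
    exact (h.ker _).1 (mul_eq_right.1 e3)

end Pool.Agent.P.MP_caa3d2_al
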