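import Pool.Agent.P.MP_caa3d2_al.Magnus

/-!
The one-relator group itself: heights, descent to the next level, order of the root.
-/

set_option autoImplicit false

namespace Pool.Agent.P.MP_caa3d2_al

open FreeGroup hiding map_mul map_one map_inv

variable {B : Type} {L : ℕ} {s : ℕ → B × Bool} {φ : B → ℤ} {ε : B} {m M : ℤ}

/-- The one-relator group. -/
abbrev G1 (L : ℕ) (s : ℕ → B × Bool) : Type := Gp (Rel L {s})

/-- The projection onto the one-relator group. -/
abbrev pr (L : ℕ) (s : ℕ → B × Bool) : FreeGroup B →* G1 L s := pm (Rel L {s})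

theorem cx_rose (hP : Per L s) : Cx L s id {s} where
  per := by rintro c rfl; exact hP
  fst := by rintro c rfl p; rfl
  snd := by rintro c rfl p; rfl
  det := by rintro c rfl c' rfl p p' _ h; exact h

theorem pr_pre_L : pr L s (pre s L) = 1 := pm_rel (R := Rel L _) ⟨s, rfl, 0, rfl⟩

theorem rose_fs (hL : 0 < L) (hP : Per L s) (hR : Rd s) (hε : ε ∈ lets s) :
    FS (Rel L {s}) {b | b ≠ ε} := by
  obtain ⟨f, -, h⟩ := magnus hL B s hP hR ε hε
  exact (h B id {s} (cx_rose hP)).1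

theorem exists_height (hP : Per L s) (h0 : hv φ (pre s L) = 0) :
    ∃ ht : G1 L s → ℤ, (∀ g, ht (pr L s g) = hv φ g) ∧ ∀ x y, ht (x * y) = ht x + ht y := by
  obtain ⟨G, hG⟩ := exists_lift (R := Rel L {s})
    (FreeGroup.lift fun b => Multiplicative.ofAdd (φ b)) fun w hw => by
      have := hv_rel (cx_rose hP) h0 hP w hw
      exact toAdd_eq_zero.1 this
  exact ⟨fun x => Multiplicative.toAdd (G x), fun g => congrArg _ (hG g), fun x y => by simp⟩

/-- Descent data from a one-relator group to the next level of the hierarchy. -/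
structure Desc (L : ℕ) (s : ℕ → B × Bool) (φ : B → ℤ) (ε : B) (m M : ℤ) {Kt : Type}
    (κ : G1 L s → ℤ → Kt) (D : G1 L s → ℤ → G1 L (lf φ s)) : Prop where
  d1 : ∀ g b i, (b ≠ ε ∨ (m ≤ i ∧ i ≤ M)) → κ (g * pr L s (FreeGroup.of b)) (i + φ b) = κ g i ∧
    D (g * pr L s (FreeGroup.of b)) (i + φ b) = D g i * pr L (lf φ s) (FreeGroup.of (b, i))
  d2 : ∀ g g1 g2 i, κ g1 i = κ g2 i → κ (g * g1) i = κ (g * g2) i
  d3 : ∀ g g1 g2 i, κ g1 i = κ g2 i → κ (g * g1) i = κ g1 i →
    D (g * g1) i * (D g1 i)⁻¹ = D (g * g2) i * (D g2 i)⁻¹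

theorem exists_desc (hL : 0 < L) (hP : Per L s) (hR : Rd s) (h0 : hv φ (pre s L) = 0)
    (hmM : m ≤ M) (hm : ∀ p, (s p).1 = ε → m ≤ hv φ (opre s p) ∧ hv φ (opre s p) ≤ M)
    (h1 : (ε, m) ∈ lets (lf φ s)) (h2 : (ε, M) ∈ lets (lf φ s)) :
    ∃ (Kt : Type) (κ : G1 L s → ℤ → Kt) (D : G1 L s → ℤ → G1 L (lf φ s)),
      Desc L s φ ε m M κ D := by
  have hc := (cx_rose hP).lift (ε := ε) (m := m) (M := M) hP h0
  obtain ⟨f1, -, k1⟩ := magnus hL _ _ (lf_per hP h0) (lf_rd hR) _ h1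
  obtain ⟨f2, -, k2⟩ := magnus hL _ _ (lf_per hP h0) (lf_rd hR) _ h2
  obtain ⟨Hs, _, ι, t, θ, a1, a2, -, a4⟩ := step_hnn (cx_rose hP) hP h0 hmM hm (k1 _ _ _ hc).1
    (k2 _ _ _ hc).1
  obtain ⟨j, hj⟩ := exists_lift (R := Rel L (Cs1 φ s id ε m M {s}))
    ((pr L (lf φ s)).comp (FreeGroup.map lab1)) (by
      rintro _ ⟨c, hc', p, rfl⟩
      rw [MonoidHom.comp_apply, cx_map_seg hc hc']
      exact pm_rel (R := Rel L _) ⟨_, rfl, p, rfl⟩)
  have hcomp : ∀ x : Hs, ∃ y, ι y = (QuotientGroup.mk x : Hs ⧸ ι.range).out⁻¹ * x := fun x =>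
    QuotientGroup.eq.1 (Quotient.out_eq (QuotientGroup.mk x : Hs ⧸ ι.range))
  choose cp hcp using hcomp
  refine ⟨Hs ⧸ ι.range, fun g i => QuotientGroup.mk (θ g * t ^ (-i)),
    fun g i => j (cp (θ g * t ^ (-i))), ?_, ?_, ?_⟩
  · intro g b i hb
    let y : E1 id ε m M := ⟨(b, i), hb⟩
    have e1 : θ (g * pr L s (FreeGroup.of b)) * t ^ (-(i + φ b)) =
        θ g * t ^ (-i) * ι (pm _ (FreeGroup.of y)) := by
      have e2 := th_letter (φ := φ) hmM (ι.comp (pm (Rel L (Cs1 φ s id ε m M {s})))) t b true i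
      have e3 := br_al hmM (ι.comp (pm (Rel L (Cs1 φ s id ε m M {s})))) t
        (fun x => a2 (FreeGroup.of x)) y
      simp only [sg, if_true, hv_of, Function.comp_apply, id] at e2
      rw [show br hmM (ι.comp (pm _)) t b i = _ from e3, ← a4] at e2
      rw [map_mul, zpow_neg, zpow_neg, mul_assoc, mul_assoc, mul_right_inj, mul_inv_eq_iff_eq_mul,
        mul_assoc, eq_inv_mul_iff_mul_eq]
      exact e2
    have e4 : (QuotientGroup.mk (θ (g * pr L s (FreeGroup.of b)) * t ^ (-(i + φ b))) :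
        Hs ⧸ ι.range) = QuotientGroup.mk (θ g * t ^ (-i)) := by
      rw [e1]; exact QuotientGroup.mk_mul_of_mem _ ⟨_, rfl⟩
    refine ⟨e4, ?_⟩
    have e5 : cp (θ (g * pr L s (FreeGroup.of b)) * t ^ (-(i + φ b))) =
        cp (θ g * t ^ (-i)) * pm _ (FreeGroup.of y) := by
      apply a1
      rw [map_mul ι, hcp, hcp, e4, e1]; simp only [mul_assoc]
    rw [e5, map_mul, hj]; rfl
  · intro g g1 g2 i h
    rw [QuotientGroup.eq] at h ⊢
    simpa [mul_assoc] using h
  · intro g g1 g2 i h h'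
    have h3 : (QuotientGroup.mk (θ (g * g2) * t ^ (-i)) : Hs ⧸ ι.range) =
        QuotientGroup.mk (θ (g * g1) * t ^ (-i)) := by
      rw [QuotientGroup.eq] at h ⊢
      simpa [mul_assoc] using inv_mem h
    rw [← map_inv, ← map_inv, ← map_mul, ← map_mul]
    congr 1
    apply a1
    simp only [map_mul, map_inv, hcp]
    rw [← map_mul θ g g1, ← map_mul θ g g2, h3, h', ← h, map_mul, map_mul]
    group

theorem Desc.pre {Kt : Type} {κ : G1 L s → ℤ → Kt} {D : G1 L s → ℤ → G1 L (lf φ s)}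
    (h : Desc L s φ ε m M κ D)
    (hm : ∀ p, (s p).1 = ε → m ≤ hv φ (opre s p) ∧ hv φ (opre s p) ≤ M) (g : G1 L s) (p : ℕ) :
    κ (g * pr L s (pre s p)) (hv φ (pre s p)) = κ g 0 ∧
      D (g * pr L s (pre s p)) (hv φ (pre s p)) = D g 0 * pr L (lf φ s) (pre (lf φ s) p) := by
  induction p with
  | zero => simp
  | succ p ih =>
    have hb : (s p).1 ≠ ε ∨ (m ≤ hv φ (opre s p) ∧ hv φ (opre s p) ≤ M) := by
      by_cases e : (s p).1 = ε
      · exact Or.inr (hm p e)
      · exact Or.inl e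
    have h1 := h.d1 (g * pr L s (opre s p)) _ _ hb
    rw [mul_assoc, ← map_mul, ← hv_of φ (s p).1, ← hv_mul, opre_mul] at h1
    rw [pre_succ (lf φ s), map_mul, ← mul_assoc, ← ih.1, ← ih.2]
    cases hs : (s p).2
    · simp only [opre, hs, Bool.false_eq_true, if_false] at h1
      simp only [lf, hs, sg, Bool.false_eq_true, if_false, opre, map_inv]
      rw [h1.1, h1.2]; simp
    · simp only [opre, hs, if_true] at h1
      simp only [lf, hs, sg, if_true, opre]
      exact h1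

theorem Desc.opre {Kt : Type} {κ : G1 L s → ℤ → Kt} {D : G1 L s → ℤ → G1 L (lf φ s)}
    (h : Desc L s φ ε m M κ D)
    (hm : ∀ p, (s p).1 = ε → m ≤ hv φ (opre s p) ∧ hv φ (opre s p) ≤ M) (g : G1 L s) (p : ℕ) :
    κ (g * pr L s (opre s p)) (hv φ (opre s p)) = κ g 0 ∧
      D (g * pr L s (opre s p)) (hv φ (opre s p)) = D g 0 * pr L (lf φ s) (opre (lf φ s) p) := by
  unfold Pool.Agent.P.MP_caa3d2_al.opre
  have : (lf φ s p).2 = (s p).2 := rfl
  rw [this]
  split_ifs
  · exact h.pre hm g p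
  · exact h.pre hm g (p + 1)

theorem Per.pre_mul (hP : Per L s) (n : ℕ) : pre s (L * n) = pre s L ^ n := by
  induction n with
  | zero => simp
  | succ n ih => rw [Nat.mul_succ, hP.pre_add, ih, pow_succ']

theorem hv_pow (g : FreeGroup B) (n : ℕ) : hv φ (g ^ n) = n * hv φ g := by
  induction n with
  | zero => simp
  | succ n ih => rw [pow_succ, hv_mul, ih]; push_cast; ring

theorem hv_period (hL : 0 < L) (hP : Per L s) (h0 : hv φ (pre s L) = 0) {k : ℕ} (hk : Per k s) :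
    hv φ (pre s k) = 0 := by
  have h1 := hP.pre_mul k
  rw [Nat.mul_comm, hk.pre_mul] at h1
  have h2 := congrArg (hv φ) h1
  rw [hv_pow, hv_pow, h0, mul_zero] at h2
  exact (mul_eq_zero.1 h2).resolve_left (by omega)

theorem pre_ne_one (hL : 0 < L) : ∀ (B : Type) (s : ℕ → B × Bool), Per L s → Rd s →
    ∀ k, 0 < k → k < L → Per k s → pr L s (pre s k) ≠ 1 := by
  have key := hierarchy hL (fun B s => Rd s →
    ∀ k, 0 < k → k < L → Per k s → pr L s (pre s k) ≠ 1) ?_ ?_
  · exact fun B s h1 h2 => key B s h1 h2 h2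
  · intro B s hP _ hb _ k h1 h2 hk e
    classical
    let φ : B → ℤ := fun b => if b = (s 0).1 then (if (s 0).2 then 1 else -1) else 0
    have hs : ∀ n, hv φ (pre s (n + 1)) = hv φ (pre s n) + if (s n).1 = (s 0).1 then 1 else 0 := by
      intro n
      rw [pre_succ, hv_mul]
      congr 1
      by_cases h : (s n).1 = (s 0).1
      · have := hb n 0 h 0
        rw [Nat.add_zero, Nat.add_zero] at this
        rw [this]
        cases h' : (s 0).2 <;> simp [sg, φ, h']
      · cases (s n).2 <;> simp [sg, φ, h]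
    have hmono : Monotone fun n => hv φ (pre s n) :=
      monotone_nat_of_le_succ fun n => by rw [hs]; split_ifs <;> omega
    have c1 : 1 ≤ hv φ (pre s k) := by
      have := hmono (show 0 + 1 ≤ k by omega)
      simp only [hs] at this
      simpa using this
    have c2 : hv φ (pre s k) + 1 ≤ hv φ (pre s L) := by
      have := hmono (show k + 1 ≤ L by omega)
      have h3 := hk 0
      rw [Nat.zero_add] at h3
      simp only [hs, h3] at this
      simpa using this
    obtain ⟨N, hN⟩ : ∃ N : ℕ, hv φ (pre s L) = N := ⟨(hv φ (pre s L)).toNat, by omega⟩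
    let f : FreeGroup B →* Multiplicative (ZMod N) :=
      (AddMonoidHom.toMultiplicative (Int.castAddHom (ZMod N))).comp
        (FreeGroup.lift fun b => Multiplicative.ofAdd (φ b))
    have hf : ∀ g, f g = Multiplicative.ofAdd ((hv φ g : ℤ) : ZMod N) := fun g => rfl
    obtain ⟨G, hG⟩ := exists_lift (R := Rel L {s}) f (by
      rintro _ ⟨c, rfl, p, rfl⟩
      rw [hf, hP.mk_seg]; simp [hN])
    have := hG (pre s k)
    rw [show pm (Rel L {s}) (pre s k) = 1 from e, map_one, hf, eq_comm, ofAdd_eq_one,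
      ZMod.intCast_zmod_eq_zero_iff_dvd] at this
    have := Int.le_of_dvd (by omega) this
    omega
  · rintro B s hP _ φ - h0 ih hR k h1 h2 hk e
    obtain ⟨m, M, hmM, hm, a1, a2⟩ := exists_extreme hL hP h0 (ε := (s 0).1) ⟨0, rfl⟩
    obtain ⟨Kt, κ, D, hD⟩ := exists_desc hL hP hR h0 hmM hm a1 a2
    have h3 := hv_period hL hP h0 hk
    have h4 := (hD.pre hm 1 k).2
    rw [e, h3, mul_one] at h4
    exact ih (lf_rd hR) k h1 h2 (lf_per hk h3) (mul_eq_left.1 h4.symm)

end Pool.Agent.P.MP_caa3d2_al
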