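import Pool.Agent.P.MP_caa3d2_al.Words

/-!
Periodic sequences of letters, heights, and the induction principle of the hierarchy.
-/

set_option autoImplicit false

namespace Pool.Agent.P.MP_caa3d2_al

open FreeGroup hiding map_mul map_one map_inv

variable {E B : Type}

/-- Formal inverse of a signed letter. -/
def nv (x : E × Bool) : E × Bool := (x.1, !x.2)

@[simp] theorem nv_nv (x : E × Bool) : nv (nv x) = x := by simp [nv]

theorem nv_ne (x : E × Bool) : nv x ≠ x := by
  obtain ⟨e, b⟩ := x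
  cases b <;> simp [nv]

/-- `y` or its inverse. -/
def sg {G : Type*} [Group G] (y : G) (b : Bool) : G := if b then y else y⁻¹

theorem map_sg {G H : Type*} [Group G] [Group H] (f : G →* H) (y : G) (b : Bool) :
    f (sg y b) = sg (f y) b := by
  cases b <;> simp [sg]

theorem mk_single (x : E × Bool) : (mk [x] : FreeGroup E) = sg (FreeGroup.of x.1) x.2 := by
  obtain ⟨e, b⟩ := x
  cases b
  · simp only [sg, Bool.false_eq_true, if_false]
    rw [FreeGroup.of, inv_mk]; simp [invRev]
  · rfl

theorem mk_cons (x : E × Bool) (w : Wd E) :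
    (mk (x :: w) : FreeGroup E) = sg (FreeGroup.of x.1) x.2 * mk w := by
  rw [← mk_single, mul_mk]; rfl

/-- A segment of a sequence. -/
def seg (c : ℕ → E × Bool) (p n : ℕ) : Wd E := (List.range n).map fun q => c (p + q)

@[simp] theorem seg_length (c : ℕ → E × Bool) (p n : ℕ) : (seg c p n).length = n := by
  simp [seg]

@[simp] theorem seg_zero (c : ℕ → E × Bool) (p : ℕ) : seg c p 0 = [] := rfl

theorem seg_succ (c : ℕ → E × Bool) (p n : ℕ) : seg c p (n + 1) = seg c p n ++ [c (p + n)] := by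
  simp [seg, List.range_succ]

theorem seg_add (c : ℕ → E × Bool) (p n m : ℕ) :
    seg c p (n + m) = seg c p n ++ seg c (p + n) m := by
  induction m with
  | zero => simp
  | succ m ih => rw [← Nat.add_assoc, seg_succ, ih, seg_succ, List.append_assoc, Nat.add_assoc p]

theorem seg_succ' (c : ℕ → E × Bool) (p n : ℕ) : seg c p (n + 1) = c p :: seg c (p + 1) n := by
  rw [Nat.add_comm n 1, seg_add]; rfl

theorem mem_seg {c : ℕ → E × Bool} {p n : ℕ} {x : E × Bool} :
    x ∈ seg c p n ↔ ∃ q < n, c (p + q) = x := by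
  simp [seg]

theorem seg_congr {c c' : ℕ → E × Bool} {p p' n : ℕ} (h : ∀ q < n, c (p + q) = c' (p' + q)) :
    seg c p n = seg c' p' n := by
  unfold seg
  exact List.map_congr_left fun q hq => h q (List.mem_range.1 hq)

theorem seg_map {E' : Type} (c : ℕ → E × Bool) (f : E × Bool → E' × Bool) (p n : ℕ) :
    (seg c p n).map f = seg (fun q => f (c q)) p n := by
  simp [seg]

/-- The product of the first `n` letters. -/
def pre (c : ℕ → E × Bool) (n : ℕ) : FreeGroup E := mk (seg c 0 n)

@[simp] theorem pre_zero (c : ℕ → E × Bool) : pre c 0 = 1 := rfl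

theorem pre_succ (c : ℕ → E × Bool) (n : ℕ) :
    pre c (n + 1) = pre c n * sg (FreeGroup.of (c n).1) (c n).2 := by
  rw [pre, seg_succ, ← mul_mk, mk_single, Nat.zero_add]; rfl

theorem pre_add (c : ℕ → E × Bool) (p n : ℕ) : pre c (p + n) = pre c p * mk (seg c p n) := by
  rw [pre, seg_add, ← mul_mk, Nat.zero_add]; rfl

/-- The position of the origin of the edge number `p`. -/
def opre (c : ℕ → E × Bool) (p : ℕ) : FreeGroup E := if (c p).2 then pre c p else pre c (p + 1)

/-- The position of the terminus of the edge number `p`. -/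
theorem opre_mul (c : ℕ → E × Bool) (p : ℕ) :
    opre c p * FreeGroup.of (c p).1 = if (c p).2 then pre c (p + 1) else pre c p := by
  unfold opre
  rw [pre_succ]
  cases (c p).2 <;> simp [sg]

/-- Periodicity. -/
def Per (L : ℕ) (c : ℕ → E × Bool) : Prop := ∀ p, c (p + L) = c p

theorem Per.mul {L : ℕ} {c : ℕ → E × Bool} (h : Per L c) (p k : ℕ) : c (p + L * k) = c p := by
  induction k with
  | zero => rfl
  | succ k ih => rw [Nat.mul_succ, ← Nat.add_assoc, h, ih]

theorem Per.mod {L : ℕ} {c : ℕ → E × Bool} (h : Per L c) (p : ℕ) : c (p % L) = c p := by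
  conv_rhs => rw [← Nat.mod_add_div p L]
  rw [h.mul]

theorem Per.pre_add {L : ℕ} {c : ℕ → E × Bool} (h : Per L c) (p : ℕ) :
    pre c (p + L) = pre c L * pre c p := by
  rw [Nat.add_comm, Pool.Agent.P.MP_caa3d2_al.pre_add]
  congr 2
  exact seg_congr fun q _ => by rw [Nat.add_comm L, h, Nat.zero_add]

theorem Per.opre_add {L : ℕ} {c : ℕ → E × Bool} (h : Per L c) (p : ℕ) :
    opre c (p + L) = pre c L * opre c p := by
  unfold opre
  rw [h p]
  split_ifs
  · exact h.pre_add p
  · rw [show p + L + 1 = p + 1 + L by omega]; exact h.pre_add _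

theorem Per.mk_seg {L : ℕ} {c : ℕ → E × Bool} (h : Per L c) (p : ℕ) :
    mk (seg c p L) = (pre c p)⁻¹ * pre c L * pre c p := by
  rw [mul_assoc, ← h.pre_add, Pool.Agent.P.MP_caa3d2_al.pre_add]; simp

/-- No cancellation between consecutive letters. -/
def Rd (c : ℕ → E × Bool) : Prop := ∀ p, c (p + 1) ≠ nv (c p)

/-- The homomorphism to the integers given by weights of the letters. -/
def hv (φ : B → ℤ) (g : FreeGroup B) : ℤ :=
  Multiplicative.toAdd (FreeGroup.lift (fun b => Multiplicative.ofAdd (φ b)) g)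

@[simp] theorem hv_one (φ : B → ℤ) : hv φ 1 = 0 := by simp [hv]
@[simp] theorem hv_mul (φ : B → ℤ) (g h : FreeGroup B) : hv φ (g * h) = hv φ g + hv φ h := by
  simp [hv]
@[simp] theorem hv_inv (φ : B → ℤ) (g : FreeGroup B) : hv φ g⁻¹ = - hv φ g := by simp [hv]
@[simp] theorem hv_of (φ : B → ℤ) (b : B) : hv φ (FreeGroup.of b) = φ b := by simp [hv]

theorem hv_lin (φ ψ : B → ℤ) (u v : ℤ) (g : FreeGroup B) :
    hv (fun b => u * φ b - v * ψ b) g = u * hv φ g - v * hv ψ g := by
  induction g using FreeGroup.induction_on with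
  | C1 => simp
  | of b => simp
  | inv_of b ih => simp; ring
  | mul x y hx hy => simp [hx, hy]; ring

/-- The lifted sequence in the infinite cyclic cover. -/
def lf (φ : B → ℤ) (s : ℕ → B × Bool) (p : ℕ) : (B × ℤ) × Bool :=
  (((s p).1, hv φ (opre s p)), (s p).2)

theorem lf_per {L : ℕ} {φ : B → ℤ} {s : ℕ → B × Bool} (h : Per L s) (h0 : hv φ (pre s L) = 0) :
    Per L (lf φ s) := by
  intro p
  simp [lf, h p, h.opre_add, h0]

theorem lf_rd {φ : B → ℤ} {s : ℕ → B × Bool} (h : Rd s) : Rd (lf φ s) := by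
  intro p hp
  apply h p
  simp only [lf, nv, Prod.mk.injEq] at hp
  exact Prod.ext hp.1.1 hp.2

/-- The terminal case of the hierarchy: a letter determines the future. -/
def Base (s : ℕ → B × Bool) : Prop := ∀ p q, (s p).1 = (s q).1 → ∀ k, s (p + k) = s (q + k)

/-- The set of letters. -/
def lets (s : ℕ → B × Bool) : Set B := Set.range fun p => (s p).1

theorem lets_eq {L : ℕ} (hL : 0 < L) {s : ℕ → B × Bool} (h : Per L s) :
    lets s = (fun p => (s p).1) '' Set.Iio L := by
  ext b
  constructor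
  · rintro ⟨p, rfl⟩
    exact ⟨p % L, Nat.mod_lt _ hL, by simp only [h.mod]⟩
  · rintro ⟨p, _, rfl⟩
    exact ⟨p, rfl⟩

theorem lets_finite {L : ℕ} (hL : 0 < L) {s : ℕ → B × Bool} (h : Per L s) : (lets s).Finite := by
  rw [lets_eq hL h]; exact (Set.finite_Iio L).image _

theorem nl_le {L : ℕ} (hL : 0 < L) {s : ℕ → B × Bool} (h : Per L s) : (lets s).ncard ≤ L := by
  rw [lets_eq hL h]
  refine (Set.ncard_image_le (Set.finite_Iio L)).trans ?_
  simp

theorem nl_lt {L : ℕ} (hL : 0 < L) {φ : B → ℤ} {s : ℕ → B × Bool} (h : Per L s)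
    (h0 : hv φ (pre s L) = 0) {p q : ℕ} (h1 : (s p).1 = (s q).1)
    (h2 : hv φ (opre s p) ≠ hv φ (opre s q)) : (lets s).ncard < (lets (lf φ s)).ncard := by
  have hf := lets_finite hL (lf_per h h0)
  have key : lets s = Prod.fst '' lets (lf φ s) := by
    unfold lets
    rw [← Set.range_comp]; rfl
  rw [key]
  refine (Set.ncard_image_le hf).lt_of_ne fun he => ?_
  have hi := (Set.ncard_image_iff hf).1 he
  have := hi ⟨p, rfl⟩ ⟨q, rfl⟩ h1
  exact h2 (congrArg Prod.snd this)

end Pool.Agent.P.MP_caa3d2_al
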