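import Pool.Agent.P.MP_caa3d2_al.Pinch

/-!
The inductive step of the hierarchy: embedding into an HNN extension.
-/

set_option autoImplicit false

namespace Pool.Agent.P.MP_caa3d2_al

open FreeGroup hiding map_mul map_one map_inv

variable {E B : Type}

/-- Edges of the vertex space in the infinite cyclic cover. -/
abbrev E1 (lab : E → B) (ε : B) (m M : ℤ) : Type :=
  {x : E × ℤ // lab x.1 ≠ ε ∨ (m ≤ x.2 ∧ x.2 ≤ M)}

/-- Edges of the edge space in the infinite cyclic cover. -/
abbrev E0 (lab : E → B) (ε : B) (m M : ℤ) : Type :=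
  {x : E × ℤ // lab x.1 ≠ ε ∨ (m ≤ x.2 ∧ x.2 < M)}

/-- Labels in the cover. -/
def lab1 {lab : E → B} {ε : B} {m M : ℤ} (x : E1 lab ε m M) : B × ℤ := (lab x.1.1, x.1.2)

/-- First inclusion of the edge space. -/
def al {lab : E → B} {ε : B} {m M : ℤ} (x : E0 lab ε m M) : E1 lab ε m M :=
  ⟨x.1, x.2.imp id fun h => ⟨h.1, h.2.le⟩⟩

/-- Second inclusion of the edge space. -/
def be {lab : E → B} {ε : B} {m M : ℤ} (x : E0 lab ε m M) : E1 lab ε m M :=
  ⟨(x.1.1, x.1.2 + 1), x.2.imp id fun h => ⟨by have := h.1; dsimp only; omega,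
    by have := h.2; dsimp only; omega⟩⟩

theorem al_injective {lab : E → B} {ε : B} {m M : ℤ} :
    Function.Injective (al : E0 lab ε m M → _) :=
  fun _ _ h => Subtype.ext (congrArg (fun x : E1 lab ε m M => x.1) h)

theorem be_injective {lab : E → B} {ε : B} {m M : ℤ} :
    Function.Injective (be : E0 lab ε m M → _) := by
  intro x y h
  have := congrArg Subtype.val h
  simp only [be, Prod.mk.injEq, add_left_inj] at this
  exact Subtype.ext (Prod.ext this.1 this.2)

/-- Lifted cells. -/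
def Cs1 (φ : B → ℤ) (s : ℕ → B × Bool) (lab : E → B) (ε : B) (m M : ℤ)
    (Cs : Set (ℕ → E × Bool)) : Set (ℕ → E1 lab ε m M × Bool) :=
  {c' | ∃ c ∈ Cs, ∀ p, (c' p).1.1 = ((c p).1, hv φ (opre s p)) ∧ (c' p).2 = (c p).2}

/-- Projection of words. -/
def pj {lab : E → B} {ε : B} {m M : ℤ} (w : Wd (E1 lab ε m M)) : Wd E :=
  w.map fun x => (x.1.1.1, x.2)

section

variable {L : ℕ} {s : ℕ → B × Bool} {lab : E → B} {Cs : Set (ℕ → E × Bool)} {φ : B → ℤ} {ε : B}
  {m M : ℤ}

theorem pj_append (a b : Wd (E1 lab ε m M)) : pj (a ++ b) = pj a ++ pj b := by simp [pj]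

theorem Cx.lift (h : Cx L s lab Cs) (hP : Per L s) (h0 : hv φ (pre s L) = 0) :
    Cx L (lf φ s) lab1 (Cs1 φ s lab ε m M Cs) where
  per := by
    rintro c' ⟨c, hc, h1⟩ p
    refine Prod.ext (Subtype.ext ?_) ?_
    · rw [(h1 _).1, (h1 _).1, h.per c hc, hP.opre_add]; simp [h0]
    · rw [(h1 _).2, (h1 _).2, h.per c hc]
  fst := by
    rintro c' ⟨c, hc, h1⟩ p
    simp only [lab1, (h1 p).1, lf, h.fst c hc]
  snd := by
    rintro c' ⟨c, hc, h1⟩ p
    simp only [(h1 p).2, lf, h.snd c hc]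
  det := by
    rintro c' ⟨c, hc, h1⟩ d' ⟨d, hd, h2⟩ p p' e1 e2
    simp only [lf, Prod.mk.injEq] at e2
    have e3 : c p = d p' := by
      have a1 := congrArg (fun x => x.1.1) e1
      have a2 := congrArg Prod.snd e1
      simp only [(h1 p).1, (h2 p').1, Prod.mk.injEq] at a1
      rw [(h1 p).2, (h2 p').2] at a2
      exact Prod.ext a1.1 a2
    have e4 := h.det c hc d hd p p' e3 (Prod.ext e2.1.1 e2.2)
    refine Prod.ext (Subtype.ext ?_) ?_
    · rw [(h1 _).1, (h2 _).1, e4, e2.1.2]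
    · rw [(h1 _).2, (h2 _).2, e4]

theorem NW.lift (h : NW L Cs) : NW L (Cs1 φ s lab ε m M Cs) := by
  rintro c' ⟨c, hc, h1⟩ k h2 h3 h4
  apply h c hc k h2 h3
  intro q
  have a1 := congrArg (fun x => x.1.1) (h4 q)
  have a2 := congrArg Prod.snd (h4 q)
  simp only [(h1 _).1, Prod.mk.injEq] at a1
  rw [(h1 _).2, (h1 _).2] at a2
  exact Prod.ext a1.1 a2

theorem Cx.exists_lift (h : Cx L s lab Cs)
    (hm : ∀ p, (s p).1 = ε → m ≤ hv φ (opre s p) ∧ hv φ (opre s p) ≤ M) {c : ℕ → E × Bool}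
    (hc : c ∈ Cs) : ∃ c' ∈ Cs1 φ s lab ε m M Cs,
      ∀ p, (c' p).1.1 = ((c p).1, hv φ (opre s p)) ∧ (c' p).2 = (c p).2 := by
  have : ∀ p, lab (c p).1 ≠ ε ∨ (m ≤ hv φ (opre s p) ∧ hv φ (opre s p) ≤ M) := fun p => by
    by_cases e : (s p).1 = ε
    · exact Or.inr (hm p e)
    · exact Or.inl (by rw [h.fst c hc]; exact e)
  exact ⟨fun p => (⟨((c p).1, hv φ (opre s p)), this p⟩, (c p).2), ⟨c, hc, fun p => ⟨rfl, rfl⟩⟩,
    fun p => ⟨rfl, rfl⟩⟩

theorem der_pj {n : ℕ} {w w' : Wd (E1 lab ε m M)}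
    (h : Der (Rel L (Cs1 φ s lab ε m M Cs)) n w w') : Der (Rel L Cs) n (pj w) (pj w') := by
  have key : ∀ x ∈ Rel L (Cs1 φ s lab ε m M Cs), pj x ∈ Rel L Cs := by
    rintro _ ⟨c', ⟨c, hc, h1⟩, p, rfl⟩
    refine ⟨c, hc, p, ?_⟩
    rw [pj, seg_map]
    exact seg_congr fun q _ => by rw [(h1 _).1, (h1 _).2]
  refine h.hom pj pj_append fun x hx => Or.inl ?_
  rcases hx with ⟨e, b, rfl⟩ | hx | hx
  · exact Or.inl ⟨e.1.1, b, rfl⟩
  · exact Or.inr (Or.inl (key _ hx))
  · refine Or.inr (Or.inr ?_)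
    have := key _ hx
    simpa [pj, invRev, Function.comp_def] using this

theorem fs_injective {R : Set (Wd E)} {S : Set E} (h : FS R S) {T : Type} (a : T → E)
    (ha : Function.Injective a) (hS : ∀ x, a x ∈ S) :
    Function.Injective ((pm R).comp (FreeGroup.map a)) := by
  rw [injective_iff_map_eq_one]
  intro y hy
  have h1 : FreeGroup.map a y ∈ Subgroup.closure (FreeGroup.of '' S) := by
    have : FreeGroup.map a y ∈ (FreeGroup.map a).range := ⟨y, rfl⟩
    rw [range_map] at this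
    exact Subgroup.closure_mono (Set.image_mono (by rintro _ ⟨x, rfl⟩; exact hS x)) this
  exact FreeGroup.map_injective ha ((h _ h1 hy).trans (map_one _).symm)

variable {Hs : Type} [Group Hs]

open Classical in
/-- The base height of an edge. -/
noncomputable def b0 (lab : E → B) (ε : B) (m : ℤ) (e : E) : ℤ := if lab e = ε then m else 0

theorem b0_al (hmM : m ≤ M) (e : E) :
    lab (e, b0 lab ε m e).1 ≠ ε ∨ (m ≤ (e, b0 lab ε m e).2 ∧ (e, b0 lab ε m e).2 ≤ M) := by
  by_cases h : lab e = ε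
  · right; simp [b0, h, hmM]
  · exact Or.inl h

/-- The image of an edge of the cover in the HNN extension. -/
noncomputable def br (hmM : m ≤ M) (κ : FreeGroup (E1 lab ε m M) →* Hs) (t : Hs) (e : E) (j : ℤ) :
    Hs :=
  t ^ (j - b0 lab ε m e) * κ (FreeGroup.of ⟨(e, b0 lab ε m e), b0_al hmM e⟩) *
    t ^ (-(j - b0 lab ε m e))

variable (hmM : m ≤ M) (κ : FreeGroup (E1 lab ε m M) →* Hs) (t : Hs)

theorem br_shift (e : E) (i j : ℤ) : t ^ i * br hmM κ t e j = br hmM κ t e (j + i) * t ^ i := by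
  unfold br
  rw [show j + i - b0 lab ε m e = i + (j - b0 lab ε m e) by ring]
  group

theorem br_al (ht : ∀ x, t * κ (FreeGroup.of (al x)) = κ (FreeGroup.of (be x)) * t)
    (x : E1 lab ε m M) : br hmM κ t x.1.1 x.1.2 = κ (FreeGroup.of x) := by
  obtain ⟨⟨e, j⟩, hx⟩ := x
  have st : ∀ (j : ℤ) (h : lab e ≠ ε ∨ (m ≤ j ∧ j < M)),
      (br hmM κ t e j = κ (FreeGroup.of (al ⟨(e, j), h⟩)) ↔
        br hmM κ t e (j + 1) = κ (FreeGroup.of (be ⟨(e, j), h⟩))) := by
    intro j h
    have h1 := br_shift hmM κ t e 1 j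
    have h2 := ht ⟨(e, j), h⟩
    rw [zpow_one] at h1
    constructor
    · intro h3
      rw [h3, h2] at h1
      exact (mul_right_cancel h1).symm
    · intro h3
      rw [h3, ← h2] at h1
      exact mul_left_cancel h1
  have z : br hmM κ t e (b0 lab ε m e) = κ (FreeGroup.of ⟨(e, b0 lab ε m e), b0_al hmM e⟩) := by
    simp [br]
  by_cases he : lab e = ε
  · have hx' := hx.resolve_left (not_not.2 he)
    have hb : b0 lab ε m e = m := by simp [b0, he]
    have : ∀ j (h1 : m ≤ j) (h2 : j ≤ M),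
        br hmM κ t e j = κ (FreeGroup.of ⟨(e, j), Or.inr ⟨h1, h2⟩⟩) := by
      intro j h1
      induction j, h1 using Int.leInduction with
      | base => intro h2; convert z <;> exact hb.symm
      | succ n hn ih =>
        intro h2
        exact (st n (Or.inr ⟨hn, by omega⟩)).1 (ih (by omega))
    exact this j hx'.1 hx'.2
  · have hb : b0 lab ε m e = 0 := by simp [b0, he]
    have : ∀ j, br hmM κ t e j = κ (FreeGroup.of ⟨(e, j), Or.inl he⟩) := by
      intro j
      induction j using Int.induction_on with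
      | zero => convert z <;> exact hb.symm
      | succ n ih => exact (st n (Or.inl he)).1 ih
      | pred n ih =>
        refine (st (-n - 1) (Or.inl he)).2 ?_
        rw [show (-(n : ℤ) - 1 + 1) = -n by ring, ih]
        congr 3
        simp
    exact this j

/-- The embedding into the HNN extension, on the free group. -/
noncomputable def th (φ : B → ℤ) : FreeGroup E →* Hs :=
  FreeGroup.lift fun e => br hmM κ t e 0 * t ^ φ (lab e)

theorem th_letter (e : E) (b : Bool) (j : ℤ) :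
    t ^ j * th hmM κ t φ (sg (FreeGroup.of e) b) =
      sg (br hmM κ t e (if b then j else j - φ (lab e))) b *
        t ^ (j + hv (φ ∘ lab) (sg (FreeGroup.of e) b)) := by
  cases b
  · simp only [sg, Bool.false_eq_true, if_false, map_inv, th, lift_apply_of, hv_inv, hv_of,
      Function.comp_apply]
    have := br_shift hmM κ t e (j - φ (lab e)) 0
    rw [zero_add] at this
    rw [← sub_eq_add_neg, eq_inv_mul_iff_mul_eq, mul_inv_rev, ← mul_assoc, ← mul_assoc,
      ← zpow_neg, mul_assoc (br hmM κ t e _), ← zpow_add, ← sub_eq_add_neg, ← this]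
    simp
  · simp only [sg, if_true, th, lift_apply_of, hv_of, Function.comp_apply]
    have := br_shift hmM κ t e j 0
    rw [zero_add] at this
    rw [← mul_assoc, this, mul_assoc, ← zpow_add]

theorem hv_comp (g : FreeGroup E) : hv (φ ∘ lab) g = hv φ (FreeGroup.map lab g) := by
  induction g using FreeGroup.induction_on with
  | C1 => simp
  | of b => simp
  | inv_of b ih => simp
  | mul x y hx hy => simp [hx, hy]

theorem cx_map_seg (h : Cx L s lab Cs) {c : ℕ → E × Bool} (hc : c ∈ Cs) (p n : ℕ) :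
    FreeGroup.map lab (mk (seg c p n)) = mk (seg s p n) := by
  rw [map.mk, seg_map]
  exact congrArg _ (seg_congr fun q _ => by rw [h.fst c hc, h.snd c hc])

theorem th_pre (ht : ∀ x, t * κ (FreeGroup.of (al x)) = κ (FreeGroup.of (be x)) * t)
    (h : Cx L s lab Cs) {c : ℕ → E × Bool} (hc : c ∈ Cs) {c' : ℕ → E1 lab ε m M × Bool}
    (h1 : ∀ p, (c' p).1.1 = ((c p).1, hv φ (opre s p)) ∧ (c' p).2 = (c p).2) (n : ℕ) :
    th hmM κ t φ (pre c n) = κ (pre c' n) * t ^ hv φ (pre s n) := by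
  induction n with
  | zero => simp
  | succ n ih =>
    rw [pre_succ, map_mul, ih, mul_assoc, th_letter, pre_succ c', map_mul, map_sg,
      ← br_al hmM κ t ht, (h1 n).1, (h1 n).2, mul_assoc, pre_succ s, hv_mul, hv_comp, map_sg,
      map.of, h.fst c hc, h.snd c hc]
    congr 4
    unfold opre
    rw [pre_succ]
    cases (s n).2 <;> simp [sg, sub_eq_add_neg]

theorem th_word (ht : ∀ x, t * κ (FreeGroup.of (al x)) = κ (FreeGroup.of (be x)) * t)
    {S : Set E} (hS : S ⊆ {e | lab e ≠ ε}) (u : Wd E) (hu : Over S u) (j : ℤ) :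
    ∃ u' : Wd (E1 lab ε m M), Over {x | x.1.1 ∈ S} u' ∧ pj u' = u ∧
      t ^ j * th hmM κ t φ (mk u) = κ (mk u') * t ^ (j + hv (φ ∘ lab) (mk u)) := by
  induction u generalizing j with
  | nil => exact ⟨[], by intro x hx; simp at hx, rfl, by simp [← one_eq_mk]⟩
  | cons x u ih =>
    obtain ⟨u', a1, a2, a3⟩ := ih (fun y hy => hu y (by simp [hy]))
      (j + hv (φ ∘ lab) (sg (FreeGroup.of x.1) x.2))
    have hx : x.1 ∈ S := hu x (by simp)
    let y : E1 lab ε m M := ⟨(x.1, if x.2 then j else j - φ (lab x.1)), Or.inl (hS hx)⟩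
    refine ⟨(y, x.2) :: u', ?_, ?_, ?_⟩
    · intro z hz
      rcases List.mem_cons.1 hz with rfl | hz
      · exact hx
      · exact a1 z hz
    · rw [← a2]; rfl
    · rw [mk_cons, map_mul, ← mul_assoc, th_letter, mul_assoc, a3, mk_cons, map_mul, map_sg,
        ← br_al hmM κ t ht, hv_mul, mul_assoc, add_assoc]

theorem th_mixed {Φ : ℕ} (hΦ : ∀ b, (φ b).natAbs ≤ Φ) (w : Wd E) :
    ∃ W : MW (E1 lab ε m M), mval κ t W = th hmM κ t φ (mk w) ∧ pj (mlw W) = w ∧
      mnt W ≤ (2 * m.natAbs + Φ) * w.length ∧ (hv (φ ∘ lab) (mk w)).natAbs ≤ Φ * w.length := by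
  induction w with
  | nil => exact ⟨[], by simp [← one_eq_mk], rfl, by simp, by simp [← one_eq_mk]⟩
  | cons x w ih =>
    obtain ⟨W, a1, a2, a3, a4⟩ := ih
    obtain ⟨e, b⟩ := x
    have hb : (b0 lab ε m e).natAbs ≤ m.natAbs := by unfold b0; split_ifs <;> simp
    have h1 := hΦ (lab e)
    let y : E1 lab ε m M := ⟨(e, b0 lab ε m e), b0_al hmM e⟩
    cases b
    · refine ⟨tp (-(b0 lab ε m e + φ (lab e))) ++ Sum.inl (y, false) :: (tp (b0 lab ε m e) ++ W),
        ?_, ?_, ?_, ?_⟩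
      · rw [mval_append, mval_inl, mval_append, mval_tp, mval_tp, a1, mk_cons, mk_cons]
        simp only [sg, Bool.false_eq_true, if_false, map_inv, map_mul, th, lift_apply_of, br,
          ← one_eq_mk, mul_one, y]
        group
      · simp only [mlw_append, mlw_tp, mlw_inl, List.nil_append]; rw [← a2]; rfl
      · simp only [mnt_append, mnt_tp, mnt_inl, List.length_cons, Nat.mul_succ]; omega
      · rw [mk_cons, hv_mul]
        simp only [sg, Bool.false_eq_true, if_false, hv_inv, hv_of, Function.comp_apply,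
          List.length_cons, Nat.mul_succ]
        omega
    · refine ⟨tp (-(b0 lab ε m e)) ++ Sum.inl (y, true) :: (tp (b0 lab ε m e + φ (lab e)) ++ W),
        ?_, ?_, ?_, ?_⟩
      · rw [mval_append, mval_inl, mval_append, mval_tp, mval_tp, a1, mk_cons, mk_cons]
        simp only [sg, if_true, map_mul, th, lift_apply_of, br, ← one_eq_mk, mul_one, y]
        group
      · simp only [mlw_append, mlw_tp, mlw_inl, List.nil_append]; rw [← a2]; rfl
      · simp only [mnt_append, mnt_tp, mnt_inl, List.length_cons, Nat.mul_succ]; omega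
      · rw [mk_cons, hv_mul]
        simp only [sg, if_true, hv_of, Function.comp_apply, List.length_cons, Nat.mul_succ]
        omega

end

end Pool.Agent.P.MP_caa3d2_al
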