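import Pool.Agent.P.MP_caa3d2_al.Rose

/-!
The Cayley tree of a free group: integration of edge functions, invariant subforests.
-/

set_option autoImplicit false

namespace Pool.Agent.P.MP_caa3d2_al

open FreeGroup hiding map_mul map_one map_inv

variable {A : Type}

theorem ind_right {P : FreeGroup A → Prop} (h1 : P 1)
    (h2 : ∀ g a, P g ↔ P (g * FreeGroup.of a)) (g : FreeGroup A) : P g := by
  obtain ⟨w⟩ := g
  change P (mk w)
  induction w using List.reverseRecOn with
  | nil => exact h1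
  | append_singleton w x ih =>
    rw [← mul_mk, mk_single]
    obtain ⟨a, b⟩ := x
    cases b
    · rw [h2 _ a]; simpa [sg] using ih
    · exact (h2 _ a).1 ih

theorem exists_integ {G : Type} [Group G] (β : FreeGroup A → A → G) :
    ∃ f : FreeGroup A → G, f 1 = 1 ∧ ∀ g a, f (g * FreeGroup.of a) = f g * β g a := by
  let σ : A → Equiv.Perm (FreeGroup A × G) := fun a =>
    { toFun := fun x => (x.1 * FreeGroup.of a, x.2 * β x.1 a)
      invFun := fun x => (x.1 * (FreeGroup.of a)⁻¹, x.2 * (β (x.1 * (FreeGroup.of a)⁻¹) a)⁻¹)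
      left_inv := fun x => by simp
      right_inv := fun x => by simp }
  let Ψ : FreeGroup A →* Equiv.Perm (FreeGroup A × G) := FreeGroup.lift fun a => (σ a)⁻¹
  have h : ∀ g a, (Ψ (g * FreeGroup.of a))⁻¹ (1, 1) = σ a ((Ψ g)⁻¹ (1, 1)) := by
    intro g a
    simp [Ψ]
  have h1 : ∀ g, ((Ψ g)⁻¹ (1, 1)).1 = g := by
    intro g
    induction g using ind_right with
    | h1 => simp
    | h2 g a => rw [h]; simp [σ]
  refine ⟨fun g => ((Ψ g)⁻¹ (1, 1)).2, by simp, fun g a => ?_⟩
  simp only [h]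
  show _ * β _ a = _
  rw [h1]

/-- The integral of an edge function along the geodesic from the identity. -/
noncomputable def integ {G : Type} [Group G] (β : FreeGroup A → A → G) : FreeGroup A → G :=
  (exists_integ β).choose

section
variable {G : Type} [Group G] (β : FreeGroup A → A → G)

@[simp] theorem integ_one : integ β 1 = 1 := (exists_integ β).choose_spec.1

theorem integ_of (g : FreeGroup A) (a : A) :
    integ β (g * FreeGroup.of a) = integ β g * β g a := (exists_integ β).choose_spec.2 g a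

theorem integ_unique (f : FreeGroup A → G) (hf : ∀ g a, f (g * FreeGroup.of a) = f g * β g a)
    (g : FreeGroup A) : f g = f 1 * integ β g := by
  induction g using ind_right with
  | h1 => simp
  | h2 g a => rw [hf, integ_of, ← mul_assoc, mul_left_inj]

theorem integ_mul {n : FreeGroup A} (hn : ∀ g a, β (n * g) a = β g a) (g : FreeGroup A) :
    integ β (n * g) = integ β n * integ β g := by
  have := integ_unique β (fun g => integ β (n * g))
    (fun g a => by rw [← mul_assoc, integ_of, hn]) g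
  simpa using this

theorem integ_pre (c : FreeGroup A) (s : ℕ → A × Bool) (p : ℕ) :
    integ β (c * pre s (p + 1)) =
      integ β (c * pre s p) * sg (β (c * opre s p) (s p).1) (s p).2 := by
  have h1 := integ_of β (c * opre s p) (s p).1
  rw [mul_assoc, opre_mul] at h1
  unfold opre at h1 ⊢
  cases hs : (s p).2
  · simp only [hs, Bool.false_eq_true, if_false] at h1 ⊢
    rw [h1]; simp [sg]
  · simp only [hs, if_true] at h1 ⊢
    exact h1

end

/-- Additive version of the integral. -/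
noncomputable def intA {V : Type} [AddCommGroup V] (α : FreeGroup A → A → V) (g : FreeGroup A) :
    V :=
  Multiplicative.toAdd (integ (fun g a => Multiplicative.ofAdd (α g a)) g)

section
variable {V : Type} [AddCommGroup V] (α : FreeGroup A → A → V)

@[simp] theorem intA_one : intA α 1 = 0 := by simp [intA]

theorem intA_of (g : FreeGroup A) (a : A) :
    intA α (g * FreeGroup.of a) = intA α g + α g a := by simp [intA, integ_of]

theorem intA_unique (f : FreeGroup A → V) (hf : ∀ g a, f (g * FreeGroup.of a) = f g + α g a)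
    (g : FreeGroup A) : f g = f 1 + intA α g := by
  induction g using ind_right with
  | h1 => simp
  | h2 g a => rw [hf, intA_of, ← add_assoc, add_left_inj]

theorem intA_mul {n : FreeGroup A} (hn : ∀ g a, α (n * g) a = α g a) (g : FreeGroup A) :
    intA α (n * g) = intA α n + intA α g := by
  have := intA_unique α (fun g => intA α (n * g))
    (fun g a => by rw [← mul_assoc, intA_of, hn]) g
  simpa using this

theorem intA_pre (c : FreeGroup A) (s : ℕ → A × Bool) (p : ℕ) :
    intA α (c * pre s (p + 1)) = intA α (c * pre s p) +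
      if (s p).2 then α (c * opre s p) (s p).1 else - α (c * opre s p) (s p).1 := by
  unfold intA
  rw [integ_pre]
  cases (s p).2 <;> simp [sg]

end

/-- Adjacency along an edge of `S`. -/
def Adj (S : Set (FreeGroup A × A)) (g g' : FreeGroup A) : Prop :=
  ∃ a, ((g, a) ∈ S ∧ g' = g * FreeGroup.of a) ∨ ((g', a) ∈ S ∧ g = g' * FreeGroup.of a)

/-- Connectedness in the subforest `S`. -/
def Cn (S : Set (FreeGroup A × A)) : FreeGroup A → FreeGroup A → Prop :=
  Relation.ReflTransGen (Adj S)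

/-- Invariance of a set of edges. -/
def InvS (N : Subgroup (FreeGroup A)) (S : Set (FreeGroup A × A)) : Prop :=
  ∀ n ∈ N, ∀ g a, (g, a) ∈ S → (n * g, a) ∈ S

variable {S S' : Set (FreeGroup A × A)} {N : Subgroup (FreeGroup A)}

theorem Adj.symm {g g' : FreeGroup A} (h : Adj S g g') : Adj S g' g := by
  obtain ⟨a, h | h⟩ := h
  · exact ⟨a, Or.inr h⟩
  · exact ⟨a, Or.inl h⟩

theorem Cn.rfl {g : FreeGroup A} : Cn S g g := Relation.ReflTransGen.refl

theorem Cn.trans {g g' g'' : FreeGroup A} (h : Cn S g g') (h' : Cn S g' g'') : Cn S g g'' :=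
  Relation.ReflTransGen.trans h h'

theorem Adj.cn {g g' : FreeGroup A} (h : Adj S g g') : Cn S g g' := Relation.ReflTransGen.single h

theorem Cn.symm {g g' : FreeGroup A} (h : Cn S g g') : Cn S g' g := by
  induction h with
  | refl => exact Cn.rfl
  | tail _ h ih => exact h.symm.cn.trans ih

theorem Adj.mono (hS : S ⊆ S') {g g' : FreeGroup A} (h : Adj S g g') : Adj S' g g' := by
  obtain ⟨a, h | h⟩ := h
  · exact ⟨a, Or.inl ⟨hS h.1, h.2⟩⟩
  · exact ⟨a, Or.inr ⟨hS h.1, h.2⟩⟩

theorem Cn.mono (hS : S ⊆ S') {g g' : FreeGroup A} (h : Cn S g g') : Cn S' g g' := by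
  induction h with
  | refl => exact Cn.rfl
  | tail _ h ih => exact ih.trans (h.mono hS).cn

theorem Adj.smul (hS : InvS N S) {n : FreeGroup A} (hn : n ∈ N) {g g' : FreeGroup A}
    (h : Adj S g g') : Adj S (n * g) (n * g') := by
  obtain ⟨a, h | h⟩ := h
  · exact ⟨a, Or.inl ⟨hS n hn _ _ h.1, by rw [h.2, mul_assoc]⟩⟩
  · exact ⟨a, Or.inr ⟨hS n hn _ _ h.1, by rw [h.2, mul_assoc]⟩⟩

theorem Cn.smul (hS : InvS N S) {n : FreeGroup A} (hn : n ∈ N) {g g' : FreeGroup A}
    (h : Cn S g g') : Cn S (n * g) (n * g') := by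
  induction h with
  | refl => exact Cn.rfl
  | tail _ h ih => exact ih.trans (h.smul hS hn).cn

theorem Cn.const {X : Type} {f : FreeGroup A → X}
    (hf : ∀ g a, (g, a) ∈ S → f (g * FreeGroup.of a) = f g) {g g' : FreeGroup A}
    (h : Cn S g g') : f g' = f g := by
  induction h with
  | refl => rfl
  | tail _ h ih =>
    obtain ⟨a, h | h⟩ := h
    · rw [h.2, hf _ _ h.1, ih]
    · rw [← ih, h.2, hf _ _ h.1]

theorem cn_univ (g g' : FreeGroup A) : Cn Set.univ g g' := by
  have : ∀ g, Cn (Set.univ : Set (FreeGroup A × A)) 1 g := by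
    intro g
    induction g using ind_right with
    | h1 => exact Cn.rfl
    | h2 g a =>
      have : Adj Set.univ g (g * FreeGroup.of a) := ⟨a, Or.inl ⟨trivial, rfl⟩⟩
      exact ⟨fun h => h.trans this.cn, fun h => h.trans this.symm.cn⟩
  exact (this g).symm.trans (this g')

theorem cn_pre {s : ℕ → A × Bool} {c : FreeGroup A} {p n : ℕ}
    (h : ∀ q < n, (c * opre s (p + q), (s (p + q)).1) ∈ S) :
    Cn S (c * pre s p) (c * pre s (p + n)) := by
  induction n with
  | zero => exact Cn.rfl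
  | succ n ih =>
    refine (ih fun q hq => h q (by omega)).trans (Adj.cn ⟨(s (p + n)).1, ?_⟩)
    have h1 := h n (by omega)
    have h2 := opre_mul s (p + n)
    unfold opre at h1 h2
    cases hs : (s (p + n)).2
    · simp only [hs, Bool.false_eq_true, if_false] at h1 h2
      exact Or.inr ⟨h1, by rw [mul_assoc, ← Nat.add_assoc, h2]⟩
    · simp only [hs, if_true] at h1 h2
      exact Or.inl ⟨h1, by rw [mul_assoc, ← Nat.add_assoc, h2]⟩

/-- An invariant edge function has an invariant potential on a forest. -/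
theorem exists_potential (hS : InvS N S) (hfree : ∀ n ∈ N, ∀ g, Cn S g (n * g) → n = 1)
    (α : FreeGroup A → A → ℝ) (hα : ∀ n ∈ N, ∀ g a, α (n * g) a = α g a) :
    ∃ f : FreeGroup A → ℝ, (∀ n ∈ N, ∀ g, f (n * g) = f g) ∧
      ∀ g a, (g, a) ∈ S → f (g * FreeGroup.of a) = f g + α g a := by
  let St : Setoid (FreeGroup A) :=
    { r := fun g g' => ∃ n ∈ N, Cn S g (n * g')
      iseqv :=
        { refl := fun g => ⟨1, one_mem _, by rw [one_mul]; exact Cn.rfl⟩
          symm := fun ⟨n, hn, h⟩ => ⟨n⁻¹, inv_mem hn, by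
            simpa using (h.smul hS (inv_mem hn)).symm⟩
          trans := fun ⟨n, hn, h⟩ ⟨n', hn', h'⟩ => ⟨n * n', mul_mem hn hn', by
            rw [mul_assoc]; exact h.trans (h'.smul hS hn)⟩ } }
  have hex : ∀ g, ∃ n ∈ N, Cn S (Quotient.mk St g).out (n * g) := fun g => Quotient.mk_out (s := St) g
  choose ν hν1 hν2 using hex
  have uq : ∀ g, ∀ n ∈ N, Cn S (Quotient.mk St g).out (n * g) → n = ν g := by
    intro g n hn h
    have := hfree (n * (ν g)⁻¹) (mul_mem hn (inv_mem (hν1 g))) (ν g * g)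
      (by simpa [mul_assoc] using (hν2 g).symm.trans h)
    exact mul_inv_eq_one.1 this
  refine ⟨fun g => intA α (ν g * g), ?_, ?_⟩
  · intro n hn g
    have e : Quotient.mk St (n * g) = Quotient.mk St g :=
      Quotient.sound ⟨n, hn, Cn.rfl⟩
    have := uq g (ν (n * g) * n) (mul_mem (hν1 _) hn) (by
      rw [← e, mul_assoc]; exact hν2 _)
    simp only [← this, mul_assoc]
  · intro g a h
    have ad : Adj S g (g * FreeGroup.of a) := ⟨a, Or.inl ⟨h, rfl⟩⟩
    have e : Quotient.mk St (g * FreeGroup.of a) = Quotient.mk St g :=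
      Quotient.sound ⟨1, one_mem _, by rw [one_mul]; exact ad.symm.cn⟩
    have := uq (g * FreeGroup.of a) (ν g) (hν1 _) (by
      rw [e]; exact (hν2 g).trans (ad.smul hS (hν1 g)).cn)
    simp only [← this]
    rw [← mul_assoc, intA_of, hα _ (hν1 g)]

/-- Walks of a given length. -/
inductive Walk (S : Set (FreeGroup A × A)) : ℕ → FreeGroup A → FreeGroup A → Prop
  | nil (g : FreeGroup A) : Walk S 0 g g
  | cons {k : ℕ} {g g1 g' : FreeGroup A} : Adj S g g1 → Walk S k g1 g' → Walk S (k + 1) g g'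

theorem Walk.cn {k : ℕ} {g g' : FreeGroup A} (h : Walk S k g g') : Cn S g g' := by
  induction h with
  | nil => exact Cn.rfl
  | cons h _ ih => exact h.cn.trans ih

theorem Cn.walk {g g' : FreeGroup A} (h : Cn S g g') : ∃ k, Walk S k g g' := by
  induction h using Relation.ReflTransGen.head_induction_on with
  | refl => exact ⟨0, Walk.nil _⟩
  | head h _ ih => obtain ⟨k, hk⟩ := ih; exact ⟨k + 1, Walk.cons h hk⟩

theorem Walk.split {f : FreeGroup A → ℝ} {k : ℕ} {g g' : FreeGroup A} (h : Walk S k g g')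
    (hf : f g' < f g) : ∃ k1 k2 z z', k1 + k2 + 1 = k ∧ Walk S k1 g z ∧ Adj S z z' ∧
      f z' < f z ∧ Walk S k2 z' g' := by
  induction h with
  | nil => exact absurd hf (lt_irrefl _)
  | @cons k g g1 g' h h' ih =>
    by_cases h1 : f g1 < f g
    · exact ⟨0, k, g, g1, by omega, Walk.nil _, h, h1, h'⟩
    · obtain ⟨k1, k2, z, z', a1, a2, a3, a4, a5⟩ := ih (hf.trans_le (not_lt.1 h1))
      exact ⟨k1 + 1, k2, z, z', by omega, Walk.cons h a2, a3, a4, a5⟩

/-- A graph without first cohomology is a forest. -/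
theorem forest_of_h1 (h1 : ∀ α : FreeGroup A → A → ℝ, (∀ n ∈ N, ∀ g a, α (n * g) a = α g a) →
      ∀ n ∈ N, ∀ g, Cn S g (n * g) → intA α (n * g) = intA α g) :
    ∀ n ∈ N, ∀ g, Cn S g (n * g) → n = 1 := by
  classical
  suffices h : ∀ k, ∀ n ∈ N, ∀ g, Walk S k g (n * g) → n = 1 from
    fun n hn g hc => (hc.walk.elim fun k hk => h k n hn g hk)
  intro k
  induction k using Nat.strong_induction_on with
  | _ k ih =>
    intro n hn g hw
    generalize he : n * g = g' at hw
    cases hw with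
    | nil => exact mul_eq_right.1 he
    | @cons k _ g1 _ had hw =>
      subst he
      have fin : ∀ k1 k2, k1 + k2 + 1 = k → ∀ n' ∈ N, Walk S k1 g1 (n' * g1) →
          Walk S k2 (n' * g) (n * g) → n = 1 := by
        intro k1 k2 hk n' hn' w1 w2
        have := ih k1 (by omega) n' hn' g1 w1
        subst this
        rw [one_mul] at w2
        exact ih k2 (by omega) n hn g w2
      have key : ∀ (y : FreeGroup A) (a : A) (σ : ℝ), ∃ f : FreeGroup A → ℝ, f (n * g) = f g ∧
          f (y * FreeGroup.of a) = f y + σ ∧ ∀ z b, f (z * FreeGroup.of b) = f z ∨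
            (f (z * FreeGroup.of b) = f z + σ ∧ b = a ∧ ∃ n' ∈ N, z = n' * y) := by
        intro y a σ
        let α : FreeGroup A → A → ℝ := fun z b => if b = a ∧ ∃ n' ∈ N, z = n' * y then σ else 0
        refine ⟨intA α, h1 α ?_ n hn g (had.cn.trans hw.cn), ?_, ?_⟩
        · intro n hn g b
          simp only [α]
          congr 2
          apply propext
          constructor
          · rintro ⟨n', hn', e⟩
            exact ⟨n⁻¹ * n', mul_mem (inv_mem hn) hn', by rw [mul_assoc, ← e]; simp⟩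
          · rintro ⟨n', hn', e⟩
            exact ⟨n * n', mul_mem hn hn', by rw [mul_assoc, ← e]⟩
        · rw [intA_of]; congr 1; exact if_pos ⟨rfl, 1, one_mem _, by simp⟩
        · intro z b
          rw [intA_of]
          by_cases h : b = a ∧ ∃ n' ∈ N, z = n' * y
          · right; simp only [α]; rw [if_pos h]; exact ⟨rfl, h⟩
          · left; simp only [α]; rw [if_neg h, add_zero]
      obtain ⟨a, ⟨-, rfl⟩ | ⟨-, rfl⟩⟩ := had
      · obtain ⟨f, f1, f2, f3⟩ := key g a 1
        obtain ⟨k1, k2, z, z', a1, a2, ⟨b, a3⟩, a4, a5⟩ := hw.split (f := f) (by linarith)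
        rcases a3 with ⟨-, rfl⟩ | ⟨-, rfl⟩
        · rcases f3 z b with h | h <;> linarith [h]
        · rcases f3 z' b with h | ⟨-, rfl, n', hn', rfl⟩
          · linarith
          · exact fin k1 k2 a1 n' hn' (by rwa [mul_assoc] at a2) a5
      · obtain ⟨f, f1, f2, f3⟩ := key g1 a (-1)
        obtain ⟨k1, k2, z, z', a1, a2, ⟨b, a3⟩, a4, a5⟩ := hw.split (f := f) (by linarith)
        rcases a3 with ⟨-, rfl⟩ | ⟨-, rfl⟩
        · rcases f3 z b with h | ⟨-, rfl, n', hn', rfl⟩
          · linarith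
          · exact fin k1 k2 a1 n' hn' a2 (by rwa [mul_assoc] at a5)
        · rcases f3 z' b with h | h <;> linarith [h]

/-- Paths with a given number of blocks in the second piece. -/
def Alt (S1 S2 : Set (FreeGroup A × A)) : ℕ → FreeGroup A → FreeGroup A → Prop
  | 0, g, g' => Cn S1 g g'
  | k + 1, g, g' => ∃ y z, Cn S1 g y ∧ Cn S2 y z ∧ Alt S1 S2 k z g'

section
variable {S1 S2 : Set (FreeGroup A × A)}

theorem Alt.left {k : ℕ} {g g' g'' : FreeGroup A} (h : Cn S1 g g') (h' : Alt S1 S2 k g' g'') :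
    Alt S1 S2 k g g'' := by
  cases k with
  | zero => exact h.trans h'
  | succ k => obtain ⟨y, z, a1, a2, a3⟩ := h'; exact ⟨y, z, h.trans a1, a2, a3⟩

theorem Alt.right {k : ℕ} {g g' g'' : FreeGroup A} (h : Alt S1 S2 k g g') (h' : Cn S2 g' g'') :
    Alt S1 S2 (k + 1) g g'' := by
  induction k generalizing g with
  | zero => exact ⟨g', g'', h, h', Cn.rfl⟩
  | succ k ih => obtain ⟨y, z, a1, a2, a3⟩ := h; exact ⟨y, z, a1, a2, ih a3⟩

theorem Alt.cn {k : ℕ} {g g' : FreeGroup A} (h : Alt S1 S2 k g g') : Cn (S1 ∪ S2) g g' := by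
  induction k generalizing g with
  | zero => exact Cn.mono Set.subset_union_left h
  | succ k ih =>
    obtain ⟨y, z, a1, a2, a3⟩ := h
    exact ((a1.mono Set.subset_union_left).trans (a2.mono Set.subset_union_right)).trans (ih a3)

theorem Alt.smul (h1 : InvS N S1) (h2 : InvS N S2) {n : FreeGroup A} (hn : n ∈ N) {k : ℕ}
    {g g' : FreeGroup A} (h : Alt S1 S2 k g g') : Alt S1 S2 k (n * g) (n * g') := by
  induction k generalizing g with
  | zero => exact Cn.smul h1 hn h
  | succ k ih =>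
    obtain ⟨y, z, a1, a2, a3⟩ := h
    exact ⟨_, _, a1.smul h1 hn, a2.smul h2 hn, ih a3⟩

theorem Cn.alt {g g' : FreeGroup A} (h : Cn (S1 ∪ S2) g g') : ∃ k, Alt S1 S2 k g g' := by
  induction h using Relation.ReflTransGen.head_induction_on with
  | refl => exact ⟨0, Cn.rfl⟩
  | @head x y h _ ih =>
    obtain ⟨k, hk⟩ := ih
    have : Adj S1 x y ∨ Adj S2 x y := by
      obtain ⟨a, ⟨h | h, e⟩ | ⟨h | h, e⟩⟩ := h
      · exact Or.inl ⟨a, Or.inl ⟨h, e⟩⟩
      · exact Or.inr ⟨a, Or.inl ⟨h, e⟩⟩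
      · exact Or.inl ⟨a, Or.inr ⟨h, e⟩⟩
      · exact Or.inr ⟨a, Or.inr ⟨h, e⟩⟩
    rcases this with h | h
    · exact ⟨k, Alt.left h.cn hk⟩
    · exact ⟨k + 1, x, y, Cn.rfl, h.cn, hk⟩

theorem Alt.split {f d : FreeGroup A → ℝ} (hd : ∀ g, 0 ≤ d g)
    (f1 : ∀ g g', Cn S1 g g' → f g' = f g) (f2 : ∀ g g', Cn S2 g g' → f g' + d g' = f g + d g)
    {k : ℕ} {g g' : FreeGroup A} (h : Alt S1 S2 k g g') (hf : f g' < f g) :
    ∃ k1 k2 y z, k1 + k2 + 1 = k ∧ Alt S1 S2 k1 g y ∧ Cn S2 y z ∧ d z ≠ 0 ∧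
      Alt S1 S2 k2 z g' := by
  induction k generalizing g with
  | zero => exact absurd (f1 _ _ h) hf.ne
  | succ k ih =>
    obtain ⟨y, z, a1, a2, a3⟩ := h
    by_cases hz : d z = 0
    · have := f1 _ _ a1
      have := f2 _ _ a2
      have := hd y
      obtain ⟨k1, k2, y', z', b1, b2, b3, b4, b5⟩ := ih a3 (by linarith)
      exact ⟨k1 + 1, k2, y', z', by omega, ⟨y, z, a1, a2, b2⟩, b3, b4, b5⟩
    · exact ⟨0, k, y, z, by omega, a1, a2, hz, a3⟩

open Classical in
/-- Indicator of the orbit of a component. -/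
noncomputable def ind (N : Subgroup (FreeGroup A)) (S0 : Set (FreeGroup A × A))
    (y g : FreeGroup A) : ℝ := if ∃ n ∈ N, Cn S0 y (n * g) then 1 else 0

/-- Two pieces glued along a forest whose nerve has no cycles. -/
theorem two_piece {S0 : Set (FreeGroup A × A)} {N2 : Subgroup (FreeGroup A)}
    (i1 : InvS N S1) (i2 : InvS N S2) (s1 : S0 ⊆ S1) (s2 : S0 ⊆ S2)
    (p1 : ∀ n ∈ N, ∀ g, Cn S1 g (n * g) → n ∈ N2) (p2 : ∀ n ∈ N, ∀ g, Cn S2 g (n * g) → n ∈ N2)
    (hD : ∀ y, ∃ f : FreeGroup A → ℝ, (∀ g a, (g, a) ∈ S1 → f (g * FreeGroup.of a) = f g) ∧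
      (∀ g a, (g, a) ∈ S2 → f (g * FreeGroup.of a) + ind N S0 y (g * FreeGroup.of a) =
        f g + ind N S0 y g) ∧
      ∀ n ∈ N, ∀ g, Cn (S1 ∪ S2) g (n * g) → f (n * g) = f g) :
    ∀ n ∈ N, ∀ g, Cn (S1 ∪ S2) g (n * g) → n ∈ N2 := by
  suffices h : ∀ k, ∀ n ∈ N, ∀ g, Alt S1 S2 k g (n * g) → n ∈ N2 from
    fun n hn g hc => (hc.alt.elim fun k hk => h k n hn g hk)
  intro k
  induction k using Nat.strong_induction_on with
  | _ k ih =>
    intro n hn g h
    cases k with
    | zero => exact p1 n hn g h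
    | succ k =>
      have hc := h.cn
      obtain ⟨y, z, a1, a2, a3⟩ := h
      have fin : ∀ k2 ≤ k, ∀ z', Alt S1 S2 k2 z' (n * g) → ∀ n' ∈ N, Cn S0 y (n' * z') →
          n' ∈ N2 → n ∈ N2 := by
        intro k2 hk z' b1 n' hn' b2 b3
        have := ih k2 (by omega) (n' * n) (mul_mem hn' hn) g (by
          rw [mul_assoc]; exact Alt.left (a1.trans (b2.mono s1)) (b1.smul i1 i2 hn'))
        exact (N2.mul_mem_cancel_left b3).1 this
      by_cases hz : ∃ n' ∈ N, Cn S0 y (n' * z)
      · obtain ⟨n', hn', b2⟩ := hz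
        exact fin k le_rfl z a3 n' hn' b2 (p2 n' hn' z (a2.symm.trans (b2.mono s2)))
      · obtain ⟨f, f1, f2, f3⟩ := hD y
        have g1 : ∀ g g', Cn S1 g g' → f g' = f g := fun g g' h => h.const f1
        have g2 : ∀ g g', Cn S2 g g' → f g' + ind N S0 y g' = f g + ind N S0 y g :=
          fun g g' h => h.const (f := fun g => f g + ind N S0 y g) f2
        have e1 := g1 _ _ a1
        have e2 := g2 _ _ a2
        have e3 := f3 n hn g hc
        have e4 : ind N S0 y y = 1 := if_pos ⟨1, one_mem _, by rw [one_mul]; exact Cn.rfl⟩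
        have e5 : ind N S0 y z = 0 := if_neg hz
        obtain ⟨k1, k2, y', z', b1, b2, b3, b4, b5⟩ := a3.split (d := ind N S0 y)
          (fun g => by unfold ind; split_ifs <;> norm_num) g1 g2 (by linarith)
        have : ∃ n' ∈ N, Cn S0 y (n' * z') := by
          by_contra hh
          exact b4 (if_neg hh)
        obtain ⟨n', hn', b6⟩ := this
        refine fin k2 (by omega) z' b5 n' hn' b6 ?_
        have c1 : Cn S2 z' (n'⁻¹ * z) := by
          have := ((b6.mono s2).symm.trans a2).smul i2 (inv_mem hn')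
          simpa using this
        exact N2.inv_mem_iff.1
          (ih (k1 + 1) (by omega) n'⁻¹ (inv_mem hn') z (b2.right (b3.trans c1)))

end

end Pool.Agent.P.MP_caa3d2_al
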