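import Mathlib

/-!
Words, elementary moves and derivations with a cost.
-/

set_option autoImplicit false

namespace Pool.Agent.P.MP_caa3d2_al

open FreeGroup hiding map_mul map_one map_inv

/-- Words over an alphabet with formal inverses. -/
abbrev Wd (E : Type) : Type := List (E × Bool)

variable {E E' : Type}

/-- Words that may be inserted or deleted. -/
def Ins (R : Set (Wd E)) (x : Wd E) : Prop :=
  (∃ e b, x = [(e, b), (e, !b)]) ∨ x ∈ R ∨ invRev x ∈ R

/-- One elementary move. -/
def Mv (R : Set (Wd E)) (w w' : Wd E) : Prop :=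
  ∃ a x b, Ins R x ∧ ((w = a ++ b ∧ w' = a ++ x ++ b) ∨ (w = a ++ x ++ b ∧ w' = a ++ b))

/-- Derivations with at most `n` moves. -/
inductive Der (R : Set (Wd E)) : ℕ → Wd E → Wd E → Prop
  | refl (n : ℕ) (w : Wd E) : Der R n w w
  | step {n : ℕ} {w w' w'' : Wd E} : Mv R w w' → Der R n w' w'' → Der R (n + 1) w w''

variable {R : Set (Wd E)}

theorem Mv.symm {w w' : Wd E} (h : Mv R w w') : Mv R w' w := by
  obtain ⟨a, x, b, hx, h | h⟩ := h
  · exact ⟨a, x, b, hx, Or.inr ⟨h.2, h.1⟩⟩
  · exact ⟨a, x, b, hx, Or.inl ⟨h.2, h.1⟩⟩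

theorem Der.mono {n m : ℕ} {w w' : Wd E} (h : Der R n w w') (hnm : n ≤ m) : Der R m w w' := by
  induction h generalizing m with
  | refl n w => exact Der.refl _ _
  | step h1 _ ih =>
    obtain ⟨k, rfl⟩ : ∃ k, m = k + 1 := ⟨m - 1, by omega⟩
    exact Der.step h1 (ih (by omega))

theorem Der.trans {n m : ℕ} {w w' w'' : Wd E} (h : Der R n w w') (h' : Der R m w' w'') :
    Der R (n + m) w w'' := by
  induction h with
  | refl n w => exact h'.mono (by omega)
  | @step n _ _ _ h1 _ ih =>
    have : n + 1 + m = (n + m) + 1 := by omega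
    rw [this]
    exact Der.step h1 (ih h')

theorem Der.single {w w' : Wd E} (h : Mv R w w') : Der R 1 w w' :=
  Der.step h (Der.refl 0 _)

theorem Der.symm {n : ℕ} {w w' : Wd E} (h : Der R n w w') : Der R n w' w := by
  induction h with
  | refl n w => exact Der.refl _ _
  | step h1 _ ih => exact ih.trans (Der.single h1.symm)

theorem Der.hom {R' : Set (Wd E')} (F : Wd E → Wd E') (hF : ∀ a b, F (a ++ b) = F a ++ F b)
    (hI : ∀ x, Ins R x → Ins R' (F x) ∨ F x = []) {n : ℕ} {w w' : Wd E} (h : Der R n w w') :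
    Der R' n (F w) (F w') := by
  induction h with
  | refl n w => exact Der.refl _ _
  | step h1 _ ih =>
    obtain ⟨a, x, b, hx, h | h⟩ := h1
    · rcases hI x hx with h2 | h2
      · refine Der.step ⟨F a, F x, F b, h2, Or.inl ⟨?_, rfl⟩⟩ ?_
        · rw [h.1, hF]
        · rw [h.2, hF, hF] at ih; exact ih
      · rw [h.2, hF, hF, h2, List.append_nil, ← hF, ← h.1] at ih
        exact ih.mono (by omega)
    · rcases hI x hx with h2 | h2
      · refine Der.step ⟨F a, F x, F b, h2, Or.inr ⟨?_, rfl⟩⟩ ?_
        · rw [h.1, hF, hF]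
        · rw [h.2, hF] at ih; exact ih
      · rw [h.1, hF, hF, h2, List.append_nil, ← hF, ← h.2]
        exact ih.mono (by omega)

theorem Der.ctx {n : ℕ} {w w' : Wd E} (h : Der R n w w') (a b : Wd E) :
    Der R n (a ++ w ++ b) (a ++ w' ++ b) := by
  induction h with
  | refl n w => exact Der.refl _ _
  | step h1 _ ih =>
    refine Der.step ?_ ih
    obtain ⟨a', x, b', hx, h | h⟩ := h1
    · exact ⟨a ++ a', x, b' ++ b, hx, Or.inl ⟨by simp [h.1], by simp [h.2]⟩⟩
    · exact ⟨a ++ a', x, b' ++ b, hx, Or.inr ⟨by simp [h.1], by simp [h.2]⟩⟩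

theorem Der.append {n m : ℕ} {w w' v v' : Wd E} (h : Der R n w w') (h' : Der R m v v') :
    Der R (n + m) (w ++ v) (w' ++ v') := by
  have h1 := h.ctx [] v
  have h2 := h'.ctx w' []
  simp only [List.nil_append, List.append_nil] at h1 h2
  exact h1.trans h2

theorem Der.length_le {K : ℕ} (hK : ∀ x ∈ R, x.length ≤ K) {n : ℕ} {w w' : Wd E}
    (h : Der R n w w') : w'.length ≤ w.length + (K + 2) * n := by
  induction h with
  | refl n w => omega
  | @step n w w' w'' h1 _ ih =>
    obtain ⟨a, x, b, hx, h | h⟩ := h1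
    · have hx' : x.length ≤ K + 2 := by
        rcases hx with ⟨e, c, rfl⟩ | hx | hx
        · simp
        · have := hK x hx; omega
        · have := hK _ hx; rw [invRev_length] at this; omega
      have : w'.length = w.length + x.length := by rw [h.1, h.2]; simp; omega
      rw [Nat.mul_succ]; omega
    · have : w'.length ≤ w.length := by rw [h.1, h.2]; simp
      rw [Nat.mul_succ]; omega

theorem Der.sound {G : Type*} [Group G] (f : FreeGroup E →* G) (hf : ∀ x ∈ R, f (mk x) = 1)
    {n : ℕ} {w w' : Wd E} (h : Der R n w w') : f (mk w) = f (mk w') := by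
  induction h with
  | refl n w => rfl
  | step h1 _ ih =>
    rw [← ih]
    obtain ⟨a, x, b, hx, h⟩ := h1
    have hx' : f (mk x) = 1 := by
      rcases hx with ⟨e, c, rfl⟩ | hx | hx
      · have : (mk [(e, c), (e, !c)] : FreeGroup E) = 1 := by
          rw [one_eq_mk]; exact Quot.sound (Red.Step.cons_not)
        rw [this, map_one]
      · exact hf x hx
      · have := hf _ hx
        rw [← inv_mk, map_inv, inv_eq_one] at this; exact this
    rcases h with h | h <;> rw [h.1, h.2] <;> simp only [← mul_mk, map_mul, hx', mul_one]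

theorem Der.of_red {w w' : Wd E} (h : Red w w') : Der R (w.length - w'.length) w w' := by
  induction h with
  | refl => exact Der.refl _ _
  | @tail b c h1 h2 ih =>
    have l1 := h2.length
    have l2 := Red.length_le h1
    have : Mv R b c := by
      cases h2 with
      | @not L₁ L₂ x b => exact ⟨L₁, [(x, b), (x, !b)], L₂, Or.inl ⟨x, b, rfl⟩, Or.inr ⟨by simp, rfl⟩⟩
    exact (ih.trans (Der.single this)).mono (by omega)

theorem Der.flatMap {k : ℕ} (σ : E × Bool → Wd E) (w : Wd E)
    (h : ∀ x ∈ w, Der R k [x] (σ x)) : Der R (k * w.length) w (w.flatMap σ) := by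
  induction w with
  | nil => exact Der.refl _ _
  | cons x w ih =>
    have h1 := (h x (by simp)).append (ih fun y hy => h y (by simp [hy]))
    simp only [List.length_cons, List.flatMap_cons]
    exact h1.mono (by rw [Nat.mul_succ]; omega)

theorem Der.cancel (w : Wd E) : Der R w.length (w ++ invRev w) [] := by
  induction w with
  | nil => exact Der.refl _ _
  | cons x w ih =>
    have h1 := ih.ctx [x] [(x.1, !x.2)]
    have h2 : Mv R ([x] ++ [] ++ [(x.1, !x.2)]) [] :=
      ⟨[], [(x.1, x.2), (x.1, !x.2)], [], Or.inl ⟨_, _, rfl⟩, Or.inr ⟨by simp, rfl⟩⟩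
    have h3 := h1.trans (Der.single h2)
    have : x :: w ++ invRev (x :: w) = [x] ++ (w ++ invRev w) ++ [(x.1, !x.2)] := by
      simp [invRev]
    rw [this]; simpa using h3

theorem Der.invRev {n : ℕ} {w w' : Wd E} (h : Der R n w w') :
    Der R n (invRev w) (invRev w') := by
  induction h with
  | refl n w => exact Der.refl _ _
  | step h1 _ ih =>
    refine Der.step ?_ ih
    obtain ⟨a, x, b, hx, h⟩ := h1
    have hx' : Ins R (FreeGroup.invRev x) := by
      rcases hx with ⟨e, c, rfl⟩ | hx | hx
      · exact Or.inl ⟨e, c, by simp [FreeGroup.invRev]⟩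
      · exact Or.inr (Or.inr (by rwa [invRev_invRev]))
      · exact Or.inr (Or.inl hx)
    refine ⟨FreeGroup.invRev b, FreeGroup.invRev x, FreeGroup.invRev a, hx', ?_⟩
    rcases h with h | h
    · left; rw [h.1, h.2]; simp
    · right; rw [h.1, h.2]; simp

/-- A word all of whose letters lie in `S`. -/
def Over (S : Set E) (w : Wd E) : Prop := ∀ x ∈ w, x.1 ∈ S

theorem over_invRev {S : Set E} {w : Wd E} (h : Over S w) : Over S (invRev w) := by
  intro x hx
  simp only [invRev, List.mem_reverse, List.mem_map] at hx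
  obtain ⟨y, hy, rfl⟩ := hx
  exact h y hy

theorem mk_mem_closure {S : Set E} {w : Wd E} (h : Over S w) :
    mk w ∈ Subgroup.closure (FreeGroup.of '' S) := by
  induction w with
  | nil => exact one_mem _
  | cons x w ih =>
    have : mk (x :: w) = mk [x] * mk w := by rw [mul_mk]; rfl
    rw [this]
    refine mul_mem ?_ (ih fun y hy => h y (by simp [hy]))
    have hx : FreeGroup.of x.1 ∈ Subgroup.closure (FreeGroup.of '' S) :=
      Subgroup.subset_closure ⟨x.1, h x (by simp), rfl⟩
    obtain ⟨e, b⟩ := x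
    cases b
    · have : (mk [(e, false)] : FreeGroup E) = (FreeGroup.of e)⁻¹ := by
        rw [FreeGroup.of, inv_mk]; simp [invRev]
      rw [this]; exact inv_mem hx
    · exact hx

theorem exists_word_of_mem_closure {S : Set E} {g : FreeGroup E}
    (h : g ∈ Subgroup.closure (FreeGroup.of '' S)) : ∃ w, Over S w ∧ mk w = g := by
  induction h using Subgroup.closure_induction with
  | mem x hx =>
    obtain ⟨e, he, rfl⟩ := hx
    exact ⟨[(e, true)], by intro y hy; simp at hy; rw [hy]; exact he, rfl⟩
  | one => exact ⟨[], by intro y hy; simp at hy, rfl⟩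
  | mul x y _ _ hx hy =>
    obtain ⟨u, hu, rfl⟩ := hx
    obtain ⟨v, hv, rfl⟩ := hy
    refine ⟨u ++ v, ?_, mul_mk.symm⟩
    intro y hy
    rcases List.mem_append.1 hy with h | h
    · exact hu y h
    · exact hv y h
  | inv x _ hx =>
    obtain ⟨u, hu, rfl⟩ := hx
    exact ⟨invRev u, over_invRev hu, inv_mk.symm⟩

/-- If two words are freely equal, the first reduces to a word over the letters of the second. -/
theorem der_of_mk_eq {S : Set E} {w u : Wd E} (hu : Over S u) (h : mk w = mk u) :
    ∃ v, Over S v ∧ Der R w.length w v := by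
  obtain ⟨v, h1, h2⟩ := Red.exact.1 h
  refine ⟨v, fun x hx => hu x ((Red.sublist h2).subset hx), (Der.of_red h1).mono (by omega)⟩

/-- The group presented by a set of relator words. -/
abbrev Gp (R : Set (Wd E)) : Type := PresentedGroup (mk '' R)

/-- The canonical map onto the presented group. -/
def pm (R : Set (Wd E)) : FreeGroup E →* Gp R := PresentedGroup.mk _

theorem pm_rel {x : Wd E} (hx : x ∈ R) : pm R (mk x) = 1 :=
  PresentedGroup.one_of_mem ⟨x, hx, rfl⟩

theorem pm_surjective (R : Set (Wd E)) : Function.Surjective (pm R) :=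
  PresentedGroup.mk_surjective _

theorem Der.pm_eq {n : ℕ} {w w' : Wd E} (h : Der R n w w') : pm R (mk w) = pm R (mk w') :=
  h.sound _ fun _ hx => pm_rel hx

/-- A homomorphism killing the relators factors through the presented group. -/
theorem exists_lift {G : Type*} [Group G] (f : FreeGroup E →* G) (hf : ∀ x ∈ R, f (mk x) = 1) :
    ∃ g : Gp R →* G, ∀ y, g (pm R y) = f y := by
  refine ⟨QuotientGroup.lift _ f ?_, fun y => rfl⟩
  intro y hy
  have : Subgroup.normalClosure (mk '' R) ≤ f.ker :=
    Subgroup.normalClosure_le_normal (by rintro _ ⟨x, hx, rfl⟩; exact hf x hx)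
  exact this hy

end Pool.Agent.P.MP_caa3d2_al
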